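import Pool.Agent.FAN2.StC

/-!
# FAN2, block C: CAL, the interface (helper83)
-/

set_option autoImplicit false

open MeasureTheory Set

namespace Pool.Agent.FAN

private theorem cal_ev_exp (a K : ℝ) (ha : 0 < a) :
    ∀ᶠ L in Filter.atTop, K ≤ Real.exp (a * L) :=
  (Real.tendsto_exp_atTop.comp
    (Filter.Tendsto.const_mul_atTop ha Filter.tendsto_id)).eventually_ge_atTop K

private theorem cal_ev_lin (a b : ℝ) (ha : 0 < a) :
    ∀ᶠ L in Filter.atTop, 1 + b * L ≤ Real.exp (a * L) := by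
  filter_upwards [Filter.eventually_ge_atTop (0 : ℝ), Filter.eventually_ge_atTop (4 * b / a ^ 2)]
    with L h0 h1
  have h2 : 4 * b ≤ L * a ^ 2 := by
    rwa [div_le_iff₀ (by positivity)] at h1
  have h3 : a * L / 2 + 1 ≤ Real.exp (a * L / 2) := Real.add_one_le_exp _
  have h4 : Real.exp (a * L) = Real.exp (a * L / 2) * Real.exp (a * L / 2) := by
    rw [← Real.exp_add]; ring_nf
  have h5 : 0 ≤ a * L / 2 + 1 := by positivity
  have h6 : (a * L / 2 + 1) * (a * L / 2 + 1) ≤ Real.exp (a * L / 2) * Real.exp (a * L / 2) :=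
    mul_le_mul h3 h3 h5 (h5.trans h3)
  rw [h4]
  refine le_trans ?_ h6
  have h7 : 0 ≤ a * L := by positivity
  have h8 : 4 * b * L ≤ L * a ^ 2 * L := mul_le_mul_of_nonneg_right h2 h0
  nlinarith

private theorem cal_small (a e c₃ C L : ℝ) (hc₃ : 0 < c₃)
    (h : 2 * C / c₃ ≤ Real.exp ((e - a) * L)) :
    C * Real.exp (a * L) ≤ c₃ / 2 * Real.exp (e * L) := by
  rw [div_le_iff₀ hc₃] at h
  have g2 : Real.exp (e * L) = Real.exp ((e - a) * L) * Real.exp (a * L) := by
    rw [← Real.exp_add]; congr 1; ring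
  have g3 := mul_le_mul_of_nonneg_right h (Real.exp_pos (a * L)).le
  rw [g2]
  calc C * Real.exp (a * L) = 1 / 2 * (2 * C * Real.exp (a * L)) := by ring
    _ ≤ 1 / 2 * (Real.exp ((e - a) * L) * c₃ * Real.exp (a * L)) :=
        mul_le_mul_of_nonneg_left g3 (by norm_num)
    _ = _ := by ring

private theorem cal_comb (c₃ E C A B P Q V : ℝ) (h : 2 * c₃ * E ≤ V)
    (h5 : V ≤ C * (A + B + P * Q)) (hA : C * A ≤ c₃ / 2 * E) (hB : C * B ≤ c₃ / 2 * E) :
    c₃ * E ≤ C * (P * Q) := by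
  have k1 : C * (A + B + P * Q) = C * A + C * B + C * (P * Q) := by ring
  rw [k1] at h5
  linarith

theorem c_CAL (h1 : Sc_RAM) (h2 : Sc_RLB) (h3 : Sc_PAR) : Sc_CAL := by
  intro U G c C hc hC hnn hmono hanti hlb hdbl hfan hhit γ hγ
  have hU : UHyp U c C := ⟨hc, hC, hnn, hmono, hanti, hlb, hdbl, hfan⟩
  obtain ⟨ξ, ω, δ, hξ0, hξ1, hω0, hδ0, hδ1, he1, he2, he3⟩ := h3 γ hγ
  obtain ⟨c₃, hc₃, M₀, hM₀, hR⟩ := h2 U c C hU δ hδ0 hδ1
  have hC0 : 0 < C := lt_of_lt_of_le one_pos hC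
  set S0 : ℝ := √(2 * ξ * ω) with hS0
  set e : ℝ := 2 * (1 - δ) ^ 2 * S0 - ξ with he
  have hδ2 : 0 < 1 - (1 - δ) ^ 2 := by nlinarith
  have hlogM : 0 ≤ Real.log M₀ := Real.log_nonneg hM₀
  -- the conditions on `L`
  have E3 : ∀ᶠ L in Filter.atTop, Real.log M₀ ≤ (1 - (1 - δ) ^ 2) * ξ * L := by
    have hp : 0 < (1 - (1 - δ) ^ 2) * ξ := mul_pos hδ2 hξ0
    exact (Filter.Tendsto.const_mul_atTop hp Filter.tendsto_id).eventually_ge_atTop _
  have E4 := cal_ev_exp (e - (ξ - 1 + 2 * ω)) (2 * C / c₃) (by linarith)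
  have E5 := cal_ev_exp (e - ω) (2 * C / c₃) (by linarith)
  have E6 := cal_ev_lin ((e - γ) / 2) (2 * ω) (by linarith)
  have E7 := cal_ev_lin ((e - γ) / 2) ξ (by linarith)
  have key : ∀ᶠ L in Filter.atTop, c₃ * Real.exp (γ * L) ≤ C * G (C * Real.exp L) := by
    filter_upwards [Filter.eventually_ge_atTop (0 : ℝ), E3, E4, E5, E6, E7]
      with L l0 l3 l4 l5 l6 l7
    -- the parameters
    have s0 : 0 < Real.exp (-(2 * ω * L)) := Real.exp_pos _
    have s1 : Real.exp (-(2 * ω * L)) ≤ 1 := by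
      rw [Real.exp_le_one_iff]
      have : 0 ≤ 2 * ω * L := by positivity
      linarith
    have hξL : 0 ≤ ξ * L := by positivity
    have N1 : 1 ≤ Real.exp (ξ * L) := Real.one_le_exp hξL
    have Nn : Real.exp (ξ * L) ≤ Real.exp L := by
      rw [Real.exp_le_exp]; nlinarith
    have hX : (1 - δ) ^ 2 * (ξ * L) ≤ ξ * L - Real.log M₀ := by nlinarith
    have hX0 : 0 ≤ (1 - δ) ^ 2 * (ξ * L) := by positivity
    have NM : M₀ ≤ Real.exp (ξ * L) := by
      rw [← Real.log_le_iff_le_exp (by linarith)]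
      linarith
    have r1 := hR _ _ s0 s1 NM
    have e1 : Real.log (Real.exp (ξ * L) / M₀) = ξ * L - Real.log M₀ := by
      rw [Real.log_div (Real.exp_pos _).ne' (by linarith), Real.log_exp]
    have e2 : Real.log (1 / Real.exp (-(2 * ω * L))) = 2 * ω * L := by
      rw [one_div, Real.log_inv, Real.log_exp, neg_neg]
    rw [e1, e2] at r1
    have q1 : (1 - δ) * S0 * L ≤ √((ξ * L - Real.log M₀) * (2 * ω * L)) := by
      apply Real.le_sqrt_of_sq_le
      have q2 : ((1 - δ) * S0 * L) ^ 2 = (1 - δ) ^ 2 * (ξ * L) * (2 * ω * L) := by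
        have q3 : S0 ^ 2 = 2 * ξ * ω := Real.sq_sqrt (by positivity)
        calc ((1 - δ) * S0 * L) ^ 2 = (1 - δ) ^ 2 * S0 ^ 2 * L ^ 2 := by ring
          _ = _ := by rw [q3]; ring
      rw [q2]
      exact mul_le_mul_of_nonneg_right hX (by positivity)
    have r2 : c₃ * Real.exp (2 * (1 - δ) ^ 2 * S0 * L) ≤
        Rf U (Real.exp (-(2 * ω * L))) (Real.exp (ξ * L)) := by
      refine le_trans (mul_le_mul_of_nonneg_left (Real.exp_le_exp.2 ?_) hc₃.le) r1
      have q4 : 0 ≤ 2 * (1 - δ) := by linarith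
      have q5 := mul_le_mul_of_nonneg_left q1 q4
      calc 2 * (1 - δ) ^ 2 * S0 * L = 2 * (1 - δ) * ((1 - δ) * S0 * L) := by ring
        _ ≤ _ := q5
    have r3 := ((h1 U c C hU _ s0 s1).2.1 (Real.exp (ξ * L)) (Real.exp_pos _)).2.1
    have r4 : 2 * c₃ * Real.exp (e * L) ≤
        U (Real.exp (-(2 * ω * L))) (Real.exp (ξ * L)) := by
      have t1 : Real.exp (2 * (1 - δ) ^ 2 * S0 * L) = Real.exp (e * L) * Real.exp (ξ * L) := by
        rw [← Real.exp_add]; congr 1; rw [he]; ring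
      have t2 := r2.trans r3
      rw [t1] at t2
      have t3 : 2 * c₃ * Real.exp (e * L) * Real.exp (ξ * L) ≤
          U (Real.exp (-(2 * ω * L))) (Real.exp (ξ * L)) * Real.exp (ξ * L) := by
        calc 2 * c₃ * Real.exp (e * L) * Real.exp (ξ * L)
            = 2 * (c₃ * (Real.exp (e * L) * Real.exp (ξ * L))) := by ring
          _ ≤ 2 * _ := mul_le_mul_of_nonneg_left t2 (by norm_num)
          _ = _ := by ring
      exact le_of_mul_le_mul_right t3 (Real.exp_pos _)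
    have r5 := hhit _ _ _ s0 s1 N1 Nn
    rw [e2, Real.log_exp] at r5
    have f1 : Real.exp (ξ * L) / (Real.exp L * Real.exp (-(2 * ω * L))) =
        Real.exp ((ξ - 1 + 2 * ω) * L) := by
      rw [← Real.exp_add, ← Real.exp_sub]; congr 1; ring
    have f2 : 1 / √(Real.exp (-(2 * ω * L))) = Real.exp (ω * L) := by
      have f3 : √(Real.exp (-(2 * ω * L))) = Real.exp (-(ω * L)) := by
        rw [show Real.exp (-(2 * ω * L)) = Real.exp (-(ω * L)) ^ 2 by
          rw [← Real.exp_nat_mul]; congr 1; push_cast; ring]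
        exact Real.sqrt_sq (Real.exp_pos _).le
      rw [f3, one_div, ← Real.exp_neg, neg_neg]
    rw [f1, f2] at r5
    have g1 := cal_small (ξ - 1 + 2 * ω) e c₃ C L hc₃ l4
    have g4 := cal_small ω e c₃ C L hc₃ l5
    have r6 : c₃ * Real.exp (e * L) ≤
        C * ((1 + 2 * ω * L) * (1 + ξ * L) * G (C * Real.exp L)) :=
      cal_comb c₃ _ C _ _ _ _ _ r4 r5 g1 g4
    have hP0 : 0 < (1 + 2 * ω * L) * (1 + ξ * L) := by positivity
    have hP1 : (1 + 2 * ω * L) * (1 + ξ * L) ≤ Real.exp ((e - γ) * L) := by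
      have p1 : Real.exp ((e - γ) * L) =
          Real.exp ((e - γ) / 2 * L) * Real.exp ((e - γ) / 2 * L) := by
        rw [← Real.exp_add]; congr 1; ring
      rw [p1]
      exact mul_le_mul l6 l7 (by positivity) (Real.exp_pos _).le
    have hG : 0 ≤ G (C * Real.exp L) := by
      by_contra hneg
      push Not at hneg
      have w1 : (1 + 2 * ω * L) * (1 + ξ * L) * G (C * Real.exp L) < 0 :=
        mul_neg_of_pos_of_neg hP0 hneg
      have w2 : C * ((1 + 2 * ω * L) * (1 + ξ * L) * G (C * Real.exp L)) < 0 :=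
        mul_neg_of_pos_of_neg hC0 w1
      have w3 : 0 < c₃ * Real.exp (e * L) := mul_pos hc₃ (Real.exp_pos _)
      linarith
    have r8 : c₃ * Real.exp (e * L) ≤ C * (Real.exp ((e - γ) * L) * G (C * Real.exp L)) :=
      r6.trans (mul_le_mul_of_nonneg_left (mul_le_mul_of_nonneg_right hP1 hG) hC0.le)
    have t4 : Real.exp (e * L) = Real.exp (γ * L) * Real.exp ((e - γ) * L) := by
      rw [← Real.exp_add]; congr 1; ring
    rw [t4] at r8
    have r9 : c₃ * Real.exp (γ * L) * Real.exp ((e - γ) * L) ≤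
        C * G (C * Real.exp L) * Real.exp ((e - γ) * L) := by
      calc c₃ * Real.exp (γ * L) * Real.exp ((e - γ) * L)
          = c₃ * (Real.exp (γ * L) * Real.exp ((e - γ) * L)) := by ring
        _ ≤ _ := r8
        _ = _ := by ring
    exact le_of_mul_le_mul_right r9 (Real.exp_pos _)
  obtain ⟨L₀, hL₀⟩ := Filter.eventually_atTop.1 key
  refine ⟨c₃ / C / C ^ γ, by positivity, C * Real.exp L₀, fun n hn => ?_⟩
  have hn0 : 0 < n := lt_of_lt_of_le (by positivity) hn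
  have hnC : 0 < n / C := div_pos hn0 hC0
  have hL : L₀ ≤ Real.log (n / C) := by
    rw [Real.le_log_iff_exp_le hnC, le_div_iff₀ hC0]
    linarith
  have k1 := hL₀ _ hL
  rw [Real.exp_log hnC, mul_div_cancel₀ n hC0.ne'] at k1
  have k2 : Real.exp (γ * Real.log (n / C)) = n ^ γ / C ^ γ := by
    rw [mul_comm, ← Real.rpow_def_of_pos hnC, Real.div_rpow hn0.le hC0.le]
  rw [k2] at k1
  have k3 : c₃ / C / C ^ γ * n ^ γ = (c₃ * (n ^ γ / C ^ γ)) / C := by ring
  rw [k3, div_le_iff₀ hC0]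
  linarith

end Pool.Agent.FAN
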