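import Pool.Agent.FAN2.StC

/-!
# FAN2, block C, module ERR (helper50): the error term
-/

set_option autoImplicit false

open MeasureTheory Set

namespace Pool.Agent.FAN

theorem c_ERR (h1 : Sc_RAM) : Sc_ERR := by
  intro U c C hU
  have hC := hU.C1
  refine ⟨64 * C, by linarith, ?_⟩
  intro s M hs hs1 hM
  have hM1 : 1 ≤ M := by linarith
  have hM0 : 0 < M := by linarith
  obtain ⟨-, -, h2, -, -⟩ := (h1 U c C hU s hs hs1).2.1 M hM0
  have h3 : U s (M + C) ≤ U s (2 * M) :=
    hU.mono s hs hs1 (mem_Ici.2 (by linarith)) (mem_Ici.2 (by linarith)) (by linarith)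
  have h4 := hU.dbl s M hs hs1 hM0.le
  have h5 := hU.dbl s (M / 2) hs hs1 (by linarith)
  have e : 2 * (M / 2) = M := by ring
  rw [e] at h5
  have h6 : U s (M + C) ≤ 4 * U s (M / 2) := by linarith
  have h7 := hU.nn s (M / 2) hs hs1 (by linarith)
  calc C * (M + 1) * U s (M + C) ≤ C * (M + 1) * (4 * U s (M / 2)) :=
        mul_le_mul_of_nonneg_left h6 (by positivity)
    _ ≤ C * (2 * M) * (4 * U s (M / 2)) :=
        mul_le_mul_of_nonneg_right (mul_le_mul_of_nonneg_left (by linarith) (by linarith))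
          (by linarith)
    _ = 64 * C * (M / 8 * U s (M / 2)) := by ring
    _ ≤ 64 * C * Rf U s M := mul_le_mul_of_nonneg_left h2 (by linarith)

end Pool.Agent.FAN
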