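import Pool.Agent.FAN2.StC

/-!
# FAN2, block C, module IND: the lower bound, all orders (helper63, in parallel to helper56)
-/

set_option autoImplicit false

open MeasureTheory Set

namespace Pool.Agent.FAN

theorem c_IND (hRAM : Sc_RAM) (hSTP : Sc_STP) (hLOG : Sc_LOG) (hYST : Sc_YST) : Sc_IND := by
  intro U c C hU η hη hη1
  obtain ⟨M₀, hM₀, hstp⟩ := hSTP U c C hU η hη hη1
  have hc := hU.c0
  have hη0 : 0 < 1 - η := by linarith
  refine ⟨c / 2, by positivity, M₀, hM₀, ?_⟩
  intro k
  induction k with
  | zero =>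
    intro s M hs hs1 hM
    obtain ⟨-, h2, -⟩ := hRAM U c C hU s hs hs1
    have hM0 : 0 < M := by linarith
    have h3 := (h2 M hM0).1
    have h4 := hU.lb s hs hs1
    have h5 : c ≤ c / √s := by
      rw [le_div_iff₀ (Real.sqrt_pos.mpr hs)]
      have : √s ≤ 1 := Real.sqrt_le_one.mpr hs1
      nlinarith
    simp only [pow_zero, Nat.factorial_zero, Nat.cast_one, one_pow, mul_one, div_one]
    refine le_trans ?_ h3
    have h6 : c ≤ U s 0 := h5.trans h4
    nlinarith
  | succ k ih =>
    intro s M hs hs1 hM
    obtain ⟨-, h2, h3⟩ := hRAM U c C hU s hs hs1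
    have hM00 : 0 < M₀ := by linarith
    have hY : 0 ≤ Real.log (1 / s) := Real.log_nonneg (by rw [le_div_iff₀ hs]; linarith)
    have hkf : (0 : ℝ) < (k.factorial : ℝ) := by exact_mod_cast k.factorial_pos
    set Y := Real.log (1 / s) with hYdef
    have hexpY : Real.exp (-Y) = s := by
      rw [hYdef, one_div, Real.log_inv, neg_neg, Real.exp_log hs]
    have hA : ∀ m : ℝ, M₀ ≤ m →
        ((1 - η) * (c / 2) * ((1 - η) * Real.log (m / M₀)) ^ k / (k.factorial : ℝ) ^ 2) * Y ^ (k + 1) /
          (k + 1) ≤ Af U s m := by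
      intro m hm
      have hm0 : 0 < m := by linarith
      have hX : 0 ≤ Real.log (m / M₀) := Real.log_nonneg (by rw [le_div_iff₀ hM00]; linarith)
      have hκ : 0 ≤ (1 - η) * (c / 2) * ((1 - η) * Real.log (m / M₀)) ^ k / (k.factorial : ℝ) ^ 2 := by
        positivity
      have h0 : 0 ≤ Af U (Real.exp (-0)) m := by
        have he : Real.exp (-0) = 1 := by simp
        rw [he]
        exact ((hRAM U c C hU 1 one_pos le_rfl).2.1 m hm0).2.2.2.1
      have := hYST (fun y => Af U (Real.exp (-y)) m)
        ((1 - η) * (c / 2) * ((1 - η) * Real.log (m / M₀)) ^ k / (k.factorial : ℝ) ^ 2) Y k hκ hY h0 ?_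
      · simpa only [hexpY] using this
      · intro y y' hy hyy
        have hs1' : Real.exp (-y) ≤ 1 := by
          rw [Real.exp_le_one_iff]; linarith
        have hss : Real.exp (-y') ≤ Real.exp (-y) := Real.exp_le_exp.mpr (by linarith)
        have h7 := hstp (Real.exp (-y')) (Real.exp (-y)) m (Real.exp_pos _) hss hs1' hm
        have h8 : Real.exp (-y') / Real.exp (-y) = Real.exp (-(y' - y)) := by
          rw [← Real.exp_sub]; congr 1; ring
        rw [h8] at h7
        refine le_trans ?_ h7
        have h9 : 0 ≤ 1 - Real.exp (-(y' - y)) := by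
          have : Real.exp (-(y' - y)) ≤ 1 := by rw [Real.exp_le_one_iff]; linarith
          linarith
        apply mul_le_mul_of_nonneg_left _ h9
        have h10 := ih (Real.exp (-y)) m (Real.exp_pos _) hs1' hm
        have h11 : Real.log (1 / Real.exp (-y)) = y := by
          rw [one_div, ← Real.exp_neg, neg_neg, Real.log_exp]
        rw [h11] at h10
        have h12 := mul_le_mul_of_nonneg_left h10 hη0.le
        refine le_trans (le_of_eq ?_) h12
        rw [mul_pow ((1 - η) * Real.log (m / M₀)) y k]
        ring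
    obtain ⟨hcont, hint⟩ := h3 M₀ M hM00 hM
    have hR0 : 0 ≤ Rf U s M₀ := (h2 M₀ hM00).2.2.2.2
    have h13 : ∫ m in M₀..M, Af U s m / m ≤ Rf U s M := by
      rw [← hint]; linarith
    refine le_trans ?_ h13
    set D : ℝ := ((1 - η) * (c / 2) * (1 - η) ^ k / (k.factorial : ℝ) ^ 2) * Y ^ (k + 1) / (k + 1) with hD
    have h14 : ∫ m in M₀..M, D * ((Real.log (m / M₀)) ^ k / m) ≤ ∫ m in M₀..M, Af U s m / m := by
      apply intervalIntegral.integral_mono_on hM
      · apply ContinuousOn.intervalIntegrable
        rw [uIcc_of_le hM]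
        intro m hm
        have hm0 : m ≠ 0 := by have := hm.1; intro h; linarith
        have hmM : m / M₀ ≠ 0 := div_ne_zero hm0 hM00.ne'
        apply ContinuousAt.continuousWithinAt
        apply ContinuousAt.mul continuousAt_const
        apply ContinuousAt.div _ continuousAt_id hm0
        apply ContinuousAt.pow
        have hcd : ContinuousAt (fun u : ℝ => u / M₀) m := continuousAt_id.div_const _
        exact hcd.log hmM
      · apply ContinuousOn.intervalIntegrable
        rw [uIcc_of_le hM]
        exact hcont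
      · intro m hm
        have hm0 : 0 < m := by have := hm.1; linarith
        have h15 := hA m hm.1
        have h16 : D * ((Real.log (m / M₀)) ^ k / m) =
            (((1 - η) * (c / 2) * ((1 - η) * Real.log (m / M₀)) ^ k / (k.factorial : ℝ) ^ 2) * Y ^ (k + 1) /
              (k + 1)) / m := by
          rw [hD, mul_pow]
          ring
        rw [h16]
        exact div_le_div_of_nonneg_right h15 hm0.le
    refine le_trans ?_ h14
    rw [intervalIntegral.integral_const_mul, hLOG M₀ M k hM00 hM, hD]
    apply le_of_eq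
    have hk1 : ((k : ℝ) + 1) ≠ 0 := by positivity
    have hkf' : (k.factorial : ℝ) ≠ 0 := hkf.ne'
    rw [Nat.factorial_succ, mul_pow ((1 - η) * Real.log (M / M₀)) Y (k + 1),
      mul_pow (1 - η) (Real.log (M / M₀)) (k + 1)]
    push_cast
    generalize Real.log (M / M₀) = X
    generalize (k.factorial : ℝ) = f at *
    field_simp
    ring

end Pool.Agent.FAN
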