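import Pool.Agent.FAN2.StC

/-! FAN2, block C: LOG (helper91). -/

set_option autoImplicit false

open MeasureTheory Set

namespace Pool.Agent.FAN

theorem c_LOG : Sc_LOG := by
  intro a b k ha hab
  have hpos : ∀ m ∈ uIcc a b, 0 < m := by
    intro m hm
    rw [uIcc_of_le hab] at hm
    exact lt_of_lt_of_le ha hm.1
  have hk : (k : ℝ) + 1 ≠ 0 := by positivity
  have hder : ∀ m ∈ uIcc a b,
      HasDerivAt (fun m => (Real.log (m / a)) ^ (k + 1) / ((k : ℝ) + 1))
        ((Real.log (m / a)) ^ k / m) m := by
    intro m hm
    have hm0 := hpos m hm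
    have h1 : HasDerivAt (fun m : ℝ => m / a) (1 / a) m := (hasDerivAt_id m).div_const a
    have h2 : HasDerivAt (fun m : ℝ => Real.log (m / a)) ((1 / a) / (m / a)) m :=
      h1.log (by positivity)
    have h3 := (h2.pow (k + 1)).div_const ((k : ℝ) + 1)
    refine h3.congr_deriv ?_
    have hm' : m ≠ 0 := hm0.ne'
    have ha' : a ≠ 0 := ha.ne'
    push_cast
    field_simp
  have hint : IntervalIntegrable (fun m => (Real.log (m / a)) ^ k / m) volume a b := by
    apply ContinuousOn.intervalIntegrable
    apply ContinuousOn.div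
    · apply ContinuousOn.pow
      apply ContinuousOn.log
      · fun_prop
      · intro m hm
        have := hpos m hm
        positivity
    · fun_prop
    · intro m hm
      exact (hpos m hm).ne'
  rw [intervalIntegral.integral_eq_sub_of_hasDerivAt hder hint]
  have : a / a = 1 := div_self ha.ne'
  rw [this, Real.log_one, zero_pow (Nat.succ_ne_zero k), zero_div, sub_zero]

end Pool.Agent.FAN
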