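import Pool.Agent.FAN2.StC

/-!
# FAN2, block C, module PAR (helper99): the parameters
-/

set_option autoImplicit false

open MeasureTheory Set

namespace Pool.Agent.FAN

/-- (PAR) -/
theorem c_PAR : Sc_PAR := by
  intro γ hγ
  set r : ℝ := √5 with hr
  have hr2 : r ^ 2 = 5 := Real.sq_sqrt (by norm_num)
  have hr0 : 0 ≤ r := Real.sqrt_nonneg 5
  have hr1 : 2.236 < r := by nlinarith
  have hr3 : r < 2.2361 := by nlinarith
  set τ : ℝ := min (1 / 2) (((1 + r) / 2 - γ) / 3) with hτ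
  have hτ0 : 0 < τ := lt_min (by norm_num) (by linarith)
  have hτ1 : τ ≤ 1 / 2 := min_le_left _ _
  have hτ2 : τ ≤ ((1 + r) / 2 - γ) / 3 := min_le_right _ _
  have hsq : √(2 * ((1 - τ) * ((5 + r) / 10)) * ((1 - τ) * ((5 + 2 * r) / 10))) =
      (1 - τ) * ((5 + 3 * r) / 5) / 2 := by
    have h1 : 2 * ((1 - τ) * ((5 + r) / 10)) * ((1 - τ) * ((5 + 2 * r) / 10)) =
        ((1 - τ) * ((5 + 3 * r) / 5) / 2) ^ 2 := by
      have h2 : 2 * ((1 - τ) * ((5 + r) / 10)) * ((1 - τ) * ((5 + 2 * r) / 10)) -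
        ((1 - τ) * ((5 + 3 * r) / 5) / 2) ^ 2 = (1 - τ) ^ 2 * (5 - r ^ 2) / 20 := by ring
      rw [hr2] at h2
      linarith
    rw [h1]
    exact Real.sqrt_sq (by
      have : 0 ≤ 1 - τ := by linarith
      positivity)
  refine ⟨(1 - τ) * ((5 + r) / 10), (1 - τ) * ((5 + 2 * r) / 10), τ / 20, ?_, ?_, ?_, ?_, ?_, ?_⟩
  · have : 0 < 1 - τ := by linarith
    positivity
  · nlinarith
  · have : 0 < 1 - τ := by linarith
    positivity
  · positivity
  · linarith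
  · rw [hsq]
    -- the exponent
    have hE : (1 - τ) * ((1 + r) / 2 - 0.24 * τ) ≤
        2 * (1 - τ / 20) ^ 2 * ((1 - τ) * ((5 + 3 * r) / 5) / 2) - (1 - τ) * ((5 + r) / 10) := by
      have h1 : (1 + r) / 2 - 0.24 * τ ≤
          (1 - τ / 20) ^ 2 * ((5 + 3 * r) / 5) - (5 + r) / 10 := by
        have h3 : (1 - τ / 20) ^ 2 ≥ 1 - τ / 10 := by nlinarith [sq_nonneg τ]
        have h4 : (5 + 3 * r) / 5 ≤ 2.3417 := by linarith
        have h5 : 0 < (5 + 3 * r) / 5 := by positivity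
        have h6 : (1 - τ / 10) * ((5 + 3 * r) / 5) ≤ (1 - τ / 20) ^ 2 * ((5 + 3 * r) / 5) :=
          mul_le_mul_of_nonneg_right h3 h5.le
        have h7 : τ / 10 * ((5 + 3 * r) / 5) ≤ 0.24 * τ := by nlinarith
        nlinarith
      have h2 : 0 ≤ 1 - τ := by linarith
      have h3 := mul_le_mul_of_nonneg_left h1 h2
      calc (1 - τ) * ((1 + r) / 2 - 0.24 * τ) ≤
          (1 - τ) * ((1 - τ / 20) ^ 2 * ((5 + 3 * r) / 5) - (5 + r) / 10) := h3
        _ = _ := by ring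
    refine ⟨lt_of_lt_of_le ?_ hE, lt_of_lt_of_le ?_ hE, lt_of_lt_of_le ?_ hE⟩
    · nlinarith
    · nlinarith
    · have h2 : 0 < 1 - τ := by linarith
      exact mul_lt_mul_of_pos_left (by linarith) h2

end Pool.Agent.FAN
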