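import Pool.Agent.FAN2.StC

/-!
# FAN2, block C: RAM, calculus for one monotone function (helper30)
-/

set_option autoImplicit false

open MeasureTheory Set

namespace Pool.Agent.FAN

namespace CRAM

variable {v : ℝ → ℝ}

private lemma int_v (hv : Monotone v) (a b : ℝ) : IntervalIntegrable v volume a b :=
  hv.intervalIntegrable

private lemma int_tv (hv : Monotone v) (a b : ℝ) :
    IntervalIntegrable (fun t => t * v t) volume a b :=
  (int_v hv a b).continuousOn_mul continuousOn_id

private lemma int_mtv (hv : Monotone v) (x a b : ℝ) :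
    IntervalIntegrable (fun t => (x - t) * v t) volume a b :=
  (int_v hv a b).continuousOn_mul (continuousOn_const.sub continuousOn_id)

private lemma J_eq (hv : Monotone v) (x a b : ℝ) :
    ∫ t in a..b, (x - t) * v t = x * (∫ t in a..b, v t) - ∫ t in a..b, t * v t := by
  rw [← intervalIntegral.integral_const_mul, ← intervalIntegral.integral_sub
    ((int_v hv a b).const_mul x) (int_tv hv a b)]
  refine intervalIntegral.integral_congr fun t _ => ?_
  ring

private lemma g_eq (hv : Monotone v) (m x : ℝ) :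
    (∫ t in (0 : ℝ)..x, (x - t) * v t) - (∫ t in (0 : ℝ)..m, (m - t) * v t) -
      (x - m) * (∫ t in (0 : ℝ)..m, v t) = ∫ t in m..x, (x - t) * v t := by
  have h1 := intervalIntegral.integral_add_adjacent_intervals (int_v hv 0 m) (int_v hv m x)
  have h2 := intervalIntegral.integral_add_adjacent_intervals (int_tv hv 0 m) (int_tv hv m x)
  rw [J_eq hv x 0 x, J_eq hv m 0 m, J_eq hv x m x, ← h1, ← h2]
  ring

private lemma g_le (hv : Monotone v) (h0 : ∀ t, 0 ≤ v t) (m x : ℝ) (hx : |x - m| ≤ 1) :
    ‖∫ t in m..x, (x - t) * v t‖ ≤ v (m + 1) * ‖x - m‖ ^ 2 := by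
  have h : ∀ t ∈ Set.uIoc m x, ‖(x - t) * v t‖ ≤ |x - m| * v (m + 1) := by
    intro t ht
    have hx' := abs_le.1 hx
    have ht1 : |x - t| ≤ |x - m| ∧ t ≤ m + 1 := by
      rcases le_total m x with h1 | h1
      · rw [Set.uIoc_of_le h1] at ht
        obtain ⟨h2, h3⟩ := ht
        rw [abs_of_nonneg (by linarith), abs_of_nonneg (by linarith)]
        constructor <;> linarith
      · rw [Set.uIoc_of_ge h1] at ht
        obtain ⟨h2, h3⟩ := ht
        rw [abs_of_nonpos (by linarith), abs_of_nonpos (by linarith)]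
        constructor <;> linarith
    rw [norm_mul, Real.norm_eq_abs, Real.norm_eq_abs, abs_of_nonneg (h0 t)]
    exact mul_le_mul ht1.1 (hv ht1.2) (h0 t) (abs_nonneg _)
  have h1 := intervalIntegral.norm_integral_le_of_norm_le_const h
  calc _ ≤ |x - m| * v (m + 1) * |x - m| := h1
    _ = v (m + 1) * ‖x - m‖ ^ 2 := by rw [Real.norm_eq_abs]; ring

private lemma J_deriv (hv : Monotone v) (h0 : ∀ t, 0 ≤ v t) (m : ℝ) :
    HasDerivAt (fun x => ∫ t in (0 : ℝ)..x, (x - t) * v t) (∫ t in (0 : ℝ)..m, v t) m := by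
  have hO : (fun x => (∫ t in (0 : ℝ)..x, (x - t) * v t) - (∫ t in (0 : ℝ)..m, (m - t) * v t) -
      (x - m) * (∫ t in (0 : ℝ)..m, v t)) =O[nhds m] fun x => ‖x - m‖ ^ 2 := by
    refine Asymptotics.IsBigO.of_bound (v (m + 1)) ?_
    filter_upwards [Metric.closedBall_mem_nhds m one_pos] with x hx
    rw [g_eq hv m x, norm_pow, norm_norm]
    exact g_le hv h0 m x (by rwa [Metric.mem_closedBall, Real.dist_eq] at hx)
  have h1 := (hO.hasFDerivAt (𝕜 := ℝ) (by norm_num)).hasDerivAt
  have h2 : HasDerivAt (fun x : ℝ => (∫ t in (0 : ℝ)..m, (m - t) * v t) +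
      (x - m) * (∫ t in (0 : ℝ)..m, v t)) (∫ t in (0 : ℝ)..m, v t) m := by
    have h3 := (((hasDerivAt_id m).sub_const m).mul_const
      (∫ t in (0 : ℝ)..m, v t)).const_add (∫ t in (0 : ℝ)..m, (m - t) * v t)
    simpa using h3
  have h4 := h1.fun_add h2
  refine (h4.congr_deriv (by simp)).congr_of_eventuallyEq ?_
  refine Filter.Eventually.of_forall fun x => ?_
  ring

private lemma R_deriv (hv : Monotone v) (h0 : ∀ t, 0 ≤ v t) (m : ℝ) (hm : 0 < m) :
    HasDerivAt (fun x => 1 / x * ∫ t in (0 : ℝ)..x, (x - t) * v t)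
      (1 / m * (∫ t in (0 : ℝ)..m, t * v t) / m) m := by
  have h1 : HasDerivAt (fun x : ℝ => 1 / x) (-(1 / m ^ 2)) m := by
    have := (hasDerivAt_inv hm.ne')
    simpa [one_div] using this
  have h2 := h1.fun_mul (J_deriv hv h0 m)
  refine h2.congr_deriv ?_
  rw [J_eq hv m 0 m]
  field_simp
  ring

private lemma K_cont (hv : Monotone v) : Continuous fun x => ∫ t in (0 : ℝ)..x, t * v t :=
  intervalIntegral.continuous_primitive (int_tv hv) 0

end CRAM

open CRAM in
theorem c_RAM : Sc_RAM := by
  intro U c C hU s hs hs1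
  have hmono := hU.mono s hs hs1
  have hnn : ∀ N, 0 ≤ N → 0 ≤ U s N := fun N hN => hU.nn s N hs hs1 hN
  set v : ℝ → ℝ := fun t => U s (max t 0) with hv_def
  have hv : Monotone v := fun a b hab =>
    hmono (Set.mem_Ici.2 (le_max_right _ _)) (Set.mem_Ici.2 (le_max_right _ _))
      (max_le_max hab le_rfl)
  have h0 : ∀ t, 0 ≤ v t := fun t => hnn _ (le_max_right _ _)
  have hvU : ∀ t, 0 ≤ t → v t = U s t := fun t ht => by simp only [hv_def, max_eq_left ht]
  have hsub : ∀ a b : ℝ, 0 ≤ a → 0 ≤ b → ∀ t ∈ Set.uIcc a b, 0 ≤ t := by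
    intro a b ha hb t ht
    rcases le_total a b with h | h
    · rw [Set.uIcc_of_le h] at ht
      exact ha.trans ht.1
    · rw [Set.uIcc_of_ge h] at ht
      exact hb.trans ht.1
  have hR : ∀ M, 0 ≤ M → Rf U s M = 1 / M * ∫ t in (0 : ℝ)..M, (M - t) * v t := by
    intro M hM
    unfold Rf
    congr 1
    refine intervalIntegral.integral_congr fun t ht => ?_
    simp only [hvU t (hsub 0 M le_rfl hM t ht)]
  have hA : ∀ M, 0 ≤ M → Af U s M = 1 / M * ∫ t in (0 : ℝ)..M, t * v t := by
    intro M hM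
    unfold Af
    congr 1
    refine intervalIntegral.integral_congr fun t ht => ?_
    simp only [hvU t (hsub 0 M le_rfl hM t ht)]
  refine ⟨fun a b ha hb => ?_, fun M hM => ?_, fun M₁ M₂ h1 h12 => ?_⟩
  · have hsubset : Set.uIcc a b ⊆ Set.Ici 0 := fun t ht => hsub a b ha hb t ht
    have h1 : IntervalIntegrable (U s) volume a b := (hmono.mono hsubset).intervalIntegrable
    exact ⟨h1, h1.continuousOn_mul continuousOn_id⟩
  · have hsq : ∫ t in (0 : ℝ)..M, (M - t) = M ^ 2 / 2 := by
      rw [intervalIntegral.integral_sub intervalIntegrable_const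
        ((by fun_prop : Continuous fun t : ℝ => t).intervalIntegrable 0 M),
        intervalIntegral.integral_const, integral_id]
      simp only [smul_eq_mul]
      ring
    have hcst : ∀ (k a b : ℝ), IntervalIntegrable (fun t : ℝ => (M - t) * k) volume a b :=
      fun k a b => (by fun_prop : Continuous fun t : ℝ => (M - t) * k).intervalIntegrable a b
    have e1 : M ^ 2 / 2 * U s 0 ≤ ∫ t in (0 : ℝ)..M, (M - t) * v t := by
      have : ∫ t in (0 : ℝ)..M, (M - t) * U s 0 = M ^ 2 / 2 * U s 0 := by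
        rw [intervalIntegral.integral_mul_const, hsq]
      rw [← this]
      refine intervalIntegral.integral_mono_on hM.le (hcst _ _ _) (int_mtv hv M 0 M) fun t ht => ?_
      refine mul_le_mul_of_nonneg_left ?_ (by linarith [ht.2])
      rw [← hvU 0 le_rfl]
      exact hv ht.1
    have e2 : ∫ t in (0 : ℝ)..M, (M - t) * v t ≤ M ^ 2 / 2 * U s M := by
      have : ∫ t in (0 : ℝ)..M, (M - t) * U s M = M ^ 2 / 2 * U s M := by
        rw [intervalIntegral.integral_mul_const, hsq]
      rw [← this]
      refine intervalIntegral.integral_mono_on hM.le (int_mtv hv M 0 M) (hcst _ _ _) fun t ht => ?_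
      refine mul_le_mul_of_nonneg_left ?_ (by linarith [ht.2])
      rw [← hvU M hM.le]
      exact hv ht.2
    have e3 : M ^ 2 / 8 * U s (M / 2) ≤ ∫ t in (0 : ℝ)..M, (M - t) * v t := by
      have hsplit := intervalIntegral.integral_add_adjacent_intervals (int_mtv hv M 0 (M / 2))
        (int_mtv hv M (M / 2) M)
      have hsq2 : ∫ t in (M / 2)..M, (M - t) = M ^ 2 / 8 := by
        rw [intervalIntegral.integral_sub intervalIntegrable_const
          ((by fun_prop : Continuous fun t : ℝ => t).intervalIntegrable _ _),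
          intervalIntegral.integral_const, integral_id]
        simp only [smul_eq_mul]
        ring
      have hpos : 0 ≤ ∫ t in (0 : ℝ)..(M / 2), (M - t) * v t :=
        intervalIntegral.integral_nonneg (by linarith) fun t ht =>
          mul_nonneg (by linarith [ht.2]) (h0 t)
      have hlow : M ^ 2 / 8 * U s (M / 2) ≤ ∫ t in (M / 2)..M, (M - t) * v t := by
        have : ∫ t in (M / 2)..M, (M - t) * U s (M / 2) = M ^ 2 / 8 * U s (M / 2) := by
          rw [intervalIntegral.integral_mul_const, hsq2]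
        rw [← this]
        refine intervalIntegral.integral_mono_on (by linarith) (hcst _ _ _)
          (int_mtv hv M (M / 2) M) fun t ht => ?_
        refine mul_le_mul_of_nonneg_left ?_ (by linarith [ht.2])
        rw [← hvU (M / 2) (by linarith)]
        exact hv ht.1
      linarith
    have e4 : 0 ≤ ∫ t in (0 : ℝ)..M, t * v t :=
      intervalIntegral.integral_nonneg hM.le fun t ht => mul_nonneg ht.1 (h0 t)
    have e5 : 0 ≤ ∫ t in (0 : ℝ)..M, (M - t) * v t :=
      intervalIntegral.integral_nonneg hM.le fun t ht => mul_nonneg (by linarith [ht.2]) (h0 t)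
    rw [hR M hM.le, hA M hM.le]
    have hM' : 0 ≤ 1 / M := by positivity
    refine ⟨?_, ?_, ?_, mul_nonneg hM' e4, mul_nonneg hM' e5⟩
    · calc M / 2 * U s 0 = 1 / M * (M ^ 2 / 2 * U s 0) := by field_simp
        _ ≤ _ := mul_le_mul_of_nonneg_left e1 hM'
    · calc _ ≤ 1 / M * (M ^ 2 / 2 * U s M) := mul_le_mul_of_nonneg_left e2 hM'
        _ = M / 2 * U s M := by field_simp
    · calc M / 8 * U s (M / 2) = 1 / M * (M ^ 2 / 8 * U s (M / 2)) := by field_simp
        _ ≤ _ := mul_le_mul_of_nonneg_left e3 hM'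
  · have hpos : ∀ m ∈ Set.Icc M₁ M₂, 0 < m := fun m hm => lt_of_lt_of_le h1 hm.1
    have hcont : ContinuousOn (fun m => 1 / m * (∫ t in (0 : ℝ)..m, t * v t) / m)
        (Set.Icc M₁ M₂) := by
      refine ContinuousOn.div (ContinuousOn.mul (ContinuousOn.div continuousOn_const continuousOn_id
        fun m hm => (hpos m hm).ne') (K_cont hv).continuousOn) continuousOn_id
        fun m hm => (hpos m hm).ne'
    have hcont' : ContinuousOn (fun m => Af U s m / m) (Set.Icc M₁ M₂) := by
      refine hcont.congr fun m hm => ?_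
      simp only [hA m (hpos m hm).le]
    refine ⟨hcont', ?_⟩
    have hint : IntervalIntegrable (fun m => 1 / m * (∫ t in (0 : ℝ)..m, t * v t) / m) volume
        M₁ M₂ := (by rwa [Set.uIcc_of_le h12] :
          ContinuousOn _ (Set.uIcc M₁ M₂)).intervalIntegrable
    have h3 := intervalIntegral.integral_eq_sub_of_hasDerivAt
      (f := fun x => 1 / x * ∫ t in (0 : ℝ)..x, (x - t) * v t)
      (f' := fun m => 1 / m * (∫ t in (0 : ℝ)..m, t * v t) / m) (a := M₁) (b := M₂)
      (fun m hm => R_deriv hv h0 m (hpos m (by rwa [Set.uIcc_of_le h12] at hm))) hint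
    rw [hR M₂ (h1.le.trans h12), hR M₁ h1.le, ← h3]
    refine intervalIntegral.integral_congr fun m hm => ?_
    rw [Set.uIcc_of_le h12] at hm
    simp only [hA m (hpos m hm).le]

end Pool.Agent.FAN
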