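import Pool.Agent.FAN2.StC

/-!
# FAN2, block C: RLB (helper19)

The lower bound of `Rf` with an exponential of the square root of the product of the logarithms.
-/

set_option autoImplicit false

open MeasureTheory Set

namespace Pool.Agent.FAN

/-- RLB. -/
theorem c_RLB (h1 : Sc_IND) (h2 : Sc_EXP) : Sc_RLB := by
  intro U c C hU δ hδ0 hδ1
  have hη0 : 0 < δ / 2 := by linarith
  have hη1 : δ / 2 < 1 := by linarith
  obtain ⟨c₂, hc₂, M₀, hM₀, hk⟩ := h1 U c C hU (δ / 2) hη0 hη1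
  refine ⟨c₂ * (δ / 2) ^ 2, by positivity, M₀, hM₀, ?_⟩
  intro s M hs0 hs1 hM
  have hM₀' : 0 < M₀ := by linarith
  have hX : 0 ≤ Real.log (M / M₀) := Real.log_nonneg (by rw [le_div_iff₀ hM₀']; linarith)
  have hY : 0 ≤ Real.log (1 / s) := Real.log_nonneg (by rw [le_div_iff₀ hs0]; linarith)
  set X := Real.log (M / M₀) with hXd
  set Y := Real.log (1 / s) with hYd
  have hXY : 0 ≤ X * Y := mul_nonneg hX hY
  have hg : 0 ≤ 1 - δ / 2 := by linarith
  have hb : 0 ≤ (1 - δ / 2) * X * Y := by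
    rw [mul_assoc]; exact mul_nonneg hg hXY
  have hz : ∀ k : ℕ, c₂ * (√((1 - δ / 2) * X * Y) ^ k / (k.factorial : ℝ)) ^ 2 ≤ Rf U s M := by
    intro k
    have h3 := hk k s M hs0 hs1 hM
    have h4 : c₂ * (√((1 - δ / 2) * X * Y) ^ k / (k.factorial : ℝ)) ^ 2 =
        c₂ * ((1 - δ / 2) * X * Y) ^ k / (k.factorial : ℝ) ^ 2 := by
      rw [div_pow, ← pow_mul, mul_comm k 2, pow_mul, Real.sq_sqrt hb, mul_div_assoc]
    rw [h4]
    exact h3
  have h5 := h2 (√((1 - δ / 2) * X * Y)) (Rf U s M) c₂ (1 - δ / 2) (Real.sqrt_nonneg _) hc₂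
    (by linarith) (by linarith) hz
  have h6 : 1 - (1 - δ / 2) = δ / 2 := by ring
  rw [h6] at h5
  refine le_trans ?_ h5
  refine mul_le_mul_of_nonneg_left (Real.exp_le_exp.mpr ?_) (by positivity)
  have h7 : √((1 - δ / 2) * X * Y) = √(1 - δ / 2) * √(X * Y) := by
    rw [mul_assoc, Real.sqrt_mul hg]
  have h8 : 1 - δ / 2 ≤ √(1 - δ / 2) := by
    apply Real.le_sqrt_of_sq_le
    nlinarith
  have h9 : 0 ≤ √(X * Y) := Real.sqrt_nonneg _
  have h10 : 1 - δ ≤ (1 - δ / 2) * √(1 - δ / 2) := by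
    have h11 : (1 - δ / 2) * (1 - δ / 2) ≤ (1 - δ / 2) * √(1 - δ / 2) :=
      mul_le_mul_of_nonneg_left h8 hg
    nlinarith
  rw [h7]
  calc 2 * (1 - δ) * √(X * Y) = 2 * ((1 - δ) * √(X * Y)) := by ring
    _ ≤ 2 * (((1 - δ / 2) * √(1 - δ / 2)) * √(X * Y)) := by
        have := mul_le_mul_of_nonneg_right h10 h9
        linarith
    _ = 2 * (1 - δ / 2) * (√(1 - δ / 2) * √(X * Y)) := by ring

end Pool.Agent.FAN
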