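import Pool.Agent.FAN2.StC

/-!
# FAN2, STP: one step in `s` (helper41)
-/

set_option autoImplicit false

open MeasureTheory Set

namespace Pool.Agent.FAN

theorem c_STP (h1 : Sc_RAM) (h2 : Sc_ERR) : Sc_STP := by
  intro U c C hU η hη0 hη1
  obtain ⟨C₁, hC1, hE⟩ := h2 U c C hU
  have hC0 : 0 < C₁ := lt_of_lt_of_le one_pos hC1
  have hM1 : C₁ ≤ C₁ / η := by
    rw [le_div_iff₀ hη0]
    nlinarith
  refine ⟨C₁ / η, hC1.trans hM1, ?_⟩
  intro s s' M hs hss hs1 hM
  have hMC : C₁ ≤ M := hM1.trans hM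
  have hM0 : 0 < M := lt_of_lt_of_le hC0 hMC
  have hs' : 0 < s' := lt_of_lt_of_le hs hss
  have hsl : s ≤ 1 := hss.trans hs1
  have hf := hU.fan s s' M hs hss hs1 hM0.le
  have he := hE s' M hs' hs1 hMC
  obtain ⟨a1, a2, -⟩ := h1 U c C hU s hs hsl
  obtain ⟨b1, b2, -⟩ := h1 U c C hU s' hs' hs1
  have hR0 : 0 ≤ Rf U s' M := (b2 M hM0).2.2.2.2
  have i1 := (a1 0 M le_rfl hM0.le).2
  have i2 := (b1 0 M le_rfl hM0.le).2
  have e1 : ∫ N in (0 : ℝ)..M, N * (U s N - U s' N) =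
      (∫ N in (0 : ℝ)..M, N * U s N) - ∫ N in (0 : ℝ)..M, N * U s' N := by
    rw [← intervalIntegral.integral_sub i1 i2]
    refine intervalIntegral.integral_congr fun N _ => ?_
    show N * (U s N - U s' N) = N * U s N - N * U s' N
    ring
  rw [e1] at hf
  have e2 : ∫ t in (0 : ℝ)..M, (M - t) * U s' t = M * Rf U s' M := by
    unfold Rf
    field_simp
  have e3 : ∫ N in (0 : ℝ)..M, N * U s N = M * Af U s M := by
    unfold Af
    field_simp
  have e4 : ∫ N in (0 : ℝ)..M, N * U s' N = M * Af U s' M := by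
    unfold Af
    field_simp
  rw [e2, e3, e4] at hf
  have hq : 0 ≤ 1 - s / s' := by
    rw [sub_nonneg, div_le_one hs']
    exact hss
  have h3 : (1 - s / s') * (M * ((1 - η) * Rf U s' M)) ≤
      (1 - s / s') * (M * Rf U s' M - C * (M + 1) * U s' (M + C)) := by
    refine mul_le_mul_of_nonneg_left ?_ hq
    have h4 : C₁ ≤ η * M := by
      rw [div_le_iff₀ hη0] at hM
      linarith
    have h5 : C₁ * Rf U s' M ≤ η * M * Rf U s' M := mul_le_mul_of_nonneg_right h4 hR0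
    nlinarith
  have h6 : M * ((1 - s / s') * ((1 - η) * Rf U s' M)) ≤ M * (Af U s M - Af U s' M) := by
    calc M * ((1 - s / s') * ((1 - η) * Rf U s' M)) =
        (1 - s / s') * (M * ((1 - η) * Rf U s' M)) := by ring
      _ ≤ _ := h3
      _ ≤ _ := hf
      _ = _ := by ring
  exact le_of_mul_le_mul_left h6 hM0

end Pool.Agent.FAN
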