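import Pool.Agent.FAN2.StC

/-!
# FAN2, block C, module YST: Riemann sums
-/

set_option autoImplicit false

open MeasureTheory Set

namespace Pool.Agent.FAN

private lemma yst_pow (a b : ℝ) (hb : 0 ≤ b) (hab : b ≤ a) (k : ℕ) :
    a ^ (k + 1) - (k + 1) * a ^ k * (a - b) ≤ b ^ (k + 1) := by
  induction k with
  | zero => simp
  | succ k ih =>
    have h1 := mul_le_mul_of_nonneg_left ih hb
    have h2 : 0 ≤ ((k : ℝ) + 1) * a ^ k * (a - b) ^ 2 := by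
      have := pow_nonneg (hb.trans hab) k
      positivity
    have e1 : b ^ (k + 1 + 1) = b * b ^ (k + 1) := by ring
    rw [e1]
    refine le_trans ?_ h1
    push_cast
    have e2 : a ^ (k + 1 + 1) - ((k : ℝ) + 1 + 1) * a ^ (k + 1) * (a - b) =
        b * (a ^ (k + 1) - ((k : ℝ) + 1) * a ^ k * (a - b)) -
          ((k : ℝ) + 1) * a ^ k * (a - b) ^ 2 := by ring
    rw [e2]
    linarith

private lemma yst_sum (k m : ℕ) :
    (m : ℝ) ^ (k + 1) / (k + 1) ≤ ∑ i ∈ Finset.range (m + 1), (i : ℝ) ^ k := by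
  induction m with
  | zero => simp
  | succ m ih =>
    rw [Finset.sum_range_succ]
    have h1 := yst_pow ((m : ℝ) + 1) m (Nat.cast_nonneg m) (by linarith) k
    have hk : (0 : ℝ) < k + 1 := by positivity
    rw [div_le_iff₀ hk] at ih ⊢
    push_cast
    nlinarith

private lemma yst_step (B : ℝ → ℝ) (κ Y : ℝ) (k n : ℕ) (hκ : 0 ≤ κ) (hY : 0 ≤ Y) (hB : 0 ≤ B 0)
    (h : ∀ y y' : ℝ, 0 ≤ y → y ≤ y' → (1 - Real.exp (-(y' - y))) * (κ * y ^ k) ≤ B y' - B y) :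
    κ * Y ^ (k + 1) / (k + 1) * (((n + 1 : ℕ) : ℝ) / (((n + 1 : ℕ) : ℝ) + Y)) *
      ((n : ℝ) / ((n : ℝ) + 1)) ^ (k + 1) ≤ B Y := by
  obtain ⟨δ, hδ⟩ : ∃ δ : ℝ, δ = Y / ((n : ℝ) + 1) := ⟨_, rfl⟩
  have hn : (0 : ℝ) < (n : ℝ) + 1 := by positivity
  have hδ0 : 0 ≤ δ := by rw [hδ]; positivity
  have hYd : Y = ((n : ℝ) + 1) * δ := by rw [hδ]; field_simp
  have h1 : ∑ i ∈ Finset.range (n + 1), (B (((i + 1 : ℕ) : ℝ) * δ) - B ((i : ℝ) * δ)) =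
      B Y - B 0 := by
    rw [Finset.sum_range_sub (fun i : ℕ => B ((i : ℝ) * δ))]
    simp only [Nat.cast_add, Nat.cast_one, Nat.cast_zero, zero_mul]
    rw [← hYd]
  have h2 : ∑ i ∈ Finset.range (n + 1), (1 - Real.exp (-δ)) * (κ * ((i : ℝ) * δ) ^ k) ≤
      ∑ i ∈ Finset.range (n + 1), (B (((i + 1 : ℕ) : ℝ) * δ) - B ((i : ℝ) * δ)) := by
    refine Finset.sum_le_sum fun i _ => ?_
    have h3 := h ((i : ℝ) * δ) (((i + 1 : ℕ) : ℝ) * δ) (by positivity) (by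
      push_cast
      nlinarith)
    have e : ((i + 1 : ℕ) : ℝ) * δ - (i : ℝ) * δ = δ := by push_cast; ring
    rwa [e] at h3
  have h3 : δ / (1 + δ) ≤ 1 - Real.exp (-δ) := by
    have h4 := Real.add_one_le_exp δ
    rw [Real.exp_neg, div_le_iff₀ (by linarith)]
    have h5 : (Real.exp δ)⁻¹ * (1 + δ) ≤ 1 := by
      rw [inv_mul_le_iff₀ (Real.exp_pos δ)]
      linarith
    linarith
  have h4 : ∑ i ∈ Finset.range (n + 1), (1 - Real.exp (-δ)) * (κ * ((i : ℝ) * δ) ^ k) =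
      (1 - Real.exp (-δ)) * (κ * δ ^ k) * ∑ i ∈ Finset.range (n + 1), (i : ℝ) ^ k := by
    rw [Finset.mul_sum]
    refine Finset.sum_congr rfl fun i _ => ?_
    rw [mul_pow]
    ring
  have h5 : δ / (1 + δ) * (κ * δ ^ k) * ((n : ℝ) ^ (k + 1) / (k + 1)) ≤
      (1 - Real.exp (-δ)) * (κ * δ ^ k) * ∑ i ∈ Finset.range (n + 1), (i : ℝ) ^ k := by
    have g1 : 0 ≤ κ * δ ^ k := by positivity
    have g2 : 0 ≤ δ / (1 + δ) := by positivity
    have g3 := yst_sum k n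
    have g4 : 0 ≤ (n : ℝ) ^ (k + 1) / ((k : ℝ) + 1) := by positivity
    calc δ / (1 + δ) * (κ * δ ^ k) * ((n : ℝ) ^ (k + 1) / (k + 1)) ≤
        (1 - Real.exp (-δ)) * (κ * δ ^ k) * ((n : ℝ) ^ (k + 1) / (k + 1)) :=
          mul_le_mul_of_nonneg_right (mul_le_mul_of_nonneg_right h3 g1) g4
      _ ≤ _ := mul_le_mul_of_nonneg_left g3 (mul_nonneg (g2.trans h3) g1)
  have h6 : κ * Y ^ (k + 1) / (k + 1) * (((n + 1 : ℕ) : ℝ) / (((n + 1 : ℕ) : ℝ) + Y)) *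
      ((n : ℝ) / ((n : ℝ) + 1)) ^ (k + 1) =
      δ / (1 + δ) * (κ * δ ^ k) * ((n : ℝ) ^ (k + 1) / (k + 1)) := by
    have g1 : 1 + δ ≠ 0 := by positivity
    push_cast
    rw [hYd, mul_pow, div_pow]
    have g2 : (n : ℝ) + 1 + ((n : ℝ) + 1) * δ = ((n : ℝ) + 1) * (1 + δ) := by ring
    rw [g2]
    field_simp
    ring
  rw [h6]
  linarith

/-- YST. Riemann sums -/
theorem c_YST : Sc_YST := by
  intro B κ Y k hκ hY hB h
  have h1 : Filter.Tendsto (fun n : ℕ => κ * Y ^ (k + 1) / (k + 1) *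
      (((n + 1 : ℕ) : ℝ) / (((n + 1 : ℕ) : ℝ) + Y)) * ((n : ℝ) / ((n : ℝ) + 1)) ^ (k + 1))
      Filter.atTop (nhds (κ * Y ^ (k + 1) / (k + 1) * 1 * 1 ^ (k + 1))) := by
    refine Filter.Tendsto.mul (Filter.Tendsto.mul tendsto_const_nhds ?_)
      (Filter.Tendsto.pow (tendsto_natCast_div_add_atTop (1 : ℝ)) _)
    exact (tendsto_natCast_div_add_atTop Y).comp (Filter.tendsto_add_atTop_nat 1)
  have h2 := le_of_tendsto' h1 fun n => yst_step B κ Y k n hκ hY hB h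
  simpa using h2

end Pool.Agent.FAN
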