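import Pool.Agent.FAN2.StW
import Pool.Agent.FAN.StK

/-!
# FAN2, block H: hits (helper15). Statements with complete proofs.

Write `theorem h_X : Sh_X` in `Pool/Agent/FAN2/H_X.lean`, namespace `Pool.Agent.FAN`. A statement may use other
statements of this file (and of StA, StM, StK) as hypotheses (`theorem h_X (h : Sh_Y) : Sh_X`) or import the file of a
proved one. Proved algebra that is useful: `FAN/Base.lean`, `Base2.lean`, `Base3.lean`, `K_OPN.lean`, `K_MSD.lean`.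

A phase set is a family `A : S.R → Set (ℝ × ℂ)` of sets of pairs `(ψ, x)`. `H(p) = cx v (p - x)` is the height of
`p` over the line `x + τ v`, `T(p) = dt v (p - x)` its foot.
-/

set_option autoImplicit false

open scoped ComplexConjugate
open MeasureTheory Set

namespace Pool.Agent.FAN

/-- measure of a phase set -/
noncomputable def mm (S : TriSys) (A : S.R → Set (ℝ × ℂ)) : ENNReal :=
  ∑ r, volume (A r ∩ (Ioc (0 : ℝ) (2 * Real.pi) ×ˢ rm S r))

/-- hit in the window `[0, 1]`, no hit in the window `[1, 1 + t]` -/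
def EvH (S : TriSys) (w t : ℝ) (r : S.R) : Set (ℝ × ℂ) :=
  {p | ∃ js js' : List (ZMod 3), PW S r p.2 (ev p.1) 1 js ∧ PW S r p.2 (ev p.1) (1 + t) (js ++ js') ∧
    clr (Pl.home S r) js p.2 (ev p.1) < w ∧ w ≤ clr (endP (Pl.home S r) js) js' p.2 (ev p.1)}

/-- hit in the window `[0, 1]`, no hit in the window `[1, 1 + t]`, hit in the window `[1, 1 + n]` -/
def EvD (S : TriSys) (w t n : ℝ) (r : S.R) : Set (ℝ × ℂ) :=
  {p | ∃ js js' js'' : List (ZMod 3), PW S r p.2 (ev p.1) 1 js ∧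
    PW S r p.2 (ev p.1) (1 + t) (js ++ js') ∧ PW S r p.2 (ev p.1) (1 + n) (js ++ (js' ++ js'')) ∧
    clr (Pl.home S r) js p.2 (ev p.1) < w ∧ w ≤ clr (endP (Pl.home S r) js) js' p.2 (ev p.1) ∧
    clr (endP (Pl.home S r) js) (js' ++ js'') p.2 (ev p.1) < w}

/-- the apex of the last room of the word `js` that starts in the placed room `Q` with the letter `i₀` -/
noncomputable def apQ {S : TriSys} (Q : Pl S) (i₀ : ZMod 3) (js : List (ZMod 3)) : ℂ :=
  (endP Q js).V (eI Q i₀ js)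

/-! ## Measure theory -/

/-- EEM. Expectation of an indicator. Proof: `rm S r` is measurable of finite volume (`m_KMSD` or Sm_OPN), so the
measure `volume.restrict (Ioc 0 (2π)) ×ˢ volume.restrict (rm S r)` is finite; `intervalIntegral.integral_of_le`, and
`integral_prod` (`setIntegral_prod`) for the indicator of the measurable set `A r`, which is integrable. -/
def Sh_EEM : Prop := ∀ (S : TriSys) (A : S.R → Set (ℝ × ℂ)), (∀ r, MeasurableSet (A r)) →
  mm S A < ⊤ ∧ ∀ G : S.R → ℂ → ℝ → ℝ, (∀ r x ψ, ((ψ, x) ∈ A r → G r x ψ = 1) ∧ ((ψ, x) ∉ A r → G r x ψ = 0)) →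
    EE S G = (mm S A).toReal

/-- EEL. `EE` is linear and monotone on bounded measurable functions. Proof: as EEM, `EE S G` is the sum of the
integrals of `G r` over the product measure (bounded measurable functions on a finite measure space are
integrable); `integral_add`, `integral_const_mul`, `integral_mono`. -/
def Sh_EEL : Prop := ∀ (S : TriSys) (B : ℝ) (G G' : S.R → ℂ → ℝ → ℝ),
  (∀ r, Measurable (fun p : ℝ × ℂ => G r p.2 p.1)) → (∀ r, Measurable (fun p : ℝ × ℂ => G' r p.2 p.1)) →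
  (∀ r x ψ, |G r x ψ| ≤ B ∧ |G' r x ψ| ≤ B) →
  (EE S fun r x ψ => G r x ψ + G' r x ψ) = EE S G + EE S G' ∧
  (∀ c : ℝ, (EE S fun r x ψ => c * G r x ψ) = c * EE S G) ∧
  ((∀ r x ψ, G r x ψ ≤ G' r x ψ) → EE S G ≤ EE S G')

/-- NOW. Almost all phase points have a word. Proof: the set is measurable (complement of the union over the
countably many `js` of the open sets of Sm_OPN, composed with `ψ ↦ ev ψ`); for fixed `x ∈ rm S r` the set of `ψ` is
countable (Sm_EXI), hence null; `measure_prod_null` after exchanging the coordinates (`Measure.prod_swap`), or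
`Measure.prod_apply_symm`. -/
def Sh_NOW : Prop := ∀ (S : TriSys) (N : ℝ), 0 ≤ N →
  mm S (fun r => {p | ¬ ∃ js, PW S r p.2 (ev p.1) N js}) = 0

/-- MSE. Measurability. Proof: countable unions (over the words) of sets given by finitely many open conditions
(`PW`, `clr < w`) and closed conditions (`w ≤ clr`), see `m_KOPN` (`PW` is the conjunction of `In`, `Run`, `In`);
the last set: `m_KMSD`. -/
def Sh_MSE : Prop := ∀ (S : TriSys) (w t n : ℝ) (r : S.R), MeasurableSet (EvH S w t r) ∧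
  MeasurableSet (EvD S w t n r) ∧ MeasurableSet {p : ℝ × ℂ | DD S r p.2 (ev p.1) n < w}

/-- FLW. Flow invariance for the hits. Proof. Sw_HHH (1) with `T = 1`, and `hh S w 1 t = (mm S (EvH S w t)).toReal` (EEM for
the set `{DD (1) < w, w ≤ DT 1 t}`, which agrees with `EvH` up to a null set: NOW for `1`, `1 + t`, Sw_SPL (1), (4), UNI). -/
def Sh_FLW : Prop := ∀ (S : TriSys) (w t : ℝ), 0 < w → 0 ≤ t →
  pp S w (1 + t) = pp S w t + (mm S (EvH S w t)).toReal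

/-- ANT. Proof. Up to a null set (NOW for `1 + t`) a point of `EvH t'` with words `js`, `js ++ js'` has a word for
`1 + t`, which is `js ++ js₁` with `js₁` an initial segment of `js'` (MON twice, or `Run_comparable`), and
`clr q js₁ ≥ clr q js'` (CLA). -/
def Sh_ANT : Prop := ∀ (S : TriSys) (w t t' : ℝ), 0 ≤ t → t ≤ t' → mm S (EvH S w t') ≤ mm S (EvH S w t)

/-- SPL. Proof. Up to a null set (NOW for `1 + n`) a point of `EvH t` with words `js`, `js ++ js'` has a word for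
`1 + n`, it is `js ++ (js' ++ js'')` (MON); either `w ≤ clr q (js' ++ js'')` and it is in `EvH n`, or it is in `EvD t n`. -/
def Sh_SPL : Prop := ∀ (S : TriSys) (w t n : ℝ), 0 ≤ t → t ≤ n →
  mm S (EvH S w t) ≤ mm S (EvH S w n) + mm S (EvD S w t n)

/-- BAN. Area of a band in a room. Proof. `x ∈ rm S r` has distance `≤ D₀` from `P r 0` (DIA), so the set is contained
in `{x | |cx v (x - p)| ≤ w ∧ t₀ - D₀ ≤ dt v (x - p) ≤ t₀ + D₀}`, `t₀ = dt v (P r 0 - p)`, whose volume is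
`2 w * 2 D₀` (Sk_RCT with `A = p`; `|cx v (p - x)| = |cx v (x - p)|`). `C = 4 D₀`. -/
def Sh_BAN : Prop := ∀ S : TriSys, ∃ C : ℝ, 0 < C ∧ ∀ (r : S.R) (p v : ℂ) (w : ℝ), ‖v‖ = 1 → 0 < w →
  volume {x | x ∈ rm S r ∧ |cx v (p - x)| < w} ≤ ENNReal.ofReal (C * w)

/-- ARC. Directions almost parallel to a vector. Proof. `u = ‖u‖ ev α` with `α = arg u ∈ (-π, π]`, so
`cx (ev ψ) u = ‖u‖ sin (α - ψ)` and `|sin (ψ - α)| < δ`. `ψ - α ∈ (-π, 3π)` has distance `≤ π/2` from `k π` for some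
`k ∈ {-1, 0, 1, 2, 3}`, and `|sin (ψ - α)| = |sin (ψ - α - k π)| ≥ 2/π |ψ - α - k π|` (`Real.mul_le_sin`). So the set is
contained in the union of the five intervals `|ψ - α - k π| ≤ π δ / 2`, of total length `5 π δ ≤ 16 δ`. -/
def Sh_ARC : Prop := ∀ (u : ℂ) (δ : ℝ), u ≠ 0 → 0 < δ →
  volume {ψ : ℝ | ψ ∈ Ioc (0 : ℝ) (2 * Real.pi) ∧ |cx (ev ψ) u| < δ * ‖u‖} ≤ ENNReal.ofReal (16 * δ)

/-- STR. Lines close to two points. Proof. `|cx (ev ψ) (p₁ - p₀)| < 2 w ≤ (2 w / ℓ) ‖p₁ - p₀‖`; by ARC the set of these `ψ`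
has measure at most `32 w / ℓ`, and for each `ψ` the set of `x` has measure at most `C w` (BAN). `Measure.prod_apply`
(the set is measurable: open conditions), or: it is contained in a measurable subset of a product and use
`lintegral` over the set of `ψ`. -/
def Sh_STR : Prop := ∀ S : TriSys, ∃ C : ℝ, 0 < C ∧ ∀ (r : S.R) (p₀ p₁ : ℂ) (w l : ℝ), 0 < w → 0 < l →
  l ≤ ‖p₁ - p₀‖ → volume ({p : ℝ × ℂ | |cx (ev p.1) (p₀ - p.2)| < w ∧ |cx (ev p.1) (p₁ - p.2)| < w} ∩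
    (Ioc (0 : ℝ) (2 * Real.pi) ×ˢ rm S r)) ≤ ENNReal.ofReal (C * w ^ 2 / l)

/-- ONE. Hits in a window of length 1. Proof. EEM, MSE: `pp S w 1 = (mm {DD (1) < w}).toReal`. Up to a null set (NOW) a
point has a word `js`, of length `≤ m` by LEN (all crossing times are in `(0, 1)`, CTS), and `DD = clr js`
is attained at a vertex in `vl (home r) js` (`clr_mem`, CLV). So the set is contained in a finite union (over
`js` with `js.length ≤ m`, `p ∈ vl (home r) js`) of sets `{|cx v (p - x)| < w}`, each of measure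
`≤ 2 π C w` (BAN and `Measure.prod_apply`). -/
def Sh_ONE : Prop := ∀ S : TriSys, ∃ C : ℝ, 0 < C ∧ ∀ w : ℝ, 0 < w → pp S w 1 ≤ C * w

/-! ## Combinatorics and geometry of consecutive hits -/

/-- CLA. Clearance of a concatenation. Proof: induction on `js`; `js = []`: `clr q js' ≤ h3 q`
(the first room is visited; `clr q [] = h3 q`; cases on `js'`). -/
def Sh_CLA : Prop := ∀ (S : TriSys) (js js' : List (ZMod 3)) (q : Pl S) (x v : ℂ),
  clr q (js ++ js') x v = min (clr q js x v) (clr (endP q js) js' x v)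

/-- LST. The last hit. Proof by induction on `js`. `js = []`: `clr q js' ≤ h3 q = clr q []`, contradiction.
`js = j :: l`: if `clr (nx j) l < w` use the induction hypothesis. Otherwise `js₁ = []`, `i₀ = j`, `l₁ = l`: CLA gives
`w ≤ clr (q.nx j) (l ++ js')`, and `clr q (j :: l) = min (h3 q) (clr (nx j) l) < w` gives `h3 q < w`; the vertices
`V (j+1)`, `V (j+2)` of `q` are vertices of `q.nx j` (GLU) and have `|H| ≥ w`, so `|H (V j)| < w` (the three indices are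
`j, j+1, j+2`, `z_cases`). -/
def Sh_LST : Prop := ∀ (S : TriSys) (js js' : List (ZMod 3)) (q : Pl S) (x v : ℂ) (w : ℝ),
  clr q js x v < w → w ≤ clr (endP q js) js' x v →
  ∃ (js₁ : List (ZMod 3)) (i₀ : ZMod 3) (l₁ : List (ZMod 3)), js = js₁ ++ i₀ :: l₁ ∧
    |cx v ((endP q js₁).V i₀ - x)| < w ∧ w ≤ clr ((endP q js₁).nx i₀) (l₁ ++ js') x v

/-- FST. The first hit. Proof by induction on `js''`, for all `js'`. `js'' = []`: contradiction. `js'' = j :: l`: if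
`w ≤ clr q (js' ++ [j])` use the induction hypothesis for `js' ++ [j]`. Otherwise CLS (`m_CLS` or Sa_CLS) gives
`|H (apex)| < w` for the apex `((endP q js').nx j).V ((endP q js').en j)`: `l₂ = []`, the letter `j`. -/
def Sh_FST : Prop := ∀ (S : TriSys) (js'' js' : List (ZMod 3)) (q : Pl S) (x v : ℂ) (w : ℝ),
  w ≤ clr q js' x v → clr q (js' ++ js'') x v < w →
  ∃ (l₂ : List (ZMod 3)) (j : ZMod 3) (l₃ : List (ZMod 3)), js'' = l₂ ++ j :: l₃ ∧
    w ≤ clr q (js' ++ l₂) x v ∧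
    |cx v (((endP q (js' ++ l₂)).nx j).V ((endP q (js' ++ l₂)).en j) - x)| < w

/-- PAR. Parallel lines that are closer than the clearance run the same word. Proof: induction on `l`: the exit
edge of a room with `w ≤ h3` has `|H| ≥ w` at both end points, and `cx v (V - p) = cx v (V - x) - cx v (p - x)`
has the same sign as `cx v (V - x)`. -/
def Sh_PAR : Prop := ∀ (S : TriSys) (l : List (ZMod 3)) (j : ZMod 3) (q : Pl S) (x p v : ℂ) (w : ℝ),
  Run q x v (l ++ [j]) → w ≤ clr q l x v → |cx v (p - x)| < w → Run q p v (l ++ [j])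

/-- CRX. A segment that crosses the line of an edge between the end points. Proof. With `u = p₁ - p₀`, `s = L - R`:
`cx u z * cx v s = cx u v * cx z s + cx u s * cx v z` for all `z` (`ring` after unfolding). Let `f p = cx (R - p) (L - p)`,
then `f p = cx s (p - R)` is affine. For `z = L - p₀`:
`cx u (L - p₀) * cx v s = f p₀ * cx v (L - p₁) - f p₁ * cx v (L - p₀) > 0`; for `z = R - p₀`:
`cx u (R - p₀) * cx v s = f p₀ * cx v (R - p₁) - f p₁ * cx v (R - p₀) < 0`; `cx v s > 0`. -/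
def Sh_CRX : Prop := ∀ (L R p₀ p₁ v : ℂ), 0 < cx v (L - p₀) → 0 < cx v (L - p₁) → cx v (R - p₀) < 0 →
  cx v (R - p₁) < 0 → 0 < cx (R - p₀) (L - p₀) → cx (R - p₁) (L - p₁) < 0 →
  0 < cx (p₁ - p₀) (L - p₀) ∧ cx (p₁ - p₀) (R - p₀) < 0

/-- GEO. Consecutive hits see each other. Proof. Let `word = i₀ :: (l ++ [j])`, `p₀ = Q.V i₀`, `p₁` the apex. The lines
`(p₀, v)` and `(p₁, v)` run the word: the first letter by `h3 (Q.nx i₀) ≥ w` (its end points are vertices of `Q.nx i₀`,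
GLU), the rest by PAR for `Q.nx i₀`. Crossing times of `(p₀, v)`: the first is `≥ h₀ > 0` (DIA (4)), the others are larger
(CTS (1)). Crossing times of `(p₁, v)`: by ENT they are at most the entering time of the last room, which is `< 0` by
TIM (9) (`p₁ = V i`, `cx v (V i - p₁) = 0`, `dt v (V i - p₁) = 0`). For every crossed edge (`mem_cts`:
`word = l₁ ++ k :: l₂`, `q = endP Q l₁`, `L = q.V (k+2)`, `R = q.V (k+1)`) `ct p₀ > 0`, `ct p₁ < 0` with positive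
denominators mean `0 < cx (R - p₀) (L - p₀)`, `cx (R - p₁) (L - p₁) < 0`; the sign conditions of CRX are the `Ex`
conditions of the two lines. So `q.Ex p₀ (p₁ - p₀) k` for every crossed edge, which is `Run` (induction: `Run Q x v js` iff `Ex` holds
at every position; write it as a lemma). Last claim: let `u = p₁ - p₀ ≠ 0` (`cx 0 _ = 0`), `v' = u / ‖u‖`;
`Run Q p₀ v' word` (`Run_scale`), the first crossing time is `≥ h₀` (DIA (4)), the last one is `< dt v' (p₁ - p₀) = ‖u‖`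
(ENT, TIM (9)). -/
def Sh_GEO : Prop := ∀ S : TriSys, ∃ h : ℝ, 0 < h ∧ ∀ (Q : Pl S) (i₀ j : ZMod 3) (l : List (ZMod 3)) (x v : ℂ)
  (w : ℝ), ‖v‖ = 1 → 0 < w → Run Q x v (i₀ :: (l ++ [j])) → |cx v (Q.V i₀ - x)| < w →
  w ≤ clr (Q.nx i₀) l x v → |cx v (apQ Q i₀ (i₀ :: (l ++ [j])) - x)| < w →
  Run Q (Q.V i₀) (apQ Q i₀ (i₀ :: (l ++ [j])) - Q.V i₀) (i₀ :: (l ++ [j])) ∧
  h ≤ ‖apQ Q i₀ (i₀ :: (l ++ [j])) - Q.V i₀‖

/-- TMS. Positions of the two hits. Proof. DIA (3): crossing points have distance `≤ D₀` from all vertices of the room,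
and `T (x + τ v) = τ`. (First part) the edge `i₀` of `endP js₁` is crossed by the line at a time in `(0, 1)` (CTS (3), (4) for
`js = js₁ ++ i₀ :: l₁` and `PW` at time `1`), so `|T (p₀) - τ| ≤ D₀`; `js₁.length ≤ js.length ≤ m` by LEN.
(Second part) the last edge `j` is crossed at a time `τ ≤ 1 + n` (CTS (3)) and `τ > 1 + t`: the room
`endP (js ++ js')` contains `x + (1 + t) v`, its exit edge is crossed later (TIM (2)), and the following ones still later
(CTS (1), `cts_append`). `|T (p₁) - τ| ≤ D₀`. So `t - 2 D₀ ≤ T (p₁) - T (p₀) ≤ n + 1 + 2 D₀`, and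
`‖p₁ - p₀‖ ≤ |T (p₁) - T (p₀)| + |H (p₁) - H (p₀)|` (`dec` or `cx_sq_add_dt_sq`) `≤ n + 1 + 2 D₀ + 2`. -/
def Sh_TMS : Prop := ∀ S : TriSys, ∃ (C : ℝ) (m : ℕ), 1 ≤ C ∧ ∀ (r : S.R) (x v : ℂ) (w t n : ℝ)
  (js₁ l₁ js' l₂ l₃ : List (ZMod 3)) (i₀ j : ZMod 3), ‖v‖ = 1 → 0 < w → w ≤ 1 → 0 ≤ t → t ≤ n →
  PW S r x v 1 (js₁ ++ i₀ :: l₁) → PW S r x v (1 + t) ((js₁ ++ i₀ :: l₁) ++ js') →
  PW S r x v (1 + n) ((js₁ ++ i₀ :: l₁) ++ (js' ++ (l₂ ++ j :: l₃))) →
  ∀ Q : Pl S, Q = endP (Pl.home S r) js₁ → |cx v (Q.V i₀ - x)| < w →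
    |cx v (apQ Q i₀ (i₀ :: ((l₁ ++ js' ++ l₂) ++ [j])) - x)| < w →
    js₁.length ≤ m ∧ t - C ≤ ‖apQ Q i₀ (i₀ :: ((l₁ ++ js' ++ l₂) ++ [j])) - Q.V i₀‖ ∧
    ‖apQ Q i₀ (i₀ :: ((l₁ ++ js' ++ l₂) ++ [j])) - Q.V i₀‖ ≤ n + C

/-- DEC. Every point of `EvD` is close to both ends of a generalized diagonal. Proof. LST for `js` (`q = home r`) gives
`js = js₁ ++ i₀ :: l₁`; let `Q = endP js₁`. FST for `q = Q.nx i₀`, first word `l₁ ++ js'` (LST gives `w ≤ clr`), second word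
`js''` (`clr (Q.nx i₀) (l₁ ++ js' ++ js'') ≤ clr (endP js) (js' ++ js'') < w` by CLA and `endP_append`) gives
`js'' = l₂ ++ j :: l₃`. With `l = l₁ ++ js' ++ l₂`: GEO (the run of `i₀ :: (l ++ [j])` from `Q` is a part of the run for
`1 + n`, `Run_append`; the apex of FST is `apQ Q i₀ (i₀ :: (l ++ [j]))`: `eI_append`, `endP_append`) and TMS. Membership in `GG`:
move `Q` to `home Q.r` by `z ↦ (z - Q.b) / Q.a` (`mv_home`, `Run_mv`, `endP_mv`, `eI_mv`, `V_mv`; norms are preserved). Lower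
bound: `‖p₁ - p₀‖ ≥ max h (t - C) ≥ c (t + 1)` with `c = min (h / (2 C + 2)) (1 / 4)` (if `t ≥ 2 C + 1`:
`t - C ≥ (t + 1) / 4`; otherwise `t + 1 ≤ 2 C + 2`). -/
def Sh_DEC : Prop := ∀ S : TriSys, ∃ (C c : ℝ) (m : ℕ), 1 ≤ C ∧ 0 < c ∧ ∀ (r : S.R) (x v : ℂ) (w t n : ℝ)
  (js js' js'' : List (ZMod 3)), ‖v‖ = 1 → 0 < w → w ≤ 1 → 0 ≤ t → t ≤ n → PW S r x v 1 js →
  PW S r x v (1 + t) (js ++ js') → PW S r x v (1 + n) (js ++ (js' ++ js'')) →
  clr (Pl.home S r) js x v < w → w ≤ clr (endP (Pl.home S r) js) js' x v →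
  clr (endP (Pl.home S r) js) (js' ++ js'') x v < w →
  ∃ (js₁ word : List (ZMod 3)) (i₀ : ZMod 3), js₁.length ≤ m ∧
    word ∈ GG S (endP (Pl.home S r) js₁).r i₀ (n + C) ∧
    |cx v ((endP (Pl.home S r) js₁).V i₀ - x)| < w ∧
    |cx v (apQ (endP (Pl.home S r) js₁) i₀ word - x)| < w ∧
    c * (t + 1) ≤ ‖apQ (endP (Pl.home S r) js₁) i₀ word - (endP (Pl.home S r) js₁).V i₀‖

/-! ## Assembly -/

/-- UNB. The union bound. Proof. By DEC `EvD t n r` (in `Ioc × rm`, where `‖ev ψ‖ = 1`) is contained in the union over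
`js₁` of length `≤ m` (finite: `List.finite_length_le`), `i₀`, `word ∈ GG (endP js₁).r i₀ (n + C)` (finite, `m_KFIN`) of
the sets of STR with `p₀ = (endP js₁).V i₀`, `p₁ = apQ ..`, `l = c (t + 1)` (only those words with
`l ≤ ‖p₁ - p₀‖`, the others are not needed). `measure_biUnion_finset_le`; the number of words is at most `GT S (n + C)` for
each `(js₁, i₀)` (a single term of the sum of nonnegative numbers), and `GT S` is monotone (`GG L ⊆ GG L'`, finite), so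
the constant of DEC can be enlarged. Sum over `r`. -/
def Sh_UNB : Prop := ∀ S : TriSys, ∃ C : ℝ, 1 ≤ C ∧ ∀ w t n : ℝ, 0 < w → w ≤ 1 → 0 ≤ t → t ≤ n →
  mm S (EvD S w t n) ≤ ENNReal.ofReal (C * w ^ 2 * GT S (n + C) / (t + 1))

/-- UNE. The union bound for `EE`. Proof. The function is the indicator of the phase set
`A r = {p | DD (1) < w, w ≤ DT 1 t, DT 1 n < w}`, measurable by MEA (or `m_KMSD`) and Sw_SHM (`DT = shf 1 (DD t)`); so
`EE = (mm A).toReal` (EEM). Up to null sets (NOW for `1`, `1 + t`, `1 + n`) a point of `A` has words `js` for `1`,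
`js ++ js'` for `1 + t` and `js ++ W` for `1 + n` (Sw_SPL (1), or MON), `js' <+: W` (MON), and `DD (1) = clr js` (UNI),
`DT 1 t = clr (endP js) js'`, `DT 1 n = clr (endP js) W` (Sw_SPL (4)): it is in `EvD`. So `mm A ≤ mm EvD`, UNB. -/
def Sh_UNE : Prop := ∀ S : TriSys, ∃ C : ℝ, 1 ≤ C ∧ ∀ w t n : ℝ, 0 < w → w ≤ 1 → 0 ≤ t → t ≤ n →
  (EE S fun r x ψ =>
    open Classical in if DD S r x (ev ψ) 1 < w ∧ w ≤ DT S r x (ev ψ) 1 t ∧ DT S r x (ev ψ) 1 n < w then 1 else 0) ≤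
    C * w ^ 2 * GT S (n + C) / (t + 1)

/-- SEQ. Pure calculus. Proof. Let `K = ⌊N⌋₊`, `1 ≤ K ≤ N < K + 1`. `P N ≤ P (1 + K) = P 1 + ∑_(k = 1)^K h k`
(induction: `P (1 + k) = P k + h k`), `h k ≤ h n + b / (k + 1)`, `∑_(k=1)^K 1/(k+1) ≤ log (K + 1) ≤ 1 + log N`
(`log (2 N) ≤ 1 + log N`; harmonic numbers: `harmonic_le_one_add_log` or induction with
`1/(k+1) ≤ log (k+1) - log k`). `h n ≤ V / n`: with `m = ⌊n⌋₊`,
`(m + 1) h n ≤ ∑_(k=0)^m h k = P (m + 1) - P 0 ≤ V` and `n ≤ m + 1`; `0 ≤ h` by monotonicity of `P`. -/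
def Sh_SEQ : Prop := ∀ (P h : ℝ → ℝ) (V a b n : ℝ), 1 ≤ n → (∀ t, 0 ≤ t → 0 ≤ P t ∧ P t ≤ V) →
  MonotoneOn P (Ici 0) → (∀ t, 0 ≤ t → P (1 + t) = P t + h t) → AntitoneOn h (Ici 0) → P 1 ≤ a → 0 ≤ b →
  (∀ t, 0 ≤ t → t ≤ n → h t ≤ h n + b / (t + 1)) →
  ∀ N, 1 ≤ N → N ≤ n → P N ≤ a + N * V / n + b * (1 + Real.log N)

/-- PPM. `pp` is bounded and monotone in the length. Proof: EEM and MSE: `pp S w N = (mm {DD (N) < w}).toReal`, bounded by
the total measure `∑ r, 2 π volume (rm S r)`; `DD` decreases in `N` up to a null set (NOW, MON). -/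
def Sh_PPM : Prop := ∀ S : TriSys, ∃ V : ℝ, 0 < V ∧ ∀ w : ℝ, 0 < w →
  (∀ t, 0 ≤ t → 0 ≤ pp S w t ∧ pp S w t ≤ V) ∧ MonotoneOn (pp S w) (Ici 0)

/-- HIT. The interface. Proof: SEQ with `P = pp S w`, `h t = hh S w 1 t` (Sw_HHH with `T = 1`: all four parts), `V` from
PPM, `a = C w` (ONE), `b = C w² GT (n + C)` (UNE). `GT S` is nonnegative and monotone (`GG L ⊆ GG L'` for `L ≤ L'`, finite
by `m_KFIN`, `ncard_le_ncard`), `n + C ≤ (1 + C) n`. -/
def Sh_HIT : Prop := Si_HIT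

/-- DYA. Dyadic bound for the kernel. Proof: let `J` be the number with `4^J ≤ 1/s < 4^(J+1)`. If `1 ≤ d`: `kp ≤ 1`. If
`d < 1` let `j` be maximal `≤ J` with `d < 2^(-j)`. If `j < J`: `2^(-(j+1)) ≤ d`, `kp ≤ 1 / d² ≤ 4^(j+1)`. If `j = J`:
`kp ≤ 1/s < 4^(J+1)`. The other terms are `≥ 0`. `J + 1 ≤ 1 + log (1/s)` because `J log 4 ≤ log (1/s)` and `1 ≤ log 4`. -/
def Sh_DYA : Prop := ∀ s : ℝ, 0 < s → s ≤ 1 → ∃ J : ℕ, (4 : ℝ) ^ J ≤ 1 / s ∧ (J : ℝ) + 1 ≤ 1 + Real.log (1 / s) ∧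
  ∀ d : ℝ, 0 ≤ d → kp s d ≤ 1 + 4 * ∑ j ∈ Finset.range (J + 1), (4 : ℝ) ^ j * (if d < (1 / 2) ^ j then 1 else 0)

/-- HTU. The interface. Proof. DYA with `d = DD (N)` (`0 ≤ DD`, BND), Sw_EEL (and `EE 1 = V` for the constant):
`UU S s N ≤ V + 4 ∑_(j ≤ J) 4^j pp S (2^(-j)) N`, and HIT with `w = 2^(-j) ≤ 1`:
`4^j pp (2^(-j)) N ≤ C (4^j N / n + 2^j + (1 + log N) GT (C n))`. `∑_(j ≤ J) 4^j ≤ (4/3) 4^J ≤ (4/3) / s`,
`∑_(j ≤ J) 2^j ≤ 2 * 2^J ≤ 2 / √s` (`(2^J)² = 4^J ≤ 1/s`), `J + 1 ≤ 1 + log (1/s)`, `V ≤ V / √s`. -/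
def Sh_HTU : Prop := Si_HTU

end Pool.Agent.FAN
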