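import Pool.Agent.FAN2.HBase
import Pool.Agent.FAN2.StH

/-!
# FAN2, block H, module BAN: area of a band in a room (helper25)
-/

set_option autoImplicit false

open scoped ComplexConjugate
open MeasureTheory Set

namespace Pool.Agent.FAN

private lemma hban_dt (v z : ℂ) (hv : ‖v‖ = 1) : |dt v z| ≤ ‖z‖ := by
  have h1 : dt v z = (conj v * z).re := by
    simp [dt, Complex.mul_re]
  rw [h1]
  refine (Complex.abs_re_le_norm _).trans ?_
  rw [norm_mul, Complex.norm_conj, hv, one_mul]

theorem h_BAN : Sh_BAN := by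
  intro S
  obtain ⟨D₀, h₀, hD, -, -, hIn, -, -⟩ := b_DIA S
  refine ⟨4 * D₀, by linarith, fun r p v w hv hw => ?_⟩
  have h1 : {x | x ∈ rm S r ∧ |cx v (p - x)| < w} ⊆
      {y : ℂ | |cx v (y - p)| ≤ w ∧ dt v (S.P r 0 - p) - D₀ ≤ dt v (y - p) ∧
        dt v (y - p) ≤ dt v (S.P r 0 - p) + D₀} := by
    rintro x ⟨hx, hc⟩
    have h2 := hIn (Pl.home S r) x 0 hx
    have h3 : (Pl.home S r).V 0 = S.P r 0 := by simp [Pl.V, Pl.home]
    rw [h3] at h2
    have h4 := (hban_dt v (x - S.P r 0) hv).trans h2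
    have h5 : dt v (x - p) = dt v (S.P r 0 - p) + dt v (x - S.P r 0) := by
      simp only [dt, Complex.sub_re, Complex.sub_im]
      ring
    have h6 : cx v (x - p) = -cx v (p - x) := by
      simp only [cx, Complex.sub_re, Complex.sub_im]
      ring
    rw [abs_le] at h4
    refine ⟨?_, ?_, ?_⟩
    · rw [h6, abs_neg]
      exact hc.le
    · rw [h5]
      linarith [h4.1]
    · rw [h5]
      linarith [h4.2]
  refine (measure_mono h1).trans ?_
  rw [m_KRCT p v w _ _ hv hw.le (by linarith)]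
  apply ENNReal.ofReal_le_ofReal
  apply le_of_eq
  ring

end Pool.Agent.FAN
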