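import Pool.Agent.FAN2.H_GEO

/-!
# FAN2, block H: DEC (helper15)
-/

set_option autoImplicit false

open scoped ComplexConjugate
open MeasureTheory Set

namespace Pool.Agent.FAN

theorem hdec_gg {S : TriSys} (Q : Pl S) (i₀ : ZMod 3) (l : List (ZMod 3)) (L : ℝ)
    (hr : Run Q (Q.V i₀) (apQ Q i₀ (i₀ :: l) - Q.V i₀) (i₀ :: l))
    (hn : ‖apQ Q i₀ (i₀ :: l) - Q.V i₀‖ ≤ L) : (i₀ :: l) ∈ GG S Q.r i₀ L := by
  have e0 : Q.V i₀ = Q.a * S.P Q.r i₀ + Q.b := rfl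
  have e1 : apQ Q i₀ (i₀ :: l) = Q.a * (endP (Pl.home S Q.r) (i₀ :: l)).V
      (eI (Pl.home S Q.r) i₀ (i₀ :: l)) + Q.b := by
    have h1 := endP_mv Q.a Q.b Q.ha (i₀ :: l) (Pl.home S Q.r)
    have h2 := eI_mv Q.a Q.b Q.ha (i₀ :: l) (Pl.home S Q.r) i₀
    rw [Pl.mv_home] at h1 h2
    rw [apQ, h1, h2, Pl.V_mv]
  have e2 : apQ Q i₀ (i₀ :: l) - Q.V i₀ = Q.a * ((endP (Pl.home S Q.r) (i₀ :: l)).V
      (eI (Pl.home S Q.r) i₀ (i₀ :: l)) - S.P Q.r i₀) := by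
    rw [e1, e0]; ring
  refine ⟨⟨l, rfl⟩, ?_, ?_⟩
  · have h3 := Run_mv Q.a Q.b Q.ha (i₀ :: l) (Pl.home S Q.r) (S.P Q.r i₀)
      ((endP (Pl.home S Q.r) (i₀ :: l)).V (eI (Pl.home S Q.r) i₀ (i₀ :: l)) - S.P Q.r i₀)
    rw [Pl.mv_home, ← e2, ← e0] at h3
    exact h3.1 hr
  · rw [e2, norm_mul, Q.ha, one_mul] at hn
    exact hn

theorem h_DEC (h1 : Sh_LST) (h2 : Sh_FST) (h3 : Sh_CLA) (h4 : Sh_GEO) (h5 : Sh_TMS) : Sh_DEC := by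
  intro S
  obtain ⟨h, hh, hG⟩ := h4 S
  obtain ⟨C, m, hC, hT⟩ := h5 S
  refine ⟨C, min (h / (2 * C + 2)) (1 / 4), m, hC, lt_min (by positivity) (by norm_num), ?_⟩
  intro r x v w t n js js' js'' hv hw hw1 ht htn hp1 hp2 hp3 hc1 hc2 hc3
  obtain ⟨js₁, i₀, l₁, he, hh0, hcl⟩ := h1 S js js' (Pl.home S r) x v w hc1 hc2
  obtain ⟨Q, hQ⟩ : ∃ Q, Q = endP (Pl.home S r) js₁ := ⟨_, rfl⟩
  rw [← hQ] at hh0 hcl
  have hend : endP (Pl.home S r) js = endP (Q.nx i₀) l₁ := by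
    rw [he, endP_append, ← hQ]; rfl
  have hfull : clr (Q.nx i₀) ((l₁ ++ js') ++ js'') x v < w := by
    rw [List.append_assoc, h3, ← hend]
    exact min_lt_of_right_lt hc3
  obtain ⟨l₂, j, l₃, he2, hcl2, hh2⟩ := h2 S js'' (l₁ ++ js') (Q.nx i₀) x v w hcl hfull
  have hap : apQ Q i₀ (i₀ :: ((l₁ ++ js' ++ l₂) ++ [j])) =
      ((endP (Q.nx i₀) (l₁ ++ js' ++ l₂)).nx j).V ((endP (Q.nx i₀) (l₁ ++ js' ++ l₂)).en j) := by
    unfold apQ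
    simp only [endP, eI, endP_append, eI_append]
  rw [← hap] at hh2
  have hrun : Run Q x v (i₀ :: ((l₁ ++ js' ++ l₂) ++ [j])) := by
    have h6 := hp3.2.1
    have e : js ++ (js' ++ js'') = js₁ ++ ((i₀ :: ((l₁ ++ js' ++ l₂) ++ [j])) ++ l₃) := by
      rw [he, he2]; simp
    rw [e, Run_append, ← hQ, Run_append] at h6
    exact h6.2.1
  obtain ⟨hr, hlen⟩ := hG Q i₀ j (l₁ ++ js' ++ l₂) x v w hv hw hrun hh0 hcl2 hh2
  obtain ⟨hm, hl1, hl2⟩ := hT r x v w t n js₁ l₁ js' l₂ l₃ i₀ j hv hw hw1 ht htn (he ▸ hp1)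
    (he ▸ hp2) (by rw [← he2, ← he]; exact hp3) Q hQ hh0 hh2
  refine ⟨js₁, i₀ :: ((l₁ ++ js' ++ l₂) ++ [j]), i₀, hm, ?_, ?_, ?_, ?_⟩
  · rw [← hQ]; exact hdec_gg Q i₀ _ _ hr hl2
  · rw [← hQ]; exact hh0
  · rw [← hQ]; exact hh2
  · rw [← hQ]
    rcases le_total (2 * C + 1) t with h7 | h7
    · have : min (h / (2 * C + 2)) (1 / 4) * (t + 1) ≤ 1 / 4 * (t + 1) :=
        mul_le_mul_of_nonneg_right (min_le_right _ _) (by linarith)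
      linarith
    · have h8 : min (h / (2 * C + 2)) (1 / 4) * (t + 1) ≤ h / (2 * C + 2) * (t + 1) :=
        mul_le_mul_of_nonneg_right (min_le_left _ _) (by linarith)
      have h9 : h / (2 * C + 2) * (t + 1) ≤ h / (2 * C + 2) * (2 * C + 2) :=
        mul_le_mul_of_nonneg_left (by linarith) (by positivity)
      have h10 : h / (2 * C + 2) * (2 * C + 2) = h := by field_simp
      linarith

end Pool.Agent.FAN
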