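import Pool.Agent.FAN2.StH

/-!
# FAN2, block H: dyadic bound for the kernel (helper61)
-/

set_option autoImplicit false

namespace Pool.Agent.FAN

private lemma hdya_log4 : (1 : ℝ) ≤ Real.log 4 := by
  have h1 : Real.log 4 = 2 * Real.log 2 := by
    rw [show (4 : ℝ) = 2 ^ 2 by norm_num, Real.log_pow]; norm_num
  have h2 := Real.log_two_gt_d9
  rw [h1]; linarith

private lemma hdya_single (J j : ℕ) (d : ℝ) (hj : j ≤ J) (hd : d < (1 / 2) ^ j) :
    (4 : ℝ) ^ j ≤ ∑ i ∈ Finset.range (J + 1), (4 : ℝ) ^ i * (if d < (1 / 2) ^ i then 1 else 0) := by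
  have h := Finset.single_le_sum (s := Finset.range (J + 1))
    (f := fun i : ℕ => (4 : ℝ) ^ i * (if d < (1 / 2 : ℝ) ^ i then (1 : ℝ) else 0))
    (fun i _ => by
      have : (0 : ℝ) ≤ (4 : ℝ) ^ i := by positivity
      split_ifs <;> simp [this])
    (Finset.mem_range.2 (Nat.lt_succ_of_le hj))
  simp only [if_pos hd, mul_one] at h
  exact h

theorem h_DYA : Sh_DYA := by
  intro s hs hs1
  have h1s : (1 : ℝ) ≤ 1 / s := by rw [le_div_iff₀ hs]; linarith
  obtain ⟨J, hJ1, hJ2⟩ := exists_nat_pow_near h1s (by norm_num : (1 : ℝ) < 4)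
  refine ⟨J, hJ1, ?_, ?_⟩
  · have h := Real.log_le_log (by positivity) hJ1
    rw [Real.log_pow] at h
    have h4 := hdya_log4
    have hJ : (0 : ℝ) ≤ (J : ℝ) := Nat.cast_nonneg J
    nlinarith
  · intro d hd
    have hsum : 0 ≤ ∑ j ∈ Finset.range (J + 1), (4 : ℝ) ^ j * (if d < (1 / 2) ^ j then (1 : ℝ) else 0) :=
      Finset.sum_nonneg (fun i _ => by
        have : (0 : ℝ) ≤ (4 : ℝ) ^ i := by positivity
        split_ifs <;> simp [this])
    unfold kp
    by_cases h1 : 1 ≤ d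
    · have : 1 / (d ^ 2 + s) ≤ 1 := by
        rw [div_le_one (by positivity)]
        nlinarith
      linarith
    · have h1' : d < 1 := not_le.1 h1
      by_cases hJd : d < (1 / 2) ^ J
      · have h2 := hdya_single J J d le_rfl hJd
        have h3 : 1 / (d ^ 2 + s) ≤ 1 / s := by
          apply one_div_le_one_div_of_le hs
          nlinarith [sq_nonneg d]
        have h4 : (4 : ℝ) ^ (J + 1) = 4 * 4 ^ J := by ring
        rw [h4] at hJ2
        linarith
      · -- the largest j with d < 2^(-j)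
        have hex : ∃ j : ℕ, ¬ d < (1 / 2 : ℝ) ^ j := ⟨J, hJd⟩
        classical
        obtain ⟨k, hk1, hk2⟩ : ∃ k : ℕ, (¬ d < (1 / 2 : ℝ) ^ k) ∧ ∀ m, m < k → d < (1 / 2 : ℝ) ^ m :=
          ⟨Nat.find hex, Nat.find_spec hex, fun m hm => not_not.1 (Nat.find_min hex hm)⟩
        have hkpos : k ≠ 0 := by
          rintro rfl
          simp at hk1
          exact absurd h1' (not_lt.2 hk1)
        obtain ⟨j, rfl⟩ := Nat.exists_eq_succ_of_ne_zero hkpos
        have hjd : d < (1 / 2 : ℝ) ^ j := hk2 j (Nat.lt_succ_self j)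
        have hjJ : j ≤ J := by
          by_contra hc
          exact hJd (hk2 J (by omega))
        have h2 := hdya_single J j d hjJ hjd
        have h5 : (1 / 2 : ℝ) ^ (j + 1) ≤ d := not_lt.1 hk1
        have h6 : ((1 / 2 : ℝ) ^ (j + 1)) ^ 2 ≤ d ^ 2 := by
          apply pow_le_pow_left₀ (by positivity) h5
        have h7 : ((1 / 2 : ℝ) ^ (j + 1)) ^ 2 = 1 / (4 : ℝ) ^ (j + 1) := by
          rw [← pow_mul, mul_comm, pow_mul, one_div ((4 : ℝ) ^ (j + 1)), ← inv_pow]
          norm_num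
        have h8 : 1 / (d ^ 2 + s) ≤ (4 : ℝ) ^ (j + 1) := by
          rw [div_le_iff₀ (by positivity)]
          have h9 : 1 / (4 : ℝ) ^ (j + 1) ≤ d ^ 2 + s := by rw [← h7]; linarith
          have h10 : (0 : ℝ) < (4 : ℝ) ^ (j + 1) := by positivity
          calc (1 : ℝ) = (4 : ℝ) ^ (j + 1) * (1 / (4 : ℝ) ^ (j + 1)) := by field_simp
            _ ≤ (4 : ℝ) ^ (j + 1) * (d ^ 2 + s) := mul_le_mul_of_nonneg_left h9 h10.le
        have h4 : (4 : ℝ) ^ (j + 1) = 4 * 4 ^ j := by ring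
        rw [h4] at h8
        linarith

end Pool.Agent.FAN
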