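import Pool.Agent.FAN2.StH

/-!
# FAN2, block H: EEL from block W (helper15)
-/

set_option autoImplicit false

open scoped ComplexConjugate
open MeasureTheory Set

namespace Pool.Agent.FAN

theorem h_EEL (h : Sw_EEL) : Sh_EEL := by
  intro S B G G' hm hm' hb
  obtain ⟨a, b, c, -⟩ := h S G G' B (fun r => (hm r).comp measurable_swap)
    (fun r => (hm' r).comp measurable_swap) (fun r x ψ => (hb r x ψ).1) (fun r x ψ => (hb r x ψ).2)
  refine ⟨a, b, fun hle => c fun r x _ => ?_⟩
  have : {ψ : ℝ | ¬ G r x ψ ≤ G' r x ψ} = ∅ := by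
    ext ψ
    simp [hle r x ψ]
  rw [this]
  exact countable_empty

end Pool.Agent.FAN
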