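import Pool.Agent.FAN2.HBase

/-!
# FAN2, block H: EEM (helper15)
-/

set_option autoImplicit false

open scoped ComplexConjugate
open MeasureTheory Set

namespace Pool.Agent.FAN

theorem h_EEM : Sh_EEM := by
  intro S A hA
  obtain ⟨C, -, -, -, hrm⟩ := b_KMSD S
  have hms : ∀ r, MeasurableSet (Ioc (0 : ℝ) (2 * Real.pi) ×ˢ rm S r) := fun r =>
    measurableSet_Ioc.prod (hrm r).1
  have hfin : ∀ r, volume (Ioc (0 : ℝ) (2 * Real.pi) ×ˢ rm S r) < ⊤ := by
    intro r
    rw [Measure.volume_eq_prod, Measure.prod_prod]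
    exact ENNReal.mul_lt_top (by rw [Real.volume_Ioc]; exact ENNReal.ofReal_lt_top) (hrm r).2
  have hfin2 : ∀ r, volume (A r ∩ (Ioc (0 : ℝ) (2 * Real.pi) ×ˢ rm S r)) < ⊤ := fun r =>
    lt_of_le_of_lt (measure_mono inter_subset_right) (hfin r)
  refine ⟨ENNReal.sum_lt_top.2 fun r _ => hfin2 r, ?_⟩
  intro G hG
  unfold EE mm
  rw [ENNReal.toReal_sum fun r _ => (hfin2 r).ne]
  refine Finset.sum_congr rfl fun r _ => ?_
  have hGi : ∀ p : ℝ × ℂ, G r p.2 p.1 = (A r).indicator (fun _ => (1 : ℝ)) p := by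
    intro p
    by_cases hp : p ∈ A r
    · rw [indicator_of_mem hp, (hG r p.2 p.1).1 hp]
    · rw [indicator_of_notMem hp, (hG r p.2 p.1).2 hp]
  have hint : IntegrableOn (fun p : ℝ × ℂ => G r p.2 p.1) (Ioc (0 : ℝ) (2 * Real.pi) ×ˢ rm S r)
      ((volume : Measure ℝ).prod volume) := by
    have h1 : (fun p : ℝ × ℂ => G r p.2 p.1) = (A r).indicator (fun _ => (1 : ℝ)) := funext hGi
    rw [h1]
    refine IntegrableOn.indicator ?_ (hA r)
    rw [integrableOn_const_iff]
    right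
    have := hfin r
    rwa [Measure.volume_eq_prod] at this
  rw [intervalIntegral.integral_of_le (by positivity)]
  have h2 := setIntegral_prod (fun p : ℝ × ℂ => G r p.2 p.1) hint
  simp only at h2
  rw [← h2]
  have h3 : (fun p : ℝ × ℂ => G r p.2 p.1) = (A r).indicator (fun _ => (1 : ℝ)) := funext hGi
  rw [h3, ← Measure.volume_eq_prod, integral_indicator (hA r), setIntegral_const, smul_eq_mul, mul_one]
  rw [Measure.real, Measure.restrict_apply (hA r)]

end Pool.Agent.FAN
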