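import Pool.Agent.FAN2.H_SPL

/-!
# FAN2, block H: FLW and UNE (helper15)
-/

set_option autoImplicit false

open scoped ComplexConjugate
open MeasureTheory Set

namespace Pool.Agent.FAN

theorem hflw_DD (S : TriSys) (r : S.R) (N : ℝ) :
    Measurable fun p : ℝ × ℂ => DD S r p.2 (ev p.1) N := by
  obtain ⟨C, -, h, -⟩ := b_KMSD S
  exact h r N

theorem hflw_DT (h5 : Sw_SHM) (S : TriSys) (r : S.R) (T t : ℝ) :
    Measurable fun p : ℝ × ℂ => DT S r p.2 (ev p.1) T t := by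
  have hG : ∀ r : S.R, Measurable fun p : ℂ × ℂ => DD S r p.1 p.2 t := fun r =>
    (b_MEA S r).1.comp (measurable_fst.prodMk (measurable_snd.prodMk measurable_const))
  have h := h5 S T (fun r x v => DD S r x v t) hG r
  exact h.comp (measurable_snd.prodMk (continuous_ev.measurable.comp measurable_fst))

theorem hflw_null2 (S : TriSys) (A B : S.R → Set (ℝ × ℂ)) (hA : mm S A = 0) (hB : mm S B = 0) :
    mm S (fun r => A r ∪ B r) = 0 := by
  have := hspl_union S A B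
  rw [hA, hB, add_zero] at this
  exact le_antisymm this zero_le

/-- at a phase point with words for `1` and `1 + t` -/
theorem hflw_pt (h6 : Sw_SPL) {S : TriSys} {r : S.R} {x v : ℂ} {t : ℝ} (hv : ‖v‖ = 1) (ht : 0 ≤ t)
    {js js' : List (ZMod 3)} (hp1 : PW S r x v 1 js) (hp2 : PW S r x v (1 + t) (js ++ js')) :
    DD S r x v 1 = clr (Pl.home S r) js x v ∧ DT S r x v 1 t = clr (endP (Pl.home S r) js) js' x v := by
  refine ⟨(b_UNI S r x v 1 js js hp1 hp1).2.1, ?_⟩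
  exact (h6 S r x v 1 t js _ hv zero_le_one ht hp1 rfl).2.2.2 js' hp2

theorem h_FLW (h1 : Sh_EEM) (h2 : Sh_NOW) (h5 : Sw_SHM) (h6 : Sw_SPL) (h7 : Sw_HHH) : Sh_FLW := by
  intro S w t hw ht
  rw [(h7 S w 1 hw zero_le_one).1 t ht]
  congr 1
  have hA : ∀ r : S.R, MeasurableSet {p : ℝ × ℂ | DD S r p.2 (ev p.1) 1 < w ∧
      w ≤ DT S r p.2 (ev p.1) 1 t} := fun r =>
    (measurableSet_lt (hflw_DD S r 1) measurable_const).inter
      (measurableSet_le measurable_const (hflw_DT h5 S r 1 t))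
  have e0 : hh S w 1 t = (mm S (fun r => {p : ℝ × ℂ | DD S r p.2 (ev p.1) 1 < w ∧
      w ≤ DT S r p.2 (ev p.1) 1 t})).toReal := by
    unfold hh
    exact (h1 S (fun r => {p : ℝ × ℂ | DD S r p.2 (ev p.1) 1 < w ∧
      w ≤ DT S r p.2 (ev p.1) 1 t}) hA).2 _ (fun r x ψ => ⟨fun h => if_pos h, fun h => if_neg h⟩)
  rw [e0]
  congr 1
  apply le_antisymm
  · refine hant_mono S _ _ (fun r => {p | ¬ ∃ js, PW S r p.2 (ev p.1) 1 js} ∪
      {p | ¬ ∃ js, PW S r p.2 (ev p.1) (1 + t) js})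
      (hflw_null2 S _ _ (h2 S 1 zero_le_one) (h2 S (1 + t) (by linarith))) fun r p hp => ?_
    by_cases hz1 : ∃ js, PW S r p.2 (ev p.1) 1 js
    · by_cases hz2 : ∃ js, PW S r p.2 (ev p.1) (1 + t) js
      · left
        obtain ⟨js, hjs⟩ := hz1
        obtain ⟨js₂, hjs₂⟩ := hz2
        obtain ⟨js', rfl⟩ := (b_MON S r p.2 (ev p.1) 1 (1 + t) js js₂ (by linarith) hjs hjs₂).1
        obtain ⟨a, b⟩ := hflw_pt h6 (norm_ev p.1) ht hjs hjs₂
        obtain ⟨c, d⟩ := hp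
        exact ⟨js, js', hjs, hjs₂, a ▸ c, b ▸ d⟩
      · exact Or.inr (Or.inr hz2)
    · exact Or.inr (Or.inl hz1)
  · refine hant_mono S _ _ (fun r => ∅) (by simp [mm]) fun r p hp => ?_
    left
    obtain ⟨js, js', hp1, hp2, hc1, hc2⟩ := hp
    obtain ⟨a, b⟩ := hflw_pt h6 (norm_ev p.1) ht hp1 hp2
    exact ⟨a ▸ hc1, b ▸ hc2⟩

end Pool.Agent.FAN
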