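import Pool.Agent.FAN2.HBase

/-!
# FAN2, block H, module HIT (helper81): the interface of the hits
-/

set_option autoImplicit false

open scoped ComplexConjugate
open MeasureTheory Set

namespace Pool.Agent.FAN

theorem hhit_GT_nonneg (S : TriSys) (L : ℝ) : 0 ≤ GT S L := by
  unfold GT
  exact Finset.sum_nonneg fun r _ => Finset.sum_nonneg fun i _ => Nat.cast_nonneg _

theorem hhit_GT_mono (S : TriSys) {L L' : ℝ} (h : L ≤ L') : GT S L ≤ GT S L' := by
  unfold GT
  refine Finset.sum_le_sum fun r _ => Finset.sum_le_sum fun i _ => ?_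
  have : (GG S r i L).ncard ≤ (GG S r i L').ncard := by
    refine Set.ncard_le_ncard ?_ (b_KFIN S r i L')
    rintro js ⟨a, b, c⟩
    exact ⟨a, b, c.trans h⟩
  exact_mod_cast this

theorem h_HIT (h1 : Sh_EEM) (h2 : Sh_MSE) (h3 : Sh_FLW) (h4 : Sh_ANT) (h5 : Sh_SPL) (h6 : Sh_ONE)
    (h7 : Sh_UNB) (h8 : Sh_SEQ) (h9 : Sh_PPM) : Sh_HIT := by
  intro S
  obtain ⟨C1, hC1, h6⟩ := h6 S
  obtain ⟨C2, hC2, h7⟩ := h7 S
  obtain ⟨V, hV, h9⟩ := h9 S
  refine ⟨1 + C1 + C2 + V, by linarith, ?_⟩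
  intro w N n hw hw1 hN hNn
  set C : ℝ := 1 + C1 + C2 + V with hC
  have hn1 : 1 ≤ n := hN.trans hNn
  have hn0 : 0 ≤ n := by linarith
  have hfin : ∀ t, mm S (EvH S w t) < ⊤ := fun t =>
    (h1 S (EvH S w t) (fun r => (h2 S w t n r).1)).1
  have hG0 : 0 ≤ GT S (n + C2) := hhit_GT_nonneg S _
  obtain ⟨h9a, h9b⟩ := h9 w hw
  have key := h8 (pp S w) (fun t => (mm S (EvH S w t)).toReal) V (C1 * w)
    (C2 * w ^ 2 * GT S (n + C2)) n hn1 h9a h9b (fun t ht => h3 S w t hw ht)
    (by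
      intro t ht t' _ htt'
      exact ENNReal.toReal_mono (hfin t).ne (h4 S w t t' ht htt'))
    (h6 w hw) (by positivity)
    (by
      intro t ht htn
      have hb : 0 ≤ C2 * w ^ 2 * GT S (n + C2) / (t + 1) := by positivity
      have e1 : mm S (EvH S w t) ≤ mm S (EvH S w n) +
          ENNReal.ofReal (C2 * w ^ 2 * GT S (n + C2) / (t + 1)) :=
        (h5 S w t n ht htn).trans (add_le_add (le_refl _) (h7 w t n hw hw1 ht htn))
      have e2 : (mm S (EvH S w t)).toReal ≤ (mm S (EvH S w n) +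
          ENNReal.ofReal (C2 * w ^ 2 * GT S (n + C2) / (t + 1))).toReal :=
        ENNReal.toReal_mono (ENNReal.add_lt_top.2 ⟨hfin n, ENNReal.ofReal_lt_top⟩).ne e1
      rw [ENNReal.toReal_add (hfin n).ne ENNReal.ofReal_ne_top, ENNReal.toReal_ofReal hb] at e2
      exact e2)
    N hN hNn
  have hlog : 0 ≤ 1 + Real.log N := by
    have := Real.log_nonneg hN
    linarith
  have hCge : C2 ≤ C := by rw [hC]; linarith
  have hC0 : 0 ≤ C := by rw [hC]; linarith
  have hGm : GT S (n + C2) ≤ GT S (C * n) := by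
    apply hhit_GT_mono
    have : (1 + C2) * n ≤ C * n := by
      apply mul_le_mul_of_nonneg_right _ hn0
      rw [hC]; linarith
    nlinarith
  have t1 : C1 * w ≤ C * w := by
    apply mul_le_mul_of_nonneg_right _ hw.le
    rw [hC]; linarith
  have t2 : N * V / n ≤ C * (N / n) := by
    have : N * V / n = V * (N / n) := by ring
    rw [this]
    apply mul_le_mul_of_nonneg_right _ (by positivity)
    rw [hC]; linarith
  have t3 : C2 * w ^ 2 * GT S (n + C2) * (1 + Real.log N) ≤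
      C * (w ^ 2 * (1 + Real.log N) * GT S (C * n)) := by
    have e1 : C2 * w ^ 2 * GT S (n + C2) * (1 + Real.log N) =
        C2 * (w ^ 2 * (1 + Real.log N) * GT S (n + C2)) := by ring
    rw [e1]
    apply mul_le_mul hCge _ (by positivity) hC0
    exact mul_le_mul_of_nonneg_left hGm (by positivity)
  calc pp S w N ≤ C1 * w + N * V / n + C2 * w ^ 2 * GT S (n + C2) * (1 + Real.log N) := key
    _ ≤ C * w + C * (N / n) + C * (w ^ 2 * (1 + Real.log N) * GT S (C * n)) := by linarith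
    _ = C * (N / n + w + w ^ 2 * (1 + Real.log N) * GT S (C * n)) := by ring

end Pool.Agent.FAN
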