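import Pool.Agent.FAN2.HBase

/-!
# FAN2, block H, module HTU (helper14): the interface `Si_HTU`
-/

set_option autoImplicit false

open scoped ComplexConjugate
open MeasureTheory Set

namespace Pool.Agent.FAN

private theorem hhtu_mD (S : TriSys) (r : S.R) (N : ℝ) :
    Measurable fun p : ℝ × ℂ => DD S r p.2 (ev p.1) N := by
  obtain ⟨C, -, h, -⟩ := b_KMSD S
  exact h r N

private theorem hhtu_meas (S : TriSys) (N : ℝ) (r : S.R) (w : ℝ) :
    Measurable (fun p : ℝ × ℂ => if DD S r p.2 (ev p.1) N < w then (1 : ℝ) else 0) := by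
  have h : Measurable fun p : ℝ × ℂ => DD S r p.2 (ev p.1) N := hhtu_mD S r N
  exact Measurable.ite (measurableSet_lt h measurable_const) measurable_const measurable_const

private theorem hhtu_measS (S : TriSys) (N : ℝ) (r : S.R) (a w : ℕ → ℝ) (J : ℕ) :
    Measurable (fun p : ℝ × ℂ => ∑ j ∈ Finset.range J,
      a j * (if DD S r p.2 (ev p.1) N < w j then (1 : ℝ) else 0)) := by
  refine Finset.measurable_fun_sum _ fun j _ => ?_
  exact (hhtu_meas S N r (w j)).const_mul (a j)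

private theorem hhtu_ind (q : Prop) [Decidable q] : |(if q then (1 : ℝ) else 0)| ≤ 1 := by
  split_ifs <;> simp

private theorem hhtu_bnd (S : TriSys) (N : ℝ) (r : S.R) (x : ℂ) (ψ : ℝ) (a w : ℕ → ℝ) (J : ℕ) :
    |∑ j ∈ Finset.range J, a j * (if DD S r x (ev ψ) N < w j then (1 : ℝ) else 0)| ≤
      ∑ j ∈ Finset.range J, |a j| := by
  refine (Finset.abs_sum_le_sum_abs _ _).trans (Finset.sum_le_sum fun j _ => ?_)
  rw [abs_mul]
  exact mul_le_of_le_one_right (abs_nonneg _) (hhtu_ind _)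

private theorem hhtu_sum (h2 : Sh_EEL) (S : TriSys) (N : ℝ) (a w : ℕ → ℝ) (J : ℕ) :
    (EE S fun r x ψ => ∑ j ∈ Finset.range J,
      a j * (if DD S r x (ev ψ) N < w j then (1 : ℝ) else 0)) =
      ∑ j ∈ Finset.range J, a j * pp S (w j) N := by
  induction J with
  | zero => simp [EE]
  | succ J ih =>
    have e1 := (h2 S (∑ j ∈ Finset.range (J + 1), |a j|)
      (fun r x ψ => ∑ j ∈ Finset.range J, a j * (if DD S r x (ev ψ) N < w j then (1 : ℝ) else 0))
      (fun r x ψ => a J * (if DD S r x (ev ψ) N < w J then (1 : ℝ) else 0))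
      (fun r => hhtu_measS S N r a w J) (fun r => (hhtu_meas S N r (w J)).const_mul (a J))
      (fun r x ψ => by
        have h0 : 0 ≤ ∑ j ∈ Finset.range J, |a j| := Finset.sum_nonneg fun j _ => abs_nonneg _
        constructor
        · refine (hhtu_bnd S N r x ψ a w J).trans ?_
          rw [Finset.sum_range_succ]
          linarith [abs_nonneg (a J)]
        · rw [abs_mul, Finset.sum_range_succ]
          have := mul_le_of_le_one_right (abs_nonneg (a J))
            (hhtu_ind (DD S r x (ev ψ) N < w J))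
          linarith)).1
    have e2 := (h2 S 1
      (fun r x ψ => (if DD S r x (ev ψ) N < w J then (1 : ℝ) else 0))
      (fun r x ψ => (if DD S r x (ev ψ) N < w J then (1 : ℝ) else 0))
      (fun r => hhtu_meas S N r (w J)) (fun r => hhtu_meas S N r (w J))
      (fun r x ψ => ⟨hhtu_ind _, hhtu_ind _⟩)).2.1 (a J)
    have e3 : (EE S fun r x ψ => (if DD S r x (ev ψ) N < w J then (1 : ℝ) else 0)) =
        pp S (w J) N := by
      unfold pp
      congr
    rw [Finset.sum_range_succ, ← ih, ← e3, ← e2, ← e1]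
    simp only [Finset.sum_range_succ]

private theorem hhtu_GT (S : TriSys) {L L' : ℝ} (h : L ≤ L') : GT S L ≤ GT S L' := by
  unfold GT
  refine Finset.sum_le_sum fun r _ => Finset.sum_le_sum fun i _ => ?_
  have h1 : GG S r i L ⊆ GG S r i L' := by
    intro js hjs
    exact ⟨hjs.1, hjs.2.1, hjs.2.2.trans h⟩
  exact_mod_cast Set.ncard_le_ncard h1 (b_KFIN S r i L')

private theorem hhtu_GT0 (S : TriSys) (L : ℝ) : 0 ≤ GT S L := by
  unfold GT
  exact Finset.sum_nonneg fun r _ => Finset.sum_nonneg fun i _ => Nat.cast_nonneg _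

private theorem hhtu_geo4 (J : ℕ) : ∑ j ∈ Finset.range (J + 1), (4 : ℝ) ^ j ≤ 4 / 3 * 4 ^ J := by
  induction J with
  | zero => norm_num
  | succ J ih =>
    rw [Finset.sum_range_succ]
    rw [pow_succ] at *
    nlinarith [ih]

private theorem hhtu_geo2 (J : ℕ) : ∑ j ∈ Finset.range (J + 1), (2 : ℝ) ^ j ≤ 2 * 2 ^ J := by
  induction J with
  | zero => norm_num
  | succ J ih =>
    rw [Finset.sum_range_succ]
    rw [pow_succ] at *
    nlinarith [ih]

theorem h_HTU (h1 : Sh_DYA) (h2 : Sh_EEL) (h3 : Si_HIT) : Sh_HTU := by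
  intro S
  obtain ⟨C1, hC1, hH⟩ := h3 S
  obtain ⟨D₀, h₀, hD₀, hh₀, ha, hb, hc, hd⟩ := b_DIA S
  have hDia : Dia S D₀ := ⟨hD₀, ha, hb, hc⟩
  set V1 : ℝ := EE S (fun _ _ _ => (1 : ℝ)) with hV1
  refine ⟨|V1| + 8 * C1, by linarith [abs_nonneg V1], fun s N n hs hs1 hN hNn => ?_⟩
  obtain ⟨J, hJ1, hJ2, hJ3⟩ := h1 s hs hs1
  have hN0 : (0 : ℝ) ≤ N := by linarith
  have hn0 : (0 : ℝ) < n := by linarith
  have hsq : 0 < √s := Real.sqrt_pos.2 hs
  have hsq1 : √s ≤ 1 := by
    rw [Real.sqrt_le_one]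
    exact hs1
  -- the comparison function
  set a : ℕ → ℝ := fun j => 4 * 4 ^ j with ha'
  set w : ℕ → ℝ := fun j => (1 / 2) ^ j with hw'
  have hDD0 : ∀ r x ψ, 0 ≤ DD S r x (ev ψ) N := fun r x ψ =>
    (b_BND S D₀ hDia r x (ev ψ) N (norm_ev ψ) hN0).1
  have hkp : ∀ r x ψ, kp s (DD S r x (ev ψ) N) ≤
      1 + ∑ j ∈ Finset.range (J + 1), a j * (if DD S r x (ev ψ) N < w j then (1 : ℝ) else 0) := by
    intro r x ψ
    have h := hJ3 (DD S r x (ev ψ) N) (hDD0 r x ψ)
    rw [Finset.mul_sum] at h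
    refine h.trans (le_of_eq ?_)
    congr 1
    refine Finset.sum_congr rfl fun j _ => ?_
    simp only [ha', hw']
    ring
  have hkp0 : ∀ r x ψ, 0 ≤ kp s (DD S r x (ev ψ) N) := by
    intro r x ψ
    unfold kp
    positivity
  set B : ℝ := 1 + ∑ j ∈ Finset.range (J + 1), |a j| with hB
  have hB1 : ∀ r x ψ, |1 + ∑ j ∈ Finset.range (J + 1),
      a j * (if DD S r x (ev ψ) N < w j then (1 : ℝ) else 0)| ≤ B := by
    intro r x ψ
    refine (abs_add_le _ _).trans ?_
    rw [abs_one, hB]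
    linarith [hhtu_bnd S N r x ψ a w (J + 1)]
  have hmD : ∀ r, Measurable fun p : ℝ × ℂ => DD S r p.2 (ev p.1) N := fun r => hhtu_mD S r N
  have hmk : ∀ r, Measurable fun p : ℝ × ℂ => kp s (DD S r p.2 (ev p.1) N) := by
    intro r
    unfold kp
    exact ((hmD r).pow_const 2 |>.add_const s).const_div 1
  have h5 : UU S s N ≤ EE S fun r x ψ => 1 + ∑ j ∈ Finset.range (J + 1),
      a j * (if DD S r x (ev ψ) N < w j then (1 : ℝ) else 0) := by
    refine (h2 S B (fun r x ψ => kp s (DD S r x (ev ψ) N))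
      (fun r x ψ => 1 + ∑ j ∈ Finset.range (J + 1),
      a j * (if DD S r x (ev ψ) N < w j then (1 : ℝ) else 0)) hmk
      (fun r => (hhtu_measS S N r a w (J + 1)).const_add 1) ?_).2.2 hkp
    intro r x ψ
    refine ⟨?_, hB1 r x ψ⟩
    rw [abs_of_nonneg (hkp0 r x ψ)]
    exact (hkp r x ψ).trans ((le_abs_self _).trans (hB1 r x ψ))
  have h6 : (EE S fun r x ψ => 1 + ∑ j ∈ Finset.range (J + 1),
      a j * (if DD S r x (ev ψ) N < w j then (1 : ℝ) else 0)) =
      V1 + ∑ j ∈ Finset.range (J + 1), a j * pp S (w j) N := by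
    rw [← hhtu_sum h2 S N a w (J + 1)]
    refine (h2 S B (fun _ _ _ => (1 : ℝ)) (fun r x ψ => ∑ j ∈ Finset.range (J + 1),
      a j * (if DD S r x (ev ψ) N < w j then (1 : ℝ) else 0)) (fun _ => measurable_const)
      (fun r => hhtu_measS S N r a w (J + 1)) ?_).1
    intro r x ψ
    have h0 : 0 ≤ ∑ j ∈ Finset.range (J + 1), |a j| := Finset.sum_nonneg fun j _ => abs_nonneg _
    refine ⟨by rw [abs_one, hB]; linarith, ?_⟩
    rw [hB]
    linarith [hhtu_bnd S N r x ψ a w (J + 1)]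
  -- the hits
  set g : ℝ := (1 + Real.log N) * GT S (C1 * n) with hg
  have hlogN : 0 ≤ Real.log N := Real.log_nonneg hN
  have hg0 : 0 ≤ g := mul_nonneg (by linarith) (hhtu_GT0 S _)
  have h7 : ∀ j, a j * pp S (w j) N ≤ 4 * C1 * (N / n * 4 ^ j + 2 ^ j + g) := by
    intro j
    have hw0 : 0 < w j := by simp only [hw']; positivity
    have hw1 : w j ≤ 1 := by
      simp only [hw']
      exact pow_le_one₀ (by norm_num) (by norm_num)
    have h := hH (w j) N n hw0 hw1 hN hNn
    have h8 : a j * pp S (w j) N ≤ a j * (C1 * (N / n + w j + w j ^ 2 * (1 + Real.log N) *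
        GT S (C1 * n))) := by
      refine mul_le_mul_of_nonneg_left h ?_
      simp only [ha']
      positivity
    refine h8.trans (le_of_eq ?_)
    have e1 : (4 : ℝ) ^ j * w j = 2 ^ j := by
      simp only [hw']
      rw [← mul_pow]
      norm_num
    have e2 : (4 : ℝ) ^ j * w j ^ 2 = 1 := by
      simp only [hw']
      rw [← pow_mul, mul_comm j 2, pow_mul, ← mul_pow]
      norm_num
    simp only [ha', hg]
    calc 4 * 4 ^ j * (C1 * (N / n + w j + w j ^ 2 * (1 + Real.log N) * GT S (C1 * n)))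
        = 4 * C1 * (N / n * 4 ^ j + 4 ^ j * w j + (4 ^ j * w j ^ 2) *
          ((1 + Real.log N) * GT S (C1 * n))) := by ring
      _ = _ := by rw [e1, e2]; ring
  have h8 : ∑ j ∈ Finset.range (J + 1), a j * pp S (w j) N ≤
      4 * C1 * (N / n * (4 / 3 * 4 ^ J) + 2 * 2 ^ J + ((J : ℝ) + 1) * g) := by
    refine (Finset.sum_le_sum fun j _ => h7 j).trans ?_
    rw [← Finset.mul_sum, Finset.sum_add_distrib, Finset.sum_add_distrib, ← Finset.mul_sum,
      Finset.sum_const, Finset.card_range, nsmul_eq_mul]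
    have hNn0 : 0 ≤ N / n := by positivity
    have h9 := mul_le_mul_of_nonneg_left (hhtu_geo4 J) hNn0
    have h10 := hhtu_geo2 J
    have hC0 : 0 ≤ 4 * C1 := by linarith
    refine mul_le_mul_of_nonneg_left ?_ hC0
    push_cast
    linarith
  -- powers
  have h2J : (2 : ℝ) ^ J ≤ 1 / √s := by
    have h9 : ((2 : ℝ) ^ J) ^ 2 ≤ 1 / s := by
      rw [← pow_mul, mul_comm J 2, pow_mul]
      norm_num
      simpa using hJ1
    have h10 : (1 / √s) ^ 2 = 1 / s := by
      rw [div_pow, Real.sq_sqrt hs.le, one_pow]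
    have h11 : (0 : ℝ) ≤ 1 / √s := by positivity
    exact (pow_le_pow_iff_left₀ (by positivity) h11 two_ne_zero).1 (h10 ▸ h9)
  have hV : V1 ≤ |V1| * (1 / √s) := by
    refine (le_abs_self V1).trans ?_
    have : 1 ≤ 1 / √s := by
      rw [le_div_iff₀ hsq]
      linarith
    exact le_mul_of_one_le_right (abs_nonneg _) this
  have hlog : 0 ≤ 1 + Real.log (1 / s) := by
    have : (0 : ℝ) ≤ J := Nat.cast_nonneg J
    linarith
  have hGTm : GT S (C1 * n) ≤ GT S ((|V1| + 8 * C1) * n) := by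
    refine hhtu_GT S ?_
    have := abs_nonneg V1
    nlinarith
  set g' : ℝ := (1 + Real.log N) * GT S ((|V1| + 8 * C1) * n) with hg'
  have hgg' : g ≤ g' := mul_le_mul_of_nonneg_left hGTm (by linarith)
  have hNn0 : 0 ≤ N / n := by positivity
  have hm1 : N / n * (4 / 3 * 4 ^ J) ≤ 2 * (N / (n * s)) := by
    have e : N / (n * s) = N / n * (1 / s) := by
      field_simp
    rw [e]
    have := mul_le_mul_of_nonneg_left hJ1 hNn0
    have h0 : 0 ≤ N / n * (1 / s) := by positivity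
    nlinarith
  have hm2 : ((J : ℝ) + 1) * g ≤ (1 + Real.log (1 / s)) * g' := by
    exact mul_le_mul hJ2 hgg' hg0 hlog
  have hfin : UU S s N ≤ |V1| * (1 / √s) + 4 * C1 * (2 * (N / (n * s)) + 2 * (1 / √s) +
      (1 + Real.log (1 / s)) * g') := by
    refine h5.trans ?_
    rw [h6]
    have hC0 : 0 ≤ 4 * C1 := by linarith
    have h12 := mul_le_mul_of_nonneg_left (add_le_add (add_le_add hm1
      (mul_le_mul_of_nonneg_left h2J (by norm_num : (0 : ℝ) ≤ 2))) hm2) hC0
    linarith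
  refine hfin.trans ?_
  have t1 : 0 ≤ N / (n * s) := by positivity
  have t2 : 0 ≤ 1 / √s := by positivity
  have t3 : 0 ≤ (1 + Real.log (1 / s)) * g' := mul_nonneg hlog (hg0.trans hgg')
  have t4 : (1 + Real.log (1 / s)) * (1 + Real.log N) * GT S ((|V1| + 8 * C1) * n) =
      (1 + Real.log (1 / s)) * g' := by rw [hg']; ring
  rw [t4]
  have hA := abs_nonneg V1
  nlinarith [mul_nonneg hA t1, mul_nonneg hA t3, mul_nonneg (by linarith : (0 : ℝ) ≤ C1) t1,
    mul_nonneg (by linarith : (0 : ℝ) ≤ C1) t3]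

end Pool.Agent.FAN
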