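import Pool.Agent.FAN2.HBase

/-!
# FAN2: module MSE (helper80): measurability of the hit events
-/

set_option autoImplicit false

open scoped ComplexConjugate
open MeasureTheory Set

namespace Pool.Agent.FAN

private lemma hmse_pw (S : TriSys) (r : S.R) (N : ℝ) (js : List (ZMod 3)) :
    MeasurableSet {p : ℝ × ℂ | PW S r p.2 (ev p.1) N js} := by
  obtain ⟨o1, o2, -, -⟩ := m_KOPN S js (Pl.home S r)
  have a0 := (o2 0).measurableSet
  have e5 : {p : ℝ × ℂ | (Pl.home S r).In (p.2 + (0 : ℝ) * ev p.1)} =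
      {p : ℝ × ℂ | (Pl.home S r).In p.2} := by
    ext p
    simp
  rw [e5] at a0
  have a2 := ((m_KOPN S js (endP (Pl.home S r) js)).2.1 N).measurableSet
  exact a0.inter (o1.measurableSet.inter a2)

private lemma hmse_lt (S : TriSys) (q : Pl S) (w : ℝ) (js : List (ZMod 3)) :
    MeasurableSet {p : ℝ × ℂ | clr q js p.2 (ev p.1) < w} :=
  measurableSet_lt (m_KOPN S js q).2.2.1.measurable measurable_const

private lemma hmse_ge (S : TriSys) (q : Pl S) (w : ℝ) (js : List (ZMod 3)) :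
    MeasurableSet {p : ℝ × ℂ | w ≤ clr q js p.2 (ev p.1)} :=
  measurableSet_le measurable_const (m_KOPN S js q).2.2.1.measurable

/-- MSE. -/
theorem h_MSE : Sh_MSE := by
  intro S w t n r
  refine ⟨?_, ?_, ?_⟩
  · have e : EvH S w t r = ⋃ js : List (ZMod 3), ⋃ js' : List (ZMod 3),
        ({p : ℝ × ℂ | PW S r p.2 (ev p.1) 1 js} ∩
          ({p : ℝ × ℂ | PW S r p.2 (ev p.1) (1 + t) (js ++ js')} ∩
            ({p : ℝ × ℂ | clr (Pl.home S r) js p.2 (ev p.1) < w} ∩
              {p : ℝ × ℂ | w ≤ clr (endP (Pl.home S r) js) js' p.2 (ev p.1)}))) := by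
      ext p
      simp only [EvH, mem_ofPred_eq, mem_iUnion, mem_inter_iff]
    rw [e]
    exact MeasurableSet.iUnion fun js => MeasurableSet.iUnion fun js' =>
      (hmse_pw S r _ _).inter ((hmse_pw S r _ _).inter ((hmse_lt S _ w _).inter (hmse_ge S _ w _)))
  · have e : EvD S w t n r = ⋃ js : List (ZMod 3), ⋃ js' : List (ZMod 3), ⋃ js'' : List (ZMod 3),
        ({p : ℝ × ℂ | PW S r p.2 (ev p.1) 1 js} ∩
          ({p : ℝ × ℂ | PW S r p.2 (ev p.1) (1 + t) (js ++ js')} ∩
            ({p : ℝ × ℂ | PW S r p.2 (ev p.1) (1 + n) (js ++ (js' ++ js''))} ∩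
              ({p : ℝ × ℂ | clr (Pl.home S r) js p.2 (ev p.1) < w} ∩
                ({p : ℝ × ℂ | w ≤ clr (endP (Pl.home S r) js) js' p.2 (ev p.1)} ∩
                  {p : ℝ × ℂ | clr (endP (Pl.home S r) js) (js' ++ js'') p.2 (ev p.1) < w}))))) := by
      ext p
      simp only [EvD, mem_ofPred_eq, mem_iUnion, mem_inter_iff]
    rw [e]
    exact MeasurableSet.iUnion fun js => MeasurableSet.iUnion fun js' =>
      MeasurableSet.iUnion fun js'' => (hmse_pw S r _ _).inter ((hmse_pw S r _ _).inter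
        ((hmse_pw S r _ _).inter ((hmse_lt S _ w _).inter ((hmse_ge S _ w _).inter
          (hmse_lt S _ w _)))))
  · obtain ⟨_, -, h, -, -⟩ := b_KMSD S
    exact measurableSet_lt (h r n) measurable_const

end Pool.Agent.FAN
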