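import Pool.Agent.FAN2.HBase

/-!
# FAN2, module NOW: almost all phase points have a word (helper65)
-/

set_option autoImplicit false

open scoped ComplexConjugate
open MeasureTheory Set

namespace Pool.Agent.FAN

/-- the set of phase points without a word is measurable -/
private lemma hnow_meas (S : TriSys) (r : S.R) (N : ℝ) :
    MeasurableSet {p : ℝ × ℂ | ¬ ∃ js, PW S r p.2 (ev p.1) N js} := by
  have hc : Continuous (fun p : ℝ × ℂ => ((p.2, ev p.1, N) : ℂ × ℂ × ℝ)) :=
    continuous_snd.prodMk ((continuous_ev.comp continuous_fst).prodMk continuous_const)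
  have h1 : IsOpen {p : ℝ × ℂ | ∃ js, PW S r p.2 (ev p.1) N js} := by
    have h2 : {p : ℝ × ℂ | ∃ js, PW S r p.2 (ev p.1) N js} =
        ⋃ js, {p : ℝ × ℂ | PW S r p.2 (ev p.1) N js} := by
      ext p
      simp
    rw [h2]
    exact isOpen_iUnion fun js => ((b_OPN S r).1 js).preimage hc
  exact h1.measurableSet.compl

theorem h_NOW : Sh_NOW := by
  intro S N hN
  unfold mm
  apply Finset.sum_eq_zero
  intro r _
  set B : Set (ℝ × ℂ) := {p | ¬ ∃ js, PW S r p.2 (ev p.1) N js} ∩
    (Ioc (0 : ℝ) (2 * Real.pi) ×ˢ rm S r) with hB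
  have hm : MeasurableSet B :=
    (hnow_meas S r N).inter (measurableSet_Ioc.prod (b_OPN S r).2.2.1)
  show volume B = 0
  rw [Measure.volume_eq_prod, Measure.prod_apply_symm hm]
  have hz : ∀ x : ℂ, volume ((fun ψ : ℝ => (ψ, x)) ⁻¹' B) = 0 := by
    intro x
    by_cases hx : x ∈ rm S r
    · have h1 : (fun ψ : ℝ => (ψ, x)) ⁻¹' B ⊆ {ψ : ℝ | ¬ ∃ js, PW S r x (ev ψ) N js} :=
        fun ψ hψ => hψ.1
      exact measure_mono_null h1 ((b_EXI S r x N hx hN).measure_zero volume)
    · have h1 : (fun ψ : ℝ => (ψ, x)) ⁻¹' B = ∅ := by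
        ext ψ
        constructor
        · intro hψ
          exact absurd hψ.2.2 hx
        · intro h
          exact absurd h (Set.notMem_empty ψ)
      rw [h1, measure_empty]
  simp only [hz, lintegral_zero]

end Pool.Agent.FAN
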