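import Pool.Agent.FAN2.HBase

/-!
# FAN2, block H, module ONE: hits in a window of length 1 (helper26)
-/

set_option autoImplicit false

open scoped ComplexConjugate
open MeasureTheory Set

namespace Pool.Agent.FAN

private lemma hone_cont (p : ℂ) : Continuous fun q : ℝ × ℂ => cx (ev q.1) (p - q.2) := by
  unfold cx ev
  simp only [Complex.sub_re, Complex.sub_im]
  fun_prop

private lemma hone_open (S : TriSys) (r : S.R) : IsOpen (rm S r) := by
  have h1 : rm S r = ⋂ i, {x : ℂ | 0 < cx ((Pl.home S r).V (i + 2) - (Pl.home S r).V (i + 1))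
      (x - (Pl.home S r).V (i + 1))} := by
    ext x
    simp only [rm, Pl.In, mem_ofPred_eq, mem_iInter]
  rw [h1]
  refine isOpen_iInter_of_finite fun i => ?_
  refine isOpen_lt continuous_const ?_
  unfold cx
  simp only [Complex.sub_re, Complex.sub_im]
  fun_prop

private lemma hone_ev (ψ : ℝ) : ‖ev ψ‖ = 1 := by
  have h1 : ‖ev ψ‖ ^ 2 = 1 := by
    rw [← Complex.normSq_eq_norm_sq, Complex.normSq_apply]
    have := Real.cos_sq_add_sin_sq ψ
    simp only [ev]
    nlinarith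
  have h2 := norm_nonneg (ev ψ)
  nlinarith

/-- the set of the phase points of a room whose line is close to the point `p` -/
private def honeB (S : TriSys) (r : S.R) (w : ℝ) (p : ℂ) : Set (ℝ × ℂ) :=
  (Ioc (0 : ℝ) (2 * Real.pi) ×ˢ rm S r) ∩ {q | |cx (ev q.1) (p - q.2)| < w}

private lemma hone_B (S : TriSys) {C : ℝ} (hC : 0 < C) (hB : ∀ (r : S.R) (p v : ℂ) (w : ℝ), ‖v‖ = 1 → 0 < w →
    volume {x | x ∈ rm S r ∧ |cx v (p - x)| < w} ≤ ENNReal.ofReal (C * w)) (r : S.R) (p : ℂ)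
    {w : ℝ} (hw : 0 < w) :
    volume (honeB S r w p) ≤ ENNReal.ofReal (2 * Real.pi * C * w) := by
  have hm : MeasurableSet (honeB S r w p) := by
    refine (measurableSet_Ioc.prod (hone_open S r).measurableSet).inter ?_
    exact (isOpen_lt (hone_cont p).abs continuous_const).measurableSet
  rw [Measure.volume_eq_prod, Measure.prod_apply hm]
  have h1 : ∀ ψ : ℝ, volume (Prod.mk ψ ⁻¹' honeB S r w p) ≤
      (Ioc (0 : ℝ) (2 * Real.pi)).indicator (fun _ => ENNReal.ofReal (C * w)) ψ := by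
    intro ψ
    by_cases hψ : ψ ∈ Ioc (0 : ℝ) (2 * Real.pi)
    · rw [indicator_of_mem hψ]
      refine le_trans (measure_mono ?_) (hB r p (ev ψ) w (hone_ev ψ) hw)
      intro x hx
      exact ⟨hx.1.2, hx.2⟩
    · rw [indicator_of_notMem hψ]
      have : Prod.mk ψ ⁻¹' honeB S r w p = ∅ := by
        ext x
        simp only [mem_preimage, mem_empty_iff_false, iff_false]
        intro hx
        exact hψ hx.1.1
      rw [this, measure_empty]
  refine le_trans (lintegral_mono h1) ?_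
  rw [lintegral_indicator measurableSet_Ioc, setLIntegral_const, Real.volume_Ioc, sub_zero,
    ← ENNReal.ofReal_mul (by positivity)]
  exact le_of_eq (by congr 1; ring)

theorem h_ONE (h1 : Sh_BAN) (h2 : Sh_EEM) (h3 : Sh_MSE) (h4 : Sh_NOW) : Sh_ONE := by
  classical
  intro S
  obtain ⟨C, hC, hB⟩ := h1 S
  obtain ⟨K, hK, hL⟩ := b_LEN S
  obtain ⟨m, hm⟩ := exists_nat_ge (K * (1 + (1 - 0)))
  have hfin : {l : List (ZMod 3) | l.length ≤ m}.Finite := List.finite_length_le _ _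
  obtain ⟨W, hW⟩ : ∃ W : Finset (List (ZMod 3)), W = hfin.toFinset := ⟨_, rfl⟩
  obtain ⟨B, hBdef⟩ : ∃ B : ℝ, B = 2 * Real.pi * C := ⟨_, rfl⟩
  have hB0 : 0 < B := by rw [hBdef]; positivity
  obtain ⟨Q, hQ⟩ : ∃ Q : ℝ, Q = ∑ r : S.R, ∑ js ∈ W, ∑ _p ∈ (vl (Pl.home S r) js).toFinset, B :=
    ⟨_, rfl⟩
  have hQ0 : 0 ≤ Q := by
   rw [hQ]
   exact Finset.sum_nonneg fun r _ => Finset.sum_nonneg fun js _ =>
    Finset.sum_nonneg fun p _ => hB0.le
  refine ⟨Q + 1, by linarith, fun w hw => ?_⟩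
  have hBw : 0 ≤ B * w := (mul_pos hB0 hw).le
  set A : S.R → Set (ℝ × ℂ) := fun r => {p | DD S r p.2 (ev p.1) 1 < w} with hA
  have hAm : ∀ r, MeasurableSet (A r) := fun r => (h3 S w 0 1 r).2.2
  obtain ⟨hAf, hAE⟩ := h2 S A hAm
  have e1 : pp S w 1 = (mm S A).toReal := by
    rw [pp]
    refine hAE _ fun r x ψ => ⟨fun h => if_pos h, fun h => if_neg h⟩
  rw [e1]
  have hN := h4 S 1 zero_le_one
  have key : ∀ r : S.R, volume (A r ∩ (Ioc (0 : ℝ) (2 * Real.pi) ×ˢ rm S r)) ≤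
      ∑ js ∈ W, ∑ p ∈ (vl (Pl.home S r) js).toFinset, ENNReal.ofReal (B * w) := by
    intro r
    have hNr : volume ({p : ℝ × ℂ | ¬ ∃ js, PW S r p.2 (ev p.1) 1 js} ∩
        (Ioc (0 : ℝ) (2 * Real.pi) ×ˢ rm S r)) = 0 := by
      rw [mm, Finset.sum_eq_zero_iff] at hN
      exact hN r (Finset.mem_univ r)
    have hsub : A r ∩ (Ioc (0 : ℝ) (2 * Real.pi) ×ˢ rm S r) ⊆
        ({p : ℝ × ℂ | ¬ ∃ js, PW S r p.2 (ev p.1) 1 js} ∩
          (Ioc (0 : ℝ) (2 * Real.pi) ×ˢ rm S r)) ∪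
        ⋃ js ∈ W, ⋃ p ∈ (vl (Pl.home S r) js).toFinset, honeB S r w p := by
      rintro ⟨ψ, x⟩ ⟨hq, hq'⟩
      by_cases hex : ∃ js, PW S r x (ev ψ) 1 js
      · right
        obtain ⟨js, hjs⟩ := hex
        have hD : DD S r x (ev ψ) 1 = clr (Pl.home S r) js x (ev ψ) :=
          (b_UNI S r x (ev ψ) 1 js js hjs hjs).2.1
        have hlen : js.length ≤ m := by
          have g1 := hL js (Pl.home S r) x (ev ψ) 0 1 (hone_ev ψ) zero_le_one hjs.2.1
            (fun t ht => ⟨((b_CTS S).2.2.2 js _ x (ev ψ) hjs.1 hjs.2.1 t ht).le,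
              ((b_CTS S).2.2.1 js _ x (ev ψ) 1 hjs.2.1 hjs.2.2 t ht).le⟩)
          have g2 := le_trans g1 hm
          exact_mod_cast g2
        obtain ⟨p, hp, hp'⟩ := clr_mem js (Pl.home S r) x (ev ψ)
        have hlt : |cx (ev ψ) (p - x)| < w := by
          rw [← hp', ← hD]
          exact hq
        rw [mem_iUnion₂]
        refine ⟨js, by rw [hW, Set.Finite.mem_toFinset]; exact hlen, ?_⟩
        rw [mem_iUnion₂]
        exact ⟨p, List.mem_toFinset.2 hp, hq', hlt⟩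
      · left
        exact ⟨hex, hq'⟩
    refine le_trans (measure_mono hsub) ?_
    refine le_trans (measure_union_le _ _) ?_
    rw [hNr, zero_add]
    refine le_trans (measure_biUnion_finset_le _ _) ?_
    refine Finset.sum_le_sum fun js _ => ?_
    refine le_trans (measure_biUnion_finset_le _ _) ?_
    refine Finset.sum_le_sum fun p _ => ?_
    rw [hBdef]
    exact hone_B S hC hB r p hw
  have tot : mm S A ≤ ENNReal.ofReal (Q * w) := by
    rw [mm]
    refine le_trans (Finset.sum_le_sum fun r _ => key r) ?_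
    have n1 : ∀ (r : S.R) (js : List (ZMod 3)),
        0 ≤ (∑ _p ∈ (vl (Pl.home S r) js).toFinset, B) * w := fun r js =>
      mul_nonneg (Finset.sum_nonneg fun p _ => hB0.le) hw.le
    have n2 : ∀ (r : S.R), 0 ≤ (∑ js ∈ W, ∑ _p ∈ (vl (Pl.home S r) js).toFinset, B) * w := fun r =>
      mul_nonneg (Finset.sum_nonneg fun js _ => Finset.sum_nonneg fun p _ => hB0.le) hw.le
    rw [hQ, Finset.sum_mul, ENNReal.ofReal_sum_of_nonneg (fun r _ => n2 r)]
    refine Finset.sum_le_sum fun r _ => ?_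
    rw [Finset.sum_mul, ENNReal.ofReal_sum_of_nonneg (fun js _ => n1 r js)]
    refine Finset.sum_le_sum fun js _ => ?_
    rw [Finset.sum_mul, ENNReal.ofReal_sum_of_nonneg (fun p _ => hBw)]
  have h5 := ENNReal.toReal_mono ENNReal.ofReal_ne_top tot
  rw [ENNReal.toReal_ofReal (mul_nonneg hQ0 hw.le)] at h5
  linarith

end Pool.Agent.FAN
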