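import Pool.Agent.FAN2.HBase

/-!
# PPM: the function `pp` is bounded and monotone in the length (helper9)
-/

set_option autoImplicit false

open scoped ComplexConjugate
open MeasureTheory Set

namespace Pool.Agent.FAN

private lemma hppm_mono {S : TriSys} {A B : S.R → Set (ℝ × ℂ)} (h : ∀ r, A r ⊆ B r) :
    mm S A ≤ mm S B :=
  Finset.sum_le_sum fun r _ => measure_mono (inter_subset_inter_left _ (h r))

private lemma hppm_union {S : TriSys} (A B : S.R → Set (ℝ × ℂ)) :
    mm S (fun r => A r ∪ B r) ≤ mm S A + mm S B := by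
  unfold mm
  rw [← Finset.sum_add_distrib]
  refine Finset.sum_le_sum fun r _ => ?_
  rw [union_inter_distrib_right]
  exact measure_union_le _ _

theorem h_PPM (h1 : Sh_EEM) (h2 : Sh_MSE) (h3 : Sh_NOW) : Sh_PPM := by
  intro S
  have hU := (h1 S (fun _ => univ) (fun _ => MeasurableSet.univ)).1
  refine ⟨(mm S (fun _ => univ)).toReal + 1, by positivity, fun w hw => ?_⟩
  have key : ∀ N, pp S w N = (mm S (fun r => {p : ℝ × ℂ | DD S r p.2 (ev p.1) N < w})).toReal := by
    intro N
    exact (h1 S _ (fun r => (h2 S w 0 N r).2.2)).2 _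
      (fun r x ψ => ⟨fun h => if_pos h, fun h => if_neg h⟩)
  have hfin : ∀ N, mm S (fun r => {p : ℝ × ℂ | DD S r p.2 (ev p.1) N < w}) < ⊤ :=
    fun N => (h1 S _ (fun r => (h2 S w 0 N r).2.2)).1
  constructor
  · intro t _
    rw [key t]
    refine ⟨ENNReal.toReal_nonneg, ?_⟩
    have h := ENNReal.toReal_mono hU.ne
      (hppm_mono (fun r => subset_univ {p : ℝ × ℂ | DD S r p.2 (ev p.1) t < w}))
    linarith
  · intro N hN N' hN' hNN
    rw [key N, key N']
    refine ENNReal.toReal_mono (hfin N').ne ?_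
    have hsub : mm S (fun r => {p : ℝ × ℂ | DD S r p.2 (ev p.1) N < w}) ≤
        mm S (fun r => {p : ℝ × ℂ | DD S r p.2 (ev p.1) N' < w} ∪
          ({p : ℝ × ℂ | ¬ ∃ js, PW S r p.2 (ev p.1) N js} ∪
            {p : ℝ × ℂ | ¬ ∃ js, PW S r p.2 (ev p.1) N' js})) := by
      refine hppm_mono (fun r p hp => ?_)
      by_cases hjs : ∃ js, PW S r p.2 (ev p.1) N js
      · by_cases hjs' : ∃ js, PW S r p.2 (ev p.1) N' js
        · obtain ⟨js, hj⟩ := hjs
          obtain ⟨js', hj'⟩ := hjs'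
          left
          exact lt_of_le_of_lt (b_MON S r p.2 (ev p.1) N N' js js' hNN hj hj').2 hp
        · right
          right
          exact hjs'
      · right
        left
        exact hjs
    have hun := hppm_union (S := S) (fun r => {p : ℝ × ℂ | DD S r p.2 (ev p.1) N' < w})
      (fun r => {p : ℝ × ℂ | ¬ ∃ js, PW S r p.2 (ev p.1) N js} ∪
            {p : ℝ × ℂ | ¬ ∃ js, PW S r p.2 (ev p.1) N' js})
    have hun2 := hppm_union (S := S) (fun r => {p : ℝ × ℂ | ¬ ∃ js, PW S r p.2 (ev p.1) N js})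
      (fun r => {p : ℝ × ℂ | ¬ ∃ js, PW S r p.2 (ev p.1) N' js})
    rw [h3 S N hN, h3 S N' hN', add_zero] at hun2
    calc _ ≤ _ := hsub
      _ ≤ _ := hun
      _ ≤ mm S (fun r => {p : ℝ × ℂ | DD S r p.2 (ev p.1) N' < w}) + 0 := by
        gcongr
      _ = _ := add_zero _

end Pool.Agent.FAN
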