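import Pool.Agent.FAN2.StH

/-! FAN2, block H, statement SEQ (pure calculus): the sum of the increments `h k`. -/

set_option autoImplicit false

open Set

namespace Pool.Agent.FAN

private lemma hseq_sum (P h : ℝ → ℝ) (hP : ∀ t, 0 ≤ t → P (1 + t) = P t + h t) (m : ℕ) :
    P ((m : ℝ) + 1) = P 0 + ∑ k ∈ Finset.range (m + 1), h (k : ℝ) := by
  induction m with
  | zero => have := hP 0 le_rfl; simp at this ⊢; exact this
  | succ m ih =>
    rw [Finset.sum_range_succ, ← add_assoc, ← ih]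
    have := hP ((m : ℝ) + 1) (by positivity)
    push_cast
    rw [show (m : ℝ) + 1 + 1 = 1 + ((m : ℝ) + 1) by ring, this]

private lemma hseq_log (K : ℕ) : ∑ k ∈ Finset.range K, (1 : ℝ) / ((k : ℝ) + 2) ≤ Real.log ((K : ℝ) + 1) := by
  induction K with
  | zero => simp
  | succ K ih =>
    rw [Finset.sum_range_succ]
    have h1 : (0 : ℝ) < (K : ℝ) + 1 := by positivity
    have h2 : (0 : ℝ) < (K : ℝ) + 2 := by positivity
    have h3 := Real.one_sub_inv_le_log_of_pos (show (0 : ℝ) < ((K : ℝ) + 2) / ((K : ℝ) + 1) by positivity)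
    rw [Real.log_div h2.ne' h1.ne'] at h3
    have h4 : 1 - (((K : ℝ) + 2) / ((K : ℝ) + 1))⁻¹ = 1 / ((K : ℝ) + 2) := by
      rw [inv_div]; field_simp; ring
    rw [h4] at h3
    push_cast
    rw [show (K : ℝ) + 1 + 1 = (K : ℝ) + 2 by ring]
    linarith

theorem h_SEQ : Sh_SEQ := by
  intro P h V a b n hn hPV hmono hstep hanti hP1 hb hh N hN1 hNn
  have hn0 : (0 : ℝ) ≤ n := by linarith
  have hnpos : (0 : ℝ) < n := by linarith
  -- bound for `h n`
  have hhn0 : 0 ≤ h n := by
    have h1 := hstep n hn0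
    have h2 : P n ≤ P (1 + n) := hmono (show n ∈ Ici (0 : ℝ) from hn0)
      (show 1 + n ∈ Ici (0 : ℝ) by simp; linarith) (by linarith)
    linarith
  have hhn : h n ≤ V / n := by
    set m := ⌊n⌋₊ with hm
    have hmn : (m : ℝ) ≤ n := Nat.floor_le hn0
    have hnm : n < (m : ℝ) + 1 := Nat.lt_floor_add_one n
    have hs := hseq_sum P h hstep m
    have hle : ((m : ℝ) + 1) * h n ≤ ∑ k ∈ Finset.range (m + 1), h (k : ℝ) := by
      have : ∑ _k ∈ Finset.range (m + 1), h n ≤ ∑ k ∈ Finset.range (m + 1), h (k : ℝ) := by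
        apply Finset.sum_le_sum
        intro k hk
        have hk' : k ≤ m := Nat.lt_succ_iff.mp (Finset.mem_range.mp hk)
        have hkm : (k : ℝ) ≤ m := by exact_mod_cast hk'
        exact hanti (show (k : ℝ) ∈ Ici (0 : ℝ) from by simp) (show n ∈ Ici (0 : ℝ) from hn0) (by linarith)
      simpa using this
    have h0 := (hPV 0 le_rfl).1
    have h1 := (hPV ((m : ℝ) + 1) (by positivity)).2
    rw [le_div_iff₀ hnpos]
    have : n * h n ≤ ((m : ℝ) + 1) * h n := mul_le_mul_of_nonneg_right hnm.le hhn0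
    nlinarith
  -- the sum up to `K`
  set K := ⌊N⌋₊ with hK
  have hN0 : (0 : ℝ) ≤ N := by linarith
  have hKN : (K : ℝ) ≤ N := Nat.floor_le hN0
  have hNK : N < (K : ℝ) + 1 := Nat.lt_floor_add_one N
  have hPK : P ((K : ℝ) + 1) = P 1 + ∑ k ∈ Finset.range K, h ((k : ℝ) + 1) := by
    have hs := hseq_sum P h hstep K
    rw [Finset.sum_range_succ'] at hs
    have h1 := hstep 0 le_rfl
    simp only [add_zero] at h1
    rw [hs, h1]
    push_cast
    ring
  have hPN : P N ≤ P ((K : ℝ) + 1) := hmono (show N ∈ Ici (0 : ℝ) from hN0)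
    (show (K : ℝ) + 1 ∈ Ici (0 : ℝ) by simp; positivity) hNK.le
  have hsum : ∑ k ∈ Finset.range K, h ((k : ℝ) + 1) ≤
      ∑ k ∈ Finset.range K, (h n + b * (1 / ((k : ℝ) + 2))) := by
    apply Finset.sum_le_sum
    intro k hk
    have hk' : k + 1 ≤ K := Finset.mem_range.mp hk
    have hkK : (k : ℝ) + 1 ≤ K := by exact_mod_cast hk'
    have := hh ((k : ℝ) + 1) (by positivity) (by linarith)
    rw [show (k : ℝ) + 1 + 1 = (k : ℝ) + 2 by ring] at this
    rw [mul_one_div]
    exact this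
  rw [Finset.sum_add_distrib, ← Finset.mul_sum, Finset.sum_const, Finset.card_range, nsmul_eq_mul] at hsum
  have hlog := hseq_log K
  have hlog2 : Real.log ((K : ℝ) + 1) ≤ 1 + Real.log N := by
    have hNpos : (0 : ℝ) < N := by linarith
    have h1 : Real.log ((K : ℝ) + 1) ≤ Real.log (2 * N) := by
      apply Real.log_le_log (by positivity)
      linarith
    rw [Real.log_mul (by norm_num) hNpos.ne'] at h1
    have h2 : Real.log 2 ≤ 1 := by
      have := Real.log_two_lt_d9
      linarith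
    linarith
  have hb1 : b * ∑ k ∈ Finset.range K, (1 : ℝ) / ((k : ℝ) + 2) ≤ b * (1 + Real.log N) :=
    mul_le_mul_of_nonneg_left (hlog.trans hlog2) hb
  have hK1 : (K : ℝ) * h n ≤ N * V / n := by
    have h1 : (K : ℝ) * h n ≤ N * h n := mul_le_mul_of_nonneg_right hKN hhn0
    have h2 : N * h n ≤ N * (V / n) := mul_le_mul_of_nonneg_left hhn hN0
    rw [mul_div_assoc]
    linarith
  linarith

end Pool.Agent.FAN
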