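import Pool.Agent.FAN2.HBase

/-!
# FAN2, block H: (TMS) positions of the two hits (helper46)
-/

set_option autoImplicit false

open scoped ComplexConjugate
open MeasureTheory Set

namespace Pool.Agent.FAN

private lemma htms_last (S : TriSys) (q : Pl S) (x v : ℂ) (τ : ℝ) (l : List (ZMod 3)) (j : ZMod 3)
    (hin : q.In (x + τ * v)) (hr : Run q x v (l ++ [j])) : τ < (endP q l).ct x v j := by
  cases l with
  | nil =>
    have h : q.Ex x v j := hr.1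
    exact (b_TIM S).2.1 q x v j τ h hin
  | cons k l =>
    have h1 : q.Ex x v k := hr.1
    have h2 := (b_TIM S).2.1 q x v k τ h1 hin
    have h3 := (b_CTS S).2.1 (k :: l) q x v j hr (q.ct x v k) (by simp [cts])
    exact h2.trans h3

theorem h_TMS : Sh_TMS := by
  intro S
  obtain ⟨D₀, h₀, hD, hh, d1, d2, d3, d4⟩ := b_DIA S
  obtain ⟨C', hC', hlen⟩ := b_LEN S
  refine ⟨1 + 2 * D₀, ⌈2 * C'⌉₊, by linarith, ?_⟩
  intro r x v w t n js₁ l₁ js' l₂ l₃ i₀ j hv hw hw1 ht htn h1 h2 h3 Q hQ hc0 hc1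
  obtain ⟨e1, e2, e3, e4, e5, e6, e7, e8⟩ := m_EXU S
  obtain ⟨t1, t2, t3, t4, t5, t6, t7, t8, t9⟩ := b_TIM S
  obtain ⟨c1, c2, c3, c4⟩ := b_CTS S
  have hrun1 : Run (Pl.home S r) x v (js₁ ++ i₀ :: l₁) := h1.2.1
  have hcts0 : ∀ s ∈ cts (Pl.home S r) x v (js₁ ++ i₀ :: l₁), 0 < s := c4 _ _ x v h1.1 hrun1
  have hcts1 : ∀ s ∈ cts (Pl.home S r) x v (js₁ ++ i₀ :: l₁), s < 1 :=
    c3 _ _ x v 1 hrun1 h1.2.2
  have hl : ((js₁ ++ i₀ :: l₁).length : ℝ) ≤ C' * (1 + (1 - 0)) :=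
    hlen _ _ x v 0 1 hv zero_le_one hrun1 (fun s hs => ⟨(hcts0 s hs).le, (hcts1 s hs).le⟩)
  -- the first crossing
  have hr1 : Run (endP (Pl.home S r) js₁) x v (i₀ :: l₁) := ((e8 js₁ (i₀ :: l₁) _ x v 0).1.1 hrun1).2
  rw [← hQ] at hr1
  have hex0 : Q.Ex x v i₀ := hr1.1
  have hmem0 : Q.ct x v i₀ ∈ cts (Pl.home S r) x v (js₁ ++ i₀ :: l₁) := by
    rw [(e8 js₁ (i₀ :: l₁) _ x v 0).2.2.2, ← hQ]
    simp [cts]
  have hτ0 := hcts0 _ hmem0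
  have hτ1 := hcts1 _ hmem0
  have hd0 := d3 Q x v i₀ i₀ (Or.inl hex0)
  -- the second crossing
  have hEnd : endP (Pl.home S r) (js₁ ++ i₀ :: l₁ ++ (js' ++ l₂)) =
      endP Q (i₀ :: (l₁ ++ js' ++ l₂)) := by
    have : js₁ ++ i₀ :: l₁ ++ (js' ++ l₂) = js₁ ++ (i₀ :: (l₁ ++ js' ++ l₂)) := by simp
    rw [this, (e8 js₁ _ _ x v 0).2.1, ← hQ]
  set K := endP Q (i₀ :: (l₁ ++ js' ++ l₂)) with hK
  have hap : apQ Q i₀ (i₀ :: ((l₁ ++ js' ++ l₂) ++ [j])) = (K.nx j).V (K.en j) := by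
    have hlist : i₀ :: ((l₁ ++ js' ++ l₂) ++ [j]) = (i₀ :: (l₁ ++ js' ++ l₂)) ++ [j] := by simp
    rw [apQ, hlist, (e8 _ [j] Q x v i₀).2.1, (e8 _ [j] Q x v i₀).2.2.1, ← hK]
    rfl
  have hrun3 : Run (Pl.home S r) x v (js₁ ++ i₀ :: l₁ ++ (js' ++ (l₂ ++ j :: l₃))) := h3.2.1
  have hlist3 : js₁ ++ i₀ :: l₁ ++ (js' ++ (l₂ ++ j :: l₃)) =
      (js₁ ++ i₀ :: l₁ ++ (js' ++ l₂)) ++ (j :: l₃) := by simp
  have hexK : K.Ex x v j := by
    rw [hlist3] at hrun3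
    have := ((e8 _ (j :: l₃) _ x v 0).1.1 hrun3).2
    rw [hEnd] at this
    exact this.1
  have hmem1 : K.ct x v j ∈ cts (Pl.home S r) x v (js₁ ++ i₀ :: l₁ ++ (js' ++ (l₂ ++ j :: l₃))) := by
    rw [hlist3, (e8 _ (j :: l₃) _ x v 0).2.2.2, hEnd]
    simp [cts]
  have hT1 : K.ct x v j < 1 + n := c3 _ _ x v (1 + n) hrun3 h3.2.2 _ hmem1
  have hT0 : 1 + t < K.ct x v j := by
    have hlist4 : js₁ ++ i₀ :: l₁ ++ (js' ++ (l₂ ++ j :: l₃)) =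
      (js₁ ++ i₀ :: l₁ ++ js') ++ ((l₂ ++ [j]) ++ l₃) := by simp
    rw [hlist4] at hrun3
    have h5 := ((e8 _ ((l₂ ++ [j]) ++ l₃) _ x v 0).1.1 hrun3).2
    have h6 := ((e8 (l₂ ++ [j]) l₃ _ x v 0).1.1 h5).1
    have h7 := htms_last S _ x v (1 + t) l₂ j h2.2.2 h6
    have h8 : endP (endP (Pl.home S r) (js₁ ++ i₀ :: l₁ ++ js')) l₂ = K := by
      rw [← (e8 _ l₂ _ x v 0).2.1, ← hEnd]
      congr 1
      simp
    rw [h8] at h7
    exact h7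
  have hen : (K.nx j).En x v (K.en j) := (e2 K x v j).1 hexK
  have hd1 := d3 (K.nx j) x v (K.en j) (K.en j) (Or.inr hen)
  rw [t1 K x v j] at hd1
  rw [hap]
  set p₀ := Q.V i₀ with hp0
  set p₁ := (K.nx j).V (K.en j) with hp1
  set τ := Q.ct x v i₀ with hτ
  set T := K.ct x v j with hT
  have hnorm : ‖(x + T * v) - (x + τ * v)‖ = T - τ := by
    have h9 : (x + T * v) - (x + τ * v) = ((T - τ : ℝ) : ℂ) * v := by
      push_cast
      ring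
    rw [h9, norm_mul, hv, mul_one, Complex.norm_real, Real.norm_eq_abs, abs_of_nonneg]
    linarith
  refine ⟨?_, ?_, ?_⟩
  · have h10 : (js₁.length : ℝ) ≤ 2 * C' := by
      have : (js₁.length : ℝ) ≤ ((js₁ ++ i₀ :: l₁).length : ℝ) := by
        exact_mod_cast (by simp : js₁.length ≤ (js₁ ++ i₀ :: l₁).length)
      linarith
    have h11 : (js₁.length : ℝ) ≤ (⌈2 * C'⌉₊ : ℝ) := h10.trans (Nat.le_ceil _)
    exact_mod_cast h11
  · have h12 : ‖(x + T * v) - (x + τ * v)‖ ≤ ‖p₁ - p₀‖ + (D₀ + D₀) := by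
      have h13 : (x + T * v) - (x + τ * v) = (p₁ - p₀) + (((x + T * v) - p₁) - ((x + τ * v) - p₀)) := by
        ring
      rw [h13]
      refine (norm_add_le _ _).trans (add_le_add le_rfl ?_)
      exact (norm_sub_le _ _).trans (add_le_add hd1 hd0)
    rw [hnorm] at h12
    linarith
  · have h14 : ‖p₁ - p₀‖ ≤ ‖(x + T * v) - (x + τ * v)‖ + (D₀ + D₀) := by
      have h15 : p₁ - p₀ = ((x + T * v) - (x + τ * v)) + (((x + τ * v) - p₀) - ((x + T * v) - p₁)) := by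
        ring
      rw [h15]
      refine (norm_add_le _ _).trans (add_le_add le_rfl ?_)
      exact (norm_sub_le _ _).trans (add_le_add hd0 hd1)
    rw [hnorm] at h14
    linarith

end Pool.Agent.FAN
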