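import Pool.Agent.FAN2.HBase

/-!
# FAN2, block H: UNB, the union bound (helper4)
-/

set_option autoImplicit false

open MeasureTheory Set

namespace Pool.Agent.FAN

theorem hunb_mono (S : TriSys) {L L' : ℝ} (h : L ≤ L') : GT S L ≤ GT S L' := by
  unfold GT
  refine Finset.sum_le_sum fun r _ => Finset.sum_le_sum fun i _ => ?_
  have hsub : GG S r i L ⊆ GG S r i L' := fun js hjs => ⟨hjs.1, hjs.2.1, hjs.2.2.trans h⟩
  exact_mod_cast Set.ncard_le_ncard hsub (b_KFIN S r i L')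

theorem hunb_one (S : TriSys) (r : S.R) (i : ZMod 3) (L : ℝ) : ((GG S r i L).ncard : ℝ) ≤ GT S L := by
  unfold GT
  have h1 : ((GG S r i L).ncard : ℝ) ≤ ∑ i, ((GG S r i L).ncard : ℝ) :=
    Finset.single_le_sum (f := fun i => ((GG S r i L).ncard : ℝ)) (fun _ _ => Nat.cast_nonneg _) (Finset.mem_univ i)
  refine h1.trans ?_
  exact Finset.single_le_sum (f := fun r => ∑ i, ((GG S r i L).ncard : ℝ))
    (fun _ _ => Finset.sum_nonneg fun _ _ => Nat.cast_nonneg _) (Finset.mem_univ r)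

theorem hunb_nonneg (S : TriSys) (L : ℝ) : 0 ≤ GT S L :=
  Finset.sum_nonneg fun _ _ => Finset.sum_nonneg fun _ _ => Nat.cast_nonneg _

/-- UNB -/
theorem h_UNB (h1 : Sh_STR) (h2 : Sh_DEC) : Sh_UNB := by
  intro S
  classical
  obtain ⟨C1, hC1, hS⟩ := h1 S
  obtain ⟨C2, c, m, hC2, hc, hD⟩ := h2 S
  have hfin : {js₁ : List (ZMod 3) | js₁.length ≤ m}.Finite := List.finite_length_le _ _
  set J : Finset (List (ZMod 3)) := hfin.toFinset with hJ
  set K : ℝ := (Fintype.card S.R : ℝ) * ((J.card : ℝ) * (3 * (C1 / c))) with hK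
  have hK0 : 0 ≤ K := by positivity
  refine ⟨C2 + K, by linarith, ?_⟩
  intro w t n hw hw1 ht htn
  have ht1 : 0 < t + 1 := by linarith
  set l : ℝ := c * (t + 1) with hl
  have hl0 : 0 < l := by positivity
  set B : ℝ := (J.card : ℝ) * (3 * (GT S (n + C2) * (C1 * w ^ 2 / l))) with hB
  have hG0 := hunb_nonneg S (n + C2)
  have hB0 : 0 ≤ B := by positivity
  -- one room
  have hroom : ∀ r : S.R, volume (EvD S w t n r ∩ (Ioc (0 : ℝ) (2 * Real.pi) ×ˢ rm S r)) ≤ ENNReal.ofReal B := by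
    intro r
    set p0 : List (ZMod 3) → ZMod 3 → ℂ := fun js₁ i₀ => (endP (Pl.home S r) js₁).V i₀ with hp0
    set p1 : List (ZMod 3) → ZMod 3 → List (ZMod 3) → ℂ :=
      fun js₁ i₀ word => apQ (endP (Pl.home S r) js₁) i₀ word with hp1
    set T : List (ZMod 3) → ZMod 3 → List (ZMod 3) → Set (ℝ × ℂ) := fun js₁ i₀ word =>
      {p : ℝ × ℂ | |cx (ev p.1) (p0 js₁ i₀ - p.2)| < w ∧ |cx (ev p.1) (p1 js₁ i₀ word - p.2)| < w} ∩
        (Ioc (0 : ℝ) (2 * Real.pi) ×ˢ rm S r) with hT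
    set W : List (ZMod 3) → ZMod 3 → Finset (List (ZMod 3)) := fun js₁ i₀ =>
      ((b_KFIN S (endP (Pl.home S r) js₁).r i₀ (n + C2)).toFinset).filter
        (fun word => l ≤ ‖p1 js₁ i₀ word - p0 js₁ i₀‖) with hW
    have hsub : EvD S w t n r ∩ (Ioc (0 : ℝ) (2 * Real.pi) ×ˢ rm S r) ⊆
        ⋃ js₁ ∈ J, ⋃ i₀ ∈ (Finset.univ : Finset (ZMod 3)), ⋃ word ∈ W js₁ i₀, T js₁ i₀ word := by
      rintro ⟨ψ, x⟩ ⟨⟨js, js', js'', a1, a2, a3, a4, a5, a6⟩, hp⟩
      obtain ⟨js₁, word, i₀, b1, b2, b3, b4, b5⟩ := hD r x (ev ψ) w t n js js' js'' (norm_ev ψ) hw hw1 ht htn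
        a1 a2 a3 a4 a5 a6
      simp only [Set.mem_iUnion]
      refine ⟨js₁, ?_, i₀, Finset.mem_univ _, word, ?_, ⟨b3, b4⟩, hp⟩
      · rw [hJ, Set.Finite.mem_toFinset]
        exact b1
      · rw [hW]
        simp only [Finset.mem_filter, Set.Finite.mem_toFinset]
        exact ⟨b2, b5⟩
    have hTle : ∀ js₁ i₀, ∀ word ∈ W js₁ i₀, volume (T js₁ i₀ word) ≤ ENNReal.ofReal (C1 * w ^ 2 / l) := by
      intro js₁ i₀ word hword
      rw [hW, Finset.mem_filter] at hword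
      exact hS r _ _ w l hw hl0 hword.2
    have hWc : ∀ js₁ i₀, ((W js₁ i₀).card : ℝ) ≤ GT S (n + C2) := by
      intro js₁ i₀
      refine le_trans ?_ (hunb_one S (endP (Pl.home S r) js₁).r i₀ (n + C2))
      have e1 := Finset.card_filter_le (b_KFIN S (endP (Pl.home S r) js₁).r i₀ (n + C2)).toFinset
        (fun word => l ≤ ‖p1 js₁ i₀ word - p0 js₁ i₀‖)
      rw [Set.ncard_eq_toFinset_card _ (b_KFIN S (endP (Pl.home S r) js₁).r i₀ (n + C2))]
      exact_mod_cast e1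
    have hx0 : 0 ≤ C1 * w ^ 2 / l := by positivity
    have h3 : ∀ js₁ i₀, volume (⋃ word ∈ W js₁ i₀, T js₁ i₀ word) ≤
        ENNReal.ofReal (GT S (n + C2) * (C1 * w ^ 2 / l)) := by
      intro js₁ i₀
      refine (measure_biUnion_finset_le _ _).trans ?_
      refine (Finset.sum_le_sum (hTle js₁ i₀)).trans ?_
      rw [Finset.sum_const, nsmul_eq_mul, ← ENNReal.ofReal_natCast, ← ENNReal.ofReal_mul (Nat.cast_nonneg _)]
      exact ENNReal.ofReal_le_ofReal (mul_le_mul_of_nonneg_right (hWc js₁ i₀) hx0)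
    have h4 : ∀ js₁, volume (⋃ i₀ ∈ (Finset.univ : Finset (ZMod 3)), ⋃ word ∈ W js₁ i₀, T js₁ i₀ word) ≤
        ENNReal.ofReal (3 * (GT S (n + C2) * (C1 * w ^ 2 / l))) := by
      intro js₁
      refine (measure_biUnion_finset_le _ _).trans ?_
      refine (Finset.sum_le_sum (fun i₀ _ => h3 js₁ i₀)).trans ?_
      rw [Finset.sum_const, nsmul_eq_mul, ← ENNReal.ofReal_natCast, ← ENNReal.ofReal_mul (Nat.cast_nonneg _)]
      apply le_of_eq
      congr 2
    refine (measure_mono hsub).trans ?_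
    refine (measure_biUnion_finset_le _ _).trans ?_
    refine (Finset.sum_le_sum (fun js₁ _ => h4 js₁)).trans ?_
    rw [Finset.sum_const, nsmul_eq_mul, ← ENNReal.ofReal_natCast, ← ENNReal.ofReal_mul (Nat.cast_nonneg _)]
  have hsum : mm S (EvD S w t n) ≤ ENNReal.ofReal ((Fintype.card S.R : ℝ) * B) := by
    unfold mm
    refine (Finset.sum_le_sum (fun r _ => hroom r)).trans ?_
    rw [Finset.sum_const, nsmul_eq_mul, ← ENNReal.ofReal_natCast, ← ENNReal.ofReal_mul (Nat.cast_nonneg _)]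
    apply le_of_eq
    rfl
  refine hsum.trans (ENNReal.ofReal_le_ofReal ?_)
  have e1 : (Fintype.card S.R : ℝ) * B = K * w ^ 2 * GT S (n + C2) / (t + 1) := by
    rw [hB, hK, hl]
    field_simp
  rw [e1]
  have hm := hunb_mono S (show n + C2 ≤ n + (C2 + K) by linarith)
  have hw2 : 0 ≤ w ^ 2 := by positivity
  refine div_le_div_of_nonneg_right ?_ ht1.le
  have s1 : K * w ^ 2 * GT S (n + C2) ≤ K * w ^ 2 * GT S (n + (C2 + K)) :=
    mul_le_mul_of_nonneg_left hm (by positivity)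
  refine s1.trans ?_
  refine mul_le_mul_of_nonneg_right ?_ (hunb_nonneg S _)
  exact mul_le_mul_of_nonneg_right (by linarith) hw2

end Pool.Agent.FAN
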