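import Pool.Agent.FAN2.StW

/-!
# FAN2, block W, module EEL: linearity and monotonicity of the integral over the unit tangent bundle (helper44)
-/

set_option autoImplicit false

open scoped ComplexConjugate
open MeasureTheory Set

namespace Pool.Agent.FAN

private theorem eel_mono (h1 : Sm_OPN) (h2 : Sm_TO1) (S : TriSys) (G H : S.R → ℂ → ℝ → ℝ) (B : ℝ)
    (hG : ∀ r, Measurable (fun p : ℂ × ℝ => G r p.1 p.2))
    (hH : ∀ r, Measurable (fun p : ℂ × ℝ => H r p.1 p.2))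
    (hbG : ∀ r x ψ, |G r x ψ| ≤ B) (hbH : ∀ r x ψ, |H r x ψ| ≤ B)
    (hc : ∀ r x, x ∈ rm S r → {ψ : ℝ | ¬ G r x ψ ≤ H r x ψ}.Countable) : EE S G ≤ EE S H := by
  obtain ⟨a1, a2, a3⟩ := h2 S G B hG hbG
  obtain ⟨b1, b2, b3⟩ := h2 S H B hH hbH
  rw [a3, b3]
  refine Finset.sum_le_sum fun r _ => ?_
  refine setIntegral_mono_on (a1 r) (b1 r) (h1 S r).2.2.1 fun x hx => ?_
  refine intervalIntegral.integral_mono_ae (by positivity) (a2 r x) (b2 r x) ?_
  have h3 : ∀ᵐ ψ ∂(volume : Measure ℝ), ψ ∉ {ψ : ℝ | ¬ G r x ψ ≤ H r x ψ} := (hc r x hx).ae_notMem _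
  filter_upwards [h3] with ψ hψ
  by_contra h4
  exact hψ h4

/-- EEL. -/
theorem w_EEL (h1 : Sm_OPN) (h2 : Sm_TO1) : Sw_EEL := by
  intro S G H B hG hH hbG hbH
  refine ⟨?_, ?_, ?_, ?_⟩
  · obtain ⟨a1, a2, a3⟩ := h2 S G B hG hbG
    obtain ⟨b1, b2, b3⟩ := h2 S H B hH hbH
    obtain ⟨c1, c2, c3⟩ := h2 S (fun r x ψ => G r x ψ + H r x ψ) (B + B)
      (fun r => (hG r).add (hH r))
      (fun r x ψ => (abs_add_le _ _).trans (add_le_add (hbG r x ψ) (hbH r x ψ)))
    rw [a3, b3, c3, ← Finset.sum_add_distrib]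
    refine Finset.sum_congr rfl fun r _ => ?_
    rw [← integral_add (a1 r) (b1 r)]
    refine integral_congr_ae (Filter.Eventually.of_forall fun x => ?_)
    exact intervalIntegral.integral_add (a2 r x) (b2 r x)
  · intro c
    simp only [EE, integral_const_mul, intervalIntegral.integral_const_mul, Finset.mul_sum]
  · exact eel_mono h1 h2 S G H B hG hH hbG hbH
  · intro hc
    refine le_antisymm (eel_mono h1 h2 S G H B hG hH hbG hbH fun r x hx => ?_)
      (eel_mono h1 h2 S H G B hH hG hbH hbG fun r x hx => ?_)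
    · refine (hc r x hx).mono fun ψ (hψ : ¬ G r x ψ ≤ H r x ψ) => ?_
      show ¬ G r x ψ = H r x ψ
      exact fun he => hψ (le_of_eq he)
    · refine (hc r x hx).mono fun ψ (hψ : ¬ H r x ψ ≤ G r x ψ) => ?_
      show ¬ G r x ψ = H r x ψ
      exact fun he => hψ (ge_of_eq he)

end Pool.Agent.FAN
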