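import Pool.Agent.FAN2.StW
import Pool.Agent.FAN.StA

/-!
# FAN2, block W, module SHE: the value of `shf`
-/

set_option autoImplicit false

open scoped ComplexConjugate
open MeasureTheory Set

namespace Pool.Agent.FAN

theorem w_SHE (h : Sa_UNI) : Sw_SHE := by
  intro S T G r x v js q hjs hq
  have hex : ∃ js, PW S r x v T js := ⟨js, hjs⟩
  have hch : hex.choose = js := (h S r x v T hex.choose js hex.choose_spec hjs).1
  unfold shf
  rw [dif_pos hex, hch, ← hq]

end Pool.Agent.FAN
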