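import Pool.Agent.FAN2.StW

/-!
# FAN2, block W, module SHM: measurability of the moved function `shf` (helper45)
-/

set_option autoImplicit false

open scoped ComplexConjugate
open MeasureTheory Set

namespace Pool.Agent.FAN

private theorem shm_glue {X ι : Type*} [MeasurableSpace X] [Countable ι] (F : X → ℝ)
    (Z : ι → Set X) (f : ι → X → ℝ) (hZ : ∀ i, MeasurableSet (Z i)) (hf : ∀ i, Measurable (f i))
    (h1 : ∀ i, ∀ p ∈ Z i, F p = f i p) (h0 : ∀ p, (∀ i, p ∉ Z i) → F p = 0) : Measurable F := by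
  intro s hs
  have e : F ⁻¹' s = (⋃ i, Z i ∩ (f i) ⁻¹' s) ∪ ((⋃ i, Z i)ᶜ ∩ {_p : X | (0 : ℝ) ∈ s}) := by
    ext p
    by_cases hp : ∃ i, p ∈ Z i
    · obtain ⟨i, hi⟩ := hp
      constructor
      · intro h
        left
        refine mem_iUnion.2 ⟨i, hi, ?_⟩
        show f i p ∈ s
        rw [← h1 i p hi]
        exact h
      · rintro (h | h)
        · obtain ⟨k, hk, hk2⟩ := mem_iUnion.1 h
          show F p ∈ s
          rw [h1 k p hk]
          exact hk2
        · exact absurd (mem_iUnion.2 ⟨i, hi⟩) h.1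
    · have hp' : ∀ i, p ∉ Z i := fun i hi => hp ⟨i, hi⟩
      constructor
      · intro h
        right
        refine ⟨fun hh => hp (mem_iUnion.1 hh), ?_⟩
        show (0 : ℝ) ∈ s
        rw [← h0 p hp']
        exact h
      · rintro (h | h)
        · obtain ⟨k, hk, -⟩ := mem_iUnion.1 h
          exact absurd hk (hp' k)
        · show F p ∈ s
          rw [h0 p hp']
          exact h.2
  rw [e]
  exact (MeasurableSet.iUnion fun i => (hZ i).inter (hf i hs)).union
    ((MeasurableSet.iUnion hZ).compl.inter (MeasurableSet.const _))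

/-- SHM. -/
theorem w_SHM (h1 : Sm_OPN) (h3 : Sw_SHE) : Sw_SHM := by
  intro S T G hG r
  have hc : Continuous fun p : ℂ × ℂ => ((p.1, p.2, T) : ℂ × ℂ × ℝ) := by fun_prop
  refine shm_glue _ (fun js : List (ZMod 3) => {p : ℂ × ℂ | PW S r p.1 p.2 T js})
    (fun js p => G (endP (Pl.home S r) js).r
      ((p.1 + T * p.2 - (endP (Pl.home S r) js).b) / (endP (Pl.home S r) js).a)
      (p.2 / (endP (Pl.home S r) js).a)) ?_ ?_ ?_ ?_
  · intro js
    exact (((h1 S r).1 js).preimage hc).measurableSet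
  · intro js
    have h4 : Measurable fun p : ℂ × ℂ =>
        (((p.1 + T * p.2 - (endP (Pl.home S r) js).b) / (endP (Pl.home S r) js).a,
          p.2 / (endP (Pl.home S r) js).a) : ℂ × ℂ) := by fun_prop
    exact (hG (endP (Pl.home S r) js).r).comp h4
  · intro js p hp
    exact h3 S T G r p.1 p.2 js _ hp rfl
  · intro p hp
    have hn : ¬ ∃ js, PW S r p.1 p.2 T js := fun ⟨js, hj⟩ => hp js hj
    simp only [shf, dif_neg hn]

end Pool.Agent.FAN
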