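import Pool.Agent.FAN2.StW

/-!
# FAN2, block W: module SPL, window splitting (helper98)
-/

set_option autoImplicit false

open scoped ComplexConjugate
open MeasureTheory Set

namespace Pool.Agent.FAN

/-- moving the base point along the line changes no height -/
private theorem SPL_cx (p x v : ℂ) (T : ℝ) : cx v (p - (x + T * v)) = cx v (p - x) := by
  simp only [cx, Complex.sub_re, Complex.sub_im, Complex.add_re, Complex.add_im, Complex.mul_re,
    Complex.mul_im, Complex.ofReal_re, Complex.ofReal_im]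
  ring

private theorem SPL_h3 {S : TriSys} (q : Pl S) (x v : ℂ) (T : ℝ) :
    q.h3 (x + T * v) v = q.h3 x v := by
  simp only [Pl.h3, SPL_cx]

private theorem SPL_clr {S : TriSys} (x v : ℂ) (T : ℝ) (js : List (ZMod 3)) :
    ∀ q : Pl S, clr q js (x + T * v) v = clr q js x v := by
  induction js with
  | nil => intro q; exact SPL_h3 q x v T
  | cons j js ih =>
    intro q
    simp only [clr, SPL_h3, ih]

private theorem SPL_Ex {S : TriSys} (q : Pl S) (x v : ℂ) (T : ℝ) (j : ZMod 3) :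
    q.Ex (x + T * v) v j ↔ q.Ex x v j := by
  simp only [Pl.Ex, SPL_cx]

private theorem SPL_Run {S : TriSys} (x v : ℂ) (T : ℝ) (js : List (ZMod 3)) :
    ∀ q : Pl S, Run q (x + T * v) v js ↔ Run q x v js := by
  induction js with
  | nil => intro q; exact Iff.rfl
  | cons j js ih =>
    intro q
    simp only [Run, SPL_Ex, ih]

private theorem SPL_clr_le {S : TriSys} (q : Pl S) (js : List (ZMod 3)) (x v : ℂ) :
    clr q js x v ≤ q.h3 x v := by
  cases js with
  | nil => exact le_refl _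
  | cons j js => exact min_le_left _ _

private theorem SPL_append {S : TriSys} (x v : ℂ) (js' js : List (ZMod 3)) :
    ∀ q : Pl S, clr q (js ++ js') x v = min (clr q js x v) (clr (endP q js) js' x v) := by
  induction js with
  | nil =>
    intro q
    exact (min_eq_right (SPL_clr_le q js' x v)).symm
  | cons j js ih =>
    intro q
    change min (q.h3 x v) (clr (q.nx j) (js ++ js') x v) =
      min (min (q.h3 x v) (clr (q.nx j) js x v)) (clr (endP (q.nx j) js) js' x v)
    rw [ih, min_assoc]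

/-- the moved phase point -/
private theorem SPL_mov (hMOV : Sa_MOV) {S : TriSys} (q : Pl S) (x v : ℂ) (T N : ℝ)
    (js' : List (ZMod 3)) (hq : q.In (x + T * v)) :
    (PW S q.r ((x + T * v - q.b) / q.a) (v / q.a) N js' ↔
      Run q x v js' ∧ (endP q js').In (x + (T + N : ℝ) * v)) ∧
    clr (Pl.home S q.r) js' ((x + T * v - q.b) / q.a) (v / q.a) = clr q js' x v := by
  have ha0 : q.a ≠ 0 := by
    rw [← norm_ne_zero_iff, q.ha]
    exact one_ne_zero
  have hc : ‖q.a⁻¹‖ = 1 := by rw [norm_inv, q.ha, inv_one]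
  obtain ⟨-, -, m3, -, m5⟩ := hMOV S q.a⁻¹ (-q.b / q.a) hc
  obtain ⟨n1, n2, -, -, n5, -⟩ := m5 js' q (x + T * v) v 0
  have e1 : q.mv q.a⁻¹ (-q.b / q.a) hc = Pl.home S q.r := by
    ext
    · rfl
    · change q.a⁻¹ * q.a = 1
      exact inv_mul_cancel₀ ha0
    · change q.a⁻¹ * q.b + -q.b / q.a = 0
      field_simp
      ring
  have ex : ∀ y : ℂ, q.a⁻¹ * y + -q.b / q.a = (y - q.b) / q.a := by
    intro y
    field_simp
    ring
  have ev' : q.a⁻¹ * v = v / q.a := by
    field_simp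
  rw [e1, ex, ev'] at n1 n5
  rw [e1] at n2
  have hin := (m3 q (x + T * v)).2 hq
  rw [e1, ex] at hin
  have h6 : (x + T * v - q.b) / q.a + N * (v / q.a) = q.a⁻¹ * (x + (T + N : ℝ) * v) + -q.b / q.a := by
    push_cast
    field_simp
    ring
  have hfin : (endP (Pl.home S q.r) js').In ((x + T * v - q.b) / q.a + N * (v / q.a)) ↔
      (endP q js').In (x + (T + N : ℝ) * v) := by
    rw [n2, h6]
    exact m3 (endP q js') _
  refine ⟨⟨fun h => ⟨?_, hfin.1 h.2.2⟩, fun h => ⟨hin, ?_, hfin.2 h.2⟩⟩, ?_⟩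
  · exact (SPL_Run x v T js' q).1 (n1.1 h.2.1)
  · exact n1.2 ((SPL_Run x v T js' q).2 h.1)
  · rw [n5]
    exact SPL_clr x v T js' q

/-- SPL. -/
theorem w_SPL (hMOV : Sa_MOV) (hEXU : Sa_EXU) (hUNI : Sa_UNI) (hCLV : Sa_CLV) (hMON : Sm_MON)
    (hSHE : Sw_SHE) : Sw_SPL := by
  intro S r x v T N js q _ _ hN hPW hq
  have hqin : q.In (x + T * v) := by
    rw [hq]
    exact hPW.2.2
  have hmov := fun js' => SPL_mov hMOV q x v T N js' hqin
  have hW : ∀ W, PW S r x v (T + N) W ↔
      ∃ js', W = js ++ js' ∧ PW S q.r ((x + T * v - q.b) / q.a) (v / q.a) N js' := by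
    intro W
    constructor
    · intro h
      have hTN : T ≤ T + N := by linarith
      obtain ⟨hpre, -⟩ := hMON S r x v T (T + N) js W hTN hPW h
      obtain ⟨js', rfl⟩ := hpre
      obtain ⟨e1, e2, -, -⟩ := (hEXU S).2.2.2.2.2.2.2 js js' (Pl.home S r) x v 0
      refine ⟨js', rfl, (hmov js').1.2 ⟨?_, ?_⟩⟩
      · rw [hq]
        exact (e1.1 h.2.1).2
      · have h3 := h.2.2
        rw [e2, ← hq] at h3
        exact h3
    · rintro ⟨js', rfl, h⟩
      obtain ⟨e1, e2, -, -⟩ := (hEXU S).2.2.2.2.2.2.2 js js' (Pl.home S r) x v 0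
      obtain ⟨h1, h2⟩ := (hmov js').1.1 h
      refine ⟨hPW.1, e1.2 ⟨hPW.2.1, ?_⟩, ?_⟩
      · rw [← hq]
        exact h1
      · rw [e2, ← hq]
        exact h2
  have hD : ∀ js', PW S q.r ((x + T * v - q.b) / q.a) (v / q.a) N js' →
      DD S q.r ((x + T * v - q.b) / q.a) (v / q.a) N = clr q js' x v := by
    intro js' h
    rw [(hUNI S _ _ _ _ _ _ h h).2.1]
    exact (hmov js').2
  have hDT : DT S r x v T N = DD S q.r ((x + T * v - q.b) / q.a) (v / q.a) N :=
    hSHE S T (fun r x v => DD S r x v N) r x v js q hPW hq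
  refine ⟨hW, ?_, hDT, ?_⟩
  · by_cases hex : ∃ W, PW S r x v (T + N) W
    · obtain ⟨W, h⟩ := hex
      obtain ⟨js', rfl, h'⟩ := (hW W).1 h
      rw [(hUNI S _ _ _ _ _ _ h h).2.1, (hUNI S _ _ _ _ _ _ hPW hPW).2.1, hD js' h', SPL_append, ← hq]
    · have hex' : ¬ ∃ js', PW S q.r ((x + T * v - q.b) / q.a) (v / q.a) N js' := by
        rintro ⟨js', h'⟩
        exact hex ⟨js ++ js', (hW _).2 ⟨js', rfl, h'⟩⟩
      have h0 : DD S r x v (T + N) = 0 := dif_neg hex
      have h0' : DD S q.r ((x + T * v - q.b) / q.a) (v / q.a) N = 0 := dif_neg hex'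
      rw [h0, h0', (hUNI S _ _ _ _ _ _ hPW hPW).2.1]
      exact (min_eq_right ((hCLV S js (Pl.home S r) x v).2.2.1)).symm
  · intro js' h
    obtain ⟨js'', hj, h'⟩ := (hW _).1 h
    have hj' : js' = js'' := List.append_cancel_left hj
    rw [hDT, hj']
    exact hD js'' h'

end Pool.Agent.FAN
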