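import Pool.Agent.FAN2.H_ARC
import Pool.Agent.FAN2.H_BAN
import Pool.Agent.FAN2.H_DEC
import Pool.Agent.FAN2.H_DYA
import Pool.Agent.FAN2.H_EEL
import Pool.Agent.FAN2.H_EEM
import Pool.Agent.FAN2.H_FLW
import Pool.Agent.FAN2.H_HIT
import Pool.Agent.FAN2.H_HTU
import Pool.Agent.FAN2.H_MSE
import Pool.Agent.FAN2.H_NOW
import Pool.Agent.FAN2.H_ONE
import Pool.Agent.FAN2.H_PPM
import Pool.Agent.FAN2.H_SEQ
import Pool.Agent.FAN2.H_STR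
import Pool.Agent.FAN2.H_TMS
import Pool.Agent.FAN2.H_UNB
import Pool.Agent.FAN2.W_EEL
import Pool.Agent.FAN2.W_SHE
import Pool.Agent.FAN2.W_SHM
import Pool.Agent.FAN2.W_SPL

/-!
# FAN2, block H: assembly (helper15)
-/

set_option autoImplicit false

namespace Pool.Agent.FAN

theorem h_hit_of (hHHH : Sw_HHH) : Si_HIT := by
  have hEEM : Sh_EEM := h_EEM
  have hARC : Sh_ARC := h_ARC
  have hSHM : Sw_SHM := w_SHM b_OPN (w_SHE b_UNI)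
  have hSPL : Sw_SPL := w_SPL m_MOV m_EXU b_UNI b_CLV b_MON (w_SHE b_UNI)
  have hFLW : Sh_FLW := h_FLW hEEM h_NOW hSHM hSPL hHHH
  have hDEC : Sh_DEC := h_DEC (h_LST h_CLA) h_FST h_CLA (h_GEO h_PAR h_CRX) h_TMS
  have hUNB : Sh_UNB := h_UNB (h_STR h_BAN hARC) hDEC
  exact h_HIT hEEM h_MSE hFLW (h_ANT h_NOW) (h_SPL h_NOW) (h_ONE h_BAN hEEM h_MSE h_NOW) hUNB h_SEQ
    (h_PPM hEEM h_MSE h_NOW)

theorem h_htu_of (hHHH : Sw_HHH) : Si_HTU :=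
  h_HTU h_DYA (h_EEL (w_EEL b_OPN b_TO1)) (h_hit_of hHHH)

end Pool.Agent.FAN
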