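import Pool.Agent.FAN2.StH
import Pool.Agent.FAN.Base3
import Pool.Agent.FAN.A_CLS
import Pool.Agent.FAN.A_CLV
import Pool.Agent.FAN.A_CTS
import Pool.Agent.FAN.A_DIA
import Pool.Agent.FAN.A_ENT
import Pool.Agent.FAN.A_LEN
import Pool.Agent.FAN.A_PWR
import Pool.Agent.FAN.A_TIM
import Pool.Agent.FAN.A_UNI
import Pool.Agent.FAN.F_NHC
import Pool.Agent.FAN.F_TMB
import Pool.Agent.FAN.F_WDP
import Pool.Agent.FAN.F_LIP
import Pool.Agent.FAN.K_FIN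
import Pool.Agent.FAN.K_MSD
import Pool.Agent.FAN.K_OPN
import Pool.Agent.FAN.K_RCT
import Pool.Agent.FAN.M_BND
import Pool.Agent.FAN.M_EXI
import Pool.Agent.FAN.M_MEA
import Pool.Agent.FAN.M_MON
import Pool.Agent.FAN.M_OPN
import Pool.Agent.FAN.M_TO1

/-!
# FAN2, block H: unconditional versions of the statements of FAN (helper15)
-/

set_option autoImplicit false

namespace Pool.Agent.FAN

theorem b_TIM : Sa_TIM := m_TIM m_GLU m_ORI m_EXU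
theorem b_CTS : Sa_CTS := m_CTS m_EXU b_TIM
theorem b_UNI : Sa_UNI := m_UNI m_EXU b_TIM b_CTS
theorem b_PWR : Sa_PWR := m_PWR m_MOV m_REV b_UNI
theorem b_DIA : Sa_DIA := m_DIA b_TIM
theorem b_LEN : Sa_LEN := m_LEN m_GLU m_ORI m_EXU b_TIM
theorem b_ENT : Sa_ENT := m_ENT m_EXU b_TIM b_CTS
theorem b_CLV : Sa_CLV := m_CLV
theorem b_CLS : Sa_CLS := m_CLS m_GLU
theorem b_KFIN : Sk_FIN := m_KFIN m_KSCL
theorem b_KMSD : Sk_MSD := m_KMSD m_KOPN b_UNI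
theorem b_OPN : Sm_OPN := g_OPN b_DIA
theorem b_MEA : Sm_MEA := g_MEA b_OPN b_UNI
theorem b_BND : Sm_BND := g_BND b_UNI b_CTS b_CLV
theorem b_MON : Sm_MON := g_MON b_UNI m_EXU b_TIM b_CTS
theorem b_TO1 : Sm_TO1 := g_TO1 b_OPN
theorem b_WDP : Sf_WDP := f_WDP m_EXU b_TIM b_ENT
theorem b_TMB : Sf_TMB := f_TMB b_LEN b_CTS b_ENT b_WDP
theorem b_NHC : Sf_NHC := f_NHC b_TIM b_CTS b_ENT
theorem b_EXI : Sm_EXI := g_EXI b_NHC b_WDP b_TMB

end Pool.Agent.FAN
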