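import Pool.Agent.FAN2.StN

/-!
# FAN2, block N: BK0, the first room (helper69)
-/

set_option autoImplicit false

open scoped ComplexConjugate
open MeasureTheory Set

namespace Pool.Agent.FAN

namespace NBK0

private lemma cx_ev (w : ℂ) (t : ℝ) :
    cx (ev t) w = -(‖w‖ * Real.sin (t - Complex.arg w)) := by
  have h1 : w.re = ‖w‖ * Real.cos (Complex.arg w) := (Complex.norm_mul_cos_arg w).symm
  have h2 : w.im = ‖w‖ * Real.sin (Complex.arg w) := (Complex.norm_mul_sin_arg w).symm
  have e1 : ‖w‖ * (Real.sin t * Real.cos (Complex.arg w) - Real.cos t * Real.sin (Complex.arg w)) =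
      Real.sin t * (‖w‖ * Real.cos (Complex.arg w)) -
        Real.cos t * (‖w‖ * Real.sin (Complex.arg w)) := by ring
  rw [Real.sin_sub, e1, ← h1, ← h2]
  simp only [cx, ev]
  ring

private lemma cx_deriv (w : ℂ) (t : ℝ) :
    HasDerivAt (fun u : ℝ => cx (ev u) w ^ 2 / 2)
      (cx (ev t) w * -(‖w‖ * Real.cos (t - Complex.arg w))) t := by
  have h0 : (fun u : ℝ => cx (ev u) w ^ 2 / 2) =
      fun u : ℝ => (-(‖w‖ * Real.sin (u - Complex.arg w))) ^ 2 / 2 := by
    funext u
    rw [cx_ev]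
  rw [h0, cx_ev]
  have h1 : HasDerivAt (fun u : ℝ => u - Complex.arg w) 1 t := (hasDerivAt_id t).sub_const _
  have h2 : HasDerivAt (fun u : ℝ => -(‖w‖ * Real.sin (u - Complex.arg w)))
      (-(‖w‖ * Real.cos (t - Complex.arg w))) t := by
    have h3 := ((h1.sin).const_mul ‖w‖).fun_neg
    exact h3.congr_deriv (by ring)
  have h4 := (h2.fun_pow 2).div_const 2
  refine h4.congr_deriv ?_
  ring

private lemma kp_even (s y : ℝ) : kp s |y| = kp s y := by
  unfold kp
  rw [sq_abs]

/-- pointwise bound -/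
private lemma pt (h3 : Sn_KER) (S : TriSys) (r : S.R) (x : ℂ) (s : ℝ) (hs : 0 < s) (ψ : ℝ) :
    bk S r x s [] ψ ≤ ∑ i : ZMod 3, 2 * ‖(Pl.home S r).V i - x‖ *
      kp s (‖(Pl.home S r).V i - x‖ * Real.sin (ψ - Complex.arg ((Pl.home S r).V i - x))) := by
  obtain ⟨k1, k2, -⟩ := h3 s hs
  have hterm : ∀ i : ZMod 3, 0 ≤ 2 * ‖(Pl.home S r).V i - x‖ *
      kp s (‖(Pl.home S r).V i - x‖ * Real.sin (ψ - Complex.arg ((Pl.home S r).V i - x))) :=
    fun i => mul_nonneg (by positivity) (k1 _).1.le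
  by_cases hd : DifferentiableAt ℝ (fun t => ee S r x [] t ^ 2 / 2) ψ
  · -- the minimum is realised by one of the vertices
    have hle : ∀ (i : ZMod 3) (t : ℝ), ee S r x [] t ≤ |cx (ev t) ((Pl.home S r).V i - x)| := by
      intro i t
      simp only [ee, clr, Pl.h3]
      fin_cases i
      · exact min_le_left _ _
      · exact (min_le_right _ _).trans (min_le_left _ _)
      · exact (min_le_right _ _).trans (min_le_right _ _)
    have hex : ∃ i : ZMod 3, ee S r x [] ψ = |cx (ev ψ) ((Pl.home S r).V i - x)| := by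
      simp only [ee, clr, Pl.h3]
      rcases min_choice |cx (ev ψ) ((Pl.home S r).V 0 - x)|
        (min |cx (ev ψ) ((Pl.home S r).V 1 - x)| |cx (ev ψ) ((Pl.home S r).V 2 - x)|) with h | h
      · exact ⟨0, h⟩
      · rcases min_choice |cx (ev ψ) ((Pl.home S r).V 1 - x)|
          |cx (ev ψ) ((Pl.home S r).V 2 - x)| with h' | h'
        · exact ⟨1, h.trans h'⟩
        · exact ⟨2, h.trans h'⟩
    obtain ⟨i, hi⟩ := hex
    have he0 : ∀ t, 0 ≤ ee S r x [] t := fun t => by
      simp only [ee, clr, Pl.h3]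
      exact le_min (abs_nonneg _) (le_min (abs_nonneg _) (abs_nonneg _))
    set w : ℂ := (Pl.home S r).V i - x with hw
    have hmin : IsLocalMin (fun t => cx (ev t) w ^ 2 / 2 - ee S r x [] t ^ 2 / 2) ψ := by
      refine Filter.Eventually.of_forall fun t => ?_
      have h5 : ee S r x [] t ^ 2 ≤ cx (ev t) w ^ 2 := by
        rw [← sq_abs (cx (ev t) w)]
        exact pow_le_pow_left₀ (he0 t) (hle i t) 2
      have h6 : ee S r x [] ψ ^ 2 = cx (ev ψ) w ^ 2 := by
        rw [hi, sq_abs]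
      simp only
      rw [h6]
      linarith
    have hder : HasDerivAt (fun t => cx (ev t) w ^ 2 / 2 - ee S r x [] t ^ 2 / 2)
        (cx (ev ψ) w * -(‖w‖ * Real.cos (ψ - Complex.arg w)) -
          deriv (fun t => ee S r x [] t ^ 2 / 2) ψ) ψ := (cx_deriv w ψ).fun_sub hd.hasDerivAt
    have hz := hmin.hasDerivAt_eq_zero hder
    have hdv : deriv (fun t => ee S r x [] t ^ 2 / 2) ψ =
        cx (ev ψ) w * -(‖w‖ * Real.cos (ψ - Complex.arg w)) := by linarith
    have hbk : bk S r x s [] ψ = (|cx (ev ψ) w| * kd s |cx (ev ψ) w|) *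
        (‖w‖ * |Real.cos (ψ - Complex.arg w)|) := by
      unfold bk bb
      rw [hdv, hi, abs_mul, abs_neg, abs_mul, abs_of_nonneg (norm_nonneg w)]
      ring
    have hA0 : 0 ≤ |cx (ev ψ) w| * kd s |cx (ev ψ) w| :=
      mul_nonneg (abs_nonneg _) (k2 _ (abs_nonneg _))
    have hA1 : |cx (ev ψ) w| * kd s |cx (ev ψ) w| ≤
        2 * kp s (‖w‖ * Real.sin (ψ - Complex.arg w)) := by
      refine (k1 |cx (ev ψ) w|).2.2.2.2.2.trans (le_of_eq ?_)
      rw [kp_even, cx_ev]
      unfold kp
      rw [neg_sq]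
    have hB : ‖w‖ * |Real.cos (ψ - Complex.arg w)| ≤ ‖w‖ :=
      mul_le_of_le_one_right (norm_nonneg _) (Real.abs_cos_le_one _)
    have hC : bk S r x s [] ψ ≤ 2 * ‖w‖ * kp s (‖w‖ * Real.sin (ψ - Complex.arg w)) := by
      rw [hbk]
      calc _ ≤ (2 * kp s (‖w‖ * Real.sin (ψ - Complex.arg w))) * ‖w‖ :=
            mul_le_mul hA1 hB (by positivity) (hA0.trans hA1)
        _ = _ := by ring
    refine hC.trans ?_
    exact Finset.single_le_sum (f := fun i : ZMod 3 => 2 * ‖(Pl.home S r).V i - x‖ *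
      kp s (‖(Pl.home S r).V i - x‖ * Real.sin (ψ - Complex.arg ((Pl.home S r).V i - x))))
      (fun j _ => hterm j) (Finset.mem_univ i)
  · have hb : bk S r x s [] ψ = 0 := by
      unfold bk bb
      rw [deriv_zero_of_not_differentiableAt hd, abs_zero, mul_zero]
    rw [hb]
    exact Finset.sum_nonneg fun i _ => hterm i

end NBK0

/-- BK0. The first room. -/
theorem n_BK0 (h3 : Sn_KER) (h4 : Sn_JOR) : Sn_BK0 := by
  intro S r x _ s hs
  have hpi := Real.pi_pos
  have hsq : 0 < √s := Real.sqrt_pos.2 hs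
  by_cases hI : IntervalIntegrable (bk S r x s []) volume 0 (2 * Real.pi)
  · have hc : ∀ i : ZMod 3, Continuous fun ψ : ℝ => 2 * ‖(Pl.home S r).V i - x‖ *
        kp s (‖(Pl.home S r).V i - x‖ * Real.sin (ψ - Complex.arg ((Pl.home S r).V i - x))) := by
      intro i
      obtain ⟨-, -, -, k4, -⟩ := h3 s hs
      exact continuous_const.mul (k4.comp (continuous_const.mul
        (Real.continuous_sin.comp (continuous_id.sub continuous_const))))
    calc ∫ ψ in (0 : ℝ)..(2 * Real.pi), bk S r x s [] ψ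
        ≤ ∫ ψ in (0 : ℝ)..(2 * Real.pi), ∑ i : ZMod 3, 2 * ‖(Pl.home S r).V i - x‖ *
          kp s (‖(Pl.home S r).V i - x‖ *
            Real.sin (ψ - Complex.arg ((Pl.home S r).V i - x))) := by
          refine intervalIntegral.integral_mono_on (by positivity) hI ?_
            (fun ψ _ => NBK0.pt h3 S r x s hs ψ)
          exact (continuous_finsetSum _ fun i _ => hc i).intervalIntegrable _ _
      _ = ∑ i : ZMod 3, ∫ ψ in (0 : ℝ)..(2 * Real.pi), 2 * ‖(Pl.home S r).V i - x‖ *
          kp s (‖(Pl.home S r).V i - x‖ *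
            Real.sin (ψ - Complex.arg ((Pl.home S r).V i - x))) :=
          intervalIntegral.integral_finsetSum fun i _ => (hc i).intervalIntegrable _ _
      _ ≤ ∑ _i : ZMod 3, 2 * Real.pi ^ 2 / √s :=
          Finset.sum_le_sum fun i _ => h4 _ s _ (norm_nonneg _) hs
      _ = 6 * Real.pi ^ 2 / √s := by
          rw [Finset.sum_const, Finset.card_univ, ZMod.card]
          simp only [nsmul_eq_mul]
          push_cast
          ring
  · rw [intervalIntegral.integral_undef hI]
    positivity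

end Pool.Agent.FAN
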