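import Pool.Agent.FAN2.StN

/-!
# FAN2, block N, module EDK: the integrated fan inequality for the kernel (helper97)
-/

set_option autoImplicit false

open scoped ComplexConjugate
open MeasureTheory Set

namespace Pool.Agent.FAN

private theorem edk_ev : Continuous ev := by
  have h : ev = fun ψ : ℝ => (Real.cos ψ : ℂ) + (Real.sin ψ : ℂ) * Complex.I := by
    funext ψ
    apply Complex.ext
    · simp only [ev, Complex.add_re, Complex.mul_re, Complex.ofReal_re, Complex.ofReal_im,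
        Complex.I_re, Complex.I_im]
      ring
    · simp only [ev, Complex.add_im, Complex.mul_im, Complex.ofReal_re, Complex.ofReal_im,
        Complex.I_re, Complex.I_im]
      ring
  rw [h]
  exact (Complex.continuous_ofReal.comp Real.continuous_cos).add
    ((Complex.continuous_ofReal.comp Real.continuous_sin).mul continuous_const)

private theorem edk_ev1 (ψ : ℝ) : ‖ev ψ‖ = 1 := by
  have h : ‖ev ψ‖ ^ 2 = 1 := by
    rw [← Complex.normSq_eq_norm_sq, Complex.normSq_apply]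
    simp only [ev]
    nlinarith [Real.sin_sq_add_cos_sq ψ]
  have h0 := norm_nonneg (ev ψ)
  nlinarith

private theorem edk_lin (S : TriSys) (c : ℝ) (G : S.R → ℂ → ℝ → ℝ) :
    EE S (fun r x ψ => c * G r x ψ) = c * EE S G := by
  simp only [EE, integral_const_mul, intervalIntegral.integral_const_mul, Finset.mul_sum]

/-- linearity of `EE` for bounded measurable functions -/
private theorem edk_add (h : Sm_TO1) (S : TriSys) (c d B : ℝ) (G H : S.R → ℂ → ℝ → ℝ)
    (mG : ∀ r, Measurable (fun p : ℂ × ℝ => G r p.1 p.2)) (bG : ∀ r x ψ, |G r x ψ| ≤ B)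
    (mH : ∀ r, Measurable (fun p : ℂ × ℝ => H r p.1 p.2)) (bH : ∀ r x ψ, |H r x ψ| ≤ B) :
    EE S (fun r x ψ => c * G r x ψ + d * H r x ψ) = c * EE S G + d * EE S H := by
  obtain ⟨g1, g2, g3⟩ := h S G B mG bG
  obtain ⟨k1, k2, k3⟩ := h S H B mH bH
  have hB : ∀ r x ψ, |c * G r x ψ + d * H r x ψ| ≤ |c| * B + |d| * B := by
    intro r x ψ
    refine (abs_add_le _ _).trans (add_le_add ?_ ?_)
    · rw [abs_mul]
      exact mul_le_mul_of_nonneg_left (bG r x ψ) (abs_nonneg c)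
    · rw [abs_mul]
      exact mul_le_mul_of_nonneg_left (bH r x ψ) (abs_nonneg d)
  obtain ⟨-, -, l3⟩ := h S (fun r x ψ => c * G r x ψ + d * H r x ψ) (|c| * B + |d| * B)
    (fun r => ((mG r).const_mul c).add ((mH r).const_mul d)) hB
  rw [l3, g3, k3, Finset.mul_sum, Finset.mul_sum, ← Finset.sum_add_distrib]
  refine Finset.sum_congr rfl fun r _ => ?_
  rw [← integral_const_mul, ← integral_const_mul, ← integral_add ((g1 r).const_mul c)
    ((k1 r).const_mul d)]
  refine integral_congr_ae (Filter.Eventually.of_forall fun x => ?_)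
  simp only []
  rw [intervalIntegral.integral_add ((g2 r x).const_mul c) ((k2 r x).const_mul d),
    intervalIntegral.integral_const_mul, intervalIntegral.integral_const_mul]

/-- composition with opaque functions -/
private theorem edk_mc {α β : Type*} [MeasurableSpace α] [MeasurableSpace β] (F : β → ℝ)
    (g : α → β) (hF : Measurable F) (hg : Measurable g) : Measurable fun p => F (g p) :=
  hF.comp hg

/-- the left hand side at one length -/
private theorem edk_left (h4 : Sn_SYK) (h5 : Sn_MEK) (h6 : Sn_KER) (h9 : Sm_TO1) (S : TriSys)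
    (s N : ℝ) (hs : 0 < s) (hN : 0 ≤ N) :
    EE S (fun r x ψ => kd s (DD S r x (ev ψ) N) * SS S r x (ev ψ) N) =
      N * UU S s N - N * s * WW S s N := by
  obtain ⟨m1, m2, -⟩ := h5 S s hs
  have hc2 : Measurable fun p : ℂ × ℝ => ((p.1, ev p.2, N) : ℂ × ℂ × ℝ) :=
    measurable_fst.prodMk ((edk_ev.measurable.comp measurable_snd).prodMk measurable_const)
  have hK2 : ∀ r, Measurable fun p : ℂ × ℝ => kp s (DD S r p.1 (ev p.2) N) := fun r => by
    have h := edk_mc _ _ (m1 r).1 hc2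
    exact h
  have hkabs : ∀ (r : S.R) (x : ℂ) (ψ : ℝ), |kp s (DD S r x (ev ψ) N)| ≤ 1 / s := fun r x ψ => by
    rw [abs_of_pos (m2 r x (ev ψ) N).1]
    exact (m2 r x (ev ψ) N).2
  have e1 := h4 S s N hs hN
  have e2 : (fun (r : S.R) (x : ℂ) (ψ : ℝ) => kd s (DD S r x (ev ψ) N) * DD S r x (ev ψ) N) =
      fun r x ψ => 2 * kp s (DD S r x (ev ψ) N) + (-(2 * s)) * kp s (DD S r x (ev ψ) N) ^ 2 := by
    funext r x ψ
    have e := ((h6 s hs).1 (DD S r x (ev ψ) N)).2.2.2.1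
    rw [mul_comm, e]
    ring
  have e5 := edk_add h9 S 2 (-(2 * s)) (max (1 / s) ((1 / s) ^ 2))
    (fun r x ψ => kp s (DD S r x (ev ψ) N)) (fun r x ψ => kp s (DD S r x (ev ψ) N) ^ 2)
    hK2 (fun r x ψ => (hkabs r x ψ).trans (le_max_left _ _))
    (fun r => (hK2 r).pow_const 2) (fun r x ψ => by
      rw [abs_pow]
      exact (pow_le_pow_left₀ (abs_nonneg _) (hkabs r x ψ) 2).trans (le_max_right _ _))
  have e3 : EE S (fun r x ψ => kp s (DD S r x (ev ψ) N)) = UU S s N := rfl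
  have e4 : EE S (fun r x ψ => kp s (DD S r x (ev ψ) N) ^ 2) = WW S s N := rfl
  rw [e3, e4] at e5
  rw [e1, e2, e5]
  ring

/-- pure bookkeeping of the constants -/
private theorem edk_fin (C W s M L A T1 U1 : ℝ) (hC0 : 0 ≤ C) (hW0 : 0 ≤ W) (hM : 0 ≤ M)
    (hle1 : T1 ≤ U1) (hU0 : 0 ≤ U1)
    (hsum : L ≤ A + C * (M + 1) * T1 + 6 * Real.pi ^ 2 * M / √s * W) :
    L ≤ A + (C + 1 + 6 * Real.pi ^ 2 * W) * (M + 1) * U1 +
      (C + 1 + 6 * Real.pi ^ 2 * W) * M / √s := by
  have hpW : 0 ≤ 6 * Real.pi ^ 2 * W := by positivity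
  have k1 : C * (M + 1) * T1 ≤ (C + 1 + 6 * Real.pi ^ 2 * W) * (M + 1) * U1 :=
    (mul_le_mul_of_nonneg_left hle1 (mul_nonneg hC0 (by linarith))).trans
      (mul_le_mul_of_nonneg_right (mul_le_mul_of_nonneg_right (by linarith) (by linarith)) hU0)
  have k2 : 6 * Real.pi ^ 2 * M / √s * W ≤ (C + 1 + 6 * Real.pi ^ 2 * W) * M / √s := by
    have e : 6 * Real.pi ^ 2 * M / √s * W = 6 * Real.pi ^ 2 * W * M / √s := by ring
    rw [e]
    exact div_le_div_of_nonneg_right (mul_le_mul_of_nonneg_right (by linarith) hM)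
      (Real.sqrt_nonneg s)
  linarith

/-- the last window -/
private theorem edk_win (h7 : Sn_UMO) (S : TriSys) (s M C D : ℝ) (hs : 0 < s) (hM : 0 ≤ M)
    (hC0 : 0 ≤ C) (hD : C + 1 ≤ D) :
    (∫ u in (0 : ℝ)..1, UU S s (M + C + u)) ≤ UU S s (M + D) := by
  have hUm := (h7 S).2.1 s hs
  have hmo : MonotoneOn (fun u => UU S s (M + C + u)) (uIcc (0 : ℝ) 1) := by
    intro a ha b hb hab
    rw [uIcc_of_le zero_le_one] at ha hb
    exact hUm (show (0 : ℝ) ≤ M + C + a by linarith [ha.1])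
      (show (0 : ℝ) ≤ M + C + b by linarith [hb.1]) (by linarith)
  have hi1 : IntervalIntegrable (fun u => UU S s (M + C + u)) volume 0 1 := hmo.intervalIntegrable
  have hi2 : IntervalIntegrable (fun _ : ℝ => UU S s (M + D)) volume 0 1 :=
    intervalIntegrable_const
  have h := intervalIntegral.integral_mono_on zero_le_one hi1 hi2
    (fun u hu => hUm (show (0 : ℝ) ≤ M + C + u by linarith [hu.1])
      (show (0 : ℝ) ≤ M + D by linarith) (by linarith [hu.2]))
  rw [intervalIntegral.integral_const, sub_zero, one_smul] at h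
  exact h

/-- EDK. -/
theorem n_EDK (h1 : Sn_FANF) (h2 : Sm_TON) (h3 : Sm_OPN) (h4 : Sn_SYK) (h5 : Sn_MEK) (h6 : Sn_KER)
    (h7 : Sn_UMO) (h9 : Sm_TO1) : Sn_EDK := by
  intro S
  obtain ⟨C, hC1, hF⟩ := h1 S
  have hfin : ∀ r, (volume : Measure ℂ) (rm S r) < ⊤ := fun r => (h3 S r).2.2.2
  have hms : ∀ r, MeasurableSet (rm S r) := fun r => (h3 S r).2.2.1
  obtain ⟨W, hW⟩ : ∃ W : ℝ, W = ∑ r, (volume : Measure ℂ).real (rm S r) := ⟨_, rfl⟩
  have hW0 : 0 ≤ W := by
    rw [hW]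
    exact Finset.sum_nonneg fun r _ => measureReal_nonneg
  have hC0 : 0 ≤ C := le_trans zero_le_one hC1
  have hpW : 0 ≤ 6 * Real.pi ^ 2 * W := by positivity
  refine ⟨C + 1 + 6 * Real.pi ^ 2 * W, by linarith, ?_⟩
  intro s M hs hM
  obtain ⟨m1, m2, m3⟩ := h5 S s hs
  obtain ⟨B₁, hB₁⟩ := m3 M hM
  have hcomp : Measurable fun p : ℂ × ℝ × ℝ => ((p.1, ev p.2.1, p.2.2) : ℂ × ℂ × ℝ) :=
    measurable_fst.prodMk ((edk_ev.measurable.comp (measurable_fst.comp measurable_snd)).prodMk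
      (measurable_snd.comp measurable_snd))
  have hKm : ∀ r, Measurable fun p : ℂ × ℝ × ℝ => kp s (DD S r p.1 (ev p.2.1) p.2.2) := fun r => by
    have h := edk_mc _ _ (m1 r).1 hcomp
    exact h
  have hSm : ∀ r, Measurable fun p : ℂ × ℝ × ℝ =>
      kd s (DD S r p.1 (ev p.2.1) p.2.2) * SS S r p.1 (ev p.2.1) p.2.2 := fun r => by
    have h := edk_mc _ _ (m1 r).2 hcomp
    exact h
  have hkabs : ∀ (r : S.R) (x v : ℂ) (N : ℝ), |kp s (DD S r x v N)| ≤ 1 / s := fun r x v N => by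
    rw [abs_of_pos (m2 r x v N).1]
    exact (m2 r x v N).2
  -- the three applications of TON
  obtain ⟨s1, -, s3⟩ := h2 S (fun r x ψ N => kd s (DD S r x (ev ψ) N) * SS S r x (ev ψ) N) M B₁ hM
    hSm (fun r x ψ N hN hN' => hB₁ r x (ev ψ) N (edk_ev1 ψ) hN hN')
  obtain ⟨a1, a2, a3⟩ := h2 S (fun r x ψ t => (2 * t - M) * kp s (DD S r x (ev ψ) t)) M (M * (1 / s))
    hM
    (fun r => ((((measurable_snd.comp measurable_snd).const_mul 2).sub measurable_const).mul
      (hKm r)))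
    (fun r x ψ t ht ht' => by
      rw [abs_mul]
      exact mul_le_mul (abs_le.2 ⟨by linarith, by linarith⟩) (hkabs r x (ev ψ) t) (abs_nonneg _) hM)
  have hsh : Measurable fun p : ℂ × ℝ × ℝ => ((p.1, p.2.1, M + C + p.2.2) : ℂ × ℝ × ℝ) :=
    measurable_fst.prodMk ((measurable_fst.comp measurable_snd).prodMk
      ((measurable_snd.comp measurable_snd).const_add (M + C)))
  obtain ⟨b1, b2, b3⟩ := h2 S (fun r x ψ u => kp s (DD S r x (ev ψ) (M + C + u))) 1 (1 / s)
    zero_le_one (fun r => by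
      have h := edk_mc _ _ (hKm r) hsh
      exact h) (fun r x ψ u _ _ => hkabs r x (ev ψ) (M + C + u))
  -- the left hand side
  have eL : (∫ N in (0 : ℝ)..M, (N * UU S s N - N * s * WW S s N)) =
      ∑ r, ∫ x in rm S r, ∫ ψ in (0 : ℝ)..(2 * Real.pi), ∫ N in (0 : ℝ)..M,
        kd s (DD S r x (ev ψ) N) * SS S r x (ev ψ) N := by
    rw [← s3]
    refine intervalIntegral.integral_congr fun N hN => ?_
    rw [uIcc_of_le hM] at hN
    exact (edk_left h4 h5 h6 h9 S s N hs hN.1).symm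
  have eA : (∫ t in (0 : ℝ)..M, (2 * t - M) * UU S s t) =
      ∑ r, ∫ x in rm S r, ∫ ψ in (0 : ℝ)..(2 * Real.pi), ∫ t in (0 : ℝ)..M,
        (2 * t - M) * kp s (DD S r x (ev ψ) t) := by
    rw [← a3]
    refine intervalIntegral.integral_congr fun t _ => ?_
    exact (edk_lin S (2 * t - M) (fun r x ψ => kp s (DD S r x (ev ψ) t))).symm
  have eB : (∫ u in (0 : ℝ)..1, UU S s (M + C + u)) =
      ∑ r, ∫ x in rm S r, ∫ ψ in (0 : ℝ)..(2 * Real.pi), ∫ u in (0 : ℝ)..1,
        kp s (DD S r x (ev ψ) (M + C + u)) := b3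
  -- one room
  have hroom : ∀ r, (∫ x in rm S r, ∫ ψ in (0 : ℝ)..(2 * Real.pi), ∫ N in (0 : ℝ)..M,
      kd s (DD S r x (ev ψ) N) * SS S r x (ev ψ) N) ≤
      (∫ x in rm S r, ∫ ψ in (0 : ℝ)..(2 * Real.pi), ∫ t in (0 : ℝ)..M,
        (2 * t - M) * kp s (DD S r x (ev ψ) t)) +
      C * (M + 1) * (∫ x in rm S r, ∫ ψ in (0 : ℝ)..(2 * Real.pi), ∫ u in (0 : ℝ)..1,
        kp s (DD S r x (ev ψ) (M + C + u))) +
      6 * Real.pi ^ 2 * M / √s * (volume : Measure ℂ).real (rm S r) := by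
    intro r
    have i3 : IntegrableOn (fun _ : ℂ => 6 * Real.pi ^ 2 * M / √s) (rm S r) :=
      integrableOn_const (ne_of_lt (hfin r))
    have hx0 : ∀ x ∈ rm S r, (∫ ψ in (0 : ℝ)..(2 * Real.pi), ∫ N in (0 : ℝ)..M,
        kd s (DD S r x (ev ψ) N) * SS S r x (ev ψ) N) ≤
        (∫ ψ in (0 : ℝ)..(2 * Real.pi), ∫ t in (0 : ℝ)..M,
          (2 * t - M) * kp s (DD S r x (ev ψ) t)) +
        C * (M + 1) * (∫ ψ in (0 : ℝ)..(2 * Real.pi), ∫ u in (0 : ℝ)..1,
          kp s (DD S r x (ev ψ) (M + C + u))) + 6 * Real.pi ^ 2 * M / √s := by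
      intro x hx
      have h := hF r x hx s M hs hM
      have hw : ∀ ψ : ℝ, (∫ t in (M + C)..(M + C + 1), kp s (DD S r x (ev ψ) t)) =
          ∫ u in (0 : ℝ)..1, kp s (DD S r x (ev ψ) (M + C + u)) := fun ψ => by
        have e := intervalIntegral.integral_comp_add_left (a := (0 : ℝ)) (b := 1)
          (fun t => kp s (DD S r x (ev ψ) t)) (M + C)
        rw [add_zero] at e
        exact e.symm
      have hw2 : (fun ψ : ℝ => (∫ t in (0 : ℝ)..M, (2 * t - M) * kp s (DD S r x (ev ψ) t)) +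
          C * (M + 1) * (∫ t in (M + C)..(M + C + 1), kp s (DD S r x (ev ψ) t))) =
          fun ψ : ℝ => (∫ t in (0 : ℝ)..M, (2 * t - M) * kp s (DD S r x (ev ψ) t)) +
          C * (M + 1) * (∫ u in (0 : ℝ)..1, kp s (DD S r x (ev ψ) (M + C + u))) := by
        funext ψ
        rw [hw ψ]
      rw [hw2, intervalIntegral.integral_add (a2 r x) ((b2 r x).const_mul (C * (M + 1))),
        intervalIntegral.integral_const_mul] at h
      exact h
    have hle := setIntegral_mono_on (s1 r) (((a1 r).add ((b1 r).const_mul (C * (M + 1)))).add i3)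
      (hms r) hx0
    refine hle.trans (le_of_eq ?_)
    have e1 := integral_add ((a1 r).add ((b1 r).const_mul (C * (M + 1)))) i3
    have e2 := integral_add (a1 r) ((b1 r).const_mul (C * (M + 1)))
    simp only [Pi.add_apply] at e1 e2 ⊢
    rw [e1, e2, integral_const_mul, setIntegral_const, smul_eq_mul]
    ring
  have hsum := Finset.sum_le_sum fun (r : S.R) (_ : r ∈ Finset.univ) => hroom r
  rw [Finset.sum_add_distrib, Finset.sum_add_distrib, ← Finset.mul_sum, ← Finset.mul_sum, ← eL,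
    ← eA, ← eB, ← hW] at hsum
  exact edk_fin C W s M _ _ _ _ hC0 hW0 hM
    (edk_win h7 S s M C (C + 1 + 6 * Real.pi ^ 2 * W) hs hM hC0 (by linarith))
    ((h7 S).1 s _ hs (by linarith)) hsum

end Pool.Agent.FAN
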