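import Pool.Agent.FAN2.StN

/-!
# FAN2, block N: `FANF`, the fan inequality for the kernel `1 / (y² + s)`, integrated over the
angle (helper20, after helper97's `F_FANF.lean`)
-/

set_option autoImplicit false

open scoped ComplexConjugate
open MeasureTheory Set

namespace Pool.Agent.FAN

private theorem nfan_ev : Measurable ev := by
  have h : Continuous ev := by
    have e : ev = fun ψ => ((Real.cos ψ : ℝ) : ℂ) + ((Real.sin ψ : ℝ) : ℂ) * Complex.I := by
      funext ψ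
      apply Complex.ext <;> simp [ev, -Complex.ofReal_cos, -Complex.ofReal_sin]
    rw [e]
    fun_prop
  exact h.measurable

private theorem nfan_nev (ψ : ℝ) : ‖ev ψ‖ = 1 := by
  have h : ‖ev ψ‖ ^ 2 = 1 := by
    rw [← Complex.normSq_eq_norm_sq, Complex.normSq_apply]
    simp only [ev]
    nlinarith [Real.sin_sq_add_cos_sq ψ]
  nlinarith [norm_nonneg (ev ψ), sq_nonneg (‖ev ψ‖ - 1)]

private theorem nfan_meas (G : ℝ × ℝ → ℝ) (M₁ M₂ : ℝ) (hM : M₁ ≤ M₂) (hG : Measurable G) :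
    Measurable (fun ψ => ∫ s in M₁..M₂, G (ψ, s)) := by
  have e : (fun ψ => ∫ s in M₁..M₂, G (ψ, s)) =
      fun ψ => ∫ s, G (ψ, s) ∂(volume.restrict (Ioc M₁ M₂)) := by
    funext ψ
    rw [intervalIntegral.integral_of_le hM]
  rw [e]
  exact (hG.stronglyMeasurable.integral_prod_right').measurable

private theorem nfan_int (G : ℝ × ℝ → ℝ) (M₁ M₂ B : ℝ) (hM : M₁ ≤ M₂) (hG : Measurable G)
    (hB : ∀ ψ s, M₁ ≤ s → s ≤ M₂ → |G (ψ, s)| ≤ B) (a b : ℝ) :
    IntervalIntegrable (fun ψ => ∫ s in M₁..M₂, G (ψ, s)) volume a b := by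
  refine (intervalIntegrable_const (c := B * |M₂ - M₁|)).mono_fun'
    (nfan_meas G M₁ M₂ hM hG).aestronglyMeasurable (Filter.Eventually.of_forall fun ψ => ?_)
  refine intervalIntegral.norm_integral_le_of_norm_le_const fun s hs => ?_
  rw [uIoc_of_le hM] at hs
  exact hB ψ s hs.1.le hs.2

private theorem nfan_sum {a b : ℝ} (f : ℕ → ℝ → ℝ)
    (h : ∀ n, IntervalIntegrable (f n) volume a b) (K : ℕ) :
    IntervalIntegrable (fun ψ => ∑ n ∈ Finset.range K, f n ψ) volume a b := by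
  induction K with
  | zero => simp
  | succ K ih =>
    simp only [Finset.sum_range_succ]
    exact ih.add (h K)

/-- The fan inequality for the kernel `1 / (y² + s)`, integrated over the angle. -/
theorem n_FANF (h1 : Sa_DIA) (h2 : Sf_LIP) (h3 : Sf_FSUM) (h4 : Sf_NHC) (h6 : Sf_TMB)
    (h7 : Sn_PTL) (h8 : Sn_PTW) (h9 : Sn_NODE) (h10 : Sn_FNI) (h11 : Sn_BK0) (h12 : Sm_MEA)
    (h13 : Sm_BND) (h14 : Sn_KER) : Sn_FANF := by
  intro S
  obtain ⟨D₀, h₀, hD1, -, hDa, hDb, hDc, -⟩ := h1 S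
  have hD : Dia S D₀ := ⟨hD1, hDa, hDb, hDc⟩
  obtain ⟨CT, hCT1, hCT⟩ := h6 S
  obtain ⟨C, hC1, hP⟩ := h8 S D₀ hD
  have hpi := Real.pi_pos
  have hD0 : 0 ≤ D₀ := by linarith
  refine ⟨C, hC1, ?_⟩
  intro r x hx s M hs hM
  obtain ⟨k1, -, -, k4, k5, -, -, -⟩ := h14 s hs
  -- measurability and bounds
  have hmap : Measurable (fun p : ℝ × ℝ => ((x, ev p.1, p.2) : ℂ × ℂ × ℝ)) :=
    measurable_const.prodMk ((nfan_ev.comp measurable_fst).prodMk measurable_snd)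
  have mDD : Measurable (fun p : ℝ × ℝ => DD S r x (ev p.1) p.2) := (h12 S r).1.comp hmap
  have mSS : Measurable (fun p : ℝ × ℝ => SS S r x (ev p.1) p.2) := (h12 S r).2.comp hmap
  have mkp : Measurable (fun p : ℝ × ℝ => kp s (DD S r x (ev p.1) p.2)) := k4.measurable.comp mDD
  have mkd : Measurable (fun p : ℝ × ℝ => kd s (DD S r x (ev p.1) p.2)) := k5.measurable.comp mDD
  have bSS : ∀ ψ t, 0 ≤ t → |SS S r x (ev ψ) t| ≤ D₀ * (t + D₀) := fun ψ t ht =>
    (h13 S D₀ hD r x (ev ψ) t (nfan_nev ψ) ht).2.2.1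
  have bkp : ∀ y, |kp s y| ≤ 1 / s := fun y => by
    rw [abs_of_pos (k1 y).1]
    exact (k1 y).2.1
  have bkd : ∀ y, |kd s y| ≤ 1 / (s * √s) := fun y => (k1 y).2.2.2.2.1
  -- good directions
  have g1 : ∀ᵐ ψ : ℝ, NH S r x (ev ψ) := by
    have h := (h4 S r x hx).ae_notMem (volume : Measure ℝ)
    filter_upwards [h] with ψ hψ
    by_contra hn
    exact hψ hn
  have g2 : ∀ᵐ ψ : ℝ, ∀ js : List (ZMod 3),
      DifferentiableAt ℝ (fun t => ee S r x js t ^ 2 / 2) ψ := by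
    rw [ae_all_iff]
    intro js
    obtain ⟨K, hK⟩ := (h2 S (Pl.home S r) js).1 x
    filter_upwards [hK.ae_differentiableAt (μ := (volume : Measure ℝ))] with ψ hψ
    have hψ' : DifferentiableAt ℝ (fun t => ee S r x js t) ψ := hψ
    exact (hψ'.pow 2).div_const 2
  -- the number of steps
  obtain ⟨K, hK⟩ : ∃ K : ℕ, ∀ ψ, NH S r x (ev ψ) → M ≤ tm S r x (ev ψ) (wd S r x (ev ψ) K) := by
    refine ⟨⌈CT * (1 + M)⌉₊, fun ψ hψ => ?_⟩
    have e1 := hCT r x (ev ψ) ⌈CT * (1 + M)⌉₊ hx (nfan_nev ψ) hψ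
    have e2 : CT * (1 + M) ≤ (⌈CT * (1 + M)⌉₊ : ℝ) := Nat.le_ceil _
    have e3 : CT * (1 + M) ≤ CT * (1 + tm S r x (ev ψ) (wd S r x (ev ψ) ⌈CT * (1 + M)⌉₊)) :=
      e2.trans e1
    have e4 := le_of_mul_le_mul_left e3 (by linarith)
    linarith
  -- summation over the words
  have hS : ∀ n : ℕ,
      IntervalIntegrable (fun ψ => LK S r x s M (wd S r x (ev ψ) (n + 1)) ψ) volume 0
        (2 * Real.pi) ∧
      IntervalIntegrable (fun ψ => RK S r x D₀ s M (wd S r x (ev ψ) (n + 1)) ψ) volume 0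
        (2 * Real.pi) ∧
      ∫ ψ in (0 : ℝ)..(2 * Real.pi), LK S r x s M (wd S r x (ev ψ) (n + 1)) ψ ≤
        ∫ ψ in (0 : ℝ)..(2 * Real.pi), RK S r x D₀ s M (wd S r x (ev ψ) (n + 1)) ψ := by
    intro n
    refine h3 S r x hx n (LK S r x s M) (RK S r x D₀ s M)
      (fun js => (h10 S D₀ hD r x hx js s M hs hM).1)
      (fun js => (h10 S D₀ hD r x hx js s M hs hM).2.1) ?_
    intro js j α β _ hαβ hβ hrun hα0 hβ0
    obtain ⟨i1, i2⟩ := (h10 S D₀ hD r x hx js s M hs hM).2.2.2 j α β hαβ hrun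
    exact ⟨i1, i2, h9 S D₀ hD r x hx js j α β s M hs hM hαβ hβ hrun hα0 hβ0⟩
  -- left side
  have hSint : IntervalIntegrable
      (fun ψ => ∫ N in (0 : ℝ)..M, kd s (DD S r x (ev ψ) N) * SS S r x (ev ψ) N) volume 0
      (2 * Real.pi) := by
    refine nfan_int (fun p => kd s (DD S r x (ev p.1) p.2) * SS S r x (ev p.1) p.2) 0 M
      (1 / (s * √s) * (D₀ * (M + D₀))) hM (mkd.mul mSS) (fun ψ t ht0 htM => ?_) _ _
    simp only
    rw [abs_mul]
    refine mul_le_mul (bkd _) ((bSS ψ t ht0).trans ?_) (abs_nonneg _)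
      ((abs_nonneg _).trans (bkd 0))
    exact mul_le_mul_of_nonneg_left (by linarith) hD0
  have hbint : IntervalIntegrable (fun ψ => bk S r x s [] ψ) volume 0 (2 * Real.pi) :=
    (h10 S D₀ hD r x hx [] s M hs hM).2.2.1 0 (2 * Real.pi)
  have hbint' : IntervalIntegrable (fun ψ => M * bk S r x s [] ψ) volume 0 (2 * Real.pi) :=
    hbint.const_mul M
  have hLint : IntervalIntegrable
      (fun ψ => ∑ n ∈ Finset.range K, LK S r x s M (wd S r x (ev ψ) (n + 1)) ψ) volume 0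
      (2 * Real.pi) :=
    nfan_sum (fun n ψ => LK S r x s M (wd S r x (ev ψ) (n + 1)) ψ) (fun n => (hS n).1) K
  have hRint : IntervalIntegrable
      (fun ψ => ∑ n ∈ Finset.range K, RK S r x D₀ s M (wd S r x (ev ψ) (n + 1)) ψ) volume 0
      (2 * Real.pi) :=
    nfan_sum (fun n ψ => RK S r x D₀ s M (wd S r x (ev ψ) (n + 1)) ψ) (fun n => (hS n).2.1) K
  have s1 : ∫ ψ in (0 : ℝ)..(2 * Real.pi),
        (∫ N in (0 : ℝ)..M, kd s (DD S r x (ev ψ) N) * SS S r x (ev ψ) N) ≤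
      ∫ ψ in (0 : ℝ)..(2 * Real.pi), (M * bk S r x s [] ψ +
        ∑ n ∈ Finset.range K, LK S r x s M (wd S r x (ev ψ) (n + 1)) ψ) := by
    refine intervalIntegral.integral_mono_ae (by positivity) hSint (hbint'.add hLint) ?_
    filter_upwards [g1, g2] with ψ hψ1 hψ2
    exact h7 S r x ψ s M K hx hψ1 hs hM (hK ψ hψ1) (fun n => hψ2 _)
  have s2 : ∫ ψ in (0 : ℝ)..(2 * Real.pi), (M * bk S r x s [] ψ +
        ∑ n ∈ Finset.range K, LK S r x s M (wd S r x (ev ψ) (n + 1)) ψ) =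
      M * (∫ ψ in (0 : ℝ)..(2 * Real.pi), bk S r x s [] ψ) + ∑ n ∈ Finset.range K,
        ∫ ψ in (0 : ℝ)..(2 * Real.pi), LK S r x s M (wd S r x (ev ψ) (n + 1)) ψ := by
    rw [intervalIntegral.integral_add hbint' hLint, intervalIntegral.integral_const_mul,
      intervalIntegral.integral_finsetSum (fun n _ => (hS n).1)]
  have s2' : M * (∫ ψ in (0 : ℝ)..(2 * Real.pi), bk S r x s [] ψ) ≤
      6 * Real.pi ^ 2 * M / √s := by
    have e1 := mul_le_mul_of_nonneg_left (h11 S r x hx s hs) hM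
    have e2 : M * (6 * Real.pi ^ 2 / √s) = 6 * Real.pi ^ 2 * M / √s := by ring
    linarith
  have s3 : ∑ n ∈ Finset.range K,
        ∫ ψ in (0 : ℝ)..(2 * Real.pi), LK S r x s M (wd S r x (ev ψ) (n + 1)) ψ ≤
      ∫ ψ in (0 : ℝ)..(2 * Real.pi),
        ∑ n ∈ Finset.range K, RK S r x D₀ s M (wd S r x (ev ψ) (n + 1)) ψ := by
    rw [intervalIntegral.integral_finsetSum (fun n _ => (hS n).2.1)]
    exact Finset.sum_le_sum fun n _ => (hS n).2.2
  -- right side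
  have hAint : IntervalIntegrable
      (fun ψ => ∫ t in (0 : ℝ)..M, (2 * t - M) * kp s (DD S r x (ev ψ) t)) volume 0
      (2 * Real.pi) := by
    refine nfan_int (fun p => (2 * p.2 - M) * kp s (DD S r x (ev p.1) p.2)) 0 M (M * (1 / s)) hM
      ((by fun_prop : Measurable (fun p : ℝ × ℝ => 2 * p.2 - M)).mul mkp) (fun ψ t ht0 htM => ?_)
      _ _
    simp only
    rw [abs_mul]
    exact mul_le_mul (abs_le.2 ⟨by linarith, by linarith⟩) (bkp _) (abs_nonneg _) hM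
  have hBint : IntervalIntegrable
      (fun ψ => ∫ t in (M + C)..(M + C + 1), kp s (DD S r x (ev ψ) t)) volume 0 (2 * Real.pi) :=
    nfan_int (fun p => kp s (DD S r x (ev p.1) p.2)) (M + C) (M + C + 1) (1 / s) (by linarith) mkp
      (fun ψ t _ _ => bkp _) _ _
  have hABint : IntervalIntegrable
      (fun ψ => (∫ t in (0 : ℝ)..M, (2 * t - M) * kp s (DD S r x (ev ψ) t)) +
        C * (M + 1) * (∫ t in (M + C)..(M + C + 1), kp s (DD S r x (ev ψ) t))) volume 0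
      (2 * Real.pi) :=
    hAint.add (hBint.const_mul (C * (M + 1)))
  have s4 : ∫ ψ in (0 : ℝ)..(2 * Real.pi),
        ∑ n ∈ Finset.range K, RK S r x D₀ s M (wd S r x (ev ψ) (n + 1)) ψ ≤
      ∫ ψ in (0 : ℝ)..(2 * Real.pi), ((∫ t in (0 : ℝ)..M, (2 * t - M) * kp s (DD S r x (ev ψ) t)) +
        C * (M + 1) * (∫ t in (M + C)..(M + C + 1), kp s (DD S r x (ev ψ) t))) := by
    refine intervalIntegral.integral_mono_ae (by positivity) hRint hABint ?_
    filter_upwards [g1] with ψ hψ1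
    exact hP r x ψ s M K hx hψ1 hs hM
  linarith [s1, s2.le, s2', s3, s4]

end Pool.Agent.FAN
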