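import Pool.Agent.FAN2.StN

/-!
# FAN2, module N_FIN: the interface of the blocks N and U (helper76)
-/

set_option autoImplicit false

open scoped ComplexConjugate
open MeasureTheory Set

namespace Pool.Agent.FAN

private theorem nfin_ii {f : ℝ → ℝ} (hf : MonotoneOn f (Ici 0)) {M : ℝ} (hM : 0 ≤ M) :
    IntervalIntegrable f volume 0 M := by
  apply MonotoneOn.intervalIntegrable
  intro a ha b hb hab
  rw [uIcc_of_le hM] at ha hb
  exact hf ha.1 hb.1 hab

theorem n_FIN (h1 : Sn_EDK) (h2 : Sn_ULB) (h3 : Sn_UMO) (h4 : Sn_WMO) : Sn_FIN := by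
  intro S
  by_cases hne : Nonempty S.R
  swap
  · -- no rooms
    have hE : IsEmpty S.R := not_nonempty_iff.1 hne
    have hU : ∀ s N, UU S s N = 0 := by
      intro s N
      unfold UU EE
      simp
    refine ⟨1, le_refl _, ?_⟩
    intro s s' M _ _ _ _
    simp [hU]
  obtain ⟨C1, hC1, hE⟩ := h1 S
  obtain ⟨c, hc, hL⟩ := h2 S hne
  obtain ⟨u0, u1, u2, u3⟩ := h3 S
  have hC0 : 0 < C1 := by linarith
  have hCc : 0 < C1 / c := div_pos hC0 hc
  refine ⟨C1 + C1 / c, by linarith, ?_⟩
  intro s s' M hs hss hs1 hM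
  have hs' : 0 < s' := lt_of_lt_of_le hs hss
  set C := C1 + C1 / c with hCdef
  have hC : 0 < C := by positivity
  -- integrability
  have iU' : IntervalIntegrable (UU S s') volume 0 M := nfin_ii (u1 s' hs') hM
  have iU : IntervalIntegrable (UU S s) volume 0 M := nfin_ii (u1 s hs) hM
  have iW' : IntervalIntegrable (WW S s') volume 0 M := nfin_ii (h4 S s' hs') hM
  have iNU' : IntervalIntegrable (fun N => N * UU S s' N) volume 0 M :=
    iU'.continuousOn_mul continuousOn_id
  have iNU : IntervalIntegrable (fun N => N * UU S s N) volume 0 M :=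
    iU.continuousOn_mul continuousOn_id
  have iNW' : IntervalIntegrable (fun N => N * WW S s' N) volume 0 M :=
    iW'.continuousOn_mul continuousOn_id
  have iT : IntervalIntegrable (fun t => (2 * t - M) * UU S s' t) volume 0 M :=
    iU'.continuousOn_mul (by fun_prop)
  -- the inequality for s'
  have e1 := hE s' M hs' hM
  have e2 : ∫ N in (0 : ℝ)..M, (N * UU S s' N - N * s' * WW S s' N) =
      (∫ N in (0 : ℝ)..M, N * UU S s' N) - s' * ∫ N in (0 : ℝ)..M, N * WW S s' N := by
    rw [← intervalIntegral.integral_const_mul, ← intervalIntegral.integral_sub iNU' (iNW'.const_mul s')]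
    apply intervalIntegral.integral_congr
    intro N _
    simp only
    ring
  have e3 : (∫ N in (0 : ℝ)..M, N * UU S s' N) - (∫ t in (0 : ℝ)..M, (2 * t - M) * UU S s' t) =
      ∫ t in (0 : ℝ)..M, (M - t) * UU S s' t := by
    rw [← intervalIntegral.integral_sub iNU' iT]
    apply intervalIntegral.integral_congr
    intro N _
    simp only
    ring
  -- the error terms
  have hUC : 0 ≤ UU S s' (M + C) := u0 s' _ hs' (by linarith)
  have f1 : UU S s' (M + C1) ≤ UU S s' (M + C) := by
    apply u1 s' hs'
    · exact mem_Ici.2 (by linarith)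
    · exact mem_Ici.2 (by linarith)
    · linarith
  have f2 : c / √s' ≤ UU S s' (M + C) := by
    refine (hL s' hs' hs1).trans ?_
    apply u1 s' hs'
    · exact mem_Ici.2 (le_refl _)
    · exact mem_Ici.2 (by linarith)
    · linarith
  have f3 : C1 * M / √s' ≤ C1 / c * (M + 1) * UU S s' (M + C) := by
    have g1 : C1 * M / √s' = C1 / c * M * (c / √s') := by
      field_simp
    rw [g1]
    have g2 : C1 / c * M * (c / √s') ≤ C1 / c * M * UU S s' (M + C) :=
      mul_le_mul_of_nonneg_left f2 (by positivity)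
    refine g2.trans ?_
    apply mul_le_mul_of_nonneg_right _ hUC
    apply mul_le_mul_of_nonneg_left _ hCc.le
    linarith
  have f4 : C1 * (M + 1) * UU S s' (M + C1) ≤ C1 * (M + 1) * UU S s' (M + C) :=
    mul_le_mul_of_nonneg_left f1 (by positivity)
  have key : (∫ t in (0 : ℝ)..M, (M - t) * UU S s' t) - C * (M + 1) * UU S s' (M + C) ≤
      s' * ∫ N in (0 : ℝ)..M, N * WW S s' N := by
    have g : C * (M + 1) * UU S s' (M + C) =
        C1 * (M + 1) * UU S s' (M + C) + C1 / c * (M + 1) * UU S s' (M + C) := by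
      rw [hCdef]
      ring
    rw [g]
    linarith
  -- comparison
  have hfac : 0 ≤ 1 - s / s' := by
    rw [sub_nonneg, div_le_one hs']
    exact hss
  have k1 : (1 - s / s') * ((∫ t in (0 : ℝ)..M, (M - t) * UU S s' t) -
      C * (M + 1) * UU S s' (M + C)) ≤ (1 - s / s') * (s' * ∫ N in (0 : ℝ)..M, N * WW S s' N) :=
    mul_le_mul_of_nonneg_left key hfac
  refine k1.trans ?_
  have k2 : (1 - s / s') * (s' * ∫ N in (0 : ℝ)..M, N * WW S s' N) =
      ∫ N in (0 : ℝ)..M, (s' - s) * (N * WW S s' N) := by
    rw [intervalIntegral.integral_const_mul]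
    field_simp
  rw [k2]
  apply intervalIntegral.integral_mono_on hM (iNW'.const_mul _)
  · have : (fun N => N * (UU S s N - UU S s' N)) =
        fun N => N * UU S s N - N * UU S s' N := by
      funext N
      ring
    rw [this]
    exact iNU.sub iNU'
  · intro N hN
    have h := (u2 s s' N hs hss hN.1).2
    have := mul_le_mul_of_nonneg_left h hN.1
    linarith [this]

end Pool.Agent.FAN
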