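import Pool.Agent.FAN2.StN
import Pool.Agent.FAN.F_FNI

/-!
# FAN2, block N, module FNI (helper99): integrability and periodicity of the functions of a node
-/

set_option autoImplicit false

open scoped ComplexConjugate
open MeasureTheory Set Filter Topology

namespace Pool.Agent.FAN

namespace FNI2

theorem kp_cont {s : ℝ} (hs : 0 < s) : Continuous (kp s) := by
  unfold kp
  refine continuous_const.div (by fun_prop) fun y => ?_
  positivity

theorem kd_cont {s : ℝ} (hs : 0 < s) : Continuous (kd s) := by
  unfold kd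
  refine Continuous.div (by fun_prop) (by fun_prop) fun y => ?_
  positivity

theorem bk_per (S : TriSys) (r : S.R) (x : ℂ) (s : ℝ) (js : List (ZMod 3)) (ψ : ℝ) :
    bk S r x s js (ψ + 2 * Real.pi) = bk S r x s js ψ := by
  unfold bk
  rw [FNI.ee_per, FNI.bb_per]

theorem bk_int {S : TriSys} {r : S.R} {x : ℂ} {s : ℝ} (hs : 0 < s) {js : List (ZMod 3)}
    (h : ∃ K, LipschitzWith K (fun ψ : ℝ => ee S r x js ψ)) (a b : ℝ) :
    IntervalIntegrable (bk S r x s js) volume a b := by
  have h1 := FNI.bb_int h a b
  obtain ⟨K, hK⟩ := h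
  have h2 : Continuous (fun ψ : ℝ => kd s (ee S r x js ψ)) := (kd_cont hs).comp hK.continuous
  exact h1.continuousOn_mul h2.continuousOn

end FNI2

open FNI2

/-- (FNI) -/
theorem n_FNI (h1 : Sf_LIP) (h2 : Sf_OML) : Sn_FNI := by
  intro S D₀ hD r x hx js s M hs _
  have hlip : ∀ js : List (ZMod 3), ∃ K, LipschitzWith K (fun ψ : ℝ => ee S r x js ψ) :=
    fun js => (h1 S (Pl.home S r) js).1 x
  have hcont : ∀ js : List (ZMod 3), Continuous (fun ψ : ℝ => kp s (ee S r x js ψ)) := fun js => by
    obtain ⟨K, hK⟩ := hlip js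
    exact (kp_cont hs).comp hK.continuous
  refine ⟨?_, ?_, fun a b => bk_int hs (hlip js) a b, ?_⟩
  · intro ψ
    unfold LK
    rw [bk_per, bk_per, FNI.om_per]
  · intro ψ
    unfold RK
    rw [FNI.ee_per, FNI.ee_per, FNI.om_per, FNI.ev_per]
  · intro j α β hαβ hrun
    obtain ⟨⟨K, hK⟩, htm, -⟩ := h2 S D₀ hD r x hx js j α β M hαβ hrun
    have hom : ContinuousOn (om S r x M (js ++ [j])) (uIcc α β) := by
      rw [uIcc_of_le hαβ.le]
      exact hK.continuousOn
    have hdl : (js ++ [j]).dropLast = js := List.dropLast_concat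
    constructor
    · have e : LK S r x s M (js ++ [j]) = fun ψ =>
          (bk S r x s (js ++ [j]) ψ - bk S r x s js ψ) * om S r x M (js ++ [j]) ψ := by
        funext ψ
        unfold LK
        rw [hdl]
      rw [e]
      exact ((bk_int hs (hlip _) α β).sub (bk_int hs (hlip _) α β)).mul_continuousOn hom
    · have e : RK S r x D₀ s M (js ++ [j]) = fun ψ =>
          (kp s (ee S r x (js ++ [j]) ψ) - kp s (ee S r x js ψ)) *
            (‖apx S r (js ++ [j]) - x‖ * om S r x M (js ++ [j]) ψ) +
          (kp s (ee S r x (js ++ [j]) ψ) - kp s (ee S r x js ψ)) * (D₀ *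
            tm S r x (ev ψ) (js ++ [j])) *
            (if tm S r x (ev ψ) (js ++ [j]) ≤ M + D₀ then 1 else 0) := by
        funext ψ
        unfold RK
        rw [hdl]
        ring
      rw [e]
      have hd : Continuous fun ψ =>
          kp s (ee S r x (js ++ [j]) ψ) - kp s (ee S r x js ψ) :=
        (hcont _).sub (hcont _)
      refine IntervalIntegrable.add ?_ ?_
      · exact (hd.continuousOn.mul (continuousOn_const.mul hom)).intervalIntegrable
      · -- the indicator
        set g : ℝ → ℝ := fun ψ => (kp s (ee S r x (js ++ [j]) ψ) - kp s (ee S r x js ψ)) *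
          (D₀ * tm S r x (ev ψ) (js ++ [j])) with hg
        have hgc : ContinuousOn g (Icc α β) :=
          hd.continuousOn.mul (continuousOn_const.mul htm)
        set A : Set ℝ := Icc α β ∩ (fun ψ => tm S r x (ev ψ) (js ++ [j])) ⁻¹' Iic (M + D₀)
          with hA
        have hAm : MeasurableSet A :=
          (htm.preimage_isClosed_of_isClosed isClosed_Icc isClosed_Iic).measurableSet
        rw [intervalIntegrable_iff_integrableOn_Ioc_of_le hαβ.le]
        have h3 : IntegrableOn (A.indicator g) (Ioc α β) volume := by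
          have h4 : IntegrableOn g (Ioc α β) volume :=
            (hgc.integrableOn_Icc).mono_set Ioc_subset_Icc_self
          exact h4.indicator hAm
        refine h3.congr_fun ?_ measurableSet_Ioc
        intro ψ hψ
        have h5 : ψ ∈ Icc α β := ⟨hψ.1.le, hψ.2⟩
        show A.indicator g ψ = g ψ * (if tm S r x (ev ψ) (js ++ [j]) ≤ M + D₀ then 1 else 0)
        by_cases h6 : tm S r x (ev ψ) (js ++ [j]) ≤ M + D₀
        · rw [indicator_of_mem (show ψ ∈ A from ⟨h5, h6⟩), if_pos h6, mul_one]
        · rw [indicator_of_notMem (fun hcon : ψ ∈ A => h6 hcon.2), if_neg h6, mul_zero]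

end Pool.Agent.FAN
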