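import Pool.Agent.FAN2.StN

/-!
# FAN2, block N: JOR, a trigonometric integral (helper54)
-/

set_option autoImplicit false

open scoped ComplexConjugate
open MeasureTheory Set

namespace Pool.Agent.FAN

namespace NJOR

variable {ρ s : ℝ}

/-- the integrand -/
private noncomputable def ff (ρ s t : ℝ) : ℝ := 2 * ρ * kp s (ρ * Real.sin t)

private lemma ff_cont (hs : 0 < s) : Continuous (ff ρ s) := by
  have h : ff ρ s = fun t => 2 * ρ * (1 / ((ρ * Real.sin t) ^ 2 + s)) := rfl
  rw [h]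
  refine continuous_const.mul (continuous_const.div ?_ ?_)
  · exact ((continuous_const.mul Real.continuous_sin).pow 2).add continuous_const
  · intro t
    positivity

private lemma ff_int (hs : 0 < s) (a b : ℝ) : IntervalIntegrable (ff ρ s) volume a b :=
  (ff_cont hs).intervalIntegrable a b

private lemma ff_per : Function.Periodic (ff ρ s) Real.pi := by
  intro t
  unfold ff kp
  rw [Real.sin_add_pi]
  ring_nf

private lemma ff_per2 : Function.Periodic (ff ρ s) (2 * Real.pi) := by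
  intro t
  unfold ff kp
  rw [Real.sin_add_two_pi]

private lemma ff_sub (t : ℝ) : ff ρ s (Real.pi - t) = ff ρ s t := by
  unfold ff kp
  rw [Real.sin_pi_sub]

private lemma quarter (hρ : 0 ≤ ρ) (hs : 0 < s) :
    ∫ t in (0 : ℝ)..(Real.pi / 2), ff ρ s t ≤ Real.pi ^ 2 / (2 * √s) := by
  have hpi := Real.pi_pos
  have hsq : 0 < √s := Real.sqrt_pos.2 hs
  have hss : √s * √s = s := Real.mul_self_sqrt hs.le
  have hder : ∀ t ∈ uIcc (0 : ℝ) (Real.pi / 2),
      HasDerivAt (fun t : ℝ => Real.pi / √s * Real.arctan (2 * ρ / (Real.pi * √s) * t))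
        (2 * ρ / ((2 * ρ / Real.pi * t) ^ 2 + s)) t := by
    intro t _
    have h1 : HasDerivAt (fun t : ℝ => 2 * ρ / (Real.pi * √s) * t) (2 * ρ / (Real.pi * √s)) t := by
      simpa using (hasDerivAt_id t).const_mul (2 * ρ / (Real.pi * √s))
    have h2 := (h1.arctan).const_mul (Real.pi / √s)
    refine h2.congr_deriv ?_
    have h3 : (2 * ρ / (Real.pi * √s) * t) ^ 2 = (2 * ρ / Real.pi * t) ^ 2 / s := by
      have h4 : (2 * ρ / (Real.pi * √s) * t) ^ 2 = (2 * ρ / Real.pi * t) ^ 2 / (√s * √s) := by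
        field_simp
      rw [h4, hss]
    rw [h3]
    have h4 : 0 < 1 + (2 * ρ / Real.pi * t) ^ 2 / s := by positivity
    have h5 : 0 < (2 * ρ / Real.pi * t) ^ 2 + s := by positivity
    have h6 : 1 + (2 * ρ / Real.pi * t) ^ 2 / s = ((2 * ρ / Real.pi * t) ^ 2 + s) / s := by
      field_simp
      ring
    rw [h6]
    have h7 : Real.pi / √s * (1 / (((2 * ρ / Real.pi * t) ^ 2 + s) / s) * (2 * ρ / (Real.pi * √s)))
        = 2 * ρ / ((2 * ρ / Real.pi * t) ^ 2 + s) * (s / (√s * √s)) := by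
      field_simp
    rw [h7, hss, div_self hs.ne', mul_one]
  have hcont : Continuous (fun t : ℝ => 2 * ρ / ((2 * ρ / Real.pi * t) ^ 2 + s)) := by
    refine continuous_const.div ?_ ?_
    · exact ((continuous_const.mul continuous_id).pow 2).add continuous_const
    · intro t
      positivity
  have hint := intervalIntegral.integral_eq_sub_of_hasDerivAt hder (hcont.intervalIntegrable _ _)
  have hmono : ∫ t in (0 : ℝ)..(Real.pi / 2), ff ρ s t ≤
      ∫ t in (0 : ℝ)..(Real.pi / 2), 2 * ρ / ((2 * ρ / Real.pi * t) ^ 2 + s) := by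
    refine intervalIntegral.integral_mono_on (by positivity) (ff_int hs _ _)
      (hcont.intervalIntegrable _ _) ?_
    intro t ht
    have h1 : 2 / Real.pi * t ≤ Real.sin t := Real.mul_le_sin ht.1 ht.2
    have h2 : 0 ≤ 2 / Real.pi * t := mul_nonneg (by positivity) ht.1
    have h3 : (2 * ρ / Real.pi * t) ^ 2 ≤ (ρ * Real.sin t) ^ 2 := by
      have h4 : 2 * ρ / Real.pi * t = ρ * (2 / Real.pi * t) := by ring
      rw [h4]
      exact pow_le_pow_left₀ (mul_nonneg hρ h2) (mul_le_mul_of_nonneg_left h1 hρ) 2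
    show 2 * ρ * (1 / ((ρ * Real.sin t) ^ 2 + s)) ≤ _
    rw [mul_one_div]
    exact div_le_div_of_nonneg_left (by positivity) (by positivity) (by linarith)
  refine hmono.trans ?_
  rw [hint]
  have h1 : Real.arctan (2 * ρ / (Real.pi * √s) * (Real.pi / 2)) ≤ Real.pi / 2 :=
    (Real.arctan_lt_pi_div_two _).le
  rw [mul_zero, Real.arctan_zero, mul_zero, sub_zero]
  calc Real.pi / √s * Real.arctan (2 * ρ / (Real.pi * √s) * (Real.pi / 2))
      ≤ Real.pi / √s * (Real.pi / 2) := mul_le_mul_of_nonneg_left h1 (by positivity)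
    _ = Real.pi ^ 2 / (2 * √s) := by field_simp

private lemma full (hρ : 0 ≤ ρ) (hs : 0 < s) (θ : ℝ) :
    ∫ ψ in (0 : ℝ)..(2 * Real.pi), ff ρ s (ψ - θ) ≤ 2 * Real.pi ^ 2 / √s := by
  have hsq : 0 < √s := Real.sqrt_pos.2 hs
  have e1 : ∫ ψ in (0 : ℝ)..(2 * Real.pi), ff ρ s (ψ - θ) =
      ∫ t in (0 : ℝ)..(2 * Real.pi), ff ρ s t := by
    rw [intervalIntegral.integral_comp_sub_right (fun t => ff ρ s t) θ]
    have h := (ff_per2 (ρ := ρ) (s := s)).intervalIntegral_add_eq (0 - θ) 0
    rw [zero_add] at h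
    have h2 : 0 - θ + 2 * Real.pi = 2 * Real.pi - θ := by ring
    rw [h2] at h
    exact h
  have e2 : ∫ t in (0 : ℝ)..(2 * Real.pi), ff ρ s t = 2 * ∫ t in (0 : ℝ)..Real.pi, ff ρ s t := by
    have h := (ff_per (ρ := ρ) (s := s)).intervalIntegral_add_eq Real.pi 0
    rw [zero_add] at h
    have h2 : Real.pi + Real.pi = 2 * Real.pi := by ring
    rw [h2] at h
    rw [← intervalIntegral.integral_add_adjacent_intervals (ff_int hs 0 Real.pi)
      (ff_int hs Real.pi (2 * Real.pi)), h]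
    ring
  have e3 : ∫ t in (0 : ℝ)..Real.pi, ff ρ s t = 2 * ∫ t in (0 : ℝ)..(Real.pi / 2), ff ρ s t := by
    have h : ∫ t in (Real.pi / 2)..Real.pi, ff ρ s t = ∫ t in (0 : ℝ)..(Real.pi / 2), ff ρ s t := by
      have h1 := intervalIntegral.integral_comp_sub_left (a := 0) (b := Real.pi / 2)
        (fun t => ff ρ s t) Real.pi
      have h2 : Real.pi - Real.pi / 2 = Real.pi / 2 := by ring
      rw [sub_zero, h2] at h1
      rw [← h1]
      exact intervalIntegral.integral_congr (fun t _ => ff_sub t)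
    rw [← intervalIntegral.integral_add_adjacent_intervals (ff_int hs 0 (Real.pi / 2))
      (ff_int hs (Real.pi / 2) Real.pi), h]
    ring
  rw [e1, e2, e3]
  have h := quarter hρ hs
  have e4 : 2 * Real.pi ^ 2 / √s = 2 * (2 * (Real.pi ^ 2 / (2 * √s))) := by
    field_simp
  rw [e4]
  linarith

end NJOR

theorem n_JOR : Sn_JOR := by
  intro ρ s θ hρ hs
  exact NJOR.full hρ hs θ

end Pool.Agent.FAN
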