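import Pool.Agent.FAN2.StN

/-!
# FAN2, block N: KER, the kernel (helper30)
-/

set_option autoImplicit false

open scoped ComplexConjugate
open MeasureTheory Set

namespace Pool.Agent.FAN

namespace NKER

variable {s : ℝ}

private lemma den_pos (hs : 0 < s) (y : ℝ) : 0 < y ^ 2 + s := by positivity

private lemma kp_pos (hs : 0 < s) (y : ℝ) : 0 < kp s y := by
  unfold kp
  have := den_pos hs y
  positivity

private lemma kp_le (hs : 0 < s) (y : ℝ) : kp s y ≤ 1 / s := by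
  unfold kp
  exact one_div_le_one_div_of_le hs (by nlinarith [sq_nonneg y])

private lemma kp_deriv (hs : 0 < s) (y : ℝ) : HasDerivAt (kp s) (-(kd s y)) y := by
  have h0 := (den_pos hs y).ne'
  have h1 : HasDerivAt (fun y : ℝ => y ^ 2 + s) (2 * y) y := by
    simpa using (hasDerivAt_pow 2 y).add_const s
  have h2 := h1.fun_inv h0
  have h3 : kp s = fun y : ℝ => (y ^ 2 + s)⁻¹ := by
    funext z
    simp [kp]
  rw [h3]
  exact h2.congr_deriv (by unfold kd; ring)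

private lemma kd_deriv (hs : 0 < s) (y : ℝ) :
    HasDerivAt (kd s) (2 / (y ^ 2 + s) ^ 2 - 8 * y ^ 2 / (y ^ 2 + s) ^ 3) y := by
  have h0 := (den_pos hs y).ne'
  have h1 : HasDerivAt (fun y : ℝ => y ^ 2 + s) (2 * y) y := by
    simpa using (hasDerivAt_pow 2 y).add_const s
  have h2 : HasDerivAt (fun y : ℝ => (y ^ 2 + s) ^ 2) (2 * (y ^ 2 + s) * (2 * y)) y := by
    simpa using h1.fun_pow 2
  have h3 : HasDerivAt (fun y : ℝ => 2 * y) 2 y := by
    simpa using (hasDerivAt_id y).const_mul 2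
  have h4 := h3.fun_div h2 (pow_ne_zero 2 h0)
  have h5 : kd s = fun y : ℝ => 2 * y / (y ^ 2 + s) ^ 2 := rfl
  rw [h5]
  refine h4.congr_deriv ?_
  field_simp
  ring

private lemma ykd (hs : 0 < s) (y : ℝ) : y * kd s y = 2 * kp s y - 2 * s * kp s y ^ 2 := by
  have h0 := (den_pos hs y).ne'
  unfold kd kp
  field_simp
  ring

private lemma kd_abs (hs : 0 < s) (y : ℝ) : |kd s y| ≤ 1 / (s * √s) := by
  have h0 := den_pos hs y
  have hq : 0 < √s := Real.sqrt_pos.2 hs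
  have hqq : √s * √s = s := Real.mul_self_sqrt hs.le
  unfold kd
  rw [abs_div, abs_of_pos (pow_pos h0 2), abs_mul, abs_of_pos (by norm_num : (0 : ℝ) < 2),
    div_le_div_iff₀ (pow_pos h0 2) (by positivity), one_mul]
  have h1 : 2 * |y| * √s ≤ y ^ 2 + s := by
    nlinarith [sq_nonneg (|y| - √s), sq_abs y]
  have h2 : s ≤ y ^ 2 + s := by nlinarith [sq_nonneg y]
  calc 2 * |y| * (s * √s) = (2 * |y| * √s) * s := by ring
    _ ≤ (y ^ 2 + s) * (y ^ 2 + s) := mul_le_mul h1 h2 hs.le h0.le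
    _ = (y ^ 2 + s) ^ 2 := by ring

private lemma kd_deriv_abs (hs : 0 < s) (y : ℝ) :
    |2 / (y ^ 2 + s) ^ 2 - 8 * y ^ 2 / (y ^ 2 + s) ^ 3| ≤ 10 / s ^ 2 := by
  have h0 := den_pos hs y
  have h2 : s ≤ y ^ 2 + s := by nlinarith [sq_nonneg y]
  have h3 : s ^ 2 ≤ (y ^ 2 + s) ^ 2 := pow_le_pow_left₀ hs.le h2 2
  have e1 : 0 ≤ 2 / (y ^ 2 + s) ^ 2 := by positivity
  have e2 : 0 ≤ 8 * y ^ 2 / (y ^ 2 + s) ^ 3 := by positivity
  have e3 : 2 / (y ^ 2 + s) ^ 2 ≤ 2 / s ^ 2 := div_le_div_of_nonneg_left (by norm_num) (by positivity) h3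
  have e4 : 8 * y ^ 2 / (y ^ 2 + s) ^ 3 ≤ 8 / s ^ 2 := by
    have h5 : 8 * y ^ 2 / (y ^ 2 + s) ^ 3 ≤ 8 / (y ^ 2 + s) ^ 2 := by
      rw [div_le_div_iff₀ (by positivity) (by positivity)]
      have : 8 * y ^ 2 * (y ^ 2 + s) ^ 2 ≤ 8 * (y ^ 2 + s) * (y ^ 2 + s) ^ 2 := by
        apply mul_le_mul_of_nonneg_right _ (by positivity)
        linarith
      calc 8 * y ^ 2 * (y ^ 2 + s) ^ 2 ≤ 8 * (y ^ 2 + s) * (y ^ 2 + s) ^ 2 := this
        _ = 8 * (y ^ 2 + s) ^ 3 := by ring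
    exact h5.trans (div_le_div_of_nonneg_left (by norm_num) (by positivity) h3)
  have e5 : (10 : ℝ) / s ^ 2 = 2 / s ^ 2 + 8 / s ^ 2 := by ring
  rw [e5, abs_le]
  have e6 : 0 ≤ 2 / s ^ 2 := by positivity
  have e7 : 0 ≤ 8 / s ^ 2 := by positivity
  constructor <;> linarith

private lemma kp_anti (hs : 0 < s) {y z : ℝ} (hy : 0 ≤ y) (hyz : y ≤ z) : kp s z ≤ kp s y := by
  unfold kp
  apply one_div_le_one_div_of_le (den_pos hs y)
  nlinarith

private lemma kp_cmp (hs : 0 < s) (s' y : ℝ) (h : s ≤ s') : kp s' y ≤ kp s y ∧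
    (s' - s) * kp s' y ^ 2 ≤ kp s y - kp s' y ∧ kp s y ≤ s' / s * kp s' y := by
  have hs' : 0 < s' := lt_of_lt_of_le hs h
  have h0 := den_pos hs y
  have h1 := den_pos hs' y
  have hle : kp s' y ≤ kp s y := by
    unfold kp
    exact one_div_le_one_div_of_le h0 (by linarith)
  have hid : kp s y - kp s' y = (s' - s) * (kp s y * kp s' y) := by
    unfold kp
    field_simp
    ring
  refine ⟨hle, ?_, ?_⟩
  · rw [hid, sq]
    apply mul_le_mul_of_nonneg_left _ (by linarith)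
    exact mul_le_mul_of_nonneg_right hle (kp_pos hs' y).le
  · unfold kp
    rw [div_mul_div_comm, div_le_div_iff₀ h0 (by positivity)]
    nlinarith [sq_nonneg y, mul_nonneg (sub_nonneg.2 h) (sq_nonneg y)]

end NKER

open NKER in
theorem n_KER : Sn_KER := by
  intro s hs
  refine ⟨fun y => ⟨kp_pos hs y, kp_le hs y, kp_deriv hs y, ykd hs y, kd_abs hs y, ?_⟩,
    fun y hy => ?_, fun y z hy hyz => kp_anti hs hy hyz, ?_, ?_, ?_, ?_, kp_cmp hs⟩
  · rw [ykd hs y]
    have : 0 ≤ 2 * s * kp s y ^ 2 := by positivity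
    linarith
  · unfold kd
    positivity
  · exact continuous_iff_continuousAt.2 fun y => (kp_deriv hs y).continuousAt
  · exact continuous_iff_continuousAt.2 fun y => (kd_deriv hs y).continuousAt
  · refine ⟨Real.toNNReal (1 / (s * √s)), lipschitzWith_of_nnnorm_deriv_le
      (fun y => (kp_deriv hs y).differentiableAt) fun y => ?_⟩
    rw [(kp_deriv hs y).deriv, ← NNReal.coe_le_coe, coe_nnnorm, Real.norm_eq_abs, abs_neg,
      Real.coe_toNNReal _ (by positivity)]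
    exact kd_abs hs y
  · refine ⟨Real.toNNReal (10 / s ^ 2), lipschitzWith_of_nnnorm_deriv_le
      (fun y => (kd_deriv hs y).differentiableAt) fun y => ?_⟩
    rw [(kd_deriv hs y).deriv, ← NNReal.coe_le_coe, coe_nnnorm, Real.norm_eq_abs,
      Real.coe_toNNReal _ (by positivity)]
    exact kd_deriv_abs hs y

end Pool.Agent.FAN
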