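import Pool.Agent.FAN2.StN

/-!
# FAN2, module MEK (helper14): measurability and bounds
-/

set_option autoImplicit false

open scoped ComplexConjugate
open MeasureTheory Set

namespace Pool.Agent.FAN

theorem n_MEK (h1 : Sa_DIA) (h2 : Sm_MEA) (h3 : Sm_BND) (h4 : Sn_KER) : Sn_MEK := by
  intro S s hs
  obtain ⟨hk, -, -, hc1, hc2, -, -, -⟩ := h4 s hs
  refine ⟨fun r => ⟨?_, ?_⟩, fun r x v N => ⟨(hk _).1, (hk _).2.1⟩, ?_⟩
  · exact hc1.measurable.comp (h2 S r).1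
  · exact (hc2.measurable.comp (h2 S r).1).mul (h2 S r).2
  · intro M hM
    obtain ⟨D₀, h₀, hD₀, hh₀, ha, hb, hc, hd⟩ := h1 S
    have hDia : Dia S D₀ := ⟨hD₀, ha, hb, hc⟩
    refine ⟨1 / (s * √s) * (D₀ * (M + D₀)), fun r x v N hv hN hNM => ?_⟩
    obtain ⟨-, -, hS, -⟩ := h3 S D₀ hDia r x v N hv hN
    rw [abs_mul]
    have e1 : |kd s (DD S r x v N)| ≤ 1 / (s * √s) := (hk _).2.2.2.2.1
    have e2 : |SS S r x v N| ≤ D₀ * (M + D₀) := by
      refine hS.trans ?_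
      have : 0 ≤ D₀ := by linarith
      exact mul_le_mul_of_nonneg_left (by linarith) this
    exact mul_le_mul e1 e2 (abs_nonneg _) (le_trans (abs_nonneg _) e1)

end Pool.Agent.FAN
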