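import Pool.Agent.FAN2.StN

/-!
# FAN2, block N: NODE (helper28). The fan inequality at one node for the kernel `1 / (y² + s)`.
-/

set_option autoImplicit false

open scoped ComplexConjugate
open MeasureTheory Set

namespace Pool.Agent.FAN

private theorem nd2_congr_Ioo {f g : ℝ → ℝ} {a b : ℝ} (hab : a ≤ b)
    (h : ∀ x ∈ Ioo a b, f x = g x) : ∫ x in a..b, f x = ∫ x in a..b, g x := by
  rw [intervalIntegral.integral_of_le hab, intervalIntegral.integral_of_le hab,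
    integral_Ioc_eq_integral_Ioo, integral_Ioc_eq_integral_Ioo]
  exact setIntegral_congr_fun measurableSet_Ioo h

private theorem nd2_nonneg_Ioo {f : ℝ → ℝ} {a b : ℝ} (hab : a ≤ b)
    (h : ∀ x ∈ Ioo a b, 0 ≤ f x) : 0 ≤ ∫ x in a..b, f x := by
  rw [intervalIntegral.integral_of_le hab, integral_Ioc_eq_integral_Ioo]
  exact setIntegral_nonneg measurableSet_Ioo h

private theorem nd2_angle (w : ℂ) :
    ∃ θ : ℝ, ∀ ψ, |cx (ev ψ) w| = ‖w‖ * |Real.sin (ψ - θ)| := by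
  refine ⟨w.arg, fun ψ => ?_⟩
  have h1 : ‖w‖ * Real.cos w.arg = w.re := Complex.norm_mul_cos_arg w
  have h2 : ‖w‖ * Real.sin w.arg = w.im := Complex.norm_mul_sin_arg w
  have h3 : cx (ev ψ) w = Real.cos ψ * w.im - Real.sin ψ * w.re := by
    simp [cx, ev]
  have h8 : cx (ev ψ) w = -(‖w‖ * Real.sin (ψ - w.arg)) := by
    rw [h3, Real.sin_sub]
    linear_combination (-Real.cos ψ) * h2 + Real.sin ψ * h1
  rw [h8, abs_neg, abs_mul, abs_of_nonneg (norm_nonneg _)]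

theorem n_NODE (h1 : Sa_CLV) (h2 : Sa_CLS) (h3 : Sf_LIP) (h4 : Sf_OML) (h5 : Sf_FAR)
    (h6 : Sn_KER) (h7 : Sn_ONE) : Sn_NODE := by
  intro S D₀ hD r x hx js j α β s M hs hM hαβ hβα hrun hα hβ
  have hD1 : 1 ≤ D₀ := hD.1
  obtain ⟨-, -, hkanti, hkc, -, -, -, -⟩ := h6 s hs
  have hF := fun (ψ : ℝ) (h : ψ ∈ Ioo α β) => h5 S D₀ hD r x hx js j ψ (hrun ψ h.1 h.2)
  obtain ⟨Kf, hKf⟩ := (h3 S (Pl.home S r) js).1 x
  have hKf' : LipschitzWith Kf (ee S r x js) := hKf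
  have hfc : Continuous (ee S r x js) := hKf'.continuous
  have hf0 : ∀ ψ, 0 ≤ ee S r x js ψ := fun ψ => (h1 S js (Pl.home S r) x (ev ψ)).2.2.1
  have hf1 : ∀ ψ, 0 ≤ ee S r x (js ++ [j]) ψ := fun ψ =>
    (h1 S (js ++ [j]) (Pl.home S r) x (ev ψ)).2.2.1
  have hle : ∀ ψ, ee S r x (js ++ [j]) ψ ≤ ee S r x js ψ := by
    intro ψ
    show clr (Pl.home S r) (js ++ [j]) x (ev ψ) ≤ clr (Pl.home S r) js x (ev ψ)
    rw [h2]; exact min_le_left _ _
  have hk0 : ∀ ψ, 0 ≤ kp s (ee S r x (js ++ [j]) ψ) - kp s (ee S r x js ψ) := fun ψ =>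
    sub_nonneg.2 (hkanti _ _ (hf1 ψ) (hle ψ))
  obtain ⟨⟨Kw, hKw⟩, htc, hOM⟩ := h4 S D₀ hD r x hx js j α β M hαβ hrun
  have hw0 : ∀ ψ, 0 ≤ om S r x M (js ++ [j]) ψ := fun ψ => le_max_left _ _
  set p : ℂ := apx S r (js ++ [j]) with hp
  have hee : ∀ ψ ∈ Ioo α β, ee S r x (js ++ [j]) ψ =
      min (ee S r x js ψ) |cx (ev ψ) (p - x)| := fun ψ h => (hF ψ h).2.2.2.2.2.2
  have hdl : (js ++ [j]).dropLast = js := by simp
  have hbb : ∀ ψ ∈ Ioo α β, bb S r x (js ++ [j]) ψ =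
      |deriv (fun t => (min (ee S r x js t) |cx (ev t) (p - x)|) ^ 2 / 2) ψ| := by
    intro ψ h
    unfold bb
    congr 1
    apply Filter.EventuallyEq.deriv_eq
    filter_upwards [Ioo_mem_nhds h.1 h.2] with t ht
    rw [hee t ht]
  have hRK0 : ∀ ψ, RK S r x D₀ s M (js ++ [j]) ψ =
      (kp s (ee S r x (js ++ [j]) ψ) - kp s (ee S r x js ψ)) *
        (‖p - x‖ * om S r x M (js ++ [j]) ψ +
          D₀ * tm S r x (ev ψ) (js ++ [j]) *
            (if tm S r x (ev ψ) (js ++ [j]) ≤ M + D₀ then 1 else 0)) := by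
    intro ψ
    simp only [RK, hdl, ← hp]
  by_cases hM2 : ∀ ψ ∈ Ioo α β, M < tm S r x (ev ψ) (js ++ [j])
  · have hLL : ∫ ψ in α..β, LK S r x s M (js ++ [j]) ψ = ∫ ψ in α..β, (0 : ℝ) := by
      refine nd2_congr_Ioo hαβ.le fun ψ h => ?_
      have h8 := hM2 ψ h
      have h9 : om S r x M (js ++ [j]) ψ = 0 := by
        unfold om
        exact max_eq_left (by linarith)
      simp only [LK, h9, mul_zero]
    rw [hLL, intervalIntegral.integral_zero]
    refine nd2_nonneg_Ioo hαβ.le fun ψ h => ?_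
    rw [hRK0]
    have h8 := hk0 ψ
    have h9 := hw0 ψ
    have h10 : 0 ≤ ‖p - x‖ := norm_nonneg _
    have h11 := (hF ψ h).1
    refine mul_nonneg h8 (add_nonneg (mul_nonneg h10 h9) (mul_nonneg ?_ ?_))
    · exact mul_nonneg (by linarith) h11.le
    · split_ifs <;> norm_num
  · push Not at hM2
    obtain ⟨ψ₀, hψ₀, htψ₀⟩ := hM2
    have hind : ∀ ψ ∈ Ioo α β, tm S r x (ev ψ) (js ++ [j]) ≤ M + D₀ := by
      intro ψ h
      have h8 := (hF ψ h).2.2.2.2.2.1 ψ₀ (hrun ψ₀ hψ₀.1 hψ₀.2)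
      have h9 := (abs_le.1 h8).2
      linarith
    set ρ : ℝ := ‖p - x‖ with hρ
    have hρ0 : 0 ≤ ρ := norm_nonneg _
    obtain ⟨θ, hθ⟩ := nd2_angle (p - x)
    rw [← hρ] at hθ
    set f : ℝ → ℝ := ee S r x js with hf
    set w : ℝ → ℝ := om S r x M (js ++ [j]) with hw
    set T : ℝ → ℝ := fun ψ => tm S r x (ev ψ) (js ++ [j]) with hT
    have key := h7 f w α β θ ρ s hαβ.le hβα.le hρ0 hs ⟨Kf, hKf'.lipschitzOnWith⟩ ⟨Kw, hKw⟩
      (fun ψ _ => ⟨hf0 ψ, hw0 ψ⟩) hα hβ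
    have hg : Continuous fun ψ => kp s (min (f ψ) (ρ * |Real.sin (ψ - θ)|)) - kp s (f ψ) :=
      (hkc.comp (hfc.min (continuous_const.mul
        ((Real.continuous_sin.comp (continuous_id.sub continuous_const)).abs)))).sub
        (hkc.comp hfc)
    have hg0 : ∀ ψ, 0 ≤ kp s (min (f ψ) (ρ * |Real.sin (ψ - θ)|)) - kp s (f ψ) := by
      intro ψ
      exact sub_nonneg.2 (hkanti _ _ (le_min (hf0 ψ) (mul_nonneg hρ0 (abs_nonneg _)))
        (min_le_left _ _))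
    have hLL : ∫ ψ in α..β, LK S r x s M (js ++ [j]) ψ = ∫ ψ in α..β,
        (kd s (min (f ψ) (ρ * |Real.sin (ψ - θ)|)) *
          |deriv (fun t => (min (f t) (ρ * |Real.sin (t - θ)|)) ^ 2 / 2) ψ| -
        kd s (f ψ) * |deriv (fun t => f t ^ 2 / 2) ψ|) * w ψ := by
      refine nd2_congr_Ioo hαβ.le fun ψ h => ?_
      have h8 := hbb ψ h
      have h9 := hee ψ h
      simp only [hθ] at h8 h9
      simp only [LK, bk, hdl, h8, h9]
      rfl
    have hRR : ∫ ψ in α..β, RK S r x D₀ s M (js ++ [j]) ψ =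
        ∫ ψ in α..β, (ρ * ((kp s (min (f ψ) (ρ * |Real.sin (ψ - θ)|)) - kp s (f ψ)) * w ψ) +
          (kp s (min (f ψ) (ρ * |Real.sin (ψ - θ)|)) - kp s (f ψ)) * (D₀ * T ψ)) := by
      refine nd2_congr_Ioo hαβ.le fun ψ h => ?_
      rw [hRK0, hee ψ h, if_pos (hind ψ h), hθ]
      ring
    have hI1 : IntervalIntegrable
        (fun ψ => (kp s (min (f ψ) (ρ * |Real.sin (ψ - θ)|)) - kp s (f ψ)) * w ψ)
        volume α β := by
      apply ContinuousOn.intervalIntegrable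
      rw [uIcc_of_le hαβ.le]
      exact hg.continuousOn.mul hKw.continuousOn
    have hI2 : IntervalIntegrable
        (fun ψ => (kp s (min (f ψ) (ρ * |Real.sin (ψ - θ)|)) - kp s (f ψ)) * (D₀ * T ψ))
        volume α β := by
      apply ContinuousOn.intervalIntegrable
      rw [uIcc_of_le hαβ.le]
      exact hg.continuousOn.mul (continuousOn_const.mul htc)
    have hsec : ∫ ψ in α..β, (kp s (min (f ψ) (ρ * |Real.sin (ψ - θ)|)) - kp s (f ψ)) *
          (f ψ * |deriv w ψ|) ≤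
        ∫ ψ in α..β, (kp s (min (f ψ) (ρ * |Real.sin (ψ - θ)|)) - kp s (f ψ)) *
          (D₀ * T ψ) := by
      by_cases hint : IntervalIntegrable (fun ψ =>
          (kp s (min (f ψ) (ρ * |Real.sin (ψ - θ)|)) - kp s (f ψ)) * (f ψ * |deriv w ψ|))
          volume α β
      · refine intervalIntegral.integral_mono_on_of_le_Ioo hαβ.le hint hI2 fun ψ h => ?_
        refine mul_le_mul_of_nonneg_left ?_ (hg0 ψ)
        have h11 : 0 < T ψ := (hF ψ h).1
        by_cases hd : DifferentiableAt ℝ w ψ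
        · have h8 : 2 * (f ψ * |deriv w ψ|) ≤ T ψ * D₀ := hOM ψ h hd
          nlinarith
        · rw [deriv_zero_of_not_differentiableAt hd, abs_zero, mul_zero]
          exact mul_nonneg (by linarith) h11.le
      · rw [intervalIntegral.integral_undef hint]
        refine nd2_nonneg_Ioo hαβ.le fun ψ h => ?_
        have h11 : 0 < T ψ := (hF ψ h).1
        exact mul_nonneg (hg0 ψ) (mul_nonneg (by linarith) h11.le)
    rw [hLL, hRR, intervalIntegral.integral_add (hI1.const_mul ρ) hI2,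
      intervalIntegral.integral_const_mul]
    linarith

end Pool.Agent.FAN
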