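import Pool.Agent.FAN2.StN

/-!
# FAN2, block N, module FAN2N_ONE: the one dimensional node inequality
-/

set_option autoImplicit false

open scoped ComplexConjugate
open MeasureTheory Set

namespace Pool.Agent.FAN

private lemma nn1_lipg (ρ θ : ℝ) (hρ : 0 ≤ ρ) :
    LipschitzWith ⟨ρ, hρ⟩ (fun ψ => ρ * |Real.sin (ψ - θ)|) := by
  refine LipschitzWith.of_dist_le_mul fun x y => ?_
  rw [Real.dist_eq, Real.dist_eq, ← mul_sub, abs_mul, abs_of_nonneg hρ]
  change ρ * _ ≤ ρ * _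
  refine mul_le_mul_of_nonneg_left ?_ hρ
  refine (abs_abs_sub_abs_le _ _).trans ?_
  have h := Real.lipschitzWith_sin.dist_le_mul (x - θ) (y - θ)
  rw [Real.dist_eq, Real.dist_eq] at h
  simpa using h

private lemma nn1_lipmin (f g : ℝ → ℝ) (s : Set ℝ) (K L : NNReal) (hf : LipschitzOnWith K f s)
    (hg : LipschitzOnWith L g s) :
    LipschitzOnWith (max K L) (fun x => min (f x) (g x)) s := by
  refine LipschitzOnWith.of_dist_le_mul fun x hx y hy => ?_
  have h1 := hf.dist_le_mul x hx y hy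
  have h2 := hg.dist_le_mul x hx y hy
  rw [Real.dist_eq] at h1 h2 ⊢
  refine (abs_min_sub_min_le_max _ _ _ _).trans (max_le ?_ ?_)
  · refine h1.trans (mul_le_mul_of_nonneg_right ?_ dist_nonneg)
    exact_mod_cast le_max_left K L
  · refine h2.trans (mul_le_mul_of_nonneg_right ?_ dist_nonneg)
    exact_mod_cast le_max_right K L

private lemma nn1_int (F u : ℝ → ℝ) (α β : ℝ) (hab : α ≤ β) (K : NNReal)
    (h : LipschitzOnWith K F (Icc α β)) (hu : ContinuousOn u (Icc α β)) :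
    IntervalIntegrable (fun ψ => |deriv (fun t => F t ^ 2 / 2) ψ| * u ψ) volume α β := by
  have h1 : AbsolutelyContinuousOnInterval F α β := by
    apply LipschitzOnWith.absolutelyContinuousOnInterval (K := K)
    rwa [uIcc_of_le hab]
  have h2 : AbsolutelyContinuousOnInterval (fun t => F t ^ 2 / 2) α β := by
    have h3 := (h1.mul h1).const_mul (1 / 2)
    have e : (fun t => F t ^ 2 / 2) = fun x => 1 / 2 * (F * F) x := by
      funext t
      simp only [Pi.mul_apply]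
      ring
    rw [e]
    exact h3
  exact (h2.intervalIntegrable_deriv.abs).mul_continuousOn (by rwa [uIcc_of_le hab])

private lemma nn1_intw (w u : ℝ → ℝ) (α β : ℝ) (hab : α ≤ β) (K : NNReal)
    (h : LipschitzOnWith K w (Icc α β)) (hu : ContinuousOn u (Icc α β)) :
    IntervalIntegrable (fun ψ => |deriv w ψ| * u ψ) volume α β := by
  have h1 : AbsolutelyContinuousOnInterval w α β := by
    apply LipschitzOnWith.absolutelyContinuousOnInterval (K := K)
    rwa [uIcc_of_le hab]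
  exact (h1.intervalIntegrable_deriv.abs).mul_continuousOn (by rwa [uIcc_of_le hab])

/-- the sign of `sin x cos x` on a quadrant -/
private lemma nn1_sign (n : ℤ) (x : ℝ) (h1 : n * (Real.pi / 2) ≤ x)
    (h2 : x ≤ (n + 1) * (Real.pi / 2)) :
    (Even n → 0 ≤ Real.sin x * Real.cos x) ∧ (Odd n → Real.sin x * Real.cos x ≤ 0) := by
  have hy : 0 ≤ Real.sin (2 * x - n * Real.pi) := by
    apply Real.sin_nonneg_of_nonneg_of_le_pi
    · linarith
    · linarith
  have e : Real.sin x * Real.cos x = Real.sin (2 * x) / 2 := by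
    rw [Real.sin_two_mul]; ring
  have e2 : Real.sin (2 * x) = (-1 : ℝ) ^ n * Real.sin (2 * x - n * Real.pi) := by
    have h := Real.sin_add_int_mul_pi (2 * x - n * Real.pi) n
    rw [sub_add_cancel] at h
    exact h
  constructor
  · intro hn
    rw [e, e2, hn.neg_one_zpow]
    linarith
  · intro hn
    rw [e, e2, hn.neg_one_zpow]
    linarith

private lemma nn1_sin0 (n : ℤ) (hn : Even n) : Real.sin (n * (Real.pi / 2)) = 0 := by
  obtain ⟨k, hk⟩ := hn
  have e : (n : ℝ) * (Real.pi / 2) = k * Real.pi := by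
    rw [hk]; push_cast; ring
  rw [e, Real.sin_int_mul_pi]

/-- ONE. The one dimensional node inequality -/
theorem n_ONE (h1 : Sn_KER) (h2 : Sn_PIE) : Sn_ONE := by
  intro f w α β θ ρ s hαβ hβ hρ hs hf hw hfw hfα hfβ
  have hpi := Real.pi_pos
  obtain ⟨-, -, -, hkp, hkd, -, -, -⟩ := h1 s hs
  obtain ⟨Kf, hKf⟩ := hf
  obtain ⟨Kw, hKw⟩ := hw
  have hfc : ContinuousOn f (Icc α β) := hKf.continuousOn
  have hwc : ContinuousOn w (Icc α β) := hKw.continuousOn
  obtain ⟨g, hg⟩ : ∃ g : ℝ → ℝ, ∀ ψ, g ψ = ρ * |Real.sin (ψ - θ)| := ⟨_, fun _ => rfl⟩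
  have hgL : LipschitzWith ⟨ρ, hρ⟩ g := by
    have h := nn1_lipg ρ θ hρ
    have e : (fun ψ => ρ * |Real.sin (ψ - θ)|) = g := funext fun ψ => (hg ψ).symm
    rwa [e] at h
  have hmL := nn1_lipmin f g (Icc α β) _ _ hKf hgL.lipschitzOnWith
  have hmc : ContinuousOn (fun x => min (f x) (g x)) (Icc α β) := hmL.continuousOn
  obtain ⟨I, hI⟩ : ∃ I : ℝ → ℝ, ∀ ψ, I ψ =
      (kd s (min (f ψ) (g ψ)) * |deriv (fun t => (min (f t) (g t)) ^ 2 / 2) ψ| -
        kd s (f ψ) * |deriv (fun t => f t ^ 2 / 2) ψ|) * w ψ := ⟨_, fun _ => rfl⟩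
  obtain ⟨J, hJ⟩ : ∃ J : ℝ → ℝ, ∀ ψ, J ψ =
      (kp s (min (f ψ) (g ψ)) - kp s (f ψ)) * w ψ := ⟨_, fun _ => rfl⟩
  obtain ⟨L, hL⟩ : ∃ L : ℝ → ℝ, ∀ ψ, L ψ =
      (kp s (min (f ψ) (g ψ)) - kp s (f ψ)) * (f ψ * |deriv w ψ|) := ⟨_, fun _ => rfl⟩
  -- integrability
  have hIi : IntervalIntegrable I volume α β := by
    have e : I = fun ψ => |deriv (fun t => (min (f t) (g t)) ^ 2 / 2) ψ| *
        (kd s (min (f ψ) (g ψ)) * w ψ) -
        |deriv (fun t => f t ^ 2 / 2) ψ| * (kd s (f ψ) * w ψ) := by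
      funext ψ
      rw [hI]
      ring
    rw [e]
    exact (nn1_int _ _ α β hαβ _ hmL ((hkd.comp_continuousOn hmc).mul hwc)).sub
      (nn1_int f _ α β hαβ _ hKf ((hkd.comp_continuousOn hfc).mul hwc))
  have hDc : ContinuousOn (fun ψ => kp s (min (f ψ) (g ψ)) - kp s (f ψ)) (Icc α β) :=
    (hkp.comp_continuousOn hmc).sub (hkp.comp_continuousOn hfc)
  have hJi : IntervalIntegrable J volume α β := by
    have e : J = fun ψ => (kp s (min (f ψ) (g ψ)) - kp s (f ψ)) * w ψ := funext hJ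
    rw [e]
    exact (hDc.mul hwc).intervalIntegrable_of_Icc hαβ
  have hLi : IntervalIntegrable L volume α β := by
    have e : L = fun ψ => |deriv w ψ| * ((kp s (min (f ψ) (g ψ)) - kp s (f ψ)) * f ψ) := by
      funext ψ
      rw [hL]
      ring
    rw [e]
    exact nn1_intw w _ α β hαβ _ hKw (hDc.mul hfc)
  have hsub : ∀ (u : ℝ → ℝ), IntervalIntegrable u volume α β → ∀ a b, α ≤ a → a ≤ b → b ≤ β →
      IntervalIntegrable u volume a b := by
    intro u hu a b ha hab hb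
    refine hu.mono_set ?_
    rw [uIcc_of_le hab, uIcc_of_le hαβ]
    exact Icc_subset_Icc ha hb
  -- one piece
  have hpiece : ∀ (n : ℤ) (a b : ℝ), α ≤ a → a ≤ b → b ≤ β →
      (a < b → n * (Real.pi / 2) ≤ a - θ ∧ b - θ ≤ (n + 1) * (Real.pi / 2) ∧
        (Even n → f a = 0 ∨ Real.sin (a - θ) = 0) ∧ (Odd n → f b = 0 ∨ Real.sin (b - θ) = 0)) →
      ∫ ψ in a..b, I ψ ≤ ρ * (∫ ψ in a..b, J ψ) + ∫ ψ in a..b, L ψ := by
    intro n a b ha hab hb H
    rcases hab.eq_or_lt with e | hlt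
    · rw [e]
      simp
    obtain ⟨q1, q2, q3, q4⟩ := H hlt
    have hss : Icc a b ⊆ Icc α β := Icc_subset_Icc ha hb
    have h := h2 f w a b θ ρ s hab hρ hs ⟨Kf, hKf.mono hss⟩ ⟨Kw, hKw.mono hss⟩
      (fun ψ hψ => hfw ψ (hss hψ)) ?_
    · simp only [← hg] at h
      simp only [← hI, ← hJ, ← hL] at h
      exact h
    · rcases Int.even_or_odd n with hn | hn
      · left
        refine ⟨q3 hn, fun ψ hψ => (nn1_sign n (ψ - θ) ?_ ?_).1 hn⟩
        · linarith [hψ.1]
        · linarith [hψ.2]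
      · right
        refine ⟨q4 hn, fun ψ hψ => (nn1_sign n (ψ - θ) ?_ ?_).2 hn⟩
        · linarith [hψ.1]
        · linarith [hψ.2]
  -- the breakpoints
  obtain ⟨m, hm1, hm2⟩ : ∃ m : ℤ, α ≤ θ + m * (Real.pi / 2) ∧
      θ + m * (Real.pi / 2) ≤ α + Real.pi / 2 := by
    refine ⟨⌈(α - θ) / (Real.pi / 2)⌉, ?_, ?_⟩
    · have h := Int.le_ceil ((α - θ) / (Real.pi / 2))
      rw [div_le_iff₀ (by linarith)] at h
      linarith
    · have h := (Int.ceil_lt_add_one ((α - θ) / (Real.pi / 2))).le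
      have h3 : (⌈(α - θ) / (Real.pi / 2)⌉ : ℝ) * (Real.pi / 2) ≤
          ((α - θ) / (Real.pi / 2) + 1) * (Real.pi / 2) :=
        mul_le_mul_of_nonneg_right h (by linarith)
      rw [add_mul, div_mul_cancel₀ _ (by linarith : Real.pi / 2 ≠ 0)] at h3
      linarith
  obtain ⟨b1, hb1⟩ : ∃ b, b = θ + m * (Real.pi / 2) := ⟨_, rfl⟩
  rw [← hb1] at hm1 hm2
  obtain ⟨c1, hc1⟩ : ∃ c, c = min b1 β := ⟨_, rfl⟩
  obtain ⟨c2, hc2⟩ : ∃ c, c = min (b1 + Real.pi / 2) β := ⟨_, rfl⟩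
  have hc1α : α ≤ c1 := by rw [hc1]; exact le_min hm1 hαβ
  have hc12 : c1 ≤ c2 := by
    rw [hc1, hc2]; exact min_le_min_right _ (by linarith)
  have hc2β : c2 ≤ β := by rw [hc2]; exact min_le_right _ _
  have hc1b : c1 ≤ b1 := by rw [hc1]; exact min_le_left _ _
  have hc2b : c2 ≤ b1 + Real.pi / 2 := by rw [hc2]; exact min_le_left _ _
  have hc1e : c1 = b1 ∨ c1 = β := by
    rw [hc1]; exact min_choice _ _
  have hc2e : c2 = b1 + Real.pi / 2 ∨ c2 = β := by
    rw [hc2]; exact min_choice _ _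
  have sb1 : Even m → Real.sin (b1 - θ) = 0 := by
    intro h
    have e : b1 - θ = m * (Real.pi / 2) := by rw [hb1]; ring
    rw [e, nn1_sin0 m h]
  have sb2 : Odd m → Real.sin (b1 + Real.pi / 2 - θ) = 0 := by
    intro h
    have e : b1 + Real.pi / 2 - θ = ((m + 1 : ℤ) : ℝ) * (Real.pi / 2) := by
      rw [hb1]; push_cast; ring
    rw [e, nn1_sin0 (m + 1) h.add_one]
  have p1 : ∫ ψ in α..c1, I ψ ≤ ρ * (∫ ψ in α..c1, J ψ) + ∫ ψ in α..c1, L ψ := by
    refine hpiece (m - 1) α c1 le_rfl hc1α (hc12.trans hc2β) fun hlt => ⟨?_, ?_, ?_, ?_⟩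
    · push_cast; linarith
    · push_cast; linarith
    · intro _; exact Or.inl hfα
    · intro hn
      have hm : Even m := by
        have := hn.add_one
        simpa using this
      rcases hc1e with e | e
      · right; rw [e]; exact sb1 hm
      · left; rw [e]; exact hfβ
  have p2 : ∫ ψ in c1..c2, I ψ ≤ ρ * (∫ ψ in c1..c2, J ψ) + ∫ ψ in c1..c2, L ψ := by
    refine hpiece m c1 c2 hc1α hc12 hc2β fun hlt => ?_
    have e1 : c1 = b1 := by
      rcases hc1e with e | e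
      · exact e
      · linarith
    refine ⟨?_, ?_, ?_, ?_⟩
    · linarith
    · linarith
    · intro hn; right; rw [e1]; exact sb1 hn
    · intro hn
      rcases hc2e with e | e
      · right; rw [e]; exact sb2 hn
      · left; rw [e]; exact hfβ
  have p3 : ∫ ψ in c2..β, I ψ ≤ ρ * (∫ ψ in c2..β, J ψ) + ∫ ψ in c2..β, L ψ := by
    refine hpiece (m + 1) c2 β (hc1α.trans hc12) hc2β le_rfl fun hlt => ?_
    have e2 : c2 = b1 + Real.pi / 2 := by
      rcases hc2e with e | e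
      · exact e
      · linarith
    refine ⟨?_, ?_, ?_, ?_⟩
    · push_cast; linarith
    · push_cast; linarith
    · intro hn
      right; rw [e2]
      refine sb2 ?_
      rw [Int.even_add_one] at hn
      exact Int.not_even_iff_odd.1 hn
    · intro _; left; exact hfβ
  have hsum : ∀ u : ℝ → ℝ, IntervalIntegrable u volume α β → ∫ ψ in α..β, u ψ =
      (∫ ψ in α..c1, u ψ) + (∫ ψ in c1..c2, u ψ) + ∫ ψ in c2..β, u ψ := by
    intro u hu
    rw [intervalIntegral.integral_add_adjacent_intervals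
      (hsub u hu _ _ le_rfl hc1α (hc12.trans hc2β)) (hsub u hu _ _ hc1α hc12 hc2β),
      intervalIntegral.integral_add_adjacent_intervals
      (hsub u hu _ _ le_rfl (hc1α.trans hc12) hc2β) (hsub u hu _ _ (hc1α.trans hc12) hc2β le_rfl)]
  simp only [← hg]
  simp only [← hI, ← hJ, ← hL]
  rw [hsum I hIi, hsum J hJi, hsum L hLi]
  linarith

end Pool.Agent.FAN
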