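import Pool.Agent.FAN2.StN

/-!
# FAN2, block N, module PIE (helper50): the node inequality on a monotone piece
-/

set_option autoImplicit false

open scoped ComplexConjugate
open MeasureTheory Set

namespace Pool.Agent.FAN

namespace PIEa

lemma mono_Ioo {φ χ : ℝ → ℝ} {a b : ℝ} (hab : a ≤ b) (h1 : IntervalIntegrable φ volume a b)
    (h2 : IntervalIntegrable χ volume a b) (h : ∀ᵐ x, x ∈ Ioo a b → φ x ≤ χ x) :
    ∫ x in a..b, φ x ≤ ∫ x in a..b, χ x := by
  apply intervalIntegral.integral_mono_ae_restrict hab h1 h2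
  rw [Filter.EventuallyLE, ae_restrict_iff' measurableSet_Icc]
  have ha : ∀ᵐ x : ℝ, x ≠ a := by
    rw [ae_iff]
    simp
  have hb : ∀ᵐ x : ℝ, x ≠ b := by
    rw [ae_iff]
    simp
  filter_upwards [h, ha, hb] with x hx hxa hxb hxI
  exact hx ⟨lt_of_le_of_ne hxI.1 (Ne.symm hxa), lt_of_le_of_ne hxI.2 hxb⟩

lemma ac_sq {f : ℝ → ℝ} {a b : ℝ} (hf : AbsolutelyContinuousOnInterval f a b) :
    AbsolutelyContinuousOnInterval (fun s => f s ^ 2 / 2) a b := by
  have h1 := (hf.fun_mul hf).const_mul (1 / 2)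
  have h2 : (fun s => f s ^ 2 / 2) = fun x => 1 / 2 * (f x * f x) := by
    funext s
    ring
  rw [h2]
  exact h1

/-- the inequality of the derivatives when the new vertex is nearer -/
lemma alg1 (f f1 g' f' K K1 d d1 ρ τ : ℝ) (hτ : |τ| = 1) (h0 : 0 ≤ f1) (h1 : f1 ≤ f)
    (hd : 0 ≤ d) (hd1 : 0 ≤ d1) (hK : K ≤ K1) (hg : τ * g' ≤ 0) (hg' : |g'| ≤ ρ) :
    d1 * |f1 * g'| - d * |f * f'| ≤
      τ * (g' * (K1 - K) + f1 * (-d1 * g' - -d * f')) + ρ * (K1 - K) := by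
  have e1 : |g'| = -(τ * g') := by
    have h2 : |τ * g'| = -(τ * g') := abs_of_nonpos hg
    rwa [abs_mul, hτ, one_mul] at h2
  have hf : 0 ≤ f := h0.trans h1
  rw [abs_mul, abs_mul, abs_of_nonneg h0, abs_of_nonneg hf, e1]
  have e2 : -|f'| ≤ τ * f' := by
    have h2 := neg_abs_le (τ * f')
    rwa [abs_mul, hτ, one_mul] at h2
  have e3 : 0 ≤ (ρ - |g'|) * (K1 - K) :=
    mul_nonneg (sub_nonneg.2 hg') (sub_nonneg.2 hK)
  rw [e1] at e3
  have e4 : f1 * d * (-|f'|) ≤ f1 * d * (τ * f') := mul_le_mul_of_nonneg_left e2 (mul_nonneg h0 hd)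
  have e5 : f1 * (d * |f'|) ≤ f * (d * |f'|) :=
    mul_le_mul_of_nonneg_right h1 (mul_nonneg hd (abs_nonneg _))
  nlinarith

lemma core (h1 : Sn_KER) (f w g : ℝ → ℝ) (a b ρ s τ : ℝ) (hab : a ≤ b) (hs : 0 < s)
    (hτ : |τ| = 1)
    (hfL : ∃ K, LipschitzOnWith K f (Icc a b)) (hwL : ∃ K, LipschitzOnWith K w (Icc a b))
    (hgL : ∃ K, LipschitzWith K g)
    (h0 : ∀ ψ ∈ Icc a b, 0 ≤ f ψ ∧ 0 ≤ w ψ) (hg0 : ∀ ψ, 0 ≤ g ψ)
    (hgd : ∀ ψ ∈ Ioo a b, DifferentiableAt ℝ g ψ → τ * deriv g ψ ≤ 0 ∧ |deriv g ψ| ≤ ρ) :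
    ∫ ψ in a..b, (kd s (min (f ψ) (g ψ)) * |deriv (fun t => (min (f t) (g t)) ^ 2 / 2) ψ| -
      kd s (f ψ) * |deriv (fun t => f t ^ 2 / 2) ψ|) * w ψ ≤
    τ * (min (f b) (g b) * (kp s (min (f b) (g b)) - kp s (f b)) * w b -
      min (f a) (g a) * (kp s (min (f a) (g a)) - kp s (f a)) * w a) +
    (ρ * (∫ ψ in a..b, (kp s (min (f ψ) (g ψ)) - kp s (f ψ)) * w ψ) +
      ∫ ψ in a..b, (kp s (min (f ψ) (g ψ)) - kp s (f ψ)) * (f ψ * |deriv w ψ|)) := by
  obtain ⟨hk1, hk2, hk3, hk4, hk5, ⟨Kk, hk6⟩, -, -⟩ := h1 s hs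
  obtain ⟨K1, hf⟩ := hfL
  obtain ⟨K2, hw⟩ := hwL
  obtain ⟨K3, hg⟩ := hgL
  have hI : uIcc a b = Icc a b := uIcc_of_le hab
  have fac : AbsolutelyContinuousOnInterval f a b := by
    rw [← hI] at hf
    exact hf.absolutelyContinuousOnInterval
  have wac : AbsolutelyContinuousOnInterval w a b := by
    rw [← hI] at hw
    exact hw.absolutelyContinuousOnInterval
  have gac : AbsolutelyContinuousOnInterval g a b :=
    (hg.lipschitzOnWith (s := uIcc a b)).absolutelyContinuousOnInterval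
  have hmL := lipschitzWith_min.comp_lipschitzOnWith
      (hf.prodMk (hg.lipschitzOnWith (s := Icc a b)))
  have mac : AbsolutelyContinuousOnInterval (fun t => min (f t) (g t)) a b := by
    have h2 := hmL
    rw [← hI] at h2
    exact h2.absolutelyContinuousOnInterval
  have kfac : AbsolutelyContinuousOnInterval (fun t => kp s (f t)) a b := by
    have h2 := hk6.comp_lipschitzOnWith hf
    rw [← hI] at h2
    exact h2.absolutelyContinuousOnInterval
  have kmac : AbsolutelyContinuousOnInterval (fun t => kp s (min (f t) (g t))) a b := by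
    have h2 := hk6.comp_lipschitzOnWith hmL
    rw [← hI] at h2
    exact h2.absolutelyContinuousOnInterval
  have Fac := ac_sq fac
  have F1ac := ac_sq mac
  have dac := kmac.fun_sub kfac
  have Uac := mac.fun_mul dac
  set f1 : ℝ → ℝ := fun t => min (f t) (g t) with hf1
  -- pointwise facts
  have hmn : ∀ ψ ∈ Icc a b, 0 ≤ f1 ψ ∧ f1 ψ ≤ f ψ ∧ kp s (f ψ) ≤ kp s (f1 ψ) := by
    intro ψ hψ
    have h2 : 0 ≤ f1 ψ := le_min (h0 ψ hψ).1 (hg0 ψ)
    have h3 : f1 ψ ≤ f ψ := min_le_left _ _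
    exact ⟨h2, h3, hk3 _ _ h2 h3⟩
  have key : ∀ᵐ ψ, ψ ∈ Ioo a b →
      (kd s (f1 ψ) * |deriv (fun t => f1 t ^ 2 / 2) ψ| -
        kd s (f ψ) * |deriv (fun t => f t ^ 2 / 2) ψ|) * w ψ ≤
      τ * (deriv (fun t => f1 t * (kp s (f1 t) - kp s (f t))) ψ * w ψ) +
        ρ * ((kp s (f1 ψ) - kp s (f ψ)) * w ψ) := by
    filter_upwards [fac.ae_differentiableAt, mac.ae_differentiableAt, gac.ae_differentiableAt]
      with ψ a1 a2 a3 hψ
    have hψI : ψ ∈ Icc a b := Ioo_subset_Icc_self hψ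
    have b1 := a1 (by rw [hI]; exact hψI)
    have b2 := a2 (by rw [hI]; exact hψI)
    have b3 := a3 (by rw [hI]; exact hψI)
    have hw0 := (h0 ψ hψI).2
    obtain ⟨m1, m2, m3⟩ := hmn ψ hψI
    have c1 : HasDerivAt f (deriv f ψ) ψ := b1.hasDerivAt
    have c2 : HasDerivAt f1 (deriv f1 ψ) ψ := b2.hasDerivAt
    have d1 : deriv (fun t => f t ^ 2 / 2) ψ = f ψ * deriv f ψ := by
      have h2 := (c1.fun_pow 2).div_const 2
      rw [h2.deriv]
      norm_num
      ring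
    have d2 : deriv (fun t => f1 t ^ 2 / 2) ψ = f1 ψ * deriv f1 ψ := by
      have h2 := (c2.fun_pow 2).div_const 2
      rw [h2.deriv]
      norm_num
      ring
    have d3 : deriv (fun t => f1 t * (kp s (f1 t) - kp s (f t))) ψ =
        deriv f1 ψ * (kp s (f1 ψ) - kp s (f ψ)) +
          f1 ψ * (-kd s (f1 ψ) * deriv f1 ψ - -kd s (f ψ) * deriv f ψ) := by
      have e1 : HasDerivAt (fun t => kp s (f t)) (-kd s (f ψ) * deriv f ψ) ψ :=
        (hk1 (f ψ)).2.2.1.comp ψ c1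
      have e2 : HasDerivAt (fun t => kp s (f1 t)) (-kd s (f1 ψ) * deriv f1 ψ) ψ :=
        (hk1 (f1 ψ)).2.2.1.comp ψ c2
      exact (c2.fun_mul (e2.fun_sub e1)).deriv
    rw [d1, d2, d3]
    have hnhds : Icc a b ∈ nhds ψ := Icc_mem_nhds hψ.1 hψ.2
    have main : kd s (f1 ψ) * |f1 ψ * deriv f1 ψ| - kd s (f ψ) * |f ψ * deriv f ψ| ≤
        τ * (deriv f1 ψ * (kp s (f1 ψ) - kp s (f ψ)) +
          f1 ψ * (-kd s (f1 ψ) * deriv f1 ψ - -kd s (f ψ) * deriv f ψ)) +
        ρ * (kp s (f1 ψ) - kp s (f ψ)) := by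
      rcases lt_or_ge (g ψ) (f ψ) with hlt | hge
      · have hcf : ContinuousAt f ψ := hf.continuousOn.continuousAt hnhds
        have hcg : ContinuousAt g ψ := hg.continuous.continuousAt
        have h6 : f1 =ᶠ[nhds ψ] g := by
          filter_upwards [hcg.eventually_lt hcf hlt] with t ht
          simp only [hf1]
          rw [min_eq_right ht.le]
        have h7 : deriv f1 ψ = deriv g ψ := h6.deriv_eq
        rw [h7]
        obtain ⟨g1, g2⟩ := hgd ψ hψ b3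
        exact alg1 (f ψ) (f1 ψ) (deriv g ψ) (deriv f ψ) _ _ _ _ ρ τ hτ m1 m2
          (hk2 _ (h0 ψ hψI).1) (hk2 _ m1) m3 g1 g2
      · have e0 : f1 ψ = f ψ := min_eq_left hge
        have h6 : IsLocalMin (fun t => f t - f1 t) ψ := by
          filter_upwards [hnhds] with t ht
          rw [e0, sub_self]
          exact sub_nonneg.2 (hmn t ht).2.1
        have h7 := h6.deriv_eq_zero
        have h8 : deriv (fun t => f t - f1 t) ψ = deriv f ψ - deriv f1 ψ :=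
          (c1.fun_sub c2).deriv
        have h9 : deriv f1 ψ = deriv f ψ := by linarith
        rw [h9, e0]
        apply le_of_eq
        ring
    have := mul_le_mul_of_nonneg_right main hw0
    linarith
  have i1 : IntervalIntegrable (fun ψ => (kd s (f1 ψ) * |deriv (fun t => f1 t ^ 2 / 2) ψ| -
        kd s (f ψ) * |deriv (fun t => f t ^ 2 / 2) ψ|) * w ψ) volume a b := by
    refine IntervalIntegrable.mul_continuousOn (IntervalIntegrable.sub ?_ ?_) wac.continuousOn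
    · exact F1ac.intervalIntegrable_deriv.abs.continuousOn_mul
        (hk5.comp_continuousOn mac.continuousOn)
    · exact Fac.intervalIntegrable_deriv.abs.continuousOn_mul
        (hk5.comp_continuousOn fac.continuousOn)
  have i2 : IntervalIntegrable
      (fun ψ => deriv (fun t => f1 t * (kp s (f1 t) - kp s (f t))) ψ * w ψ) volume a b :=
    Uac.intervalIntegrable_deriv.mul_continuousOn wac.continuousOn
  have i3 : IntervalIntegrable
      (fun ψ => (f1 ψ * (kp s (f1 ψ) - kp s (f ψ))) * deriv w ψ) volume a b :=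
    wac.intervalIntegrable_deriv.continuousOn_mul Uac.continuousOn
  have i4 : IntervalIntegrable (fun ψ => (kp s (f1 ψ) - kp s (f ψ)) * w ψ) volume a b :=
    (dac.continuousOn.mul wac.continuousOn).intervalIntegrable
  have i5 : IntervalIntegrable (fun ψ => (kp s (f1 ψ) - kp s (f ψ)) * (f ψ * |deriv w ψ|))
      volume a b :=
    (wac.intervalIntegrable_deriv.abs.continuousOn_mul fac.continuousOn).continuousOn_mul
      dac.continuousOn
  have s1 := mono_Ioo hab i1 ((i2.const_mul τ).add (i4.const_mul ρ)) key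
  rw [intervalIntegral.integral_add (i2.const_mul τ) (i4.const_mul ρ),
    intervalIntegral.integral_const_mul, intervalIntegral.integral_const_mul] at s1
  have s2 := Uac.integral_mul_deriv_eq_deriv_mul wac
  have s3 : ∫ ψ in a..b, -τ * ((f1 ψ * (kp s (f1 ψ) - kp s (f ψ))) * deriv w ψ) ≤
      ∫ ψ in a..b, (kp s (f1 ψ) - kp s (f ψ)) * (f ψ * |deriv w ψ|) := by
    apply mono_Ioo hab (i3.const_mul _) i5
    refine Filter.Eventually.of_forall fun ψ hψ => ?_
    have hψI : ψ ∈ Icc a b := Ioo_subset_Icc_self hψ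
    obtain ⟨m1, m2, m3⟩ := hmn ψ hψI
    have h5 : 0 ≤ kp s (f1 ψ) - kp s (f ψ) := sub_nonneg.2 m3
    have h6 : 0 ≤ f1 ψ * (kp s (f1 ψ) - kp s (f ψ)) := mul_nonneg m1 h5
    calc -τ * ((f1 ψ * (kp s (f1 ψ) - kp s (f ψ))) * deriv w ψ)
        ≤ |-τ * ((f1 ψ * (kp s (f1 ψ) - kp s (f ψ))) * deriv w ψ)| := le_abs_self _
      _ = (f1 ψ * (kp s (f1 ψ) - kp s (f ψ))) * |deriv w ψ| := by
        rw [abs_mul, abs_neg, hτ, one_mul, abs_mul, abs_of_nonneg h6]
      _ ≤ (f ψ * (kp s (f1 ψ) - kp s (f ψ))) * |deriv w ψ| :=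
        mul_le_mul_of_nonneg_right (mul_le_mul_of_nonneg_right m2 h5) (abs_nonneg _)
      _ = _ := by ring
  rw [intervalIntegral.integral_const_mul] at s3
  have s4 : ∫ ψ in a..b, deriv (fun t => f1 t * (kp s (f1 t) - kp s (f t))) ψ * w ψ =
      f1 b * (kp s (f1 b) - kp s (f b)) * w b - f1 a * (kp s (f1 a) - kp s (f a)) * w a -
        ∫ ψ in a..b, (f1 ψ * (kp s (f1 ψ) - kp s (f ψ))) * deriv w ψ := by
    linarith
  rw [s4] at s1
  have e1 : τ * (f1 b * (kp s (f1 b) - kp s (f b)) * w b -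
      f1 a * (kp s (f1 a) - kp s (f a)) * w a -
        ∫ ψ in a..b, (f1 ψ * (kp s (f1 ψ) - kp s (f ψ))) * deriv w ψ) =
      τ * (f1 b * (kp s (f1 b) - kp s (f b)) * w b -
      f1 a * (kp s (f1 a) - kp s (f a)) * w a) +
      -τ * ∫ ψ in a..b, (f1 ψ * (kp s (f1 ψ) - kp s (f ψ))) * deriv w ψ := by ring
  rw [e1] at s1
  linarith

lemma lip_g (θ ρ : ℝ) : LipschitzWith (Real.toNNReal |ρ|) (fun s => ρ * |Real.sin (s - θ)|) := by
  refine LipschitzWith.of_dist_le_mul ?_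
  intro x y
  rw [Real.coe_toNNReal _ (abs_nonneg _), Real.dist_eq, ← mul_sub, abs_mul]
  apply mul_le_mul_of_nonneg_left _ (abs_nonneg _)
  have h1 : |(|Real.sin (x - θ)| - |Real.sin (y - θ)|)| ≤ |Real.sin (x - θ) - Real.sin (y - θ)| :=
    abs_abs_sub_abs_le_abs_sub _ _
  have h2 := Real.lipschitzWith_sin.dist_le_mul (x - θ) (y - θ)
  rw [NNReal.coe_one, one_mul, Real.dist_eq, Real.dist_eq] at h2
  rw [Real.dist_eq]
  refine h1.trans (h2.trans (le_of_eq ?_))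
  congr 1
  ring

lemma der_g (θ ρ ψ : ℝ) : HasDerivAt (fun s => (ρ * |Real.sin (s - θ)|) ^ 2 / 2)
    (ρ ^ 2 * (Real.sin (ψ - θ) * Real.cos (ψ - θ))) ψ := by
  have h1 : (fun s => (ρ * |Real.sin (s - θ)|) ^ 2 / 2) =
      fun s => ρ ^ 2 / 2 * Real.sin (s - θ) ^ 2 := by
    funext s
    rw [mul_pow, sq_abs]
    ring
  rw [h1]
  have h2 : HasDerivAt (fun s => Real.sin (s - θ)) (Real.cos (ψ - θ)) ψ := by
    have h3 := (Real.hasDerivAt_sin (ψ - θ)).comp ψ ((hasDerivAt_id ψ).sub_const θ)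
    rw [mul_one] at h3
    exact h3
  have h4 := (h2.fun_pow 2).const_mul (ρ ^ 2 / 2)
  have h5 : ρ ^ 2 / 2 * (((2 : ℕ) : ℝ) * Real.sin (ψ - θ) ^ (2 - 1) * Real.cos (ψ - θ)) =
      ρ ^ 2 * (Real.sin (ψ - θ) * Real.cos (ψ - θ)) := by
    norm_num
    ring
  rw [← h5]
  exact h4

/-- sign and size of the derivative of `ρ |sin (s - θ)|` -/
lemma sgn_g (θ ρ ψ τ : ℝ) (hρ : 0 ≤ ρ) (hs : τ * (Real.sin (ψ - θ) * Real.cos (ψ - θ)) ≤ 0)
    (hd : DifferentiableAt ℝ (fun s => ρ * |Real.sin (s - θ)|) ψ) :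
    τ * deriv (fun s => ρ * |Real.sin (s - θ)|) ψ ≤ 0 ∧
      |deriv (fun s => ρ * |Real.sin (s - θ)|) ψ| ≤ ρ := by
  constructor
  · set g : ℝ → ℝ := fun s => ρ * |Real.sin (s - θ)| with hg
    have h1 : HasDerivAt (fun s => g s ^ 2 / 2) (g ψ * deriv g ψ) ψ := by
      have h2 := (hd.hasDerivAt.fun_pow 2).div_const 2
      refine h2.congr_deriv ?_
      norm_num
      ring
    have h2 : g ψ * deriv g ψ = ρ ^ 2 * (Real.sin (ψ - θ) * Real.cos (ψ - θ)) :=
      h1.unique (der_g θ ρ ψ)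
    have h3 : 0 ≤ g ψ := by positivity
    rcases h3.eq_or_lt with h4 | h4
    · have h5 : IsLocalMin g ψ := by
        refine Filter.Eventually.of_forall fun t => ?_
        rw [← h4]
        show 0 ≤ ρ * |Real.sin (t - θ)|
        positivity
      rw [h5.deriv_eq_zero, mul_zero]
    · by_contra hcon
      push Not at hcon
      have h5 : 0 < g ψ * (τ * deriv g ψ) := mul_pos h4 hcon
      have h6 : g ψ * (τ * deriv g ψ) = ρ ^ 2 * (τ * (Real.sin (ψ - θ) * Real.cos (ψ - θ))) := by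
        linear_combination τ * h2
      rw [h6] at h5
      have h7 := mul_nonpos_of_nonneg_of_nonpos (sq_nonneg ρ) hs
      linarith
  · have h1 := norm_deriv_le_of_lipschitz (x₀ := ψ) (lip_g θ ρ)
    rw [Real.coe_toNNReal _ (abs_nonneg _), abs_of_nonneg hρ] at h1
    exact h1

end PIEa

open PIEa in
theorem n_PIE (h1 : Sn_KER) : Sn_PIE := by
  intro f w a b θ ρ s hab hρ hs hfL hwL h0 hc
  have hk3 := (h1 s hs).2.2.1
  have hU : ∀ ψ ∈ Icc a b, 0 ≤ min (f ψ) (ρ * |Real.sin (ψ - θ)|) *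
      (kp s (min (f ψ) (ρ * |Real.sin (ψ - θ)|)) - kp s (f ψ)) * w ψ := by
    intro ψ hψ
    have h2 : 0 ≤ min (f ψ) (ρ * |Real.sin (ψ - θ)|) := le_min (h0 ψ hψ).1 (by positivity)
    exact mul_nonneg (mul_nonneg h2 (sub_nonneg.2 (hk3 _ _ h2 (min_le_left _ _)))) (h0 ψ hψ).2
  have hz : ∀ ψ ∈ Icc a b, (f ψ = 0 ∨ Real.sin (ψ - θ) = 0) →
      min (f ψ) (ρ * |Real.sin (ψ - θ)|) = 0 := by
    intro ψ hψ h
    rcases h with h | h
    · rw [h]
      exact min_eq_left (by positivity)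
    · rw [h, abs_zero, mul_zero]
      exact min_eq_right (h0 ψ hψ).1
  have haI : a ∈ Icc a b := left_mem_Icc.2 hab
  have hbI : b ∈ Icc a b := right_mem_Icc.2 hab
  rcases hc with ⟨hc1, hc2⟩ | ⟨hc1, hc2⟩
  · have h := core h1 f w (fun t => ρ * |Real.sin (t - θ)|) a b ρ s (-1) hab hs (by simp) hfL hwL
      ⟨_, lip_g θ ρ⟩ h0 (fun ψ => by positivity) (fun ψ hψ hd => sgn_g θ ρ ψ (-1) hρ (by
        have := hc2 ψ (Ioo_subset_Icc_self hψ)
        linarith) hd)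
    beta_reduce at h
    have h2 := hU b hbI
    have h3 := hz a haI hc1
    rw [h3] at h
    rw [zero_mul, zero_mul, sub_zero] at h
    linarith
  · have h := core h1 f w (fun t => ρ * |Real.sin (t - θ)|) a b ρ s 1 hab hs (by simp) hfL hwL
      ⟨_, lip_g θ ρ⟩ h0 (fun ψ => by positivity) (fun ψ hψ hd => sgn_g θ ρ ψ 1 hρ (by
        have := hc2 ψ (Ioo_subset_Icc_self hψ)
        linarith) hd)
    beta_reduce at h
    have h2 := hU a haI
    have h3 := hz b hbI hc1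
    rw [h3] at h
    rw [zero_mul, zero_mul, zero_sub] at h
    linarith

end Pool.Agent.FAN
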