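import Pool.Agent.FAN2.StN

/-!
# FAN2, block N: PTL (helper27), after FAN/F_PTL.lean (helper41)
-/

set_option autoImplicit false

open scoped ComplexConjugate
open MeasureTheory Set

namespace Pool.Agent.FAN

/-- Abel summation -/
private theorem nptl_abel (b m : ℕ → ℝ) (K : ℕ) :
    ∑ n ∈ Finset.range K, b n * (m n - m (n + 1)) =
      b 0 * m 0 + ∑ n ∈ Finset.range K, (b (n + 1) - b n) * m (n + 1) - b K * m K := by
  induction K with
  | zero => simp
  | succ K ih =>
    rw [Finset.sum_range_succ, ih, Finset.sum_range_succ]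
    ring

/-- the clearance is nonnegative -/
private theorem nptl_clr {S : TriSys} : ∀ (js : List (ZMod 3)) (q : Pl S) (x v : ℂ),
    0 ≤ clr q js x v
  | [], q, x, v => by
    show 0 ≤ q.h3 x v
    unfold Pl.h3
    positivity
  | j :: js, q, x, v => by
    show 0 ≤ min (q.h3 x v) (clr (q.nx j) js x v)
    refine le_min ?_ (nptl_clr js (q.nx j) x v)
    unfold Pl.h3
    positivity

private theorem nptl_kd {s y : ℝ} (hs : 0 < s) (hy : 0 ≤ y) : 0 ≤ kd s y := by
  unfold kd
  positivity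

theorem n_PTL (h1 : Sa_UNI) (h2 : Sf_DER) (h3 : Sf_WDP) (h4 : Sf_STP) : Sn_PTL := by
  intro S r x ψ s M K hx hNH hs hM hMK hd
  have hw := (h3 S r x (ev ψ) hx).2 hNH
  set W : ℕ → List (ZMod 3) := fun n => wd S r x (ev ψ) n with hW
  set T : ℕ → ℝ := fun n => tm S r x (ev ψ) (W n) with hT
  have hT0 : T 0 = 0 := by
    show tm S r x (ev ψ) (wd S r x (ev ψ) 0) = 0
    unfold tm
    rw [if_pos]
    rfl
  have hTlt : ∀ n, T n < T (n + 1) := fun n => (hw n).2.2.2.1
  have hSS : ∀ n t, T n < t → t < T (n + 1) →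
      kd s (DD S r x (ev ψ) t) * SS S r x (ev ψ) t =
      kd s (clr (Pl.home S r) (W n) x (ev ψ)) *
        (clr (Pl.home S r) (W n) x (ev ψ) * av (Pl.home S r) (W n) x (ev ψ)) := by
    intro n t h5 h6
    have hp := (hw n).2.2.2.2.1 t h5 h6
    obtain ⟨-, e1, e2⟩ := h1 S r x (ev ψ) t _ _ hp hp
    rw [e1, e2]
  obtain ⟨hstp, -⟩ := h4 T
    (fun n => kd s (clr (Pl.home S r) (W n) x (ev ψ)) *
        (clr (Pl.home S r) (W n) x (ev ψ) * av (Pl.home S r) (W n) x (ev ψ)))
    (fun t => kd s (DD S r x (ev ψ) t) * SS S r x (ev ψ) t) K M hM hT0 hTlt hSS hMK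
  have hle : ∫ N in (0 : ℝ)..M, kd s (DD S r x (ev ψ) N) * SS S r x (ev ψ) N ≤
      ∑ n ∈ Finset.range K, bk S r x s (W n) ψ * (max 0 (M - T n) - max 0 (M - T (n + 1))) := by
    rw [hstp]
    refine Finset.sum_le_sum fun n _ => ?_
    refine mul_le_mul_of_nonneg_right ?_ ?_
    · unfold bk
      exact mul_le_mul_of_nonneg_left (h2 S r x (W n) ψ (hd n)) (nptl_kd hs (nptl_clr _ _ _ _))
    · have h5 := hTlt n
      have h6 : max 0 (M - T (n + 1)) ≤ max 0 (M - T n) := max_le_max le_rfl (by linarith)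
      linarith
  refine hle.trans ?_
  rw [nptl_abel (fun n => bk S r x s (W n) ψ) (fun n => max 0 (M - T n)) K]
  have hm0 : max 0 (M - T 0) = M := by
    rw [hT0, sub_zero]
    exact max_eq_right hM
  have hmK : max 0 (M - T K) = 0 := max_eq_left (by linarith [hMK])
  rw [hm0, hmK, mul_zero, sub_zero]
  have hW0 : W 0 = [] := rfl
  rw [hW0, mul_comm M]
  refine add_le_add le_rfl (le_of_eq ?_)
  refine Finset.sum_congr rfl fun n _ => ?_
  obtain ⟨j, hj⟩ := (hw n).2.2.1
  have hdl : (wd S r x (ev ψ) (n + 1)).dropLast = W n := by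
    rw [hj, List.dropLast_concat]
  unfold LK om
  rw [hdl]

end Pool.Agent.FAN
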