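import Pool.Agent.FAN2.StN

/-!
# FAN2, SYK: symmetry under reversal for the kernel (after `FAN/M_SYM.lean`)
-/

set_option autoImplicit false

open scoped ComplexConjugate
open MeasureTheory Set

namespace Pool.Agent.FAN

private theorem syk_norm_ev (ψ : ℝ) : ‖ev ψ‖ = 1 := by
  have h : ‖ev ψ‖ ^ 2 = 1 := by
    rw [← Complex.normSq_eq_norm_sq, Complex.normSq_apply]
    simp only [ev]
    have := Real.cos_sq_add_sin_sq ψ
    nlinarith
  have h0 : 0 ≤ ‖ev ψ‖ := norm_nonneg _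
  nlinarith

private theorem syk_meas_ev : Measurable ev := by
  have e : ev = fun ψ : ℝ => (Real.cos ψ : ℂ) + (Real.sin ψ : ℂ) * Complex.I := by
    funext ψ
    apply Complex.ext
    · simp only [ev, Complex.add_re, Complex.ofReal_re, Complex.mul_re, Complex.I_re,
        Complex.ofReal_im, Complex.I_im]
      ring
    · simp only [ev, Complex.add_im, Complex.ofReal_im, Complex.mul_im, Complex.I_re,
        Complex.ofReal_re, Complex.I_im]
      ring
  rw [e]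
  have hc : Continuous fun ψ : ℝ => (Real.cos ψ : ℂ) + (Real.sin ψ : ℂ) * Complex.I := by
    fun_prop
  exact hc.measurable

/-- iterated integral of a bounded measurable function as an integral over the product -/
private theorem syk_prod (A : Set ℂ) (hA : volume A < ⊤) (f : ℂ → ℝ → ℝ) (B : ℝ)
    (hf : Measurable fun p : ℝ × ℂ => f p.2 p.1) (hB : ∀ x ψ, |f x ψ| ≤ B) :
    Integrable (fun p : ℝ × ℂ => f p.2 p.1)
      ((volume.restrict (Ioc (0 : ℝ) (2 * Real.pi))).prod (volume.restrict A)) ∧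
    ∫ ψ in (0 : ℝ)..(2 * Real.pi), ∫ x in A, f x ψ =
      ∫ p : ℝ × ℂ, f p.2 p.1 ∂((volume.restrict (Ioc (0 : ℝ) (2 * Real.pi))).prod
        (volume.restrict A)) := by
  have : IsFiniteMeasure (volume.restrict A) := isFiniteMeasure_restrict.2 hA.ne
  have hi : Integrable (fun p : ℝ × ℂ => f p.2 p.1)
      ((volume.restrict (Ioc (0 : ℝ) (2 * Real.pi))).prod (volume.restrict A)) :=
    Integrable.of_bound hf.aestronglyMeasurable B
      (Filter.Eventually.of_forall fun p => by rw [Real.norm_eq_abs]; exact hB p.2 p.1)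
  refine ⟨hi, ?_⟩
  rw [intervalIntegral.integral_of_le (by positivity), integral_prod _ hi]

/-- nonnegative functions: the integral is the lower integral -/
private theorem syk_lint (A : Set ℂ) (hA : volume A < ⊤) (f : ℂ → ℝ → ℝ) (B : ℝ)
    (hf : Measurable fun p : ℝ × ℂ => f p.2 p.1) (hB : ∀ x ψ, |f x ψ| ≤ B)
    (h0 : ∀ x ψ, 0 ≤ f x ψ) :
    ∫⁻ ψ in Ioc (0 : ℝ) (2 * Real.pi), ∫⁻ x in A, ENNReal.ofReal (f x ψ) ≠ ⊤ ∧
    ∫ p : ℝ × ℂ, f p.2 p.1 ∂((volume.restrict (Ioc (0 : ℝ) (2 * Real.pi))).prod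
        (volume.restrict A)) =
      (∫⁻ ψ in Ioc (0 : ℝ) (2 * Real.pi), ∫⁻ x in A, ENNReal.ofReal (f x ψ)).toReal := by
  have : IsFiniteMeasure (volume.restrict A) := isFiniteMeasure_restrict.2 hA.ne
  have hi := (syk_prod A hA f B hf hB).1
  have hm : AEMeasurable (fun p : ℝ × ℂ => ENNReal.ofReal (f p.2 p.1))
      ((volume.restrict (Ioc (0 : ℝ) (2 * Real.pi))).prod (volume.restrict A)) :=
    (ENNReal.measurable_ofReal.comp hf).aemeasurable
  have e := lintegral_prod _ hm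
  have hlt := hi.lintegral_lt_top
  constructor
  · rw [e] at hlt
    exact hlt.ne
  · have hnn : (0 : ℝ × ℂ → ℝ) ≤ᵐ[(volume.restrict (Ioc (0 : ℝ) (2 * Real.pi))).prod
        (volume.restrict A)] (fun p : ℝ × ℂ => f p.2 p.1) :=
      Filter.Eventually.of_forall fun p => h0 p.2 p.1
    have e3 := integral_eq_lintegral_of_nonneg_ae hnn hf.aestronglyMeasurable
    rw [e3, e]

/-- the last step, for abstract functions -/
private theorem syk_core (S : TriSys) (N D₀ BD BS : ℝ) (fD fS : S.R → ℂ → ℝ → ℝ)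
    (hvol : ∀ r, volume (rm S r) < ⊤)
    (hmD : ∀ r, Measurable (fun p : ℝ × ℂ => fD r p.2 p.1))
    (hmS : ∀ r, Measurable (fun p : ℝ × ℂ => fS r p.2 p.1))
    (hBD : ∀ r x ψ, |fD r x ψ| ≤ BD) (hBS : ∀ r x ψ, |fS r x ψ| ≤ BS)
    (hD0 : 0 ≤ D₀) (hN : 0 ≤ N)
    (hG0 : ∀ r x ψ, 0 ≤ fS r x ψ + D₀ * fD r x ψ)
    (hH0 : ∀ r x ψ, 0 ≤ (N + D₀) * fD r x ψ - fS r x ψ)
    (key : ∑ r, ∫⁻ ψ in Ioc (0 : ℝ) (2 * Real.pi), ∫⁻ x in rm S r,
        ENNReal.ofReal ((N + D₀) * fD r x ψ - fS r x ψ) =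
      ∑ r, ∫⁻ ψ in Ioc (0 : ℝ) (2 * Real.pi), ∫⁻ x in rm S r,
        ENNReal.ofReal (fS r x ψ + D₀ * fD r x ψ)) :
    EE S fS = N / 2 * EE S fD := by
  have hG1 : ∀ (r : S.R) (x : ℂ) (ψ : ℝ), |fS r x ψ + D₀ * fD r x ψ| ≤ BS + (N + D₀) * BD := by
    intro r x ψ
    have b4 : |D₀ * fD r x ψ| ≤ (N + D₀) * BD := by
      rw [abs_mul, abs_of_nonneg hD0]
      exact mul_le_mul (by linarith) (hBD r x ψ) (abs_nonneg _) (by linarith)
    exact (abs_add_le _ _).trans (add_le_add (hBS r x ψ) b4)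
  have hH1 : ∀ (r : S.R) (x : ℂ) (ψ : ℝ), |(N + D₀) * fD r x ψ - fS r x ψ| ≤
      BS + (N + D₀) * BD := by
    intro r x ψ
    have b4 : |(N + D₀) * fD r x ψ| ≤ (N + D₀) * BD := by
      rw [abs_mul, abs_of_nonneg (by linarith : 0 ≤ N + D₀)]
      exact mul_le_mul le_rfl (hBD r x ψ) (abs_nonneg _) (by linarith)
    have b5 := abs_sub ((N + D₀) * fD r x ψ) (fS r x ψ)
    have b6 := hBS r x ψ
    linarith
  have pD := fun r => syk_prod (rm S r) (hvol r) (fD r) BD (hmD r) (hBD r)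
  have pS := fun r => syk_prod (rm S r) (hvol r) (fS r) BS (hmS r) (hBS r)
  have lG := fun r => syk_lint (rm S r) (hvol r) (fun x ψ => fS r x ψ + D₀ * fD r x ψ)
    (BS + (N + D₀) * BD) ((hmS r).add ((hmD r).const_mul D₀)) (hG1 r) (hG0 r)
  have lH := fun r => syk_lint (rm S r) (hvol r) (fun x ψ => (N + D₀) * fD r x ψ - fS r x ψ)
    (BS + (N + D₀) * BD) (((hmD r).const_mul (N + D₀)).sub (hmS r)) (hH1 r) (hH0 r)
  have key2 := congrArg ENNReal.toReal key
  rw [ENNReal.toReal_sum (fun r _ => (lH r).1), ENNReal.toReal_sum (fun r _ => (lG r).1)] at key2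
  have e1 : ∀ r, (∫⁻ ψ in Ioc (0 : ℝ) (2 * Real.pi), ∫⁻ x in rm S r,
      ENNReal.ofReal ((N + D₀) * fD r x ψ - fS r x ψ)).toReal =
      (N + D₀) * (∫ ψ in (0 : ℝ)..(2 * Real.pi), ∫ x in rm S r, fD r x ψ) -
      ∫ ψ in (0 : ℝ)..(2 * Real.pi), ∫ x in rm S r, fS r x ψ := by
    intro r
    rw [← (lH r).2, (pD r).2, (pS r).2, ← integral_const_mul]
    exact integral_sub ((pD r).1.const_mul _) (pS r).1
  have e2 : ∀ r, (∫⁻ ψ in Ioc (0 : ℝ) (2 * Real.pi), ∫⁻ x in rm S r,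
      ENNReal.ofReal (fS r x ψ + D₀ * fD r x ψ)).toReal =
      (∫ ψ in (0 : ℝ)..(2 * Real.pi), ∫ x in rm S r, fS r x ψ) +
      D₀ * (∫ ψ in (0 : ℝ)..(2 * Real.pi), ∫ x in rm S r, fD r x ψ) := by
    intro r
    rw [← (lG r).2, (pD r).2, (pS r).2, ← integral_const_mul]
    exact integral_add (pS r).1 ((pD r).1.const_mul _)
  rw [Finset.sum_congr rfl fun r _ => e1 r, Finset.sum_congr rfl fun r _ => e2 r,
    Finset.sum_sub_distrib, Finset.sum_add_distrib, ← Finset.mul_sum, ← Finset.mul_sum] at key2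
  unfold EE
  linarith

theorem n_SYK (h1 : Sa_DIA) (h2 : Sa_PWR) (h3 : Sm_MEA) (h4 : Sm_BND) (h5 : Sm_SHF)
    (h6 : Sn_KER) (h8 : Sm_OPN) : Sn_SYK := by
  intro S s N hs hN
  obtain ⟨D₀, h₀, d1, -, d2, d3, d4, -⟩ := h1 S
  have hD : Dia S D₀ := ⟨d1, d2, d3, d4⟩
  obtain ⟨hk1, hk2, -, -, hkc, -⟩ := h6 s hs
  have hmD : ∀ r, Measurable (fun p : ℂ × ℂ => DD S r p.1 p.2 N) := fun r =>
    (h3 S r).1.comp (measurable_fst.prodMk (measurable_snd.prodMk measurable_const))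
  have hmS : ∀ r, Measurable (fun p : ℂ × ℂ => SS S r p.1 p.2 N) := fun r =>
    (h3 S r).2.comp (measurable_fst.prodMk (measurable_snd.prodMk measurable_const))
  have hmK : ∀ r, Measurable (fun p : ℂ × ℂ => kd s (DD S r p.1 p.2 N)) := fun r =>
    hkc.measurable.comp (hmD r)
  have hmap : Measurable fun p : ℝ × ℂ => (p.2, ev p.1) :=
    measurable_snd.prodMk (syk_meas_ev.comp measurable_fst)
  have hmD' : ∀ r, Measurable (fun p : ℝ × ℂ => DD S r p.2 (ev p.1) N) := fun r =>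
    (hmD r).comp hmap
  have hmS' : ∀ r, Measurable (fun p : ℝ × ℂ => SS S r p.2 (ev p.1) N) := fun r =>
    (hmS r).comp hmap
  have hmK' : ∀ r, Measurable (fun p : ℝ × ℂ => kd s (DD S r p.2 (ev p.1) N)) := fun r =>
    hkc.measurable.comp (hmD' r)
  have bD : ∀ (r : S.R) (x : ℂ) (v : ℂ), ‖v‖ = 1 → 0 ≤ DD S r x v N ∧ DD S r x v N ≤ D₀ ∧
      |SS S r x v N| ≤ D₀ * (N + D₀) ∧ 0 ≤ SS S r x v N + D₀ * DD S r x v N :=
    fun r x v hv => h4 S D₀ hD r x v N hv hN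
  have hkn : ∀ (r : S.R) (x : ℂ) (v : ℂ), ‖v‖ = 1 → 0 ≤ kd s (DD S r x v N) :=
    fun r x v hv => hk2 _ (bD r x v hv).1
  -- values without a word
  have hno : ∀ (r : S.R) (x v : ℂ), (¬ ∃ js, PW S r x v N js) →
      DD S r x v N = 0 ∧ SS S r x v N = 0 := by
    intro r x v h
    constructor
    · unfold DD
      rw [dif_neg h]
    · unfold SS
      rw [dif_neg h]
  -- the two functions
  have hrev : ∀ (r : S.R) (x v : ℂ) (js : List (ZMod 3)) (q : Pl S), ‖v‖ = 1 →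
      PW S r x v N js → q = endP (Pl.home S r) js →
      (N + D₀) * (kd s (DD S r x v N) * DD S r x v N) - kd s (DD S r x v N) * SS S r x v N =
        kd s (DD S q.r ((x + N * v - q.b) / q.a) (-v / q.a) N) *
          SS S q.r ((x + N * v - q.b) / q.a) (-v / q.a) N +
          D₀ * (kd s (DD S q.r ((x + N * v - q.b) / q.a) (-v / q.a) N) *
            DD S q.r ((x + N * v - q.b) / q.a) (-v / q.a) N) := by
    intro r x v js q hv hw hq
    obtain ⟨-, -, e1, e2⟩ := h2 S r x v N js hv hw q hq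
    rw [e1, e2]
    ring
  have hGpos : ∀ (r : S.R) (x v : ℂ), ‖v‖ = 1 →
      0 ≤ kd s (DD S r x v N) * SS S r x v N + D₀ * (kd s (DD S r x v N) * DD S r x v N) := by
    intro r x v hv
    have e : kd s (DD S r x v N) * SS S r x v N + D₀ * (kd s (DD S r x v N) * DD S r x v N) =
        kd s (DD S r x v N) * (SS S r x v N + D₀ * DD S r x v N) := by ring
    rw [e]
    exact mul_nonneg (hkn r x v hv) (bD r x v hv).2.2.2
  have hHpos : ∀ (r : S.R) (x v : ℂ), ‖v‖ = 1 →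
      0 ≤ (N + D₀) * (kd s (DD S r x v N) * DD S r x v N) - kd s (DD S r x v N) * SS S r x v N := by
    intro r x v hv
    by_cases h : ∃ js, PW S r x v N js
    · obtain ⟨js, hjs⟩ := h
      rw [hrev r x v js _ hv hjs rfl]
      refine hGpos _ _ _ ?_
      rw [norm_div, norm_neg, hv, (endP (Pl.home S r) js).ha, div_one]
    · rw [(hno r x v h).1, (hno r x v h).2]
      simp
  have key := h5 S N (fun r x v => ENNReal.ofReal (kd s (DD S r x v N) * SS S r x v N +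
      D₀ * (kd s (DD S r x v N) * DD S r x v N)))
    (fun r x v => ENNReal.ofReal ((N + D₀) * (kd s (DD S r x v N) * DD S r x v N) -
      kd s (DD S r x v N) * SS S r x v N))
    (fun r => ENNReal.measurable_ofReal.comp (((hmK r).mul (hmS r)).add
      (((hmK r).mul (hmD r)).const_mul D₀)))
    (fun r x v js q hv hw hq => congrArg ENNReal.ofReal (hrev r x v js q hv hw hq))
    (fun r x v _ h => by
      have e := hno r x v h
      constructor
      · show ENNReal.ofReal _ = 0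
        rw [e.1, e.2]
        simp
      · show ENNReal.ofReal _ = 0
        rw [e.1, e.2]
        simp)
  have hD0 : 0 ≤ D₀ := le_trans zero_le_one d1
  have hK0 : 0 ≤ 1 / (s * √s) := by positivity
  have hkb : ∀ y, |kd s y| ≤ 1 / (s * √s) := fun y => (hk1 y).2.2.2.2.1
  have habsD : ∀ (r : S.R) (x v : ℂ), ‖v‖ = 1 → |DD S r x v N| ≤ D₀ := fun r x v hv => by
    rw [abs_of_nonneg (bD r x v hv).1]
    exact (bD r x v hv).2.1
  refine syk_core S N D₀ (1 / (s * √s) * D₀) (1 / (s * √s) * (D₀ * (N + D₀)))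
    (fun r x ψ => kd s (DD S r x (ev ψ) N) * DD S r x (ev ψ) N)
    (fun r x ψ => kd s (DD S r x (ev ψ) N) * SS S r x (ev ψ) N) (fun r => (h8 S r).2.2.2)
    (fun r => (hmK' r).mul (hmD' r)) (fun r => (hmK' r).mul (hmS' r))
    ?_ ?_ hD0 hN (fun r x ψ => hGpos r x _ (syk_norm_ev ψ))
    (fun r x ψ => hHpos r x _ (syk_norm_ev ψ)) key
  · intro r x ψ
    rw [abs_mul]
    exact mul_le_mul (hkb _) (habsD r x _ (syk_norm_ev ψ)) (abs_nonneg _) hK0
  · intro r x ψ
    rw [abs_mul]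
    exact mul_le_mul (hkb _) (bD r x (ev ψ) (syk_norm_ev ψ)).2.2.1 (abs_nonneg _) hK0

end Pool.Agent.FAN
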