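import Pool.Agent.FAN2.StN
import Pool.Agent.FAN.Base3

/-!
# FAN2, module ULB (helper12)
-/

set_option autoImplicit false

open scoped ComplexConjugate
open MeasureTheory Set

namespace Pool.Agent.FAN

namespace ULB

theorem cx_ev (ψ : ℝ) (R : ℂ) : cx (ev ψ) R = ‖R‖ * Real.sin (R.arg - ψ) := by
  have h1 : R.re = ‖R‖ * Real.cos R.arg := (Complex.norm_mul_cos_arg R).symm
  have h2 : R.im = ‖R‖ * Real.sin R.arg := (Complex.norm_mul_sin_arg R).symm
  have h3 : cx (ev ψ) R = Real.cos ψ * R.im - Real.sin ψ * R.re := rfl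
  rw [h3, Real.sin_sub]
  calc Real.cos ψ * R.im - Real.sin ψ * R.re
      = Real.cos ψ * (‖R‖ * Real.sin R.arg) - Real.sin ψ * (‖R‖ * Real.cos R.arg) := by
        rw [← h1, ← h2]
    _ = ‖R‖ * (Real.sin R.arg * Real.cos ψ - Real.cos R.arg * Real.sin ψ) := by ring

theorem abs_cx_ev_le (ψ : ℝ) (R : ℂ) : |cx (ev ψ) R| ≤ ‖R‖ * |ψ - R.arg| := by
  rw [cx_ev, abs_mul, abs_of_nonneg (norm_nonneg R), abs_sub_comm ψ]
  exact mul_le_mul_of_nonneg_left Real.abs_sin_le_abs (norm_nonneg R)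

theorem ev_per (ψ : ℝ) : ev (ψ + 2 * Real.pi) = ev ψ := by
  unfold ev
  rw [Real.cos_add_two_pi, Real.sin_add_two_pi]

theorem kp_ge {s y : ℝ} (hs : 0 < s) (hy : y ^ 2 ≤ s) : 1 / (2 * s) ≤ kp s y := by
  unfold kp
  apply one_div_le_one_div_of_le
  · have := sq_nonneg y
    linarith
  · linarith

theorem DD_zero (h2 : Sa_UNI) (h3 : Sa_CLV) (S : TriSys) (r : S.R) (x v : ℂ) (hx : x ∈ rm S r) :
    0 ≤ DD S r x v 0 ∧ DD S r x v 0 ≤ |cx v ((Pl.home S r).V 0 - x)| := by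
  have hPW : PW S r x v 0 [] := by
    refine ⟨hx, trivial, ?_⟩
    show (Pl.home S r).In (x + ((0 : ℝ) : ℂ) * v)
    rw [Complex.ofReal_zero, zero_mul, add_zero]
    exact hx
  have h := (h2 S r x v 0 [] [] hPW hPW).2.1
  rw [h]
  have hc := h3 S [] (Pl.home S r) x v
  exact ⟨hc.2.2.1, hc.1 _ (hc.2.2.2.1 0)⟩

theorem rm_nonempty (S : TriSys) (r : S.R) : (rm S r).Nonempty := by
  refine ⟨(S.P r 0 + S.P r 1 + S.P r 2) / 3, ?_⟩
  intro i
  have ho := Pl.orient (Pl.home S r) i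
  rw [Pl.V_home, Pl.V_home, Pl.V_home] at ho
  rw [Pl.V_home, Pl.V_home]
  have hsum : S.P r 0 + S.P r 1 + S.P r 2 = S.P r i + S.P r (i + 1) + S.P r (i + 2) := by
    have e1 : (1 : ZMod 3) + 1 = 2 := by decide
    have e2 : (1 : ZMod 3) + 2 = 0 := by decide
    have e3 : (2 : ZMod 3) + 1 = 0 := by decide
    have e4 : (2 : ZMod 3) + 2 = 1 := by decide
    rcases z_cases 0 i with h | h | h
    · rw [h, zero_add, zero_add]
    · rw [h, zero_add, e1, e2]; ring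
    · rw [h, zero_add, e3, e4]; ring
  rw [hsum]
  have hre : (S.P r i + S.P r (i + 1) + S.P r (i + 2)) / 3 - S.P r (i + 1)
      = ((1 / 3 : ℝ) : ℂ) * ((S.P r i - S.P r (i + 1)) + (S.P r (i + 2) - S.P r (i + 1))) := by
    push_cast
    ring
  rw [hre, cx_real_right, cx_add_right, cx_self, add_zero]
  positivity

theorem meas {S : TriSys} {r : S.R} (s N : ℝ)
    (hm : Measurable (fun p : ℂ × ℂ × ℝ => kp s (DD S r p.1 p.2.1 p.2.2))) :
    Measurable fun p : ℂ × ℝ => kp s (DD S r p.1 (ev p.2) N) := by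
  have hc : Measurable (fun p : ℂ × ℝ => ((p.1, ev p.2, N) : ℂ × ℂ × ℝ)) := by
    have : Continuous (fun p : ℂ × ℝ => ((p.1, ev p.2, N) : ℂ × ℂ × ℝ)) := by
      have := continuous_ev
      fun_prop
    exact this.measurable
  have h := Measurable.comp hm hc
  exact h

theorem meas2 {S : TriSys} {r : S.R} (s N : ℝ) (x : ℂ)
    (hm : Measurable (fun p : ℂ × ℝ => kp s (DD S r p.1 (ev p.2) N))) :
    Measurable fun ψ : ℝ => kp s (DD S r x (ev ψ) N) := by
  have hc : Measurable (fun ψ : ℝ => ((x, ψ) : ℂ × ℝ)) := measurable_const.prodMk measurable_id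
  have h := Measurable.comp hm hc
  exact h

/-- The inner integral. -/
theorem inner (h2 : Sa_UNI) (h3 : Sa_CLV) (S : TriSys) (r : S.R) (x : ℂ) (hx : x ∈ rm S r)
    (D₀ s : ℝ) (hD : 1 ≤ D₀) (hs : 0 < s) (hs1 : s ≤ 1)
    (hR : ‖(Pl.home S r).V 0 - x‖ ≤ D₀)
    (hm : Measurable fun ψ : ℝ => kp s (DD S r x (ev ψ) 0))
    (hb : ∀ ψ : ℝ, 0 < kp s (DD S r x (ev ψ) 0) ∧ kp s (DD S r x (ev ψ) 0) ≤ 1 / s) :
    1 / (D₀ * √s) ≤ ∫ ψ in (0 : ℝ)..(2 * Real.pi), kp s (DD S r x (ev ψ) 0) := by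
  set F : ℝ → ℝ := fun ψ => kp s (DD S r x (ev ψ) 0) with hF
  set R : ℂ := (Pl.home S r).V 0 - x with hRdef
  have hsq : 0 < √s := Real.sqrt_pos.2 hs
  have hD0 : 0 < D₀ := by linarith
  set δ : ℝ := √s / D₀ with hδ
  have hδ0 : 0 < δ := div_pos hsq hD0
  have hsq1 : √s ≤ 1 := by
    rw [← Real.sqrt_one]
    exact Real.sqrt_le_sqrt hs1
  have hδ1 : δ ≤ 1 := by
    rw [hδ, div_le_one hD0]
    linarith
  have hint : ∀ a b, IntervalIntegrable F volume a b := fun a b =>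
    (intervalIntegrable_const (c := 1 / s)).mono_fun' hm.aestronglyMeasurable
      (ae_of_all _ fun ψ => by
        show ‖F ψ‖ ≤ 1 / s
        rw [Real.norm_eq_abs, abs_of_pos (hb ψ).1]
        exact (hb ψ).2)
  have hper : Function.Periodic F (2 * Real.pi) := by
    intro ψ
    show kp s (DD S r x (ev (ψ + 2 * Real.pi)) 0) = kp s (DD S r x (ev ψ) 0)
    rw [ev_per]
  have h1 : ∫ ψ in (0 : ℝ)..(2 * Real.pi), F ψ
      = ∫ ψ in (R.arg - Real.pi)..(R.arg - Real.pi + 2 * Real.pi), F ψ := by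
    have := hper.intervalIntegral_add_eq 0 (R.arg - Real.pi)
    rwa [zero_add] at this
  rw [h1]
  have hpi := Real.pi_gt_three
  have h4 : ∫ ψ in (R.arg - δ)..(R.arg + δ), F ψ
      ≤ ∫ ψ in (R.arg - Real.pi)..(R.arg - Real.pi + 2 * Real.pi), F ψ := by
    apply intervalIntegral.integral_mono_interval
    · linarith
    · linarith
    · linarith
    · exact ae_of_all _ fun ψ => (hb ψ).1.le
    · exact hint _ _
  refine le_trans ?_ h4
  have h5 : ∫ ψ in (R.arg - δ)..(R.arg + δ), (1 / (2 * s)) ≤ ∫ ψ in (R.arg - δ)..(R.arg + δ), F ψ := by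
    apply intervalIntegral.integral_mono_on (by linarith) intervalIntegrable_const (hint _ _)
    intro ψ hψ
    apply kp_ge hs
    have hd := DD_zero h2 h3 S r x (ev ψ) hx
    have h6 : |cx (ev ψ) R| ≤ √s := by
      have h7 := abs_cx_ev_le ψ R
      have h8 : |ψ - R.arg| ≤ δ := by
        rw [abs_le]
        constructor
        · linarith [hψ.1]
        · linarith [hψ.2]
      calc |cx (ev ψ) R| ≤ ‖R‖ * |ψ - R.arg| := h7
        _ ≤ D₀ * δ := mul_le_mul hR h8 (abs_nonneg _) hD0.le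
        _ = √s := by rw [hδ]; field_simp
    have h9 : DD S r x (ev ψ) 0 ≤ √s := hd.2.trans h6
    calc DD S r x (ev ψ) 0 ^ 2 ≤ √s ^ 2 := pow_le_pow_left₀ hd.1 h9 2
      _ = s := Real.sq_sqrt hs.le
  refine le_trans (le_of_eq ?_) h5
  rw [intervalIntegral.integral_const, smul_eq_mul]
  have h10 : R.arg + δ - (R.arg - δ) = 2 * δ := by ring
  rw [h10, hδ]
  have h11 : √s * √s = s := Real.mul_self_sqrt hs.le
  field_simp
  nlinarith [h11]

end ULB

/-- ULB. -/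
theorem n_ULB (h1 : Sa_DIA) (h2 : Sa_UNI) (h3 : Sa_CLV) (h4 : Sm_OPN) (h5 : Sm_TO1)
    (h7 : Sn_MEK) : Sn_ULB := by
  intro S hne
  obtain ⟨D₀, h₀, hD, _, _, hIn, _, _⟩ := h1 S
  have hD0 : 0 < D₀ := by linarith
  have hvol : ∀ r : S.R, 0 < (volume (rm S r)).toReal := by
    intro r
    have ho := h4 S r
    exact ENNReal.toReal_pos (ho.2.1.measure_pos volume (ULB.rm_nonempty S r)).ne' ho.2.2.2.ne
  refine ⟨(∑ r : S.R, (volume (rm S r)).toReal) / D₀, ?_, ?_⟩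
  · exact div_pos (Finset.sum_pos (fun r _ => hvol r) Finset.univ_nonempty) hD0
  intro s hs hs1
  have hk := h7 S s hs
  have hmeas : ∀ r : S.R, Measurable fun p : ℂ × ℝ => kp s (DD S r p.1 (ev p.2) 0) :=
    fun r => ULB.meas s 0 (hk.1 r).1
  have hTO := h5 S (fun r x ψ => kp s (DD S r x (ev ψ) 0)) (1 / s) hmeas (by
    intro r x ψ
    have := hk.2.1 r x (ev ψ) 0
    rw [abs_of_pos this.1]
    exact this.2)
  have hUU : UU S s 0 = ∑ r, ∫ x in rm S r, ∫ ψ in (0 : ℝ)..(2 * Real.pi),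
      kp s (DD S r x (ev ψ) 0) := hTO.2.2
  rw [hUU]
  have hsq : 0 < √s := Real.sqrt_pos.2 hs
  have hlow : ∀ r : S.R, (volume (rm S r)).toReal * (1 / (D₀ * √s)) ≤
      ∫ x in rm S r, ∫ ψ in (0 : ℝ)..(2 * Real.pi), kp s (DD S r x (ev ψ) 0) := by
    intro r
    have ho := h4 S r
    have hc : ∫ _ in rm S r, (1 / (D₀ * √s)) = (volume (rm S r)).toReal * (1 / (D₀ * √s)) := by
      rw [setIntegral_const, smul_eq_mul]
      rfl
    rw [← hc]
    apply setIntegral_mono_on _ (hTO.1 r) ho.2.2.1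
    · intro x hx
      have hR : ‖(Pl.home S r).V 0 - x‖ ≤ D₀ := by
        rw [norm_sub_rev]
        exact hIn (Pl.home S r) x 0 hx
      apply ULB.inner h2 h3 S r x hx D₀ s hD hs hs1 hR
      · exact ULB.meas2 s 0 x (hmeas r)
      · intro ψ
        exact hk.2.1 r x (ev ψ) 0
    · exact integrableOn_const ho.2.2.2.ne
  calc (∑ r : S.R, (volume (rm S r)).toReal) / D₀ / √s
      = ∑ r : S.R, (volume (rm S r)).toReal * (1 / (D₀ * √s)) := by
        rw [← Finset.sum_mul, div_div, mul_one_div]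
    _ ≤ _ := Finset.sum_le_sum fun r _ => hlow r

end Pool.Agent.FAN

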