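import Pool.Agent.FAN2.StN

/-!
# FAN2, block U: monotonicity of `UU` (helper83)
-/

set_option autoImplicit false

open scoped ComplexConjugate
open MeasureTheory Set

namespace Pool.Agent.FAN

private lemma umo_norm (ψ : ℝ) : ‖ev ψ‖ = 1 := by
  have h : ev ψ = Complex.exp (ψ * Complex.I) := by
    apply Complex.ext
    · rw [Complex.exp_ofReal_mul_I_re]; rfl
    · rw [Complex.exp_ofReal_mul_I_im]; rfl
  rw [h, Complex.norm_exp_ofReal_mul_I]

private lemma umo_cont : Continuous ev := by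
  have h : ev = fun ψ : ℝ => Complex.exp (ψ * Complex.I) := by
    funext ψ
    apply Complex.ext
    · rw [Complex.exp_ofReal_mul_I_re]; rfl
    · rw [Complex.exp_ofReal_mul_I_im]; rfl
  rw [h]
  fun_prop

/-- no word, no clearance -/
private lemma umo_zero {S : TriSys} {r : S.R} {x v : ℂ} {N : ℝ} (h : ¬ ∃ js, PW S r x v N js) :
    DD S r x v N = 0 := by
  unfold DD
  rw [dif_neg h]

/-- outside of the room there is no word -/
private lemma umo_out {S : TriSys} {r : S.R} {x v : ℂ} {N : ℝ} (h : x ∉ rm S r) :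
    DD S r x v N = 0 := by
  refine umo_zero ?_
  rintro ⟨js, hjs⟩
  exact h hjs.1

private lemma umo_h3 {S : TriSys} (q : Pl S) (x v : ℂ) : 0 ≤ q.h3 x v :=
  le_min (abs_nonneg _) (le_min (abs_nonneg _) (abs_nonneg _))

private lemma umo_clr {S : TriSys} : ∀ (js : List (ZMod 3)) (q : Pl S) (x v : ℂ),
    0 ≤ clr q js x v
  | [], q, x, v => umo_h3 q x v
  | j :: js, q, x, v => le_min (umo_h3 q x v) (umo_clr js (q.nx j) x v)

private lemma umo_DD {S : TriSys} (r : S.R) (x v : ℂ) (N : ℝ) : 0 ≤ DD S r x v N := by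
  unfold DD
  split_ifs with h
  · exact umo_clr _ _ _ _
  · exact le_rfl

/-- bounded measurable function on the unit tangent bundle -/
private def UB (S : TriSys) (G : S.R → ℂ → ℝ → ℝ) : Prop :=
  (∀ r, Measurable (fun p : ℂ × ℝ => G r p.1 p.2)) ∧ ∃ B : ℝ, ∀ r x ψ, |G r x ψ| ≤ B

private lemma ub_kp (h5 : Sn_MEK) (S : TriSys) (s N : ℝ) (hs : 0 < s) :
    UB S (fun r x ψ => kp s (DD S r x (ev ψ) N)) := by
  have hm := fun r => ((h5 S s hs).1 r).1
  have hb := (h5 S s hs).2.1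
  constructor
  · intro r
    have hc : Measurable (fun p : ℂ × ℝ => ((p.1, ev p.2, N) : ℂ × ℂ × ℝ)) := by
      have : Continuous (fun p : ℂ × ℝ => ((p.1, ev p.2, N) : ℂ × ℂ × ℝ)) := by
        have := umo_cont
        fun_prop
      exact this.measurable
    have h := Measurable.comp (hm r) hc
    exact h
  · refine ⟨1 / s, fun r x ψ => ?_⟩
    have h := hb r x (ev ψ) N
    exact (abs_of_pos h.1).le.trans h.2

private lemma ub_comb {S : TriSys} {G H : S.R → ℂ → ℝ → ℝ} (c : ℝ) (hG : UB S G) (hH : UB S H) :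
    UB S (fun r x ψ => c * G r x ψ + H r x ψ) := by
  obtain ⟨g1, B, g2⟩ := hG
  obtain ⟨k1, B', k2⟩ := hH
  refine ⟨fun r => ((g1 r).const_mul c).add (k1 r), |c| * B + B', fun r x ψ => ?_⟩
  refine (abs_add_le _ _).trans (add_le_add ?_ (k2 r x ψ))
  rw [abs_mul]
  exact mul_le_mul_of_nonneg_left (g2 r x ψ) (abs_nonneg c)

private lemma ub_sq {S : TriSys} {G : S.R → ℂ → ℝ → ℝ} (hG : UB S G) :
    UB S (fun r x ψ => G r x ψ ^ 2) := by
  obtain ⟨g1, B, g2⟩ := hG
  refine ⟨fun r => (g1 r).pow_const 2, B ^ 2, fun r x ψ => ?_⟩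
  rw [abs_pow]
  exact pow_le_pow_left₀ (abs_nonneg _) (g2 r x ψ) 2

private lemma ee_nonneg {S : TriSys} {G : S.R → ℂ → ℝ → ℝ} (h : ∀ r x ψ, 0 ≤ G r x ψ) :
    0 ≤ EE S G := by
  have hpi : (0 : ℝ) ≤ 2 * Real.pi := by positivity
  refine Finset.sum_nonneg fun r _ => ?_
  refine intervalIntegral.integral_nonneg hpi fun ψ _ => ?_
  exact integral_nonneg fun x => h r x ψ

private lemma ee_comb (h2 : Sm_TO1) {S : TriSys} {G H : S.R → ℂ → ℝ → ℝ} (c : ℝ) (hG : UB S G)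
    (hH : UB S H) : EE S (fun r x ψ => c * G r x ψ + H r x ψ) = c * EE S G + EE S H := by
  obtain ⟨k1, B, k2⟩ := ub_comb c hG hH
  obtain ⟨g1, B', g2⟩ := hG
  obtain ⟨l1, B'', l2⟩ := hH
  obtain ⟨-, -, e1⟩ := h2 S _ B k1 k2
  obtain ⟨a1, a2, e2⟩ := h2 S G B' g1 g2
  obtain ⟨b1, b2, e3⟩ := h2 S H B'' l1 l2
  rw [e1, e2, e3, Finset.mul_sum, ← Finset.sum_add_distrib]
  refine Finset.sum_congr rfl fun r _ => ?_
  rw [← integral_const_mul, ← integral_add ((a1 r).const_mul c) (b1 r)]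
  refine integral_congr_ae (Filter.Eventually.of_forall fun x => ?_)
  show ∫ ψ in (0 : ℝ)..(2 * Real.pi), (c * G r x ψ + H r x ψ) =
    c * (∫ ψ in (0 : ℝ)..(2 * Real.pi), G r x ψ) + ∫ ψ in (0 : ℝ)..(2 * Real.pi), H r x ψ
  rw [intervalIntegral.integral_add ((a2 r x).const_mul c) (b2 r x),
    intervalIntegral.integral_const_mul]

private lemma ee_mono (h2 : Sm_TO1) {S : TriSys} {G H : S.R → ℂ → ℝ → ℝ} (hG : UB S G)
    (hH : UB S H) (h : ∀ r x, ∀ᵐ ψ ∂(volume : Measure ℝ), G r x ψ ≤ H r x ψ) :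
    EE S G ≤ EE S H := by
  have hpi : (0 : ℝ) ≤ 2 * Real.pi := by positivity
  obtain ⟨g1, B', g2⟩ := hG
  obtain ⟨l1, B'', l2⟩ := hH
  obtain ⟨a1, a2, e2⟩ := h2 S G B' g1 g2
  obtain ⟨b1, b2, e3⟩ := h2 S H B'' l1 l2
  rw [e2, e3]
  refine Finset.sum_le_sum fun r _ => ?_
  refine integral_mono (a1 r) (b1 r) fun x => ?_
  exact intervalIntegral.integral_mono_ae hpi (a2 r x) (b2 r x) (h r x)

/-- UMO. -/
theorem n_UMO (h1 : Sn_KER) (h2 : Sm_TO1) (h3 : Sm_EXI) (h4 : Sm_MON) (h5 : Sn_MEK) : Sn_UMO := by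
  intro S
  have hkp : ∀ s : ℝ, 0 < s → ∀ y, 0 < kp s y := fun s hs y => ((h1 s hs).1 y).1
  refine ⟨fun s N hs _ => ee_nonneg fun r x ψ => (hkp s hs _).le, fun s hs => ?_,
    fun s s' N hs hss _ => ?_, fun s N hs _ => ee_nonneg fun r x ψ => sq_nonneg _⟩
  · intro N hN N' hN' hNN
    rw [mem_Ici] at hN hN'
    refine ee_mono h2 (ub_kp h5 S s N hs) (ub_kp h5 S s N' hs) fun r x => ?_
    by_cases hx : x ∈ rm S r
    · have c1 := (h3 S r x N hx hN).ae_notMem volume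
      have c2 := (h3 S r x N' hx hN').ae_notMem volume
      filter_upwards [c1, c2] with ψ e1 e2
      simp only [not_not] at e1 e2
      obtain ⟨js, hjs⟩ := e1
      obtain ⟨js', hjs'⟩ := e2
      exact (h1 s hs).2.2.1 _ _ (umo_DD r x (ev ψ) N') (h4 S r x (ev ψ) N N' js js' hNN hjs hjs').2
    · refine Filter.Eventually.of_forall fun ψ => ?_
      simp only [umo_out hx]
      exact le_refl _
  · have hs' : 0 < s' := lt_of_lt_of_le hs hss
    have hker := (h1 s hs).2.2.2.2.2.2.2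
    have u1 := ub_kp h5 S s N hs
    have u2 := ub_kp h5 S s' N hs'
    have hmono : UU S s' N ≤ UU S s N := ee_mono h2 u2 u1 fun r x =>
      Filter.Eventually.of_forall fun ψ => (hker s' _ hss).1
    refine ⟨hmono, ?_⟩
    have h := ee_mono h2 (ub_comb (s' - s) (ub_sq u2) u2) u1 fun r x =>
      Filter.Eventually.of_forall fun ψ => by
        have := (hker s' (DD S r x (ev ψ) N) hss).2
        show (s' - s) * kp s' (DD S r x (ev ψ) N) ^ 2 + kp s' (DD S r x (ev ψ) N) ≤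
          kp s (DD S r x (ev ψ) N)
        linarith
    rw [ee_comb h2 (s' - s) (ub_sq u2) u2] at h
    have e1 : EE S (fun r x ψ => kp s' (DD S r x (ev ψ) N) ^ 2) = WW S s' N := rfl
    have e2 : EE S (fun r x ψ => kp s' (DD S r x (ev ψ) N)) = UU S s' N := rfl
    have e3 : EE S (fun r x ψ => kp s (DD S r x (ev ψ) N)) = UU S s N := rfl
    rw [e1, e2, e3] at h
    linarith

end Pool.Agent.FAN
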