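import Pool.Agent.FAN2.StN

/-!
# FAN2: module UUB (helper80): the interface of block U
-/

set_option autoImplicit false

namespace Pool.Agent.FAN

theorem n_UUB (h1 : Sn_UMO) (h2 : Sn_ULB) : Sn_UUB := by
  intro S hne
  obtain ⟨a, b, c, -⟩ := h1 S
  exact ⟨a, b, fun s s' N h3 h4 h5 => (c s s' N h3 h4 h5).1, h2 S hne⟩

end Pool.Agent.FAN
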