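import Pool.Agent.FAN2.StN

/-!
# FAN2, block U: monotonicity of `WW` (helper49; the helper lemmas are those of `N_UMO.lean`)
-/

set_option autoImplicit false

open scoped ComplexConjugate
open MeasureTheory Set

namespace Pool.Agent.FAN

private lemma wmo_norm (ψ : ℝ) : ‖ev ψ‖ = 1 := by
  have h : ev ψ = Complex.exp (ψ * Complex.I) := by
    apply Complex.ext
    · rw [Complex.exp_ofReal_mul_I_re]; rfl
    · rw [Complex.exp_ofReal_mul_I_im]; rfl
  rw [h, Complex.norm_exp_ofReal_mul_I]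

private lemma wmo_cont : Continuous ev := by
  have h : ev = fun ψ : ℝ => Complex.exp (ψ * Complex.I) := by
    funext ψ
    apply Complex.ext
    · rw [Complex.exp_ofReal_mul_I_re]; rfl
    · rw [Complex.exp_ofReal_mul_I_im]; rfl
  rw [h]
  fun_prop

/-- no word, no clearance -/
private lemma wmo_zero {S : TriSys} {r : S.R} {x v : ℂ} {N : ℝ} (h : ¬ ∃ js, PW S r x v N js) :
    DD S r x v N = 0 := by
  unfold DD
  rw [dif_neg h]

/-- outside of the room there is no word -/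
private lemma wmo_out {S : TriSys} {r : S.R} {x v : ℂ} {N : ℝ} (h : x ∉ rm S r) :
    DD S r x v N = 0 := by
  refine wmo_zero ?_
  rintro ⟨js, hjs⟩
  exact h hjs.1

private lemma wmo_h3 {S : TriSys} (q : Pl S) (x v : ℂ) : 0 ≤ q.h3 x v :=
  le_min (abs_nonneg _) (le_min (abs_nonneg _) (abs_nonneg _))

private lemma wmo_clr {S : TriSys} : ∀ (js : List (ZMod 3)) (q : Pl S) (x v : ℂ),
    0 ≤ clr q js x v
  | [], q, x, v => wmo_h3 q x v
  | j :: js, q, x, v => le_min (wmo_h3 q x v) (wmo_clr js (q.nx j) x v)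

private lemma wmo_DD {S : TriSys} (r : S.R) (x v : ℂ) (N : ℝ) : 0 ≤ DD S r x v N := by
  unfold DD
  split_ifs with h
  · exact wmo_clr _ _ _ _
  · exact le_rfl

/-- bounded measurable function on the unit tangent bundle -/
private def UBw (S : TriSys) (G : S.R → ℂ → ℝ → ℝ) : Prop :=
  (∀ r, Measurable (fun p : ℂ × ℝ => G r p.1 p.2)) ∧ ∃ B : ℝ, ∀ r x ψ, |G r x ψ| ≤ B

private lemma ub_kp (h5 : Sn_MEK) (S : TriSys) (s N : ℝ) (hs : 0 < s) :
    UBw S (fun r x ψ => kp s (DD S r x (ev ψ) N)) := by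
  have hm := fun r => ((h5 S s hs).1 r).1
  have hb := (h5 S s hs).2.1
  constructor
  · intro r
    have hc : Measurable (fun p : ℂ × ℝ => ((p.1, ev p.2, N) : ℂ × ℂ × ℝ)) := by
      have : Continuous (fun p : ℂ × ℝ => ((p.1, ev p.2, N) : ℂ × ℂ × ℝ)) := by
        have := wmo_cont
        fun_prop
      exact this.measurable
    have h := Measurable.comp (hm r) hc
    exact h
  · refine ⟨1 / s, fun r x ψ => ?_⟩
    have h := hb r x (ev ψ) N
    exact (abs_of_pos h.1).le.trans h.2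

private lemma ub_sq {S : TriSys} {G : S.R → ℂ → ℝ → ℝ} (hG : UBw S G) :
    UBw S (fun r x ψ => G r x ψ ^ 2) := by
  obtain ⟨g1, B, g2⟩ := hG
  refine ⟨fun r => (g1 r).pow_const 2, B ^ 2, fun r x ψ => ?_⟩
  rw [abs_pow]
  exact pow_le_pow_left₀ (abs_nonneg _) (g2 r x ψ) 2

private lemma ee_mono (h2 : Sm_TO1) {S : TriSys} {G H : S.R → ℂ → ℝ → ℝ} (hG : UBw S G)
    (hH : UBw S H) (h : ∀ r x, ∀ᵐ ψ ∂(volume : Measure ℝ), G r x ψ ≤ H r x ψ) :
    EE S G ≤ EE S H := by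
  have hpi : (0 : ℝ) ≤ 2 * Real.pi := by positivity
  obtain ⟨g1, B', g2⟩ := hG
  obtain ⟨l1, B'', l2⟩ := hH
  obtain ⟨a1, a2, e2⟩ := h2 S G B' g1 g2
  obtain ⟨b1, b2, e3⟩ := h2 S H B'' l1 l2
  rw [e2, e3]
  refine Finset.sum_le_sum fun r _ => ?_
  refine integral_mono (a1 r) (b1 r) fun x => ?_
  exact intervalIntegral.integral_mono_ae hpi (a2 r x) (b2 r x) (h r x)

/-- WMO. -/
theorem n_WMO (h1 : Sn_KER) (h2 : Sm_TO1) (h3 : Sm_EXI) (h4 : Sm_MON) (h5 : Sn_MEK) : Sn_WMO := by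
  intro S s hs N hN N' hN' hNN
  rw [mem_Ici] at hN hN'
  have hkp : ∀ y, 0 < kp s y := fun y => ((h1 s hs).1 y).1
  refine ee_mono h2 (ub_sq (ub_kp h5 S s N hs)) (ub_sq (ub_kp h5 S s N' hs)) fun r x => ?_
  by_cases hx : x ∈ rm S r
  · have c1 := (h3 S r x N hx hN).ae_notMem volume
    have c2 := (h3 S r x N' hx hN').ae_notMem volume
    filter_upwards [c1, c2] with ψ e1 e2
    simp only [not_not] at e1 e2
    obtain ⟨js, hjs⟩ := e1
    obtain ⟨js', hjs'⟩ := e2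
    exact pow_le_pow_left₀ (hkp _).le ((h1 s hs).2.2.1 _ _ (wmo_DD r x (ev ψ) N')
      (h4 S r x (ev ψ) N N' js js' hNN hjs hjs').2) 2
  · refine Filter.Eventually.of_forall fun ψ => ?_
    simp only [wmo_out hx]
    exact le_refl _

end Pool.Agent.FAN
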