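import Pool.Agent.FAN2.Defs
import Pool.Agent.FAN.TAll

/-!
# FAN2, block P: from the growth of the number of generalized diagonals to the complexity (helper63)
-/

set_option autoImplicit false

open Pool.Agent.Billiard

namespace Pool.Agent.FAN

/-- The theorem of the project FAN2. -/
def Si_FIN2 : Prop := ∀ (P : Polygon) (β : ℝ), β < (3 + √5) / 2 → ∃ c : ℝ, 0 < c ∧
  ∀ n : ℕ, 1 ≤ n → c * (n : ℝ) ^ β ≤ P.complexity n

theorem GT_eq (S : TriSys) (L : ℝ) : GT S L = (GGT S L : ℝ) := by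
  unfold GT GGT
  push_cast
  rfl

theorem gen2 (hFIT : St_FIT) (hG : Si_GTG) : Si_FIN2 := by
  intro P β hβ
  have h5 : (0 : ℝ) ≤ √5 := Real.sqrt_nonneg 5
  have hγ : max (β - 1) 0 < (1 + √5) / 2 := by
    apply max_lt
    · linarith
    · positivity
  obtain ⟨c, hc, h⟩ := hFIT (max (β - 1) 0) (le_max_right _ _) (by
    intro S hS
    obtain ⟨c, hc, n₀, h⟩ := hG S hS _ hγ
    refine ⟨c, hc, n₀, fun L hL => ?_⟩
    rw [← GT_eq]
    exact h L hL) P
  refine ⟨c, hc, fun n hn => le_trans ?_ (h n hn)⟩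
  have hn1 : (1 : ℝ) ≤ n := by exact_mod_cast hn
  apply mul_le_mul_of_nonneg_left _ hc.le
  apply Real.rpow_le_rpow_of_exponent_le hn1
  have := le_max_left (β - 1) 0
  linarith

/-- `Si_GTG` and the two statements on polygons give the theorem. -/
theorem gen2_all (hLEN : St_LEN) (hGRW : St_GRW) (hG : Si_GTG) : Si_FIN2 :=
  gen2 (t_fit_all hLEN hGRW) hG

end Pool.Agent.FAN
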