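import Pool.Agent.FAN2.StW

/-!
# FAN2, block W, module DBL: doubling (helper88)
-/

set_option autoImplicit false

open scoped ComplexConjugate
open MeasureTheory Set

namespace Pool.Agent.FAN

private theorem wdbl_cont : Continuous ev := by
  have h : ev = fun ψ : ℝ => Complex.exp (ψ * Complex.I) := by
    funext ψ
    apply Complex.ext
    · rw [Complex.exp_ofReal_mul_I_re]; rfl
    · rw [Complex.exp_ofReal_mul_I_im]; rfl
  rw [h]
  fun_prop

private theorem wdbl_norm (ψ : ℝ) : ‖ev ψ‖ = 1 := by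
  have h : ev ψ = Complex.exp (ψ * Complex.I) := by
    apply Complex.ext
    · rw [Complex.exp_ofReal_mul_I_re]; rfl
    · rw [Complex.exp_ofReal_mul_I_im]; rfl
  rw [h, Complex.norm_exp_ofReal_mul_I]

private theorem wdbl_kp {s : ℝ} (hs : 0 < s) (y : ℝ) : 0 ≤ kp s y ∧ kp s y ≤ 1 / s := by
  have h : 0 < y ^ 2 + s := by positivity
  refine ⟨by unfold kp; positivity, ?_⟩
  unfold kp
  exact one_div_le_one_div_of_le hs (by nlinarith [sq_nonneg y])

private theorem wdbl_min {s : ℝ} (hs : 0 < s) (a b : ℝ) : kp s (min a b) ≤ kp s a + kp s b := by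
  have h1 := (wdbl_kp hs a).1
  have h2 := (wdbl_kp hs b).1
  rcases min_choice a b with h | h
  · rw [h]; linarith
  · rw [h]; linarith

private theorem wdbl_meas (s : ℝ) : Measurable (kp s) := by
  unfold kp
  fun_prop

/-- DBL. -/
theorem w_DBL (h1 : Sm_MEA) (h2 : Sm_EXI) (h3 : Sw_SHE) (h4 : Sw_SHM) (h5 : Sw_EEL) (h6 : Sw_FLO)
    (h7 : Sw_SPL) : Sw_DBL := by
  intro S s N hs hN
  have hs1 : (0 : ℝ) ≤ 1 / s := by positivity
  have habs : ∀ y, |kp s y| ≤ 1 / s := fun y => by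
    rw [abs_of_nonneg (wdbl_kp hs y).1]
    exact (wdbl_kp hs y).2
  obtain ⟨G, hG⟩ : ∃ G : S.R → ℂ → ℂ → ℝ, ∀ r x v, G r x v = kp s (DD S r x v N) :=
    ⟨_, fun r x v => rfl⟩
  have hGb : ∀ r x v, |G r x v| ≤ 1 / s := fun r x v => by rw [hG]; exact habs _
  have hGm : ∀ r, Measurable (fun p : ℂ × ℂ => G r p.1 p.2) := by
    intro r
    have h := (h1 S r).1
    simp only [hG]
    exact (wdbl_meas s).comp (h.comp
      (measurable_fst.prodMk (measurable_snd.prodMk measurable_const)))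
  have hev : Measurable (fun p : ℂ × ℝ => (p.1, ev p.2)) :=
    measurable_fst.prodMk (wdbl_cont.measurable.comp measurable_snd)
  have hflo := h6 S N G (1 / s) hN hGm (fun r x v _ => hGb r x v)
  have hm1 : ∀ r, Measurable (fun p : ℂ × ℝ => G r p.1 (ev p.2)) := fun r => (hGm r).comp hev
  have hm2 : ∀ r, Measurable (fun p : ℂ × ℝ => shf S N G r p.1 (ev p.2)) := fun r =>
    (h4 S N G hGm r).comp hev
  have hm3 : ∀ r, Measurable (fun p : ℂ × ℝ => kp s (DD S r p.1 (ev p.2) (2 * N))) := by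
    intro r
    have h := (h1 S r).1
    exact (wdbl_meas s).comp (h.comp
      (measurable_fst.prodMk ((wdbl_cont.measurable.comp measurable_snd).prodMk measurable_const)))
  have hsh : ∀ r x v, |shf S N G r x v| ≤ 1 / s := by
    intro r x v
    by_cases h : ∃ js, PW S r x v N js
    · obtain ⟨js, hjs⟩ := h
      rw [h3 S N G r x v js _ hjs rfl]
      exact hGb _ _ _
    · unfold shf
      rw [dif_neg h, abs_zero]
      exact hs1
  have hadd := (h5 S (fun r x ψ => G r x (ev ψ)) (fun r x ψ => shf S N G r x (ev ψ)) (1 / s)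
    hm1 hm2 (fun r x ψ => hGb _ _ _) (fun r x ψ => hsh r x _)).1
  have key : ∀ r x, x ∈ rm S r → {ψ : ℝ | ¬ kp s (DD S r x (ev ψ) (2 * N)) ≤
      G r x (ev ψ) + shf S N G r x (ev ψ)}.Countable := by
    intro r x hx
    refine Set.Countable.mono ?_ (h2 S r x N hx hN)
    intro ψ hψ hex
    refine hψ ?_
    obtain ⟨js, hjs⟩ := hex
    have hspl := (h7 S r x (ev ψ) N N js _ (wdbl_norm ψ) hN hN hjs rfl).2.1
    have hshe := h3 S N G r x (ev ψ) js _ hjs rfl
    rw [two_mul, hspl, hshe, hG, hG]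
    exact wdbl_min hs _ _
  have hle := (h5 S (fun r x ψ => kp s (DD S r x (ev ψ) (2 * N)))
    (fun r x ψ => G r x (ev ψ) + shf S N G r x (ev ψ)) (1 / s + 1 / s) hm3
    (fun r => (hm1 r).add (hm2 r)) (fun r x ψ => (habs _).trans (by linarith))
    (fun r x ψ => (abs_add_le _ _).trans (add_le_add (hGb _ _ _) (hsh r x _)))).2.2.1 key
  have hU : UU S s N = EE S (fun r x ψ => G r x (ev ψ)) := by
    unfold UU
    simp only [hG]
  have hU2 : UU S s (2 * N) = EE S (fun r x ψ => kp s (DD S r x (ev ψ) (2 * N))) := rfl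
  rw [hU2, hU]
  rw [hadd, hflo] at hle
  linarith

end Pool.Agent.FAN
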