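import Pool.Agent.FAN2.StW
import Pool.Agent.FAN.Base

/-!
# FAN2, FLO: flow invariance (helper41)
-/

set_option autoImplicit false

open scoped ComplexConjugate
open MeasureTheory Set

namespace Pool.Agent.FAN

private theorem flo_meas_ev : Measurable ev := by
  have e : ev = fun ψ : ℝ => (Real.cos ψ : ℂ) + (Real.sin ψ : ℂ) * Complex.I := by
    funext ψ
    apply Complex.ext
    · simp only [ev, Complex.add_re, Complex.ofReal_re, Complex.mul_re, Complex.I_re,
        Complex.ofReal_im, Complex.I_im]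
      ring
    · simp only [ev, Complex.add_im, Complex.ofReal_im, Complex.mul_im, Complex.I_re,
        Complex.ofReal_re, Complex.I_im]
      ring
  rw [e]
  have hc : Continuous fun ψ : ℝ => (Real.cos ψ : ℂ) + (Real.sin ψ : ℂ) * Complex.I := by
    fun_prop
  exact hc.measurable

private theorem flo_ev_pi (ψ : ℝ) : ev (ψ + Real.pi) = -ev ψ := by
  apply Complex.ext <;> simp [ev]

/-- translation of a periodic function -/
private theorem flo_shift (g : ℝ → ENNReal) (hg : Function.Periodic g (2 * Real.pi)) (c : ℝ) :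
    ∫⁻ ψ in Ioc (0 : ℝ) (2 * Real.pi), g (ψ + c) = ∫⁻ ψ in Ioc (0 : ℝ) (2 * Real.pi), g ψ := by
  have hpi : (0 : ℝ) < 2 * Real.pi := by positivity
  have e1 : ∫⁻ ψ in Ioc (0 : ℝ) (2 * Real.pi), g (ψ + c) =
      ∫⁻ ψ in Ioc c (c + 2 * Real.pi), g ψ := by
    rw [← (measurePreserving_add_right (volume : Measure ℝ) c).setLIntegral_comp_preimage_emb
      (Homeomorph.addRight c).measurableEmbedding g (Ioc c (c + 2 * Real.pi)),
      Set.preimage_add_const_Ioc, sub_self, add_sub_cancel_left]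
  have e2 : ∫⁻ ψ in Ioc c (c + 2 * Real.pi), g ψ = ∫⁻ ψ in Ioc (0 : ℝ) (0 + 2 * Real.pi), g ψ :=
    (isAddFundamentalDomain_Ioc hpi c).setLIntegral_eq (isAddFundamentalDomain_Ioc hpi 0) g
      (fun a x => hg.map_vadd_zmultiples a x)
  rw [e1, e2, zero_add]

/-- iterated integral of a bounded measurable function as an integral over the product -/
private theorem flo_prod (A : Set ℂ) (hA : volume A < ⊤) (f : ℂ → ℝ → ℝ) (B : ℝ)
    (hf : Measurable fun p : ℝ × ℂ => f p.2 p.1) (hB : ∀ x ψ, |f x ψ| ≤ B) :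
    Integrable (fun p : ℝ × ℂ => f p.2 p.1)
      ((volume.restrict (Ioc (0 : ℝ) (2 * Real.pi))).prod (volume.restrict A)) ∧
    ∫ ψ in (0 : ℝ)..(2 * Real.pi), ∫ x in A, f x ψ =
      ∫ p : ℝ × ℂ, f p.2 p.1 ∂((volume.restrict (Ioc (0 : ℝ) (2 * Real.pi))).prod
        (volume.restrict A)) := by
  have : IsFiniteMeasure (volume.restrict A) := isFiniteMeasure_restrict.2 hA.ne
  have hi : Integrable (fun p : ℝ × ℂ => f p.2 p.1)
      ((volume.restrict (Ioc (0 : ℝ) (2 * Real.pi))).prod (volume.restrict A)) :=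
    Integrable.of_bound hf.aestronglyMeasurable B
      (Filter.Eventually.of_forall fun p => by rw [Real.norm_eq_abs]; exact hB p.2 p.1)
  refine ⟨hi, ?_⟩
  rw [intervalIntegral.integral_of_le (by positivity), integral_prod _ hi]

/-- nonnegative functions: the integral is the lower integral -/
private theorem flo_lint (A : Set ℂ) (hA : volume A < ⊤) (f : ℂ → ℝ → ℝ) (B : ℝ)
    (hf : Measurable fun p : ℝ × ℂ => f p.2 p.1) (hB : ∀ x ψ, |f x ψ| ≤ B)
    (h0 : ∀ x ψ, 0 ≤ f x ψ) :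
    ∫⁻ ψ in Ioc (0 : ℝ) (2 * Real.pi), ∫⁻ x in A, ENNReal.ofReal (f x ψ) ≠ ⊤ ∧
    ∫ ψ in (0 : ℝ)..(2 * Real.pi), ∫ x in A, f x ψ =
      (∫⁻ ψ in Ioc (0 : ℝ) (2 * Real.pi), ∫⁻ x in A, ENNReal.ofReal (f x ψ)).toReal := by
  have : IsFiniteMeasure (volume.restrict A) := isFiniteMeasure_restrict.2 hA.ne
  obtain ⟨hi, he⟩ := flo_prod A hA f B hf hB
  have hm : AEMeasurable (fun p : ℝ × ℂ => ENNReal.ofReal (f p.2 p.1))
      ((volume.restrict (Ioc (0 : ℝ) (2 * Real.pi))).prod (volume.restrict A)) :=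
    (ENNReal.measurable_ofReal.comp hf).aemeasurable
  have e := lintegral_prod _ hm
  have hlt := hi.lintegral_lt_top
  constructor
  · rw [e] at hlt
    exact hlt.ne
  · have hnn : (0 : ℝ × ℂ → ℝ) ≤ᵐ[(volume.restrict (Ioc (0 : ℝ) (2 * Real.pi))).prod
        (volume.restrict A)] (fun p : ℝ × ℂ => f p.2 p.1) :=
      Filter.Eventually.of_forall fun p => h0 p.2 p.1
    have e3 := integral_eq_lintegral_of_nonneg_ae hnn hf.aestronglyMeasurable
    rw [he, e3, e]

/-- the value of `shf` at a point without a word -/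
private theorem flo_no {S : TriSys} {T : ℝ} {G : S.R → ℂ → ℂ → ℝ} {r : S.R} {x v : ℂ}
    (h : ¬ ∃ js, PW S r x v T js) : shf S T G r x v = 0 := by
  unfold shf
  rw [dif_neg h]

private theorem flo_val (P : ℝ → Prop) (h0 : P 0) {S : TriSys} {T : ℝ} {G : S.R → ℂ → ℂ → ℝ}
    (hG : ∀ r x v, ‖v‖ = 1 → P (G r x v)) {r : S.R} {x v : ℂ} (hv : ‖v‖ = 1) :
    P (shf S T G r x v) := by
  unfold shf
  split_ifs with h
  · refine hG _ _ _ ?_
    rw [norm_div, hv, (endP (Pl.home S r) h.choose).ha, div_one]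
  · exact h0

/-- the set of phase points with a word is open -/
private theorem flo_open (h2 : Sm_OPN) (S : TriSys) (r : S.R) (T : ℝ) :
    IsOpen {p : ℂ × ℂ | ∃ js, PW S r p.1 p.2 T js} := by
  have e : {p : ℂ × ℂ | ∃ js, PW S r p.1 p.2 T js} =
      ⋃ js, (fun p : ℂ × ℂ => (p.1, p.2, T)) ⁻¹'
        {p : ℂ × ℂ × ℝ | PW S r p.1 p.2.1 p.2.2 js} := by
    ext p
    simp
  rw [e]
  exact isOpen_iUnion fun js => ((h2 S r).1 js).preimage (by fun_prop)

open Classical in
private theorem flo_nn (h1 : Sa_PWR) (h2 : Sm_OPN) (h3 : Sm_EXI) (h4 : Sm_SHF) (h5 : Sw_SHE)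
    (h6 : Sw_SHM) (S : TriSys) (T : ℝ) (G : S.R → ℂ → ℂ → ℝ) (B : ℝ) (hT : 0 ≤ T)
    (hG : ∀ r, Measurable (fun p : ℂ × ℂ => G r p.1 p.2))
    (hB : ∀ r x v, ‖v‖ = 1 → |G r x v| ≤ B) (hB0 : 0 ≤ B)
    (h0 : ∀ r x v, ‖v‖ = 1 → 0 ≤ G r x v) :
    EE S (fun r x ψ => shf S T G r x (ev ψ)) = EE S (fun r x ψ => G r x (ev ψ)) := by
  have hvol : ∀ r, volume (rm S r) < ⊤ := fun r => (h2 S r).2.2.2
  have hmap : Measurable fun p : ℝ × ℂ => (p.2, ev p.1) :=
    measurable_snd.prodMk (flo_meas_ev.comp measurable_fst)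
  have hmapn : Measurable fun p : ℝ × ℂ => (p.2, -ev p.1) :=
    measurable_snd.prodMk (flo_meas_ev.comp measurable_fst).neg
  have hW : ∀ r, MeasurableSet {p : ℂ × ℂ | ∃ js, PW S r p.1 p.2 T js} := fun r =>
    (flo_open h2 S r T).measurableSet
  have hneg : Measurable fun p : ℂ × ℂ => (p.1, -p.2) := measurable_fst.prodMk measurable_snd.neg
  set G' : S.R → ℂ → ℂ → ENNReal := fun r x v =>
    if ∃ js, PW S r x v T js then ENNReal.ofReal (G r x (-v)) else 0 with hG'
  have mG' : ∀ r, Measurable (fun p : ℂ × ℂ => G' r p.1 p.2) := by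
    intro r
    exact Measurable.ite (hW r) (ENNReal.measurable_ofReal.comp ((hG r).comp hneg))
      measurable_const
  have key := h4 S T G' (fun r x v => ENNReal.ofReal (shf S T G r x v)) mG'
    (fun r x v js q hv hw hq => by
      have hw' := (h1 S r x v T js hv hw q hq).1
      show ENNReal.ofReal (shf S T G r x v) = if _ then _ else _
      rw [if_pos ⟨_, hw'⟩, h5 S T G r x v js q hw hq]
      congr 2
      ring)
    (fun r x v _ h => by
      constructor
      · show ENNReal.ofReal (shf S T G r x v) = 0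
        rw [flo_no h]
        simp
      · show (if _ then _ else _) = _
        rw [if_neg h])
  -- the right side
  have key2 : ∀ r, ∫⁻ ψ in Ioc (0 : ℝ) (2 * Real.pi), ∫⁻ x in rm S r, G' r x (ev ψ) =
      ∫⁻ ψ in Ioc (0 : ℝ) (2 * Real.pi), ∫⁻ x in rm S r, ENNReal.ofReal (G r x (ev ψ)) := by
    intro r
    have : IsFiniteMeasure (volume.restrict (rm S r)) := isFiniteMeasure_restrict.2 (hvol r).ne
    have m1 : AEMeasurable (Function.uncurry fun (ψ : ℝ) (x : ℂ) => G' r x (ev ψ))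
        ((volume.restrict (Ioc (0 : ℝ) (2 * Real.pi))).prod (volume.restrict (rm S r))) :=
      ((mG' r).comp hmap).aemeasurable
    have m2 : AEMeasurable (Function.uncurry fun (ψ : ℝ) (x : ℂ) =>
        ENNReal.ofReal (G r x (-ev ψ)))
        ((volume.restrict (Ioc (0 : ℝ) (2 * Real.pi))).prod (volume.restrict (rm S r))) :=
      (ENNReal.measurable_ofReal.comp ((hG r).comp hmapn)).aemeasurable
    rw [lintegral_lintegral_swap m1]
    have e1 : ∫⁻ x in rm S r, ∫⁻ ψ in Ioc (0 : ℝ) (2 * Real.pi), G' r x (ev ψ) =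
        ∫⁻ x in rm S r, ∫⁻ ψ in Ioc (0 : ℝ) (2 * Real.pi), ENNReal.ofReal (G r x (-ev ψ)) := by
      refine setLIntegral_congr_fun (h2 S r).2.2.1 fun x hx => ?_
      refine lintegral_congr_ae ?_
      have hc := h3 S r x T hx hT
      have hae : ∀ᵐ ψ ∂(volume.restrict (Ioc (0 : ℝ) (2 * Real.pi))),
          ∃ js, PW S r x (ev ψ) T js := by
        refine ae_restrict_of_ae ?_
        rw [ae_iff]
        exact hc.measure_zero volume
      filter_upwards [hae] with ψ hψ
      show (if _ then _ else _) = _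
      rw [if_pos hψ]
    rw [e1, ← lintegral_lintegral_swap m2]
    have e2 : ∀ ψ : ℝ, ∫⁻ x in rm S r, ENNReal.ofReal (G r x (-ev ψ)) =
        (fun ψ : ℝ => ∫⁻ x in rm S r, ENNReal.ofReal (G r x (ev ψ))) (ψ + Real.pi) := by
      intro ψ
      simp only [flo_ev_pi]
    rw [lintegral_congr e2]
    refine flo_shift (fun ψ : ℝ => ∫⁻ x in rm S r, ENNReal.ofReal (G r x (ev ψ))) ?_ Real.pi
    intro ψ
    have : ev (ψ + 2 * Real.pi) = ev ψ := by
      apply Complex.ext <;> simp [ev]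
    simp only [this]
  rw [Finset.sum_congr rfl fun r _ => key2 r] at key
  have l1 := fun r => flo_lint (rm S r) (hvol r) (fun x ψ => shf S T G r x (ev ψ)) B
    ((h6 S T G hG r).comp hmap)
    (fun x ψ => flo_val (fun y => |y| ≤ B) (by simpa using hB0) hB (norm_ev ψ))
    (fun x ψ => flo_val (fun y => 0 ≤ y) le_rfl h0 (norm_ev ψ))
  have l2 := fun r => flo_lint (rm S r) (hvol r) (fun x ψ => G r x (ev ψ)) B
    ((hG r).comp hmap) (fun x ψ => hB _ _ _ (norm_ev ψ)) (fun x ψ => h0 _ _ _ (norm_ev ψ))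
  have key3 := congrArg ENNReal.toReal key
  rw [ENNReal.toReal_sum (fun r _ => (l1 r).1), ENNReal.toReal_sum (fun r _ => (l2 r).1)] at key3
  unfold EE
  rw [Finset.sum_congr rfl fun r _ => (l1 r).2, Finset.sum_congr rfl fun r _ => (l2 r).2]
  exact key3

/-- flow invariance -/
theorem w_FLO (h1 : Sa_PWR) (h2 : Sm_OPN) (h3 : Sm_EXI) (h4 : Sm_SHF) (h5 : Sw_SHE)
    (h6 : Sw_SHM) (h7 : Sw_EEL) : Sw_FLO := by
  intro S T G B hT hG hB
  obtain ⟨B', hB'⟩ : ∃ B' : ℝ, B' = max B 0 := ⟨_, rfl⟩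
  have hB0 : 0 ≤ B' := by rw [hB']; exact le_max_right _ _
  have hBB : ∀ r x v, ‖v‖ = 1 → |G r x v| ≤ B' := fun r x v hv =>
    (hB r x v hv).trans (by rw [hB']; exact le_max_left _ _)
  have hmap : Measurable fun p : ℂ × ℝ => (p.1, ev p.2) :=
    measurable_fst.prodMk (flo_meas_ev.comp measurable_snd)
  have mC : ∀ r : S.R, Measurable (fun p : ℂ × ℂ => (fun _ _ _ => B' : S.R → ℂ → ℂ → ℝ) r p.1 p.2) :=
    fun r => measurable_const
  have bC : ∀ (r : S.R) (x v : ℂ), ‖v‖ = 1 → |(fun _ _ _ => B' : S.R → ℂ → ℂ → ℝ) r x v| ≤ B' :=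
    fun r x v _ => by
      show |B'| ≤ B'
      rw [abs_of_nonneg hB0]
  have a1 := flo_nn h1 h2 h3 h4 h5 h6 S T (fun r x v => G r x v + B') (B' + B') hT
    (fun r => (hG r).add_const B')
    (fun r x v hv => (abs_add_le _ _).trans (add_le_add (hBB r x v hv) (by
      rw [abs_of_nonneg hB0])))
    (by linarith)
    (fun r x v hv => by
      have := neg_le_of_abs_le (hBB r x v hv)
      show 0 ≤ G r x v + B'
      linarith)
  have a2 := flo_nn h1 h2 h3 h4 h5 h6 S T (fun _ _ _ => B') B' hT mC bC hB0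
    (fun _ _ _ _ => hB0)
  have hadd : ∀ (r : S.R) (x v : ℂ), shf S T (fun r x v => G r x v + B') r x v =
      shf S T G r x v + shf S T (fun _ _ _ => B') r x v := by
    intro r x v
    unfold shf
    split_ifs
    · rfl
    · rw [add_zero]
  have b1 := (h7 S (fun r x ψ => shf S T G r x (ev ψ))
    (fun r x ψ => shf S T (fun _ _ _ => B') r x (ev ψ)) B'
    (fun r => (h6 S T G hG r).comp hmap) (fun r => (h6 S T (fun _ _ _ => B') mC r).comp hmap)
    (fun r x ψ => flo_val (fun y => |y| ≤ B') (by simpa using hB0) hBB (norm_ev ψ))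
    (fun r x ψ => flo_val (fun y => |y| ≤ B') (by simpa using hB0) bC (norm_ev ψ))).1
  have b2 := (h7 S (fun r x ψ => G r x (ev ψ)) (fun _ _ _ => B') B'
    (fun r => (hG r).comp hmap) (fun r => measurable_const)
    (fun r x ψ => hBB _ _ _ (norm_ev ψ)) (fun r x ψ => bC r 0 1 norm_one)).1
  simp only [hadd] at a1
  rw [b1, b2] at a1
  linarith

end Pool.Agent.FAN
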