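import Pool.Agent.FAN2.StW

/-!
# FAN2, block W, module HHH: increments of the distribution function (helper94)
-/

set_option autoImplicit false

open scoped ComplexConjugate
open MeasureTheory Set

namespace Pool.Agent.FAN

private theorem hhh_cont : Continuous ev := by
  have h : ev = fun ψ : ℝ => Complex.exp (ψ * Complex.I) := by
    funext ψ
    apply Complex.ext
    · rw [Complex.exp_ofReal_mul_I_re]; rfl
    · rw [Complex.exp_ofReal_mul_I_im]; rfl
  rw [h]
  fun_prop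

private theorem hhh_norm (ψ : ℝ) : ‖ev ψ‖ = 1 := by
  have h : ev ψ = Complex.exp (ψ * Complex.I) := by
    apply Complex.ext
    · rw [Complex.exp_ofReal_mul_I_re]; rfl
    · rw [Complex.exp_ofReal_mul_I_im]; rfl
  rw [h, Complex.norm_exp_ofReal_mul_I]

open Classical in
private noncomputable def hhh_ind (P : Prop) : ℝ := if P then 1 else 0

private theorem hhh_ite (P : Prop) [h : Decidable P] : (if P then (1 : ℝ) else 0) = hhh_ind P := by
  unfold hhh_ind
  by_cases hP : P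
  · rw [if_pos hP, if_pos hP]
  · rw [if_neg hP, if_neg hP]

private theorem hhh_pos {P : Prop} (h : P) : hhh_ind P = 1 := by
  unfold hhh_ind
  rw [if_pos h]

private theorem hhh_neg {P : Prop} (h : ¬ P) : hhh_ind P = 0 := by
  unfold hhh_ind
  rw [if_neg h]

private theorem hhh_nn (P : Prop) : 0 ≤ hhh_ind P := by
  by_cases h : P
  · rw [hhh_pos h]; exact zero_le_one
  · rw [hhh_neg h]

private theorem hhh_abs (P : Prop) : |hhh_ind P| ≤ 1 := by
  by_cases h : P
  · rw [hhh_pos h]; simp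
  · rw [hhh_neg h]; simp

private theorem hhh_meas {X : Type*} [MeasurableSpace X] {P : X → Prop}
    (h : MeasurableSet {x | P x}) : Measurable fun x => hhh_ind (P x) := by
  classical
  have e : (fun x => hhh_ind (P x)) = fun x => if x ∈ {x | P x} then (1 : ℝ) else 0 := by
    funext x
    exact (hhh_ite (P x)).symm
  rw [e]
  exact Measurable.ite h measurable_const measurable_const

private theorem hhh_EEnn (S : TriSys) (G : S.R → ℂ → ℝ → ℝ) (h : ∀ r x ψ, 0 ≤ G r x ψ) :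
    0 ≤ EE S G := by
  unfold EE
  refine Finset.sum_nonneg fun r _ => ?_
  refine intervalIntegral.integral_nonneg (by positivity) fun ψ _ => ?_
  exact integral_nonneg fun x => h r x ψ

/-- HHH. -/
theorem w_HHH (h1 : Sm_MEA) (h2 : Sm_EXI) (h3 : Sw_SHE) (h4 : Sw_SHM) (h5 : Sw_EEL) (h6 : Sw_FLO)
    (h7 : Sw_SPL) (h8 : Sm_MON) : Sw_HHH := by
  intro S w T hw hT
  have hev : Measurable (fun p : ℂ × ℝ => (p.1, ev p.2)) :=
    measurable_fst.prodMk (hhh_cont.measurable.comp measurable_snd)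
  -- measurability
  have hDm : ∀ t r, Measurable (fun p : ℂ × ℂ => DD S r p.1 p.2 t) := fun t r =>
    (h1 S r).1.comp (measurable_fst.prodMk (measurable_snd.prodMk measurable_const))
  have hDD : ∀ t r, Measurable (fun p : ℂ × ℝ => DD S r p.1 (ev p.2) t) := fun t r =>
    (hDm t r).comp hev
  have hDT : ∀ t r, Measurable (fun p : ℂ × ℝ => DT S r p.1 (ev p.2) T t) := fun t r =>
    (h4 S T (fun r x v => DD S r x v t) (fun r => hDm t r) r).comp hev
  -- words
  have hw3 : ∀ r x, x ∈ rm S r → ∀ t n, 0 ≤ t → 0 ≤ n → ∀ P : ℝ → Prop,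
      (∀ ψ js js1 js2, PW S r x (ev ψ) T js → PW S r x (ev ψ) (T + t) js1 →
        PW S r x (ev ψ) (T + n) js2 → P ψ) → {ψ : ℝ | ¬ P ψ}.Countable := by
    intro r x hx t n ht hn P hP
    refine Set.Countable.mono ?_ (((h2 S r x T hx hT).union (h2 S r x (T + t) hx (by linarith))).union
      (h2 S r x (T + n) hx (by linarith)))
    intro ψ hψ
    by_contra hc
    have ha : (∃ js, PW S r x (ev ψ) T js) ∧ (∃ js, PW S r x (ev ψ) (T + t) js) ∧
        ∃ js, PW S r x (ev ψ) (T + n) js := by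
      refine ⟨?_, ?_, ?_⟩
      · by_contra hh
        exact hc (Or.inl (Or.inl hh))
      · by_contra hh
        exact hc (Or.inl (Or.inr hh))
      · by_contra hh
        exact hc (Or.inr hh)
    obtain ⟨⟨js, hjs⟩, ⟨js1, hjs1⟩, ⟨js2, hjs2⟩⟩ := ha
    exact hψ (hP ψ js js1 js2 hjs hjs1 hjs2)
  have hpp : ∀ t, pp S w t = EE S fun r x ψ => hhh_ind (DD S r x (ev ψ) t < w) := by
    intro t
    unfold pp
    simp only [hhh_ite]
  have hhh : ∀ t, hh S w T t = EE S fun r x ψ =>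
      hhh_ind (DD S r x (ev ψ) T < w ∧ w ≤ DT S r x (ev ψ) T t) := by
    intro t
    unfold hh
    simp only [hhh_ite]
  have hm0 : ∀ t r, Measurable (fun p : ℂ × ℝ => hhh_ind (DD S r p.1 (ev p.2) t < w)) := fun t r =>
    hhh_meas (measurableSet_lt (hDD t r) measurable_const)
  have hm1 : ∀ t r, Measurable (fun p : ℂ × ℝ =>
      hhh_ind (DD S r p.1 (ev p.2) T < w ∧ w ≤ DT S r p.1 (ev p.2) T t)) := fun t r =>
    hhh_meas ((measurableSet_lt (hDD T r) measurable_const).inter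
      (measurableSet_le measurable_const (hDT t r)))
  have hm2 : ∀ t n r, Measurable (fun p : ℂ × ℝ =>
      hhh_ind (DD S r p.1 (ev p.2) T < w ∧ w ≤ DT S r p.1 (ev p.2) T t ∧
        DT S r p.1 (ev p.2) T n < w)) := fun t n r =>
    hhh_meas ((measurableSet_lt (hDD T r) measurable_const).inter
      ((measurableSet_le measurable_const (hDT t r)).inter
        (measurableSet_lt (hDT n r) measurable_const)))
  have H1 : ∀ t, 0 ≤ t → pp S w (T + t) = pp S w t + hh S w T t := by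
    intro t ht
    obtain ⟨G, hG⟩ : ∃ G : S.R → ℂ → ℂ → ℝ, ∀ r x v, G r x v = hhh_ind (DD S r x v t < w) :=
      ⟨_, fun r x v => rfl⟩
    have hGm : ∀ r, Measurable (fun p : ℂ × ℂ => G r p.1 p.2) := by
      intro r
      simp only [hG]
      exact hhh_meas (measurableSet_lt (hDm t r) measurable_const)
    have hGb : ∀ r x v, |G r x v| ≤ 1 := fun r x v => by rw [hG]; exact hhh_abs _
    have hflo := h6 S T G 1 hT hGm (fun r x v _ => hGb r x v)
    have hms : ∀ r, Measurable (fun p : ℂ × ℝ => shf S T G r p.1 (ev p.2)) := fun r =>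
      (h4 S T G hGm r).comp hev
    have hsh : ∀ r x v, |shf S T G r x v| ≤ 1 := by
      intro r x v
      by_cases h : ∃ js, PW S r x v T js
      · obtain ⟨js, hjs⟩ := h
        rw [h3 S T G r x v js _ hjs rfl]
        exact hGb _ _ _
      · unfold shf
        rw [dif_neg h, abs_zero]
        exact zero_le_one
    have hadd := (h5 S (fun r x ψ => shf S T G r x (ev ψ)) (fun r x ψ =>
      hhh_ind (DD S r x (ev ψ) T < w ∧ w ≤ DT S r x (ev ψ) T t)) 1 hms (hm1 t)
      (fun r x ψ => hsh r x _) (fun r x ψ => hhh_abs _)).1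
    have key : ∀ r x, x ∈ rm S r → {ψ : ℝ | ¬ hhh_ind (DD S r x (ev ψ) (T + t) < w) =
        shf S T G r x (ev ψ) +
          hhh_ind (DD S r x (ev ψ) T < w ∧ w ≤ DT S r x (ev ψ) T t)}.Countable := by
      intro r x hx
      refine hw3 r x hx t t ht ht _ ?_
      intro ψ js js1 js2 hjs _ _
      obtain ⟨_, q2, q3, _⟩ := h7 S r x (ev ψ) T t js _ (hhh_norm ψ) hT ht hjs rfl
      have hshe := h3 S T G r x (ev ψ) js _ hjs rfl
      rw [hshe, hG, q2, ← q3]
      by_cases ha : DT S r x (ev ψ) T t < w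
      · rw [hhh_pos ha, hhh_pos (min_lt_of_right_lt ha), hhh_neg fun hc => absurd ha (not_lt.2 hc.2),
          add_zero]
      · have ha' := not_lt.1 ha
        rw [hhh_neg ha, zero_add]
        by_cases hb : DD S r x (ev ψ) T < w
        · rw [hhh_pos (min_lt_of_left_lt hb), hhh_pos ⟨hb, ha'⟩]
        · rw [hhh_neg (not_lt.2 (le_min (not_lt.1 hb) ha')), hhh_neg fun hc => hb hc.1]
    have heq := (h5 S (fun r x ψ => hhh_ind (DD S r x (ev ψ) (T + t) < w))
      (fun r x ψ => shf S T G r x (ev ψ) +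
        hhh_ind (DD S r x (ev ψ) T < w ∧ w ≤ DT S r x (ev ψ) T t)) (1 + 1) (hm0 (T + t))
      (fun r => (hms r).add (hm1 t r)) (fun r x ψ => (hhh_abs _).trans (by norm_num))
      (fun r x ψ => (abs_add_le _ _).trans (add_le_add (hsh r x _) (hhh_abs _)))).2.2.2 key
    rw [hpp, hpp, hhh, heq, hadd, hflo]
    simp only [hG]
  have H2 : ∀ t n, 0 ≤ t → t ≤ n → hh S w T t = hh S w T n + EE S fun r x ψ =>
      hhh_ind (DD S r x (ev ψ) T < w ∧ w ≤ DT S r x (ev ψ) T t ∧ DT S r x (ev ψ) T n < w) := by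
    intro t n ht htn
    have hn : 0 ≤ n := ht.trans htn
    have hadd := (h5 S (fun r x ψ => hhh_ind (DD S r x (ev ψ) T < w ∧ w ≤ DT S r x (ev ψ) T n))
      (fun r x ψ => hhh_ind (DD S r x (ev ψ) T < w ∧ w ≤ DT S r x (ev ψ) T t ∧
        DT S r x (ev ψ) T n < w)) 1 (hm1 n) (hm2 t n)
      (fun r x ψ => hhh_abs _) (fun r x ψ => hhh_abs _)).1
    have key : ∀ r x, x ∈ rm S r →
        {ψ : ℝ | ¬ hhh_ind (DD S r x (ev ψ) T < w ∧ w ≤ DT S r x (ev ψ) T t) =
          hhh_ind (DD S r x (ev ψ) T < w ∧ w ≤ DT S r x (ev ψ) T n) +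
          hhh_ind (DD S r x (ev ψ) T < w ∧ w ≤ DT S r x (ev ψ) T t ∧
            DT S r x (ev ψ) T n < w)}.Countable := by
      intro r x hx
      refine hw3 r x hx t n ht hn _ ?_
      intro ψ js js1 js2 hjs hjs1 hjs2
      obtain ⟨a1, _, a3, _⟩ := h7 S r x (ev ψ) T t js _ (hhh_norm ψ) hT ht hjs rfl
      obtain ⟨b1, _, b3, _⟩ := h7 S r x (ev ψ) T n js _ (hhh_norm ψ) hT hn hjs rfl
      obtain ⟨c1, _, hc1⟩ := (a1 js1).1 hjs1
      obtain ⟨c2, _, hc2⟩ := (b1 js2).1 hjs2
      have hle : DT S r x (ev ψ) T n ≤ DT S r x (ev ψ) T t := by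
        rw [a3, b3]
        exact (h8 S _ _ _ t n c1 c2 htn hc1 hc2).2
      by_cases ha : DD S r x (ev ψ) T < w
      · by_cases hb : w ≤ DT S r x (ev ψ) T n
        · rw [hhh_pos ⟨ha, hb.trans hle⟩, hhh_pos ⟨ha, hb⟩,
            hhh_neg fun hc => absurd hc.2.2 (not_lt.2 hb), add_zero]
        · rw [hhh_neg (P := DD S r x (ev ψ) T < w ∧ w ≤ DT S r x (ev ψ) T n) fun hc => hb hc.2,
            zero_add]
          by_cases hd : w ≤ DT S r x (ev ψ) T t
          · rw [hhh_pos ⟨ha, hd⟩, hhh_pos ⟨ha, hd, not_le.1 hb⟩]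
          · rw [hhh_neg fun hc => hd hc.2, hhh_neg fun hc => hd hc.2.1]
      · rw [hhh_neg fun hc => ha hc.1, hhh_neg fun hc => ha hc.1, hhh_neg fun hc => ha hc.1, add_zero]
    have heq := (h5 S (fun r x ψ => hhh_ind (DD S r x (ev ψ) T < w ∧ w ≤ DT S r x (ev ψ) T t))
      (fun r x ψ => hhh_ind (DD S r x (ev ψ) T < w ∧ w ≤ DT S r x (ev ψ) T n) +
        hhh_ind (DD S r x (ev ψ) T < w ∧ w ≤ DT S r x (ev ψ) T t ∧ DT S r x (ev ψ) T n < w)) (1 + 1)
      (hm1 t) (fun r => (hm1 n r).add (hm2 t n r)) (fun r x ψ => (hhh_abs _).trans (by norm_num))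
      (fun r x ψ => (abs_add_le _ _).trans (add_le_add (hhh_abs _) (hhh_abs _)))).2.2.2 key
    rw [hhh, hhh, heq, hadd]
  refine ⟨H1, ?_, ?_, ?_⟩
  · intro t n ht htn
    simp only [hhh_ite]
    exact H2 t n ht htn
  · intro t _
    rw [hhh]
    exact hhh_EEnn S _ fun r x ψ => hhh_nn _
  · intro t ht n _ htn
    have h := H2 t n (mem_Ici.1 ht) htn
    have h' : 0 ≤ EE S fun r x ψ => hhh_ind (DD S r x (ev ψ) T < w ∧ w ≤ DT S r x (ev ψ) T t ∧
        DT S r x (ev ψ) T n < w) := hhh_EEnn S _ fun r x ψ => hhh_nn _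
    linarith

end Pool.Agent.FAN
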