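import Pool.Agent.FAN2.Asm
import Pool.Agent.FAN2.PGen2
import Pool.Agent.FAN.B_LEN
import Pool.Agent.FAN.B_GRW
import Pool.Agent.FAN.F_ARC
import Pool.Agent.FAN.F_CRT
import Pool.Agent.FAN.F_DER
import Pool.Agent.FAN.F_FAR
import Pool.Agent.FAN.F_FSUM
import Pool.Agent.FAN.F_INT
import Pool.Agent.FAN.F_OML
import Pool.Agent.FAN.F_STP
import Pool.Agent.FAN.M_SH1
import Pool.Agent.FAN.M_SHF
import Pool.Agent.FAN.M_SIG
import Pool.Agent.FAN.M_TON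
import Pool.Agent.FAN2.HBase
import Pool.Agent.FAN2.HAll
import Pool.Agent.FAN2.N_BK0
import Pool.Agent.FAN2.N_EDK
import Pool.Agent.FAN2.N_FANF
import Pool.Agent.FAN2.N_FIN
import Pool.Agent.FAN2.N_FNI
import Pool.Agent.FAN2.N_JOR
import Pool.Agent.FAN2.N_KER
import Pool.Agent.FAN2.N_MEK
import Pool.Agent.FAN2.N_NODE
import Pool.Agent.FAN2.N_ONE
import Pool.Agent.FAN2.N_PIE
import Pool.Agent.FAN2.N_PTL
import Pool.Agent.FAN2.N_PTW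
import Pool.Agent.FAN2.N_SYK
import Pool.Agent.FAN2.N_ULB
import Pool.Agent.FAN2.N_UMO
import Pool.Agent.FAN2.N_UUB
import Pool.Agent.FAN2.N_WMO
import Pool.Agent.FAN2.W_DBL
import Pool.Agent.FAN2.W_EEL
import Pool.Agent.FAN2.W_FLO
import Pool.Agent.FAN2.W_HHH
import Pool.Agent.FAN2.W_SHE
import Pool.Agent.FAN2.W_SHM
import Pool.Agent.FAN2.W_SPL
import Pool.Agent.FAN2.C_CAL
import Pool.Agent.FAN2.C_ERR
import Pool.Agent.FAN2.C_EXP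
import Pool.Agent.FAN2.C_IND
import Pool.Agent.FAN2.C_LOG
import Pool.Agent.FAN2.C_PAR
import Pool.Agent.FAN2.C_RAM
import Pool.Agent.FAN2.C_RLB
import Pool.Agent.FAN2.C_STP
import Pool.Agent.FAN2.C_YST

/-!
# FAN2: total assembly, `F_P(n) ≥ c n^β` for every `β < (3 + √5)/2` and every polygon (helper17)
-/

set_option autoImplicit false

open Pool.Agent.Billiard

namespace Pool.Agent.FAN

theorem all_SHF : Sm_SHF := by
  have hSIG : Sm_SIG := g_SIG m_MOV m_REV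
  exact g_SHF b_UNI b_OPN hSIG (g_SH1 b_PWR hSIG)

theorem all_UMO : Sn_UMO := n_UMO n_KER b_TO1 b_EXI b_MON (n_MEK b_DIA b_MEA b_BND n_KER)

theorem all_ULB : Sn_ULB := n_ULB b_DIA b_UNI b_CLV b_OPN b_TO1 (n_MEK b_DIA b_MEA b_BND n_KER)

theorem all_FAN : Si_FAN := by
  have hFAR : Sf_FAR := f_FAR m_EXU b_TIM b_CTS b_ENT b_CLS
  have hOML : Sf_OML := f_OML m_GLU m_EXU b_CTS b_ENT b_CLV f_CRT
  have hFSUM : Sf_FSUM := f_FSUM b_CLV f_ARC (f_INT b_CLV) b_NHC b_WDP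
  have hMEK : Sn_MEK := n_MEK b_DIA b_MEA b_BND n_KER
  have hNODE : Sn_NODE := n_NODE b_CLV b_CLS f_LIP hOML hFAR n_KER (n_ONE n_KER (n_PIE n_KER))
  have hPTL : Sn_PTL := n_PTL b_UNI (f_DER b_CLV) b_WDP f_STP
  have hPTW : Sn_PTW := n_PTW b_UNI b_CLV b_CLS hFAR b_WDP b_TMB f_STP n_KER
  have hFANF : Sn_FANF := n_FANF b_DIA f_LIP hFSUM b_NHC b_TMB hPTL hPTW hNODE (n_FNI f_LIP hOML)
    (n_BK0 n_KER n_JOR) b_MEA b_BND n_KER
  have hSYK : Sn_SYK := n_SYK b_DIA b_PWR b_MEA b_BND all_SHF n_KER b_OPN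
  have hWMO : Sn_WMO := n_WMO n_KER b_TO1 b_EXI b_MON hMEK
  have hTON : Sm_TON := g_TON b_OPN b_TO1
  exact n_FIN (n_EDK hFANF hTON b_OPN hSYK hMEK n_KER all_UMO b_TO1) all_ULB all_UMO hWMO

theorem all_HHH : Sw_HHH := by
  have hSHE : Sw_SHE := w_SHE b_UNI
  have hSHM : Sw_SHM := w_SHM b_OPN hSHE
  have hEEL : Sw_EEL := w_EEL b_OPN b_TO1
  have hSPL : Sw_SPL := w_SPL m_MOV m_EXU b_UNI b_CLV b_MON hSHE
  have hFLO : Sw_FLO := w_FLO b_PWR b_OPN b_EXI all_SHF hSHE hSHM hEEL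
  exact w_HHH b_MEA b_EXI hSHE hSHM hEEL hFLO hSPL b_MON

theorem all_HTU : Si_HTU := h_htu_of all_HHH

theorem all_DBL : Si_DBL := by
  have hSHE : Sw_SHE := w_SHE b_UNI
  have hSHM : Sw_SHM := w_SHM b_OPN hSHE
  have hEEL : Sw_EEL := w_EEL b_OPN b_TO1
  have hSPL : Sw_SPL := w_SPL m_MOV m_EXU b_UNI b_CLV b_MON hSHE
  have hFLO : Sw_FLO := w_FLO b_PWR b_OPN b_EXI all_SHF hSHE hSHM hEEL
  exact w_DBL b_MEA b_EXI hSHE hSHM hEEL hFLO hSPL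

theorem all_CAL : Si_CAL := by
  have hSTP : Sc_STP := c_STP c_RAM (c_ERR c_RAM)
  exact c_CAL c_RAM (c_RLB (c_IND c_RAM hSTP c_LOG c_YST) c_EXP) c_PAR

theorem gtg_all : Si_GTG :=
  gtg_of b_KFIN (n_UUB all_UMO all_ULB) all_DBL all_FAN all_HTU all_CAL

/-- The full complexity of the billiard in an arbitrary polygon grows at least like `n ^ β` for every
`β < (3 + √5) / 2`. -/
theorem fan2_final (P : Polygon) (β : ℝ) (hβ : β < (3 + √5) / 2) : ∃ c : ℝ, 0 < c ∧ ∀ n : ℕ, 1 ≤ n →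
    c * (n : ℝ) ^ β ≤ P.complexity n :=
  gen2_all t_LEN t_GRW gtg_all P β hβ

end Pool.Agent.FAN
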