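import Pool.Agent.FAN2.Defs
import Pool.Agent.FAN.K_FIN

/-!
# FAN2: assembly of the interfaces (helper17)
-/

set_option autoImplicit false

open MeasureTheory Set

namespace Pool.Agent.FAN

theorem GG_mono (S : TriSys) (r : S.R) (i : ZMod 3) {L L' : ℝ} (h : L ≤ L') : GG S r i L ⊆ GG S r i L' :=
  fun _ hjs => ⟨hjs.1, hjs.2.1, hjs.2.2.trans h⟩

theorem GT_nonneg (S : TriSys) (L : ℝ) : 0 ≤ GT S L :=
  Finset.sum_nonneg fun _ _ => Finset.sum_nonneg fun _ _ => Nat.cast_nonneg _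

theorem GT_mono (hF : Sk_FIN) (S : TriSys) {L L' : ℝ} (h : L ≤ L') : GT S L ≤ GT S L' := by
  refine Finset.sum_le_sum fun r _ => Finset.sum_le_sum fun i _ => ?_
  exact_mod_cast Set.ncard_le_ncard (GG_mono S r i h) (hF S r i L')

theorem gtg_of (hF : Sk_FIN) (h1 : Si_UUB) (h2 : Si_DBL) (h3 : Si_FAN) (h4 : Si_HTU) (h5 : Si_CAL) :
    Si_GTG := by
  intro S hS γ hγ
  obtain ⟨u0, u1, u2, c, hc, u3⟩ := h1 S hS
  obtain ⟨C₁, hC₁, u5⟩ := h3 S
  obtain ⟨C₂, hC₂, u6⟩ := h4 S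
  set C := max C₁ C₂ with hCdef
  have hC : 1 ≤ C := hC₁.trans (le_max_left _ _)
  refine h5 (UU S) (GT S) c C hc hC (fun s N h0 _ hN => u0 s N h0 hN)
    (fun s h0 _ => u1 s h0) (fun s s' N h0 hs _ hN => u2 s s' N h0 hs hN) u3
    (fun s N h0 _ hN => h2 S s N h0 hN) (fun s s' M h0 hs hs1 hM => ?_)
    (fun s N n h0 hs1 hN hn => ?_) γ hγ
  · refine le_trans ?_ (u5 s s' M h0 hs hs1 hM)
    have hs'0 : 0 < s' := lt_of_lt_of_le h0 hs
    have h01 : 0 ≤ 1 - s / s' := by
      rw [sub_nonneg, div_le_one hs'0]; exact hs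
    apply mul_le_mul_of_nonneg_left _ h01
    have hCC : C₁ ≤ C := le_max_left _ _
    have hU : UU S s' (M + C₁) ≤ UU S s' (M + C) :=
      u1 s' hs'0 (by simp only [mem_Ici]; linarith) (by simp only [mem_Ici]; linarith) (by linarith)
    have hU0 : 0 ≤ UU S s' (M + C₁) := u0 s' _ hs'0 (by linarith)
    have h7 : C₁ * (M + 1) * UU S s' (M + C₁) ≤ C * (M + 1) * UU S s' (M + C) := by
      apply mul_le_mul _ hU hU0 (by positivity)
      exact mul_le_mul_of_nonneg_right hCC (by linarith)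
    linarith
  · refine (u6 s N n h0 hs1 hN hn).trans ?_
    have hCC : C₂ ≤ C := le_max_right _ _
    have hn0 : 0 ≤ n := by linarith
    have hG : GT S (C₂ * n) ≤ GT S (C * n) := GT_mono hF S (mul_le_mul_of_nonneg_right hCC hn0)
    have hG0 := GT_nonneg S (C₂ * n)
    have hl1 : 0 ≤ Real.log (1 / s) := Real.log_nonneg (by rw [le_div_iff₀ h0]; linarith)
    have hl2 : 0 ≤ Real.log N := Real.log_nonneg hN
    have hN0 : 0 < N := by linarith
    have hnn : 0 < n := by linarith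
    apply mul_le_mul hCC _ _ (by linarith)
    · have : (1 + Real.log (1 / s)) * (1 + Real.log N) * GT S (C₂ * n) ≤
          (1 + Real.log (1 / s)) * (1 + Real.log N) * GT S (C * n) :=
        mul_le_mul_of_nonneg_left hG (by positivity)
      linarith
    · positivity

end Pool.Agent.FAN
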