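import Pool.Agent.FAN2.StC2

/-!
# FAN2, block C, module CBI (helper89): an inequality of Stirling type
-/

set_option autoImplicit false

open MeasureTheory Set

namespace Pool.Agent.FAN

namespace CBI

theorem step (k : ℕ) (hk : 1 ≤ k) :
    Real.exp 1 * (((k : ℝ) + 1) * (k : ℝ) ^ k) ≤ ((k : ℝ) + 2) * ((k : ℝ) + 1) ^ k := by
  have hkr : (1 : ℝ) ≤ k := by exact_mod_cast hk
  have h0 : (0 : ℝ) < k := by linarith
  have h1 : (0 : ℝ) < (k : ℝ) + 1 := by linarith
  have h2 : (0 : ℝ) < (k : ℝ) + 2 := by linarith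
  have l1 : 2 * (1 / (k : ℝ)) / (1 / (k : ℝ) + 2) ≤ Real.log (1 + 1 / (k : ℝ)) :=
    Real.le_log_one_add_of_nonneg (by positivity)
  have l2 : 2 * (1 / ((k : ℝ) + 1)) / (1 / ((k : ℝ) + 1) + 2) ≤
      Real.log (1 + 1 / ((k : ℝ) + 1)) :=
    Real.le_log_one_add_of_nonneg (by positivity)
  have e1 : Real.log (1 + 1 / (k : ℝ)) = Real.log ((k : ℝ) + 1) - Real.log k := by
    rw [← Real.log_div h1.ne' h0.ne']
    congr 1
    field_simp
  have e2 : Real.log (1 + 1 / ((k : ℝ) + 1)) = Real.log ((k : ℝ) + 2) - Real.log ((k : ℝ) + 1) := by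
    rw [← Real.log_div h2.ne' h1.ne']
    congr 1
    field_simp
    ring
  rw [e1] at l1
  rw [e2] at l2
  have f1 : (k : ℝ) * (2 * (1 / (k : ℝ)) / (1 / (k : ℝ) + 2)) = 2 * k / (2 * k + 1) := by
    field_simp
    ring
  have f2 : 2 * (1 / ((k : ℝ) + 1)) / (1 / ((k : ℝ) + 1) + 2) = 2 / (2 * k + 3) := by
    field_simp
    ring
  have f3 : (1 : ℝ) ≤ 2 * k / (2 * k + 1) + 2 / (2 * k + 3) := by
    rw [div_add_div _ _ (by positivity) (by positivity), le_div_iff₀ (by positivity)]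
    nlinarith
  have key : 1 + (Real.log ((k : ℝ) + 1) + k * Real.log k) ≤
      Real.log ((k : ℝ) + 2) + k * Real.log ((k : ℝ) + 1) := by
    have g1 := mul_le_mul_of_nonneg_left l1 h0.le
    rw [f1] at g1
    rw [f2] at l2
    nlinarith
  have hL : 0 < Real.exp 1 * (((k : ℝ) + 1) * (k : ℝ) ^ k) := by positivity
  have hR : 0 < ((k : ℝ) + 2) * ((k : ℝ) + 1) ^ k := by positivity
  rw [← Real.log_le_log_iff hL hR, Real.log_mul (Real.exp_pos 1).ne' (by positivity),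
    Real.log_exp, Real.log_mul h1.ne' (by positivity), Real.log_pow,
    Real.log_mul h2.ne' (by positivity), Real.log_pow]
  exact key

theorem stirling (k : ℕ) :
    (k.factorial : ℝ) * Real.exp k ≤ Real.exp 1 * (((k : ℝ) + 1) * (k : ℝ) ^ k) := by
  induction k with
  | zero =>
    simp only [Nat.factorial_zero, Nat.cast_one, Nat.cast_zero, Real.exp_zero, pow_zero]
    have := Real.add_one_le_exp (1 : ℝ)
    linarith
  | succ k ih =>
    rcases Nat.eq_zero_or_pos k with rfl | hk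
    · norm_num
      have := Real.exp_pos (1 : ℝ)
      linarith
    · have h := step k hk
      have hk1 : (0 : ℝ) < (k : ℝ) + 1 := by positivity
      rw [Nat.factorial_succ]
      push_cast
      rw [Real.exp_add]
      calc ((k : ℝ) + 1) * (k.factorial : ℝ) * (Real.exp k * Real.exp 1)
          = (((k : ℝ) + 1) * Real.exp 1) * ((k.factorial : ℝ) * Real.exp k) := by ring
        _ ≤ (((k : ℝ) + 1) * Real.exp 1) * (Real.exp 1 * (((k : ℝ) + 1) * (k : ℝ) ^ k)) := by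
            gcongr
        _ ≤ (((k : ℝ) + 1) * Real.exp 1) * (((k : ℝ) + 2) * ((k : ℝ) + 1) ^ k) := by
            gcongr
        _ = Real.exp 1 * (((k : ℝ) + 1 + 1) * ((k : ℝ) + 1) ^ (k + 1)) := by ring

end CBI

open CBI in
theorem c_CBI : Sc_CBI := by
  intro k j Λ hkj hΛ h
  have hkjr : (k : ℝ) ≤ j := by exact_mod_cast hkj
  have hfac : (0 : ℝ) < (k.factorial : ℝ) := by exact_mod_cast k.factorial_pos
  -- the binomial coefficient
  have hb : ((j : ℝ) - k) ^ k ≤ (k.factorial : ℝ) * (j.choose k : ℝ) := by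
    have h1 : (j - k) ^ k ≤ k.factorial * j.choose k := by
      rw [← Nat.descFactorial_eq_factorial_mul_choose]
      exact (Nat.pow_le_pow_left (by omega) k).trans (Nat.pow_sub_le_descFactorial j k)
    have h2 : (((j - k : ℕ) : ℝ)) ^ k ≤ (k.factorial : ℝ) * (j.choose k : ℝ) := by
      exact_mod_cast h1
    rwa [Nat.cast_sub hkj] at h2
  have h3 : ((k : ℝ) ^ 2) ^ k ≤ Λ ^ k * ((k.factorial : ℝ) * (j.choose k : ℝ)) := by
    calc ((k : ℝ) ^ 2) ^ k ≤ (Λ * ((j : ℝ) - k)) ^ k := by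
          apply pow_le_pow_left₀ (by positivity) h
      _ = Λ ^ k * ((j : ℝ) - k) ^ k := mul_pow _ _ _
      _ ≤ Λ ^ k * ((k.factorial : ℝ) * (j.choose k : ℝ)) := by
          apply mul_le_mul_of_nonneg_left hb (by positivity)
  have h4 := stirling k
  have h5 : ((k.factorial : ℝ) * Real.exp k) ^ 2 ≤
      (Real.exp 1 * (((k : ℝ) + 1) * (k : ℝ) ^ k)) ^ 2 := by
    apply pow_le_pow_left₀ (by positivity) h4
  have e2k : Real.exp (2 * k) = Real.exp k ^ 2 := by
    rw [← Real.exp_nat_mul]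
    norm_num
  have e2 : Real.exp 2 = Real.exp 1 ^ 2 := by
    rw [← Real.exp_nat_mul]
    norm_num
  rw [div_le_iff₀ (by positivity), e2k, e2]
  have h6 : ((k.factorial : ℝ)) ^ 2 * Real.exp k ^ 2 ≤
      ((k.factorial : ℝ)) ^ 2 * (Λ ^ k / (k.factorial : ℝ) * (j.choose k : ℝ) *
        (Real.exp 1 ^ 2 * ((k : ℝ) + 1) ^ 2)) := by
    calc ((k.factorial : ℝ)) ^ 2 * Real.exp k ^ 2 = ((k.factorial : ℝ) * Real.exp k) ^ 2 := by ring
      _ ≤ (Real.exp 1 * (((k : ℝ) + 1) * (k : ℝ) ^ k)) ^ 2 := h5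
      _ = (Real.exp 1 ^ 2 * ((k : ℝ) + 1) ^ 2) * ((k : ℝ) ^ 2) ^ k := by
          rw [mul_pow, mul_pow, ← pow_mul, ← pow_mul, mul_comm k 2]
          ring
      _ ≤ (Real.exp 1 ^ 2 * ((k : ℝ) + 1) ^ 2) *
            (Λ ^ k * ((k.factorial : ℝ) * (j.choose k : ℝ))) := by
          apply mul_le_mul_of_nonneg_left h3 (by positivity)
      _ = ((k.factorial : ℝ)) ^ 2 * (Λ ^ k / (k.factorial : ℝ) * (j.choose k : ℝ) *
            (Real.exp 1 ^ 2 * ((k : ℝ) + 1) ^ 2)) := by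
          field_simp
  exact le_of_mul_le_mul_left h6 (by positivity)

end Pool.Agent.FAN
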