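import Pool.Agent.FAN2.StC2

/-!
FAN2, block C, CIN: the iteration (helper60).
-/

set_option autoImplicit false

open MeasureTheory Set

namespace Pool.Agent.FAN

namespace CIN

/-- derivative of the power of the logarithm -/
theorem der_log (M₁ x : ℝ) (k : ℕ) (hM : 0 < M₁) (hx : 0 < x) :
    HasDerivAt (fun N : ℝ => (Real.log (N / M₁)) ^ (k + 1) / ((k : ℝ) + 1))
      ((Real.log (x / M₁)) ^ k / x) x := by
  have h1 : HasDerivAt (fun N : ℝ => N / M₁) (1 / M₁) x := (hasDerivAt_id x).div_const M₁
  have h2 : HasDerivAt (fun N : ℝ => Real.log (N / M₁)) ((1 / M₁) / (x / M₁)) x :=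
    h1.log (by positivity)
  have h3 := (h2.pow (k + 1)).div_const ((k : ℝ) + 1)
  refine h3.congr_deriv ?_
  have hk : (k : ℝ) + 1 ≠ 0 := by positivity
  push_cast
  field_simp

/-- the integral -/
theorem int_log (M₁ M : ℝ) (k : ℕ) (hM : 0 < M₁) (hMM : M₁ ≤ M) :
    IntervalIntegrable (fun N : ℝ => (Real.log (N / M₁)) ^ k / N) volume M₁ M ∧
    ∫ N in M₁..M, (Real.log (N / M₁)) ^ k / N = (Real.log (M / M₁)) ^ (k + 1) / ((k : ℝ) + 1) := by
  have hpos : ∀ x ∈ uIcc M₁ M, 0 < x := by
    intro x hx
    rw [uIcc_of_le hMM] at hx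
    exact lt_of_lt_of_le hM hx.1
  have hcont : ContinuousOn (fun N : ℝ => (Real.log (N / M₁)) ^ k / N) (uIcc M₁ M) := by
    apply ContinuousOn.div
    · apply ContinuousOn.pow
      apply ContinuousOn.log
      · exact continuousOn_id.div_const M₁
      · intro x hx
        have := hpos x hx
        positivity
    · exact continuousOn_id
    · intro x hx
      exact (hpos x hx).ne'
  have hint := hcont.intervalIntegrable (μ := volume)
  refine ⟨hint, ?_⟩
  rw [intervalIntegral.integral_eq_sub_of_hasDerivAt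
    (f := fun N : ℝ => (Real.log (N / M₁)) ^ (k + 1) / ((k : ℝ) + 1))
    (fun x hx => der_log M₁ x k hM (hpos x hx)) hint]
  simp [div_self hM.ne']

theorem exp_mem (h : ℝ) (hh : 0 < h) (j : ℕ) :
    0 < Real.exp (-(h * j)) ∧ Real.exp (-(h * j)) ≤ 1 := by
  refine ⟨Real.exp_pos _, ?_⟩
  rw [Real.exp_le_one_iff]
  have : (0 : ℝ) ≤ h * j := by positivity
  linarith

end CIN

/-- CIN. -/
theorem c_CIN (h1 : Sc_CAF) : Sc_CIN := by
  intro U c K h lam M₁ hc hh hK hlam hM₁ hle hnn hmono hlb hstep k
  have hM₁p : 0 < M₁ := by linarith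
  induction k with
  | zero =>
    intro j M hM
    have hMp : 0 < M := by linarith
    obtain ⟨hs0, hs1⟩ := CIN.exp_mem h hh j
    set s := Real.exp (-(h * j)) with hs
    have hA := (h1 (U s) (hmono s hs0 hs1) (fun t ht => hnn s t hs0 hs1 ht)).1 M hMp.le
    have h3 := hA.2.2.2.1
    have h4 := hlb s hs0 hs1
    have h5 : c ≤ c / √s := by
      rw [le_div_iff₀ (Real.sqrt_pos.mpr hs0)]
      have : √s ≤ 1 := by
        exact Real.sqrt_le_one.mpr hs1
      nlinarith
    rw [le_div_iff₀ hMp]
    simp only [pow_zero, Nat.factorial_zero, Nat.cast_one, div_one, Nat.choose_zero_right, mul_one]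
    have h6 : c ≤ U s 0 := h5.trans h4
    have h7 : M ^ 2 / 2 * c ≤ M ^ 2 / 2 * U s 0 := by
      apply mul_le_mul_of_nonneg_left h6 (by positivity)
    have h8 : c / 2 * M ≤ M ^ 2 / 2 * c := by
      have h9 : 0 ≤ c * M * (M - 1) := by
        apply mul_nonneg (by positivity)
        linarith
      nlinarith
    linarith
  | succ k ih =>
    have key : ∀ (j : ℕ) (N : ℝ), M₁ ≤ N →
        N * (c / 2 * (lam * ((lam * Real.log (N / M₁)) ^ k / (k.factorial : ℝ)) *
          (j.choose (k + 1) : ℝ))) ≤ cQ (U (Real.exp (-(h * j)))) N := by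
      intro j
      induction j with
      | zero =>
        intro N hN
        have hNp : 0 < N := by linarith
        obtain ⟨hs0, hs1⟩ := CIN.exp_mem h hh 0
        have hA := (h1 (U _) (hmono _ hs0 hs1) (fun t ht => hnn _ t hs0 hs1 ht)).1 N hNp.le
        simp only [Nat.choose_zero_succ, Nat.cast_zero, mul_zero]
        simpa using hA.1
      | succ j ihj =>
        intro N hN
        have hNp : 0 < N := by linarith
        obtain ⟨hs0, hs1⟩ := CIN.exp_mem h hh j
        obtain ⟨ht0, ht1⟩ := CIN.exp_mem h hh (j + 1)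
        have hle' : Real.exp (-(h * ((j + 1 : ℕ) : ℝ))) ≤ Real.exp (-(h * j)) := by
          apply Real.exp_le_exp.mpr
          push_cast
          nlinarith
        have hst := hstep _ _ N ht0 hle' hs1 hN
        have hratio : Real.exp (-(h * ((j + 1 : ℕ) : ℝ))) / Real.exp (-(h * j)) = Real.exp (-h) := by
          rw [← Real.exp_sub]
          congr 1
          push_cast
          ring
        rw [hratio] at hst
        have hA := (h1 (U _) (hmono _ hs0 hs1) (fun t ht => hnn _ t hs0 hs1 ht)).1 N hNp.le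
        have hS0 := hA.2.1
        have hN1 : 1 - K / M₁ ≤ 1 - K / N := by
          have : K / N ≤ K / M₁ := div_le_div_of_nonneg_left hK hM₁p hN
          linarith
        have he : 0 ≤ 1 - Real.exp (-h) := by
          have : Real.exp (-h) ≤ 1 := by
            rw [Real.exp_le_one_iff]; linarith
          linarith
        have hlam2 : lam ≤ (1 - Real.exp (-h)) * (1 - K / N) :=
          hle.trans (mul_le_mul_of_nonneg_left hN1 he)
        have h5 : lam * cS (U (Real.exp (-(h * j)))) N ≤
            (1 - Real.exp (-h)) * ((1 - K / N) * cS (U (Real.exp (-(h * j)))) N) := by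
          rw [← mul_assoc]
          exact mul_le_mul_of_nonneg_right hlam2 hS0
        have h6 := ih j N hN
        rw [le_div_iff₀ hNp] at h6
        have h7 := mul_le_mul_of_nonneg_left h6 hlam
        have h8 := ihj N hN
        have h9 : (((j + 1).choose (k + 1) : ℕ) : ℝ) = (j.choose k : ℝ) + (j.choose (k + 1) : ℝ) := by
          rw [Nat.choose_succ_succ]
          push_cast
          ring
        rw [h9]
        have h10 : N * (c / 2 * (lam * ((lam * Real.log (N / M₁)) ^ k / (k.factorial : ℝ)) *
            ((j.choose k : ℝ) + (j.choose (k + 1) : ℝ)))) =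
            lam * (c / 2 * ((lam * Real.log (N / M₁)) ^ k / (k.factorial : ℝ) * (j.choose k : ℝ)) * N) +
            N * (c / 2 * (lam * ((lam * Real.log (N / M₁)) ^ k / (k.factorial : ℝ)) *
              (j.choose (k + 1) : ℝ))) := by
          ring
        rw [h10]
        linarith
    intro j M hM
    have hMp : 0 < M := by linarith
    obtain ⟨hs0, hs1⟩ := CIN.exp_mem h hh j
    have hA := (h1 (U _) (hmono _ hs0 hs1) (fun t ht => hnn _ t hs0 hs1 ht)).2.2 M₁ M hM₁p hM
    obtain ⟨hint, hle3⟩ := hA
    refine le_trans ?_ hle3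
    obtain ⟨hi2, hv2⟩ := CIN.int_log M₁ M k hM₁p hM
    have hkf : (0 : ℝ) < (k.factorial : ℝ) := by exact_mod_cast Nat.factorial_pos k
    have hmonoi : ∫ N in M₁..M, (c / 2 * (lam ^ (k + 1) / (k.factorial : ℝ) * (j.choose (k + 1) : ℝ))) *
        ((Real.log (N / M₁)) ^ k / N) ≤
        ∫ N in M₁..M, cQ (U (Real.exp (-(h * j)))) N / N ^ 2 := by
      apply intervalIntegral.integral_mono_on hM (hi2.const_mul _) hint
      intro N hN
      have hNp : 0 < N := lt_of_lt_of_le hM₁p hN.1
      have h11 := key j N hN.1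
      rw [le_div_iff₀ (by positivity)]
      refine le_trans (le_of_eq ?_) h11
      rw [mul_pow, pow_succ]
      field_simp
    rw [intervalIntegral.integral_const_mul, hv2] at hmonoi
    refine le_trans (le_of_eq ?_) hmonoi
    rw [mul_pow, Nat.factorial_succ]
    push_cast
    field_simp

end Pool.Agent.FAN
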