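import Pool.Agent.FAN2.StC

/-!
# FAN2, block C, module CLG: powers beat logarithms (helper88)
-/

set_option autoImplicit false

open MeasureTheory Set

namespace Pool.Agent.FAN

private theorem clg_core (γ a b₁ b₂ c C o x θ : ℝ) (hc : 0 < c) (hC : 0 < C) (ho : 0 < o)
    (hx : 0 < x) (hθ : 0 < θ) (h1 : γ < a) (h2 : b₁ < a) (h3 : b₂ < a) :
    ∀ᶠ L : ℝ in Filter.atTop,
      Real.exp (L * γ) * (C * ((1 + 2 * o * L) * (1 + x * L))) + C * Real.exp (L * b₁) +
        C * Real.exp (L * b₂) < c * Real.exp (L * a) / (θ * L + 1) ^ 2 := by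
  obtain ⟨d, hd, hd1, hd2, hd3⟩ : ∃ d : ℝ, 0 < d ∧ γ ≤ a - d ∧ b₁ ≤ a - d ∧ b₂ ≤ a - d := by
    refine ⟨min (a - γ) (min (a - b₁) (a - b₂)), ?_, ?_, ?_, ?_⟩
    · exact lt_min (by linarith) (lt_min (by linarith) (by linarith))
    · have := min_le_left (a - γ) (min (a - b₁) (a - b₂))
      linarith
    · have := (min_le_right (a - γ) (min (a - b₁) (a - b₂))).trans (min_le_left _ _)
      linarith
    · have := (min_le_right (a - γ) (min (a - b₁) (a - b₂))).trans (min_le_right _ _)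
      linarith
  set K : ℝ := C * ((1 + 2 * o) * (1 + x)) + C + C with hK
  have hK0 : 0 < K := by positivity
  set K' : ℝ := K * (θ + 1) ^ 2 with hK'
  have hK'0 : 0 < K' := by positivity
  have hlit := (isLittleO_pow_exp_pos_mul_atTop (k := 4) hd).def (c := c / (2 * K')) (by positivity)
  filter_upwards [hlit, Filter.eventually_ge_atTop (1 : ℝ)] with L hL hL1
  have hL0 : (0 : ℝ) ≤ L := by linarith
  rw [Real.norm_of_nonneg (by positivity), Real.norm_of_nonneg (Real.exp_pos _).le] at hL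
  have e1 : Real.exp (L * γ) ≤ Real.exp (L * (a - d)) :=
    Real.exp_le_exp.2 (mul_le_mul_of_nonneg_left hd1 hL0)
  have e2 : Real.exp (L * b₁) ≤ Real.exp (L * (a - d)) :=
    Real.exp_le_exp.2 (mul_le_mul_of_nonneg_left hd2 hL0)
  have e3 : Real.exp (L * b₂) ≤ Real.exp (L * (a - d)) :=
    Real.exp_le_exp.2 (mul_le_mul_of_nonneg_left hd3 hL0)
  have hE : 0 < Real.exp (L * (a - d)) := Real.exp_pos _
  have hLL : L ≤ L ^ 2 := by nlinarith
  have p1 : (1 + 2 * o * L) * (1 + x * L) ≤ (1 + 2 * o) * (1 + x) * L ^ 2 := by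
    have q1 : 1 + 2 * o * L ≤ (1 + 2 * o) * L := by nlinarith
    have q2 : 1 + x * L ≤ (1 + x) * L := by nlinarith
    calc (1 + 2 * o * L) * (1 + x * L) ≤ ((1 + 2 * o) * L) * ((1 + x) * L) := by
          apply mul_le_mul q1 q2 (by positivity) (by positivity)
      _ = _ := by ring
  have p2 : θ * L + 1 ≤ (θ + 1) * L := by nlinarith
  have p3 : (θ * L + 1) ^ 2 ≤ (θ + 1) ^ 2 * L ^ 2 := by
    calc (θ * L + 1) ^ 2 ≤ ((θ + 1) * L) ^ 2 := by
          apply pow_le_pow_left₀ (by positivity) p2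
      _ = _ := by ring
  have hden : 0 < (θ * L + 1) ^ 2 := by positivity
  rw [lt_div_iff₀ hden]
  have hsum : Real.exp (L * γ) * (C * ((1 + 2 * o * L) * (1 + x * L))) + C * Real.exp (L * b₁) +
        C * Real.exp (L * b₂) ≤ K * L ^ 2 * Real.exp (L * (a - d)) := by
    have t1 : Real.exp (L * γ) * (C * ((1 + 2 * o * L) * (1 + x * L))) ≤
        Real.exp (L * (a - d)) * (C * ((1 + 2 * o) * (1 + x) * L ^ 2)) := by
      apply mul_le_mul e1 (mul_le_mul_of_nonneg_left p1 hC.le) (by positivity) hE.le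
    have t2 : C * Real.exp (L * b₁) ≤ C * (L ^ 2 * Real.exp (L * (a - d))) := by
      apply mul_le_mul_of_nonneg_left _ hC.le
      calc Real.exp (L * b₁) ≤ 1 * Real.exp (L * (a - d)) := by rw [one_mul]; exact e2
        _ ≤ L ^ 2 * Real.exp (L * (a - d)) := by
          apply mul_le_mul_of_nonneg_right _ hE.le
          nlinarith
    have t3 : C * Real.exp (L * b₂) ≤ C * (L ^ 2 * Real.exp (L * (a - d))) := by
      apply mul_le_mul_of_nonneg_left _ hC.le
      calc Real.exp (L * b₂) ≤ 1 * Real.exp (L * (a - d)) := by rw [one_mul]; exact e3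
        _ ≤ L ^ 2 * Real.exp (L * (a - d)) := by
          apply mul_le_mul_of_nonneg_right _ hE.le
          nlinarith
    calc _ ≤ Real.exp (L * (a - d)) * (C * ((1 + 2 * o) * (1 + x) * L ^ 2)) +
          C * (L ^ 2 * Real.exp (L * (a - d))) + C * (L ^ 2 * Real.exp (L * (a - d))) := by
          linarith
      _ = K * L ^ 2 * Real.exp (L * (a - d)) := by rw [hK]; ring
  have hfin : K' * L ^ 4 < c * Real.exp (d * L) := by
    have h5 : K' * L ^ 4 ≤ K' * (c / (2 * K') * Real.exp (d * L)) :=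
      mul_le_mul_of_nonneg_left hL hK'0.le
    have h6 : K' * (c / (2 * K') * Real.exp (d * L)) = c / 2 * Real.exp (d * L) := by
      field_simp
    have h7 : 0 < c * Real.exp (d * L) := by positivity
    rw [h6] at h5
    linarith
  have hexp : Real.exp (L * a) = Real.exp (L * (a - d)) * Real.exp (d * L) := by
    rw [← Real.exp_add]
    congr 1
    ring
  calc _ ≤ K * L ^ 2 * Real.exp (L * (a - d)) * ((θ + 1) ^ 2 * L ^ 2) := by
        apply mul_le_mul hsum p3 hden.le (by positivity)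
    _ = Real.exp (L * (a - d)) * (K' * L ^ 4) := by rw [hK']; ring
    _ < Real.exp (L * (a - d)) * (c * Real.exp (d * L)) := mul_lt_mul_of_pos_left hfin hE
    _ = c * Real.exp (L * a) := by rw [hexp]; ring

/-- CLG. -/
theorem c_CLG : Sc_CLG := by
  intro γ a b₁ b₂ c C o x θ hc hC ho hx hθ h1 h2 h3
  have h := Real.tendsto_log_atTop.eventually (clg_core γ a b₁ b₂ c C o x θ hc hC ho hx hθ h1 h2 h3)
  filter_upwards [h, Filter.eventually_gt_atTop (0 : ℝ)] with n hn hn0
  rw [Real.rpow_def_of_pos hn0, Real.rpow_def_of_pos hn0, Real.rpow_def_of_pos hn0,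
    Real.rpow_def_of_pos hn0]
  exact hn

end Pool.Agent.FAN
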