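import Pool.Agent.FAN2.StC2

/-!
# FAN2, block C, CPH (helper11)
-/

set_option autoImplicit false

open MeasureTheory Set

namespace Pool.Agent.FAN

private theorem cph_exp (h : ℝ) (h0 : 0 < h) : h * (1 - h) ≤ 1 - Real.exp (-h) := by
  have h1 : 1 + h ≤ Real.exp h := by
    have := Real.add_one_le_exp h
    linarith
  have h2 : Real.exp (-h) ≤ 1 / (1 + h) := by
    rw [Real.exp_neg, ← one_div]
    exact one_div_le_one_div_of_le (by linarith) h1
  have h3 : 1 / (1 + h) ≤ 1 - h * (1 - h) := by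
    rw [div_le_iff₀ (by linarith)]
    nlinarith [mul_pos h0 h0, mul_pos (mul_pos h0 h0) h0]
  linarith

theorem c_CPH : Sc_CPH := by
  intro x o θ hx ho hθ hlt
  have hc : Continuous fun h : ℝ => x * ((1 - h) * (1 - h)) * (2 * o - θ * h) := by fun_prop
  have hc2 : Continuous fun h : ℝ => 2 * o - θ * h := by fun_prop
  have e1 : ∀ᶠ h in nhds (0 : ℝ), θ ^ 2 < x * ((1 - h) * (1 - h)) * (2 * o - θ * h) := by
    have := hc.tendsto 0
    refine this.eventually_const_lt ?_
    simp only [sub_zero, mul_one, mul_zero]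
    linarith
  have e2 : ∀ᶠ h in nhds (0 : ℝ), 0 < 2 * o - θ * h := by
    have := hc2.tendsto 0
    refine this.eventually_const_lt ?_
    simp only [mul_zero, sub_zero]
    linarith
  have e3 : ∀ᶠ h in nhds (0 : ℝ), h < 1 := eventually_lt_nhds (by norm_num)
  obtain ⟨ε, hε, hb⟩ := Metric.eventually_nhds_iff.1 (e1.and (e2.and e3))
  have hh : dist (ε / 2) (0 : ℝ) < ε := by
    rw [Real.dist_eq, sub_zero, abs_of_pos (by linarith)]
    linarith
  obtain ⟨f1, f2, f3⟩ := hb hh
  set h := ε / 2 with hdef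
  have hpos : 0 < h := by rw [hdef]; linarith
  refine ⟨h, h, hpos, hpos, f3, lt_of_lt_of_le f1 ?_⟩
  have g1 := cph_exp h hpos
  have g2 : 2 * o / h - θ = (2 * o - θ * h) / h := by
    field_simp
  rw [g2]
  have g3 : x * ((1 - h) * (1 - Real.exp (-h))) * ((2 * o - θ * h) / h) =
      x * (1 - h) * (2 * o - θ * h) * ((1 - Real.exp (-h)) / h) := by ring
  rw [g3]
  have g4 : x * ((1 - h) * (1 - h)) * (2 * o - θ * h) = x * (1 - h) * (2 * o - θ * h) * (1 - h) := by ring
  rw [g4]
  refine mul_le_mul_of_nonneg_left ?_ ?_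
  · rw [le_div_iff₀ hpos]
    linarith
  · exact mul_nonneg (mul_nonneg hx.le (by linarith)) f2.le

end Pool.Agent.FAN
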