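import Pool.Agent.FAN2.StC2

/-!
# FAN2, block C: CST, the step inequality with the error absorbed (helper54)
-/

set_option autoImplicit false

open MeasureTheory Set

namespace Pool.Agent.FAN

theorem c_CST (h : Sc_CAF) : Sc_CST := by
  intro U C hC hnn hmono hdbl hfan s s' M hs hss' hs'1 hCM
  have hs' : 0 < s' := hs.trans_le hss'
  have hs1 : s ≤ 1 := hss'.trans hs'1
  have hM1 : 1 ≤ M := hC.trans hCM
  have hM0 : 0 < M := by linarith
  obtain ⟨h1, -, -⟩ := h (U s') (hmono s' hs' hs'1) (fun t ht => hnn s' t hs' hs'1 ht)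
  obtain ⟨-, h2, -⟩ := h (U s) (hmono s hs hs1) (fun t ht => hnn s t hs hs1 ht)
  have h3 := (h1 M hM0.le).2.2.2.2
  have h4 := hfan s s' M hs hss' hs'1 hM0.le
  rw [h2 (U s') (hmono s' hs' hs'1) M hM0.le] at h4
  have e1 : U s' (M + C) ≤ U s' (2 * M) :=
    hmono s' hs' hs'1 (mem_Ici.2 (by linarith)) (mem_Ici.2 (by linarith)) (by linarith)
  have e2 := hdbl s' M hs' hs'1 hM0.le
  have e3 := hdbl s' (M / 2) hs' hs'1 (by linarith)
  have e4 := hdbl s' (M / 4) hs' hs'1 (by linarith)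
  have r3 : 2 * (M / 2) = M := by ring
  have r4 : 2 * (M / 4) = M / 2 := by ring
  rw [r3] at e3
  rw [r4] at e4
  have e5 : U s' (M + C) ≤ 8 * U s' (M / 4) := by linarith
  have h5 : 0 ≤ U s' (M / 4) := hnn s' _ hs' hs'1 (by linarith)
  have h6 : C * (M + 1) * U s' (M + C) ≤ 128 * C / M * cS (U s') M := by
    have a1 : C * (M + 1) * U s' (M + C) ≤ C * (2 * M) * (8 * U s' (M / 4)) := by
      refine mul_le_mul ?_ e5 (hnn s' _ hs' hs'1 (by linarith)) (by positivity)
      exact mul_le_mul_of_nonneg_left (by linarith) (by linarith)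
    have a2 : C * (2 * M) * (8 * U s' (M / 4)) = 128 * C / M * (M ^ 2 / 8 * U s' (M / 4)) := by
      field_simp
      ring
    rw [a2] at a1
    exact a1.trans (mul_le_mul_of_nonneg_left h3 (by positivity))
  have h7 : 0 ≤ 1 - s / s' := by
    rw [sub_nonneg, div_le_one hs']
    exact hss'
  refine le_trans (mul_le_mul_of_nonneg_left ?_ h7) h4
  have h8 : (∫ t in (0 : ℝ)..M, (M - t) * U s' t) = cS (U s') M := rfl
  rw [h8]
  have h9 : (1 - 128 * C / M) * cS (U s') M = cS (U s') M - 128 * C / M * cS (U s') M := by ring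
  rw [h9]
  linarith

end Pool.Agent.FAN
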