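import Pool.Agent.FAN2.Defs

/-!
# FAN2, block C: pure calculus (helper17). Statements with complete proofs.

Write `theorem c_X : Sc_X` in `Pool/Agent/FAN2/C_X.lean`, namespace `Pool.Agent.FAN`. A statement may use
other statements of this file as hypotheses (`theorem c_X (h : Sc_Y) : Sc_X`). Only real analysis, nothing about
surfaces is used.
-/

set_option autoImplicit false

open MeasureTheory Set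

namespace Pool.Agent.FAN

/-- the hypotheses on `U` -/
structure UHyp (U : ℝ → ℝ → ℝ) (c C : ℝ) : Prop where
  c0 : 0 < c
  C1 : 1 ≤ C
  nn : ∀ s N : ℝ, 0 < s → s ≤ 1 → 0 ≤ N → 0 ≤ U s N
  mono : ∀ s : ℝ, 0 < s → s ≤ 1 → MonotoneOn (U s) (Ici 0)
  anti : ∀ s s' N : ℝ, 0 < s → s ≤ s' → s' ≤ 1 → 0 ≤ N → U s' N ≤ U s N
  lb : ∀ s : ℝ, 0 < s → s ≤ 1 → c / √s ≤ U s 0
  dbl : ∀ s N : ℝ, 0 < s → s ≤ 1 → 0 ≤ N → U s (2 * N) ≤ 2 * U s N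
  fan : ∀ s s' M : ℝ, 0 < s → s ≤ s' → s' ≤ 1 → 0 ≤ M →
    (1 - s / s') * ((∫ t in (0 : ℝ)..M, (M - t) * U s' t) - C * (M + 1) * U s' (M + C)) ≤
      ∫ N in (0 : ℝ)..M, N * (U s N - U s' N)

noncomputable def Rf (U : ℝ → ℝ → ℝ) (s M : ℝ) : ℝ := (1 / M) * ∫ t in (0 : ℝ)..M, (M - t) * U s t

noncomputable def Af (U : ℝ → ℝ → ℝ) (s M : ℝ) : ℝ := (1 / M) * ∫ N in (0 : ℝ)..M, N * U s N

/-- RAM. Calculus for one monotone function. Proof. `u = U s` is monotone on `[0, ∞)`, so interval integrable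
(`MonotoneOn.intervalIntegrable`) and bounded on bounded intervals. `J M = ∫_0^M (M - t) u t = ∫_0^M I`,
`I m = ∫_0^m u` (continuous). (Fubini, or: `J M = M I M - ∫_0^M t u`; to see `J' = I` directly: for `M < M'`,
`J M' - J M = (M' - M) I M + ∫_M^M' (M' - t) u t`, the last term is at most `(M' - M)² u M'`.) So `R = J / M` has derivative
`(M I M - J M) / M² = (∫_0^M t u) / M² = Af / M` on `(0, ∞)`, a continuous function; FTC. Bounds: `u 0 ≤ u t ≤ u M` and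
`∫_0^M (M - t) = M²/2`; `J ≥ ∫_(M/2)^M (M - t) u (M/2) = M²/8 u (M/2)`. -/
def Sc_RAM : Prop := ∀ (U : ℝ → ℝ → ℝ) (c C : ℝ), UHyp U c C → ∀ s : ℝ, 0 < s → s ≤ 1 →
  (∀ a b : ℝ, 0 ≤ a → 0 ≤ b → IntervalIntegrable (U s) volume a b ∧
    IntervalIntegrable (fun t => t * U s t) volume a b) ∧
  (∀ M : ℝ, 0 < M → M / 2 * U s 0 ≤ Rf U s M ∧ Rf U s M ≤ M / 2 * U s M ∧
    M / 8 * U s (M / 2) ≤ Rf U s M ∧ 0 ≤ Af U s M ∧ 0 ≤ Rf U s M) ∧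
  ∀ M₁ M₂ : ℝ, 0 < M₁ → M₁ ≤ M₂ → ContinuousOn (fun m => Af U s m / m) (Icc M₁ M₂) ∧
    Rf U s M₂ - Rf U s M₁ = ∫ m in M₁..M₂, Af U s m / m

/-- ERR. The error term. Proof. `C₁ = 64 C`. For `M ≥ C₁` (`≥ 2 C`, `≥ 1`): `M + C ≤ 2 M`, so
`U s (M + C) ≤ U s (2 M) ≤ 2 U s M ≤ 4 U s (M/2) ≤ 32 Rf / M` (RAM), and `C (M + 1) ≤ 2 C M`. -/
def Sc_ERR : Prop := ∀ (U : ℝ → ℝ → ℝ) (c C : ℝ), UHyp U c C → ∃ C₁ : ℝ, 1 ≤ C₁ ∧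
  ∀ s M : ℝ, 0 < s → s ≤ 1 → C₁ ≤ M → C * (M + 1) * U s (M + C) ≤ C₁ * Rf U s M

/-- STP. One step in `s`. Proof. Divide `fan` by `M`: `∫ N (U s - U s') = ∫ N U s - ∫ N U s'` (RAM), and by ERR
`C (M + 1) U s' (M + C) / M ≤ C₁ Rf / M ≤ η Rf` for `M ≥ M₀ = C₁ / η` (`≥ C₁`). -/
def Sc_STP : Prop := ∀ (U : ℝ → ℝ → ℝ) (c C : ℝ), UHyp U c C → ∀ η : ℝ, 0 < η → η < 1 →
  ∃ M₀ : ℝ, 1 ≤ M₀ ∧ ∀ s s' M : ℝ, 0 < s → s ≤ s' → s' ≤ 1 → M₀ ≤ M →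
    (1 - s / s') * ((1 - η) * Rf U s' M) ≤ Af U s M - Af U s' M

/-- LOG. Proof: `log (m/a)^(k+1) / (k+1)` has derivative `log (m/a)^k / m`. -/
def Sc_LOG : Prop := ∀ (a b : ℝ) (k : ℕ), 0 < a → a ≤ b →
  ∫ m in a..b, (Real.log (m / a)) ^ k / m = (Real.log (b / a)) ^ (k + 1) / (k + 1)

/-- YST. Riemann sums. Proof. For `Y = 0` the right side is `0 ≤ B 0`. Let `Y > 0`, `m ≥ 1`, `h = Y / m`: summing the hypothesis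
for `y = i h`, `y' = (i + 1) h`, `i < m`: `B Y ≥ B 0 + (1 - e^(-h)) κ ∑_(i<m) (i h)^k`, and
`∑_(i<m) i^k ≥ (m - 1)^(k+1) / (k+1)` (induction on `m` is not direct; use `∑_(i=1)^(m-1) i^k ≥ ∫_0^(m-1) t^k dt`,
`MonotoneOn.integral_le_sum`). So `B Y ≥ κ (m (1 - e^(-Y/m))) ((m-1)/m)^(k+1) Y^k / (k+1)` and the right side tends to
`κ Y^(k+1) / (k+1)` (`m (1 - e^(-Y/m)) → Y`). -/
def Sc_YST : Prop := ∀ (B : ℝ → ℝ) (κ Y : ℝ) (k : ℕ), 0 ≤ κ → 0 ≤ Y → 0 ≤ B 0 →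
  (∀ y y' : ℝ, 0 ≤ y → y ≤ y' → (1 - Real.exp (-(y' - y))) * (κ * y ^ k) ≤ B y' - B y) →
  κ * Y ^ (k + 1) / (k + 1) ≤ B Y

/-- IND. The lower bound, all orders. Proof. `M₀` from STP, `c₂ = c / 2`. Notation `X = log (M/M₀) ≥ 0`,
`Y = log (1/s) ≥ 0`. `k = 0`: `Rf ≥ M / 2 * U s 0 ≥ c / 2` (RAM, `M ≥ 1`, `√s ≤ 1`). Step `k → k + 1`: fix `M ≥ M₀` and let
`B y = Af U (e^(-y)) M` for `y ≥ 0`. STP with `s = e^(-y')`, `s' = e^(-y)` and the induction hypothesis give the hypothesis of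
YST with `κ = (1-η) c₂ ((1-η) X)^k / (k!)²`. So `Af U s M ≥ (1-η)^(k+1) c₂ X^k Y^(k+1) / ((k+1) (k!)²)` for all `M ≥ M₀`.
By RAM (`Rf U s M₀ ≥ 0`) `Rf U s M ≥ ∫ m in M₀..M, Af U s m / m`, the integrand is at least
`(1-η)^(k+1) c₂ Y^(k+1) / ((k+1) (k!)²) * (log (m/M₀))^k / m`, and LOG. `(k+1)! = (k+1) k!`. -/
def Sc_IND : Prop := ∀ (U : ℝ → ℝ → ℝ) (c C : ℝ), UHyp U c C → ∀ η : ℝ, 0 < η → η < 1 →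
  ∃ c₂ : ℝ, 0 < c₂ ∧ ∃ M₀ : ℝ, 1 ≤ M₀ ∧ ∀ (k : ℕ) (s M : ℝ), 0 < s → s ≤ 1 → M₀ ≤ M →
    c₂ * ((1 - η) * Real.log (M / M₀) * Real.log (1 / s)) ^ k / (k.factorial : ℝ) ^ 2 ≤ Rf U s M

/-- EXP. From all orders to an exponential. Proof. Let `q = √(R / c₂)`. Then `z^k / k! ≤ q` for all `k`, so
`e^(θ z) = ∑ θ^k z^k / k! ≤ q ∑ θ^k = q / (1 - θ)` (`NormedSpace.expSeries_div_hasSum_exp` or `Real.hasSum_exp`,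
`tsum_geometric_of_lt_one`). Square. -/
def Sc_EXP : Prop := ∀ (z R c₂ θ : ℝ), 0 ≤ z → 0 < c₂ → 0 < θ → θ < 1 →
  (∀ k : ℕ, c₂ * (z ^ k / (k.factorial : ℝ)) ^ 2 ≤ R) → c₂ * (1 - θ) ^ 2 * Real.exp (2 * θ * z) ≤ R

/-- RLB. Proof. `η = δ / 2`, IND, and EXP with `z = √((1-η) X Y)`, `θ = 1 - η`: `z^(2k) = ((1-η) X Y)^k`,
`2 θ z = 2 (1-η) √(1-η) √(X Y) ≥ 2 (1-η)² √(X Y) ≥ 2 (1-δ) √(X Y)`. `c₃ = c₂ η²`. -/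
def Sc_RLB : Prop := ∀ (U : ℝ → ℝ → ℝ) (c C : ℝ), UHyp U c C → ∀ δ : ℝ, 0 < δ → δ < 1 →
  ∃ c₃ : ℝ, 0 < c₃ ∧ ∃ M₀ : ℝ, 1 ≤ M₀ ∧ ∀ s M : ℝ, 0 < s → s ≤ 1 → M₀ ≤ M →
    c₃ * Real.exp (2 * (1 - δ) * √(Real.log (M / M₀) * Real.log (1 / s))) ≤ Rf U s M

/-- PAR. The parameters. Proof. `φ = (1 + √5)/2`, `a = (5 + √5)/10`, `b = (5 + 2 √5)/10`, `κ = (5 + 3 √5)/5`:
`(κ/2)² = 2 a b`, `κ - a = φ`, `κ - 2 a - 2 b = -1`. Let `τ = min (1/2) ((φ - γ)/3) > 0`, `ξ = (1-τ) a`, `ω = (1-τ) b`,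
`δ = τ/20`. `2 √(2 ξ ω) = (1-τ) κ`. `e = (1-δ)² (1-τ) κ - ξ ≥ (1-τ)(φ - 2 δ κ) ≥ φ - 2.1 τ > γ` (`κ ≤ 2.35`, `φ ≤ 1.62`). (a):
`e - ξ - 2 ω ≥ (1-τ)(-1 - 2 δ κ) ≥ - (1-τ)(1 + τ/4) > -1`. (b) `φ - 2 δ κ > b` (`2 δ κ ≤ 0.12`, `b ≤ 0.95`, `φ ≥ 1.61`).
(`√5` lies between `2.236` and `2.2361`.) -/
def Sc_PAR : Prop := ∀ γ : ℝ, γ < (1 + √5) / 2 → ∃ ξ ω δ : ℝ, 0 < ξ ∧ ξ < 1 ∧ 0 < ω ∧ 0 < δ ∧ δ < 1 ∧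
  γ < 2 * (1 - δ) ^ 2 * √(2 * ξ * ω) - ξ ∧
  ξ - 1 + 2 * ω < 2 * (1 - δ) ^ 2 * √(2 * ξ * ω) - ξ ∧
  ω < 2 * (1 - δ) ^ 2 * √(2 * ξ * ω) - ξ

/-- CAL. The interface. Proof. `ξ, ω, δ` from PAR, `e = 2 (1-δ)² √(2 ξ ω) - ξ`, `c₃, M₀` from RLB. Let `x` be large,
`L = log x`, `N = x^ξ`, `s = x^(-2ω)`. `Y = log (1/s) = 2 ω L`, `X = log (N/M₀) = ξ L - log M₀ ≥ (1-δ)² ξ L` for large `x`, so
`√(X Y) ≥ (1-δ) √(2 ξ ω) L` and `Rf U s N ≥ c₃ x^(2 (1-δ)² √(2 ξ ω))`. By RAM `U s N ≥ 2 Rf / N ≥ 2 c₃ x^e`. Hits with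
`n = x`: `N/(n s) = x^(ξ - 1 + 2 ω)`, `1/√s = x^ω`; for large `x` `C (N/(n s) + 1/√s) ≤ c₃ x^e`
(powers of `x` with smaller exponents). So `c₃ x^e ≤ C (1 + 2 ω L)(1 + ξ L) G (C x)`, and `(1 + 2 ω L)(1 + ξ L) ≤ x^(e-γ)` for
large `x` (`isLittleO_log_rpow_atTop` or similar), so `G (C x) ≥ (c₃ / C) x^γ` for `x ≥ x₀`. For `n ≥ C x₀` put `x = n / C`:
`G n ≥ (c₃ / C) C^(-γ) n^γ`. -/
def Sc_CAL : Prop := Si_CAL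

end Pool.Agent.FAN
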