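/- Copyright (c) 2026 helper55. Project FAN2, module EXP: from all orders to an exponential. -/
import Pool.Agent.FAN2.StC

namespace Pool.Agent.FAN

theorem c_EXP : Sc_EXP := by
  intro z R c₂ θ hz hc hθ hθ1 h
  have hR : 0 ≤ R := by
    have h0 := h 0
    refine le_trans ?_ h0
    positivity
  set q : ℝ := √(R / c₂) with hq
  have hq0 : 0 ≤ q := Real.sqrt_nonneg _
  have hqsq : q ^ 2 = R / c₂ := Real.sq_sqrt (div_nonneg hR hc.le)
  have hk : ∀ k : ℕ, z ^ k / (k.factorial : ℝ) ≤ q := by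
    intro k
    have h1 : (z ^ k / (k.factorial : ℝ)) ^ 2 ≤ R / c₂ := by
      rw [le_div_iff₀ hc]
      have := h k
      linarith [mul_comm c₂ ((z ^ k / (k.factorial : ℝ)) ^ 2)]
    exact Real.le_sqrt_of_sq_le h1
  have hs1 : HasSum (fun k : ℕ => (θ * z) ^ k / (k.factorial : ℝ)) (Real.exp (θ * z)) := by
    have := NormedSpace.expSeries_div_hasSum_exp (𝔸 := ℝ) (θ * z)
    rwa [← Real.exp_eq_exp_ℝ] at this
  have hs2 : HasSum (fun k : ℕ => q * θ ^ k) (q * (1 - θ)⁻¹) :=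
    (hasSum_geometric_of_lt_one hθ.le hθ1).mul_left q
  have hle : Real.exp (θ * z) ≤ q * (1 - θ)⁻¹ := by
    refine hasSum_le ?_ hs1 hs2
    intro k
    have e : (θ * z) ^ k / (k.factorial : ℝ) = (z ^ k / (k.factorial : ℝ)) * θ ^ k := by
      rw [mul_pow]; ring
    rw [e]
    exact mul_le_mul_of_nonneg_right (hk k) (pow_nonneg hθ.le k)
  have h1θ : 0 < 1 - θ := by linarith
  have h2 : (1 - θ) * Real.exp (θ * z) ≤ q := by
    have := mul_le_mul_of_nonneg_left hle h1θ.le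
    calc (1 - θ) * Real.exp (θ * z) ≤ (1 - θ) * (q * (1 - θ)⁻¹) := this
      _ = q := by field_simp
  have h3 : ((1 - θ) * Real.exp (θ * z)) ^ 2 ≤ q ^ 2 :=
    pow_le_pow_left₀ (by positivity) h2 2
  rw [hqsq, le_div_iff₀ hc] at h3
  have h4 : Real.exp (2 * θ * z) = Real.exp (θ * z) ^ 2 := by
    rw [← Real.exp_nat_mul]; congr 1; push_cast; ring
  rw [h4]
  calc c₂ * (1 - θ) ^ 2 * Real.exp (θ * z) ^ 2 = ((1 - θ) * Real.exp (θ * z)) ^ 2 * c₂ := by ring
    _ ≤ R := h3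

end Pool.Agent.FAN
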