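import Pool.Agent.FAN.StM

/-!
# FAN2 (golden ratio exponent): definitions and interfaces (helper17)

Kernel `k(y) = 1 / (y² + s)`, `s > 0`. The expectation `EE` is the integral over the unit tangent bundle
(total mass `2 π` times the area).
-/

set_option autoImplicit false

open scoped ComplexConjugate
open MeasureTheory Set

namespace Pool.Agent.FAN

/-- the kernel -/
noncomputable def kp (s y : ℝ) : ℝ := 1 / (y ^ 2 + s)

/-- minus the derivative of the kernel -/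
noncomputable def kd (s y : ℝ) : ℝ := 2 * y / (y ^ 2 + s) ^ 2

/-- mean of the kernel of the clearance of a window of length `N` -/
noncomputable def UU (S : TriSys) (s N : ℝ) : ℝ := EE S fun r x ψ => kp s (DD S r x (ev ψ) N)

/-- mean of the square of the kernel -/
noncomputable def WW (S : TriSys) (s N : ℝ) : ℝ := EE S fun r x ψ => kp s (DD S r x (ev ψ) N) ^ 2

open Classical in
/-- measure of the windows of length `N` that have a vertex at distance `< w` -/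
noncomputable def pp (S : TriSys) (w N : ℝ) : ℝ :=
  EE S fun r x ψ => if DD S r x (ev ψ) N < w then 1 else 0

/-- number of generalized diagonals of length at most `L`, all corners -/
noncomputable def GT (S : TriSys) (L : ℝ) : ℝ := ∑ r, ∑ i, ((GG S r i L).ncard : ℝ)

/-! ## Interfaces between the blocks -/

/-- Block U: elementary facts on `U`. -/
def Si_UUB : Prop := ∀ S : TriSys, Nonempty S.R →
  (∀ s N : ℝ, 0 < s → 0 ≤ N → 0 ≤ UU S s N) ∧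
  (∀ s : ℝ, 0 < s → MonotoneOn (UU S s) (Ici 0)) ∧
  (∀ s s' N : ℝ, 0 < s → s ≤ s' → 0 ≤ N → UU S s' N ≤ UU S s N) ∧
  (∃ c : ℝ, 0 < c ∧ ∀ s : ℝ, 0 < s → s ≤ 1 → c / √s ≤ UU S s 0)

/-- Block U: doubling (flow invariance). -/
def Si_DBL : Prop := ∀ (S : TriSys) (s N : ℝ), 0 < s → 0 ≤ N → UU S s (2 * N) ≤ 2 * UU S s N

/-- Blocks N, U: the fan inequality, one step in `s`. -/
def Si_FAN : Prop := ∀ S : TriSys, ∃ C : ℝ, 1 ≤ C ∧ ∀ s s' M : ℝ, 0 < s → s ≤ s' → s' ≤ 1 → 0 ≤ M →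
  (1 - s / s') * ((∫ t in (0 : ℝ)..M, (M - t) * UU S s' t) - C * (M + 1) * UU S s' (M + C)) ≤
    ∫ N in (0 : ℝ)..M, N * (UU S s N - UU S s' N)

/-- Block H: hits. -/
def Si_HIT : Prop := ∀ S : TriSys, ∃ C : ℝ, 1 ≤ C ∧ ∀ w N n : ℝ, 0 < w → w ≤ 1 → 1 ≤ N → N ≤ n →
  pp S w N ≤ C * (N / n + w + w ^ 2 * (1 + Real.log N) * GT S (C * n))

/-- Block H: hits, in terms of `U` (dyadic sum). -/
def Si_HTU : Prop := ∀ S : TriSys, ∃ C : ℝ, 1 ≤ C ∧ ∀ s N n : ℝ, 0 < s → s ≤ 1 → 1 ≤ N → N ≤ n →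
  UU S s N ≤ C * (N / (n * s) + 1 / √s + (1 + Real.log (1 / s)) * (1 + Real.log N) * GT S (C * n))

/-- Block C: pure calculus. -/
def Si_CAL : Prop := ∀ (U : ℝ → ℝ → ℝ) (G : ℝ → ℝ) (c C : ℝ), 0 < c → 1 ≤ C →
  (∀ s N : ℝ, 0 < s → s ≤ 1 → 0 ≤ N → 0 ≤ U s N) →
  (∀ s : ℝ, 0 < s → s ≤ 1 → MonotoneOn (U s) (Ici 0)) →
  (∀ s s' N : ℝ, 0 < s → s ≤ s' → s' ≤ 1 → 0 ≤ N → U s' N ≤ U s N) →
  (∀ s : ℝ, 0 < s → s ≤ 1 → c / √s ≤ U s 0) →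
  (∀ s N : ℝ, 0 < s → s ≤ 1 → 0 ≤ N → U s (2 * N) ≤ 2 * U s N) →
  (∀ s s' M : ℝ, 0 < s → s ≤ s' → s' ≤ 1 → 0 ≤ M →
    (1 - s / s') * ((∫ t in (0 : ℝ)..M, (M - t) * U s' t) - C * (M + 1) * U s' (M + C)) ≤
      ∫ N in (0 : ℝ)..M, N * (U s N - U s' N)) →
  (∀ s N n : ℝ, 0 < s → s ≤ 1 → 1 ≤ N → N ≤ n →
    U s N ≤ C * (N / (n * s) + 1 / √s + (1 + Real.log (1 / s)) * (1 + Real.log N) * G (C * n))) →
  ∀ γ : ℝ, γ < (1 + √5) / 2 → ∃ c' : ℝ, 0 < c' ∧ ∃ n₀ : ℝ, ∀ n : ℝ, n₀ ≤ n → c' * n ^ γ ≤ G n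

/-- Growth of the number of all generalized diagonals. -/
def Si_GTG : Prop := ∀ (S : TriSys), Nonempty S.R → ∀ γ : ℝ, γ < (1 + √5) / 2 → ∃ c : ℝ, 0 < c ∧ ∃ n₀ : ℝ, ∀ L : ℝ, n₀ ≤ L →
  c * L ^ γ ≤ GT S L

end Pool.Agent.FAN
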