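import Pool.Agent.FAN2.HBase

/-!
# FAN2, block H, module ANT (helper18): hit in the first window, then free: antitone in the free time
-/

set_option autoImplicit false

open scoped ComplexConjugate
open MeasureTheory Set

namespace Pool.Agent.FAN

/-- a phase set contained in another one up to a null set has at most the same measure -/
theorem hant_mono (S : TriSys) (A B Z : S.R → Set (ℝ × ℂ)) (hZ : mm S Z = 0)
    (h : ∀ r, A r ⊆ B r ∪ Z r) : mm S A ≤ mm S B := by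
  unfold mm at hZ ⊢
  refine Finset.sum_le_sum fun r _ => ?_
  have hz : volume (Z r ∩ (Ioc (0 : ℝ) (2 * Real.pi) ×ˢ rm S r)) = 0 := by
    have h0 := Finset.sum_eq_zero_iff.1 hZ
    exact h0 r (Finset.mem_univ r)
  calc volume (A r ∩ (Ioc (0 : ℝ) (2 * Real.pi) ×ˢ rm S r))
      ≤ volume ((B r ∩ (Ioc (0 : ℝ) (2 * Real.pi) ×ˢ rm S r)) ∪
          (Z r ∩ (Ioc (0 : ℝ) (2 * Real.pi) ×ˢ rm S r))) := by
        refine measure_mono ?_
        rintro p ⟨hp, hp'⟩
        rcases h r hp with hb | hc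
        · exact Or.inl ⟨hb, hp'⟩
        · exact Or.inr ⟨hc, hp'⟩
    _ ≤ volume (B r ∩ (Ioc (0 : ℝ) (2 * Real.pi) ×ˢ rm S r)) +
          volume (Z r ∩ (Ioc (0 : ℝ) (2 * Real.pi) ×ˢ rm S r)) := measure_union_le _ _
    _ = volume (B r ∩ (Ioc (0 : ℝ) (2 * Real.pi) ×ˢ rm S r)) := by rw [hz, add_zero]

theorem h_ANT (h1 : Sh_NOW) : Sh_ANT := by
  intro S w t t' ht htt'
  refine hant_mono S _ _ (fun r => {p | ¬ ∃ js, PW S r p.2 (ev p.1) (1 + t) js})
    (h1 S (1 + t) (by linarith)) fun r p hp => ?_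
  by_cases hz : ∃ js, PW S r p.2 (ev p.1) (1 + t) js
  · left
    obtain ⟨js₂, hjs₂⟩ := hz
    obtain ⟨js, js', hp1, hp2, hc1, hc2⟩ := hp
    obtain ⟨js₁, rfl⟩ := (b_MON S r p.2 (ev p.1) 1 (1 + t) js js₂ (by linarith) hp1 hjs₂).1
    obtain ⟨l, hl⟩ := (b_MON S r p.2 (ev p.1) (1 + t) (1 + t') (js ++ js₁) (js ++ js')
      (by linarith) hjs₂ hp2).1
    rw [List.append_assoc, List.append_cancel_left_eq] at hl
    subst hl
    exact ⟨js, js₁, hp1, hjs₂, hc1, hc2.trans (mon_clr _ _ _ _ _)⟩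
  · right
    exact hz

end Pool.Agent.FAN
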