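import Pool.Agent.FAN2.StH

/-!
# FAN2, module H_ARC (helper2): directions almost parallel to a vector
-/

set_option autoImplicit false

open MeasureTheory Set

namespace Pool.Agent.FAN

private lemma harc_cx (u : ℂ) (ψ : ℝ) : cx (ev ψ) u = ‖u‖ * Real.sin (u.arg - ψ) := by
  have h1 : u.re = ‖u‖ * Real.cos u.arg := (Complex.norm_mul_cos_arg u).symm
  have h2 : u.im = ‖u‖ * Real.sin u.arg := (Complex.norm_mul_sin_arg u).symm
  rw [Real.sin_sub]
  show Real.cos ψ * u.im - Real.sin ψ * u.re = _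
  rw [h2]
  nth_rw 1 [h1]
  ring

private lemma harc_near (y δ : ℝ) (hy : -Real.pi < y) (hy' : y < 3 * Real.pi) (h : |Real.sin y| < δ) :
    ∃ k ∈ Finset.Icc (-1 : ℤ) 3, |y - k * Real.pi| ≤ Real.pi * δ / 2 := by
  have hpi := Real.pi_pos
  have h1 := abs_sub_round (y / Real.pi)
  set k : ℤ := round (y / Real.pi) with hk
  have h2 : |y - k * Real.pi| ≤ Real.pi / 2 := by
    have h3 : y - k * Real.pi = Real.pi * (y / Real.pi - k) := by
      field_simp
    rw [h3, abs_mul, abs_of_pos hpi]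
    nlinarith
  have h4 := Real.mul_abs_le_abs_sin h2
  have h5 : |Real.sin (y - k * Real.pi)| = |Real.sin y| := by
    rw [Real.sin_sub_int_mul_pi, abs_mul, abs_zpow, abs_neg, abs_one, one_zpow, one_mul]
  rw [h5] at h4
  refine ⟨k, ?_, ?_⟩
  · rw [abs_le] at h1
    have h6 : -1 < y / Real.pi := by
      rw [lt_div_iff₀ hpi]
      linarith
    have h7 : y / Real.pi < 3 := by
      rw [div_lt_iff₀ hpi]
      linarith
    rw [Finset.mem_Icc]
    constructor
    · have h8 : (-2 : ℝ) < k := by linarith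
      have h9 : (-2 : ℤ) < k := by exact_mod_cast h8
      omega
    · have h8 : (k : ℝ) < 4 := by linarith
      have h9 : k < 4 := by exact_mod_cast h8
      omega
  · have h6 : 2 / Real.pi * |y - k * Real.pi| < δ := h4.trans_lt h
    rw [div_mul_eq_mul_div, div_lt_iff₀ hpi] at h6
    linarith

theorem h_ARC : Sh_ARC := by
  intro u δ hu hδ
  have hpi := Real.pi_pos
  have hn : 0 < ‖u‖ := norm_pos_iff.2 hu
  have hsub : {ψ : ℝ | ψ ∈ Ioc (0 : ℝ) (2 * Real.pi) ∧ |cx (ev ψ) u| < δ * ‖u‖} ⊆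
      ⋃ k ∈ Finset.Icc (-1 : ℤ) 3, Icc (u.arg + k * Real.pi - Real.pi * δ / 2)
        (u.arg + k * Real.pi + Real.pi * δ / 2) := by
    rintro ψ ⟨⟨h1, h2⟩, h3⟩
    rw [harc_cx, abs_mul, abs_of_pos hn, mul_comm] at h3
    have h4 : |Real.sin (ψ - u.arg)| < δ := by
      have h5 : ψ - u.arg = -(u.arg - ψ) := by ring
      rw [h5, Real.sin_neg, abs_neg]
      exact lt_of_mul_lt_mul_right h3 hn.le
    have h5 := Complex.neg_pi_lt_arg u
    have h6 := Complex.arg_le_pi u
    obtain ⟨k, hk, h7⟩ := harc_near (ψ - u.arg) δ (by linarith) (by linarith) h4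
    rw [abs_le] at h7
    simp only [mem_iUnion]
    exact ⟨k, hk, by linarith, by linarith⟩
  refine (measure_mono hsub).trans ((measure_biUnion_finset_le _ _).trans ?_)
  have hvol : ∀ k ∈ Finset.Icc (-1 : ℤ) 3, volume (Icc (u.arg + k * Real.pi - Real.pi * δ / 2)
      (u.arg + k * Real.pi + Real.pi * δ / 2)) = ENNReal.ofReal (Real.pi * δ) := by
    intro k _
    rw [Real.volume_Icc]
    congr 1
    ring
  rw [Finset.sum_congr rfl hvol, Finset.sum_const, nsmul_eq_mul]
  have hc : ((Finset.Icc (-1 : ℤ) 3).card : ENNReal) = ENNReal.ofReal 5 := by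
    simp
  rw [hc, ← ENNReal.ofReal_mul (by norm_num)]
  refine ENNReal.ofReal_le_ofReal ?_
  have h := Real.pi_lt_d2
  nlinarith

end Pool.Agent.FAN
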