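import Pool.Agent.FAN2.HBase

/-!
# FAN2, block H: CLA, LST, FST, PAR, CRX (helper15)
-/

set_option autoImplicit false

open scoped ComplexConjugate
open MeasureTheory Set

namespace Pool.Agent.FAN

theorem h_CLA : Sh_CLA := by
  intro S js
  induction js with
  | nil =>
    intro js' q x v
    cases js' with
    | nil => simp [clr, endP]
    | cons j l => simp [clr, endP]
  | cons j l ih =>
    intro js' q x v
    simp only [List.cons_append, clr, endP]
    rw [ih, min_assoc]

theorem hcla_le {S : TriSys} (js : List (ZMod 3)) (q : Pl S) (x v : ℂ) : clr q js x v ≤ q.h3 x v := by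
  cases js with
  | nil => exact le_refl _
  | cons j l => exact min_le_left _ _

theorem hcla_h3 {S : TriSys} {q : Pl S} {x v : ℂ} {w : ℝ} (h : w ≤ q.h3 x v) (k : ZMod 3) :
    w ≤ |cx v (q.V k - x)| := by
  unfold Pl.h3 at h
  obtain ⟨h0, h12⟩ := le_min_iff.1 h
  obtain ⟨h1, h2⟩ := le_min_iff.1 h12
  fin_cases k
  · exact h0
  · exact h1
  · exact h2

theorem hcla_h3' {S : TriSys} {q : Pl S} {x v : ℂ} {w : ℝ} (h : ∀ k, w ≤ |cx v (q.V k - x)|) :
    w ≤ q.h3 x v := le_min (h 0) (le_min (h 1) (h 2))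

theorem h_LST (h1 : Sh_CLA) : Sh_LST := by
  intro S js
  induction js with
  | nil =>
    intro js' q x v w ha hb
    exact absurd (lt_of_le_of_lt (hb.trans (hcla_le js' q x v)) ha) (lt_irrefl _)
  | cons j l ih =>
    intro js' q x v w ha hb
    by_cases hl : clr (q.nx j) l x v < w
    · obtain ⟨js₁, i₀, l₁, he, hh, hw⟩ := ih js' (q.nx j) x v w hl hb
      exact ⟨j :: js₁, i₀, l₁, by rw [he]; rfl, hh, hw⟩
    · have hl' : w ≤ clr (q.nx j) l x v := not_lt.1 hl
      refine ⟨[], j, l, rfl, ?_, ?_⟩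
      · have hq : q.h3 x v < w := by
          have : min (q.h3 x v) (clr (q.nx j) l x v) < w := ha
          rcases min_lt_iff.1 this with h | h
          · exact h
          · exact absurd h hl
        have hn : w ≤ (q.nx j).h3 x v := hl'.trans (hcla_le l (q.nx j) x v)
        have e1 : w ≤ |cx v (q.V (j + 2) - x)| := by
          have := hcla_h3 hn (q.en j + 1)
          rwa [Pl.V_nx1] at this
        have e2 : w ≤ |cx v (q.V (j + 1) - x)| := by
          have := hcla_h3 hn (q.en j + 2)
          rwa [Pl.V_nx2] at this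
        by_contra hc
        have hc' : w ≤ |cx v (q.V j - x)| := not_lt.1 hc
        refine absurd hq (not_lt.2 (hcla_h3' fun k => ?_))
        rcases z_cases j k with rfl | rfl | rfl
        · exact hc'
        · exact e2
        · exact e1
      · show w ≤ clr (q.nx j) (l ++ js') x v
        rw [h1]
        exact le_min hl' hb

theorem h_FST : Sh_FST := by
  intro S js''
  induction js'' with
  | nil =>
    intro js' q x v w ha hb
    rw [List.append_nil] at hb
    exact absurd (lt_of_le_of_lt ha hb) (lt_irrefl _)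
  | cons j l ih =>
    intro js' q x v w ha hb
    by_cases hj : w ≤ clr q (js' ++ [j]) x v
    · have hb' : clr q ((js' ++ [j]) ++ l) x v < w := by
        rw [List.append_assoc]; exact hb
      obtain ⟨l₂, j', l₃, he, hw, hh⟩ := ih (js' ++ [j]) q x v w hj hb'
      refine ⟨j :: l₂, j', l₃, by rw [he]; rfl, ?_, ?_⟩
      · rw [List.append_assoc] at hw; exact hw
      · rw [List.append_assoc] at hh; exact hh
    · refine ⟨[], j, l, rfl, by rw [List.append_nil]; exact ha, ?_⟩
      rw [List.append_nil]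
      rw [b_CLS S js' q x v j, le_min_iff, not_and_or] at hj
      rcases hj with h | h
      · exact absurd ha h
      · exact not_le.1 h

theorem hcla_par1 {S : TriSys} {q : Pl S} {x p v : ℂ} {w : ℝ} {j : ZMod 3} (h : q.Ex x v j)
    (h1 : w ≤ |cx v (q.V (j + 1) - x)|) (h2 : w ≤ |cx v (q.V (j + 2) - x)|) (hp : |cx v (p - x)| < w) :
    q.Ex p v j := by
  obtain ⟨ha, hb⟩ := h
  rw [abs_of_pos ha] at h2
  rw [abs_of_neg hb] at h1
  obtain ⟨hp1, hp2⟩ := abs_lt.1 hp
  have e1 : cx v (q.V (j + 2) - p) = cx v (q.V (j + 2) - x) - cx v (p - x) := by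
    simp only [cx_sub_right]; ring
  have e2 : cx v (q.V (j + 1) - p) = cx v (q.V (j + 1) - x) - cx v (p - x) := by
    simp only [cx_sub_right]; ring
  constructor
  · rw [e1]; linarith
  · rw [e2]; linarith

theorem h_PAR : Sh_PAR := by
  intro S l j
  induction l with
  | nil =>
    intro q x p v w hr hw hp
    obtain ⟨he, -⟩ := hr
    have hw' : w ≤ q.h3 x v := hw
    exact ⟨hcla_par1 he (hcla_h3 hw' _) (hcla_h3 hw' _) hp, trivial⟩
  | cons i l ih =>
    intro q x p v w hr hw hp
    obtain ⟨he, hr'⟩ := hr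
    have hw' : w ≤ q.h3 x v := hw.trans (hcla_le _ q x v)
    have hw2 : w ≤ clr (q.nx i) l x v := hw.trans (min_le_right _ _)
    exact ⟨hcla_par1 he (hcla_h3 hw' _) (hcla_h3 hw' _) hp, ih (q.nx i) x p v w hr' hw2 hp⟩

theorem h_CRX : Sh_CRX := by
  intro L R p₀ p₁ v a1 a2 a3 a4 f0 f1
  have hs : 0 < cx v (L - R) := by
    have : cx v (L - R) = cx v (L - p₀) - cx v (R - p₀) := by simp only [cx_sub_right]; ring
    linarith
  have e1 : cx (p₁ - p₀) (L - p₀) * cx v (L - R) =
      cx (R - p₀) (L - p₀) * cx v (L - p₁) - cx (R - p₁) (L - p₁) * cx v (L - p₀) := by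
    simp only [cx, Complex.sub_re, Complex.sub_im]; ring
  have e2 : cx (p₁ - p₀) (R - p₀) * cx v (L - R) =
      cx (R - p₀) (L - p₀) * cx v (R - p₁) - cx (R - p₁) (L - p₁) * cx v (R - p₀) := by
    simp only [cx, Complex.sub_re, Complex.sub_im]; ring
  have g1 : 0 < cx (p₁ - p₀) (L - p₀) * cx v (L - R) := by
    rw [e1]; nlinarith [mul_pos f0 a2, mul_pos (neg_pos.2 f1) a1]
  have g2 : cx (p₁ - p₀) (R - p₀) * cx v (L - R) < 0 := by
    rw [e2]; nlinarith [mul_pos f0 (neg_pos.2 a4), mul_pos (neg_pos.2 f1) (neg_pos.2 a3)]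
  constructor
  · by_contra hc
    exact absurd g1 (not_lt.2 (mul_nonpos_of_nonpos_of_nonneg (not_lt.1 hc) hs.le))
  · by_contra hc
    exact absurd g2 (not_lt.2 (mul_nonneg (not_lt.1 hc) hs.le))

end Pool.Agent.FAN
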