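import Pool.Agent.FAN2.H_CLA

/-!
# FAN2, block H: GEO (helper15)
-/

set_option autoImplicit false

open scoped ComplexConjugate
open MeasureTheory Set

namespace Pool.Agent.FAN

theorem hgeo_run {S : TriSys} (js : List (ZMod 3)) : ∀ (q : Pl S) (x v : ℂ),
    (∀ (l₁ : List (ZMod 3)) (k : ZMod 3) (l₂ : List (ZMod 3)), js = l₁ ++ k :: l₂ →
      (endP q l₁).Ex x v k) → Run q x v js := by
  induction js with
  | nil => intro q x v _; trivial
  | cons j l ih =>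
    intro q x v h
    refine ⟨h [] j l rfl, ih (q.nx j) x v fun l₁ k l₂ e => ?_⟩
    exact h (j :: l₁) k l₂ (by rw [e]; rfl)

theorem hgeo_ex {S : TriSys} {js : List (ZMod 3)} {q : Pl S} {x v : ℂ} (hr : Run q x v js)
    {l₁ : List (ZMod 3)} {k : ZMod 3} {l₂ : List (ZMod 3)} (e : js = l₁ ++ k :: l₂) :
    (endP q l₁).Ex x v k := by
  rw [e, Run_append] at hr
  exact hr.2.1

theorem h_GEO (h1 : Sh_PAR) (h2 : Sh_CRX) : Sh_GEO := by
  intro S
  obtain ⟨D₀, h₀, hD1, hh0, hd1, hd2, hd3, hd4⟩ := b_DIA S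
  refine ⟨h₀, hh0, ?_⟩
  intro Q i₀ j l x v w hv hw hr hp hc ha
  have hne : (i₀ :: (l ++ [j])) ≠ [] := by simp
  obtain ⟨he, hr'⟩ := hr
  have hnx : w ≤ (Q.nx i₀).h3 x v := hc.trans (hcla_le _ _ _ _)
  have e1 : w ≤ |cx v (Q.V (i₀ + 2) - x)| := by
    have := hcla_h3 hnx (Q.en i₀ + 1)
    rwa [Pl.V_nx1] at this
  have e2 : w ≤ |cx v (Q.V (i₀ + 1) - x)| := by
    have := hcla_h3 hnx (Q.en i₀ + 2)
    rwa [Pl.V_nx2] at this
  have run : ∀ p, |cx v (p - x)| < w → Run Q p v (i₀ :: (l ++ [j])) := fun p hp =>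
    ⟨hcla_par1 he e2 e1 hp, h1 S l j (Q.nx i₀) x p v w hr' hc hp⟩
  have r0 := run _ hp
  have r1 := run _ ha
  set word := i₀ :: (l ++ [j]) with hword
  set p₀ := Q.V i₀ with hp₀
  set p₁ := apQ Q i₀ word with hp₁
  have t0 : ∀ t ∈ cts Q p₀ v word, 0 < t := by
    have hpw := b_CTS S |>.1 word Q p₀ v r0
    have h4 := hd4 Q v i₀ hv r0.1
    intro t ht
    rw [hword] at hpw ht
    simp only [cts, List.pairwise_cons] at hpw
    simp only [cts, List.mem_cons] at ht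
    rcases ht with rfl | ht
    · exact lt_of_lt_of_le hh0 h4
    · exact lt_trans (lt_of_lt_of_le hh0 h4) (hpw.1 t ht)
  have t1 : ∀ t ∈ cts Q p₁ v word, t < 0 := by
    obtain ⟨hen, -, -, hle⟩ := b_ENT S word Q p₁ v i₀ hne r1
    intro t ht
    have hz : cx v ((endP Q word).V (eI Q i₀ word) - p₁) = 0 := by
      rw [hp₁, apQ, sub_self]; simp [cx]
    have h9 := (b_TIM S).2.2.2.2.2.2.2.2 (endP Q word) p₁ v (eI Q i₀ word) hv hen hz
    have hz2 : dt v ((endP Q word).V (eI Q i₀ word) - p₁) = 0 := by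
      rw [hp₁, apQ, sub_self]; simp [dt]
    rw [hz2] at h9
    exact lt_of_le_of_lt (hle t ht) h9.2
  have hrun : Run Q p₀ (p₁ - p₀) word := by
    refine hgeo_run word Q p₀ (p₁ - p₀) fun l₁ k l₂ e => ?_
    have x0 := hgeo_ex r0 e
    have x1 := hgeo_ex r1 e
    have c0 : 0 < (endP Q l₁).ct p₀ v k := t0 _ ((mem_cts word Q p₀ v _).2 ⟨l₁, k, l₂, e, rfl⟩)
    have c1 : (endP Q l₁).ct p₁ v k < 0 := t1 _ ((mem_cts word Q p₁ v _).2 ⟨l₁, k, l₂, e, rfl⟩)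
    have hden := Pl.Ex.pos x0
    unfold Pl.ct at c0 c1
    have f0 := (div_pos_iff_of_pos_right hden).1 c0
    have f1 : cx ((endP Q l₁).V (k + 1) - p₁) ((endP Q l₁).V (k + 2) - p₁) < 0 := by
      have := (div_lt_iff₀ hden).1 c1
      rwa [zero_mul] at this
    exact h2 _ _ _ _ v x0.1 x1.1 x0.2 x1.2 f0 f1
  refine ⟨hrun, ?_⟩
  -- length
  have hu0 : p₁ - p₀ ≠ 0 := by
    intro h0
    have := hrun.1.1
    rw [h0] at this
    simp [cx] at this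
  have hun : 0 < ‖p₁ - p₀‖ := norm_pos_iff.2 hu0
  set c : ℝ := ‖p₁ - p₀‖⁻¹ with hcdef
  have hc0 : 0 < c := inv_pos.2 hun
  have hv' : ‖(c : ℂ) * (p₁ - p₀)‖ = 1 := by
    rw [norm_mul, Complex.norm_real, Real.norm_eq_abs, abs_of_pos hc0, hcdef, inv_mul_cancel₀ hun.ne']
  have hr2 : Run Q p₀ ((c : ℂ) * (p₁ - p₀)) word := (Run_scale word Q p₀ (p₁ - p₀) c hc0).2 hrun
  obtain ⟨hen, -, -, hle⟩ := b_ENT S word Q p₀ _ i₀ hne hr2
  have hz : cx ((c : ℂ) * (p₁ - p₀)) ((endP Q word).V (eI Q i₀ word) - p₀) = 0 := by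
    have : (endP Q word).V (eI Q i₀ word) = p₁ := rfl
    rw [this, cx_real_left, cx_self, mul_zero]
  have h9 := (b_TIM S).2.2.2.2.2.2.2.2 (endP Q word) p₀ _ (eI Q i₀ word) hv' hen hz
  have hdt : dt ((c : ℂ) * (p₁ - p₀)) ((endP Q word).V (eI Q i₀ word) - p₀) = ‖p₁ - p₀‖ := by
    have : (endP Q word).V (eI Q i₀ word) = p₁ := rfl
    rw [this]
    have h3 : dt ((c : ℂ) * (p₁ - p₀)) (p₁ - p₀) = c * dt (p₁ - p₀) (p₁ - p₀) := by
      simp only [dt, Complex.mul_re, Complex.mul_im, Complex.ofReal_re, Complex.ofReal_im]; ring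
    rw [h3, dt_self, hcdef]
    field_simp
  rw [hdt] at h9
  have h4 := hd4 Q _ i₀ hv' hr2.1
  have hm : Q.ct p₀ ((c : ℂ) * (p₁ - p₀)) i₀ ∈ cts Q p₀ ((c : ℂ) * (p₁ - p₀)) word := by
    rw [hword]; simp [cts]
  exact h4.trans ((hle _ hm).trans h9.2.le)

end Pool.Agent.FAN
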