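import Pool.Agent.FAN2.H_ANT
import Pool.Agent.FAN2.H_CLA

/-!
# FAN2, block H: SPL (helper15)
-/

set_option autoImplicit false

open scoped ComplexConjugate
open MeasureTheory Set

namespace Pool.Agent.FAN

theorem hspl_union (S : TriSys) (A B : S.R → Set (ℝ × ℂ)) :
    mm S (fun r => A r ∪ B r) ≤ mm S A + mm S B := by
  unfold mm
  rw [← Finset.sum_add_distrib]
  refine Finset.sum_le_sum fun r _ => ?_
  rw [Set.union_inter_distrib_right]
  exact measure_union_le _ _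

theorem h_SPL (h1 : Sh_NOW) : Sh_SPL := by
  intro S w t n ht htn
  refine (hant_mono S (EvH S w t) (fun r => EvH S w n r ∪ EvD S w t n r)
    (fun r => {p | ¬ ∃ js, PW S r p.2 (ev p.1) (1 + n) js})
    (h1 S (1 + n) (by linarith)) fun r p hp => ?_).trans (hspl_union S _ _)
  by_cases hz : ∃ js, PW S r p.2 (ev p.1) (1 + n) js
  · left
    obtain ⟨js₂, hjs₂⟩ := hz
    obtain ⟨js, js', hp1, hp2, hc1, hc2⟩ := hp
    obtain ⟨l, rfl⟩ := (b_MON S r p.2 (ev p.1) (1 + t) (1 + n) (js ++ js') js₂ (by linarith)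
      hp2 hjs₂).1
    rw [List.append_assoc] at hjs₂
    by_cases hw : w ≤ clr (endP (Pl.home S r) js) (js' ++ l) p.2 (ev p.1)
    · exact Or.inl ⟨js, js' ++ l, hp1, hjs₂, hc1, hw⟩
    · exact Or.inr ⟨js, js', l, hp1, hp2, hjs₂, hc1, hc2, not_le.1 hw⟩
  · right
    exact hz

end Pool.Agent.FAN
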