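import Pool.Agent.FAN2.HBase

/-!
# FAN2, block H, module STR: lines close to two points
-/

set_option autoImplicit false

open scoped ComplexConjugate
open MeasureTheory Set

namespace Pool.Agent.FAN

private lemma hstr_cont (z : ℂ) : Continuous fun p : ℝ × ℂ => cx (ev p.1) (z - p.2) := by
  have h1 : (fun p : ℝ × ℂ => cx (ev p.1) (z - p.2)) =
      fun p => Real.cos p.1 * (z - p.2).im - Real.sin p.1 * (z - p.2).re := rfl
  rw [h1]
  fun_prop

private lemma hstr_cont' (u : ℂ) : Continuous fun ψ : ℝ => cx (ev ψ) u := by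
  have h1 : (fun ψ : ℝ => cx (ev ψ) u) =
      fun ψ => Real.cos ψ * u.im - Real.sin ψ * u.re := rfl
  rw [h1]
  fun_prop

private lemma hstr_norm (ψ : ℝ) : ‖ev ψ‖ = 1 := by
  have h1 : ‖ev ψ‖ ^ 2 = 1 := by
    rw [Complex.sq_norm, Complex.normSq_apply]
    show Real.cos ψ * Real.cos ψ + Real.sin ψ * Real.sin ψ = 1
    nlinarith [Real.sin_sq_add_cos_sq ψ]
  have h2 : 0 ≤ ‖ev ψ‖ := norm_nonneg _
  nlinarith [h1, h2]

private lemma hstr_sub (v p q x : ℂ) : cx v (p - x) - cx v (q - x) = cx v (p - q) := by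
  unfold cx
  simp only [Complex.sub_re, Complex.sub_im]
  ring

theorem h_STR (h1 : Sh_BAN) (h2 : Sh_ARC) : Sh_STR := by
  intro S
  obtain ⟨C, hC, hban⟩ := h1 S
  refine ⟨32 * C, by positivity, ?_⟩
  intro r p₀ p₁ w l hw hl hlp
  have hrm : MeasurableSet (rm S r) := (b_OPN S r).2.2.1
  have hn : 0 < ‖p₁ - p₀‖ := hl.trans_le hlp
  have hu : p₁ - p₀ ≠ 0 := norm_pos_iff.1 hn
  have hδ : 0 < 2 * w / l := by positivity
  set Ψ : Set ℝ := {ψ : ℝ | ψ ∈ Ioc (0 : ℝ) (2 * Real.pi) ∧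
    |cx (ev ψ) (p₁ - p₀)| < 2 * w / l * ‖p₁ - p₀‖} with hΨ
  have hΨm : MeasurableSet Ψ :=
    measurableSet_Ioc.inter (isOpen_lt (hstr_cont' (p₁ - p₀)).abs continuous_const).measurableSet
  set B : Set (ℝ × ℂ) := {p | p.1 ∈ Ψ ∧ (p.2 ∈ rm S r ∧ |cx (ev p.1) (p₀ - p.2)| < w)} with hB
  have hBm : MeasurableSet B :=
    (measurable_fst hΨm).inter ((measurable_snd hrm).inter
      (isOpen_lt (hstr_cont p₀).abs continuous_const).measurableSet)
  have hsub : {p : ℝ × ℂ | |cx (ev p.1) (p₀ - p.2)| < w ∧ |cx (ev p.1) (p₁ - p.2)| < w} ∩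
      (Ioc (0 : ℝ) (2 * Real.pi) ×ˢ rm S r) ⊆ B := by
    rintro ⟨ψ, x⟩ ⟨⟨ha, hb⟩, hψ, hx⟩
    refine ⟨⟨hψ, ?_⟩, hx, ha⟩
    have e1 : cx (ev ψ) (p₁ - x) - cx (ev ψ) (p₀ - x) = cx (ev ψ) (p₁ - p₀) := hstr_sub _ _ _ _
    have e2 : |cx (ev ψ) (p₁ - p₀)| < 2 * w := by
      rw [← e1]
      calc |cx (ev ψ) (p₁ - x) - cx (ev ψ) (p₀ - x)|
          ≤ |cx (ev ψ) (p₁ - x)| + |cx (ev ψ) (p₀ - x)| := abs_sub _ _
        _ < 2 * w := by
          have := ha
          have := hb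
          simp only at ha hb
          linarith
    have e3 : 2 * w ≤ 2 * w / l * ‖p₁ - p₀‖ := by
      rw [div_mul_eq_mul_div, le_div_iff₀ hl]
      exact mul_le_mul_of_nonneg_left hlp (by positivity)
    exact e2.trans_le e3
  refine (measure_mono hsub).trans ?_
  have hvol : (volume : Measure (ℝ × ℂ)) = (volume : Measure ℝ).prod (volume : Measure ℂ) := rfl
  rw [hvol, Measure.prod_apply hBm]
  have hbound : ∀ ψ : ℝ, volume (Prod.mk ψ ⁻¹' B) ≤ Ψ.indicator (fun _ => ENNReal.ofReal (C * w)) ψ := by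
    intro ψ
    by_cases hψ : ψ ∈ Ψ
    · rw [indicator_of_mem hψ]
      refine (measure_mono ?_).trans (hban r p₀ (ev ψ) w (hstr_norm ψ) hw)
      rintro x ⟨-, hx⟩
      exact hx
    · rw [indicator_of_notMem hψ]
      have : Prod.mk ψ ⁻¹' B = ∅ := by
        ext x
        simp only [mem_preimage, mem_empty_iff_false, iff_false]
        rintro ⟨hx, -⟩
        exact hψ hx
      rw [this, measure_empty]
  calc ∫⁻ ψ, volume (Prod.mk ψ ⁻¹' B)
      ≤ ∫⁻ ψ, Ψ.indicator (fun _ => ENNReal.ofReal (C * w)) ψ := lintegral_mono hbound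
    _ = ENNReal.ofReal (C * w) * volume Ψ := lintegral_indicator_const hΨm _
    _ ≤ ENNReal.ofReal (C * w) * ENNReal.ofReal (16 * (2 * w / l)) :=
        mul_le_mul_right (h2 (p₁ - p₀) (2 * w / l) hu hδ) _
    _ = ENNReal.ofReal (32 * C * w ^ 2 / l) := by
        rw [← ENNReal.ofReal_mul (by positivity)]
        congr 1
        field_simp
        ring

end Pool.Agent.FAN
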