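import Pool.Agent.FAN2.StN

/-!
# FAN2, block N: PTW (helper5): the sum of the right hand sides at a good direction
-/

set_option autoImplicit false

open scoped ComplexConjugate
open MeasureTheory Set

namespace Pool.Agent.FAN

namespace NPTW

private lemma loc (T : ℕ → ℝ) (t : ℝ) (h0 : T 0 ≤ t) : ∀ K : ℕ, t < T K →
    ∃ n, n < K ∧ T n ≤ t ∧ t < T (n + 1) := by
  intro K
  induction K with
  | zero => intro h; exact absurd h (not_lt.2 h0)
  | succ K ih =>
    intro h
    rcases lt_or_ge t (T K) with h1 | h1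
    · obtain ⟨n, hn, h2⟩ := ih h1
      exact ⟨n, by omega, h2⟩
    · exact ⟨K, by omega, h1, h⟩

/-- the step function is integrable and its integral over a late unit interval is large -/
private lemma tail (T k : ℕ → ℝ) (D : ℝ → ℝ) (K : ℕ) (B a : ℝ) (hT0 : T 0 = 0)
    (hT : ∀ n, T n < T (n + 1)) (hk : Monotone k) (hk0 : ∀ n, 0 ≤ k n)
    (hD : ∀ n s, T n < s → s < T (n + 1) → D s = k n) (hB : 0 ≤ B) (ha : B ≤ a)
    (hK : a + 1 ≤ T K) :
    ∑ n ∈ Finset.range K, (if T (n + 1) ≤ B then k (n + 1) - k n else 0) ≤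
      ∫ t in a..(a + 1), D t := by
  have hmono : StrictMono T := strictMono_nat_of_lt_succ hT
  have hint : IntervalIntegrable D volume (T 0) (T K) := by
    apply IntervalIntegrable.trans_iterate
    intro n _
    have h1 : IntervalIntegrable (fun _ : ℝ => k n) volume (T n) (T (n + 1)) :=
      intervalIntegrable_const
    refine h1.congr_uIoo ?_
    intro s hs
    rw [uIoo_of_le (hT n).le] at hs
    exact (hD n s hs.1 hs.2).symm
  have hint' : IntervalIntegrable D volume a (a + 1) := by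
    apply hint.mono_set
    rw [uIcc_of_le (by linarith), uIcc_of_le (hmono.monotone (Nat.zero_le K))]
    exact Icc_subset_Icc (by rw [hT0]; linarith) hK
  have key : ∀ N, T N ≤ B → k N ≤ ∫ t in a..(a + 1), D t := by
    intro N hN
    have h1 : ∫ _t in a..(a + 1), k N = k N := by
      rw [intervalIntegral.integral_const, add_sub_cancel_left, one_smul]
    rw [← h1]
    apply intervalIntegral.integral_mono_ae_restrict (by linarith) intervalIntegrable_const hint'
    have h2 : ∀ᵐ t ∂(volume.restrict (Icc a (a + 1))), t ∉ range T :=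
      ae_restrict_of_ae ((countable_range T).ae_notMem volume)
    have h3 : ∀ᵐ t ∂(volume.restrict (Icc a (a + 1))), t ∈ Icc a (a + 1) :=
      ae_restrict_mem measurableSet_Icc
    filter_upwards [h2, h3] with t ht ht'
    have h4 : t ≠ T K := fun h => ht ⟨K, h.symm⟩
    have h5 : t < T K := lt_of_le_of_ne (ht'.2.trans hK) h4
    obtain ⟨n, -, h6, h7⟩ := loc T t (by rw [hT0]; linarith [ht'.1]) K h5
    have h8 : T n ≠ t := fun h => ht ⟨n, h⟩
    have h9 : T n < t := lt_of_le_of_ne h6 h8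
    rw [hD n t h9 h7]
    apply hk
    have h10 : T N < T (n + 1) := by linarith [ht'.1]
    have h11 := hmono.lt_iff_lt.1 h10
    omega
  have main : ∀ m, (T m ≤ B → ∑ n ∈ Finset.range m,
      (if T (n + 1) ≤ B then k (n + 1) - k n else 0) ≤ k m) ∧
      ∑ n ∈ Finset.range m, (if T (n + 1) ≤ B then k (n + 1) - k n else 0) ≤
        ∫ t in a..(a + 1), D t := by
    intro m
    induction m with
    | zero =>
      simp only [Finset.range_zero, Finset.sum_empty]
      exact ⟨fun _ => hk0 0, (hk0 0).trans (key 0 (by rw [hT0]; exact hB))⟩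
    | succ m ih =>
      rw [Finset.sum_range_succ]
      by_cases h : T (m + 1) ≤ B
      · rw [if_pos h]
        have h1 := ih.1 ((hT m).le.trans h)
        have h2 : ∑ n ∈ Finset.range m, (if T (n + 1) ≤ B then k (n + 1) - k n else 0) +
            (k (m + 1) - k m) ≤ k (m + 1) := by linarith
        exact ⟨fun _ => h2, h2.trans (key (m + 1) h)⟩
      · rw [if_neg h, add_zero]
        exact ⟨fun h' => absurd h' h, ih.2⟩
  exact (main K).2

end NPTW

theorem n_PTW (h1 : Sa_UNI) (h2 : Sa_CLV) (h3 : Sa_CLS) (h4 : Sf_FAR) (h5 : Sf_WDP) (h6 : Sf_TMB)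
    (h7 : Sf_STP) (h8 : Sn_KER) : Sn_PTW := by
  intro S D₀ hD
  obtain ⟨C₁, hC₁, hTB⟩ := h6 S
  have hD1 : 1 ≤ D₀ := hD.1
  have hD0 : 0 < D₀ := by linarith
  refine ⟨2 * D₀ ^ 2, by nlinarith, ?_⟩
  intro r x ψ s M K hx hNH hs hM
  obtain ⟨-, hW⟩ := h5 S r x (ev ψ) hx
  have hW' := hW hNH
  obtain ⟨kfac, -, kmono, -⟩ := h8 s hs
  have hev : ‖ev ψ‖ = 1 := by
    have h : ‖ev ψ‖ ^ 2 = 1 := by
      rw [Complex.sq_norm, Complex.normSq_apply]
      simp only [ev]
      nlinarith [Real.sin_sq_add_cos_sq ψ]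
    have h0 := norm_nonneg (ev ψ)
    nlinarith
  set T : ℕ → ℝ := fun n => tm S r x (ev ψ) (wd S r x (ev ψ) n) with hTdef
  set e : ℕ → ℝ := fun n => ee S r x (wd S r x (ev ψ) n) ψ with hedef
  set k : ℕ → ℝ := fun n => kp s (e n) with hkdef
  have hT0 : T 0 = 0 := by
    simp only [hTdef, wd, tm, if_true]
  have hTmono : ∀ n, T n < T (n + 1) := fun n => (hW' n).2.2.2.1
  have he0 : ∀ n, 0 ≤ e n := fun n => (h2 S (wd S r x (ev ψ) n) (Pl.home S r) x (ev ψ)).2.2.1
  have hestep : ∀ n, e (n + 1) ≤ e n := by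
    intro n
    obtain ⟨j, hj⟩ := (hW' n).2.2.1
    simp only [hedef, ee]
    rw [hj, h3]
    exact min_le_left _ _
  have hkstep : ∀ n, k n ≤ k (n + 1) := fun n => kmono _ _ (he0 (n + 1)) (hestep n)
  have hkm : Monotone k := monotone_nat_of_le_succ hkstep
  have hk0 : ∀ n, 0 ≤ k n := fun n => (kfac (e n)).1.le
  have hDD : ∀ n t, T n < t → t < T (n + 1) → kp s (DD S r x (ev ψ) t) = k n := by
    intro n t hs1 hs2
    have ha := (hW' n).2.2.2.2.1 t hs1 hs2
    rw [(h1 S r x (ev ψ) t _ _ ha ha).2.1]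
    rfl
  have hTpos : ∀ n, 0 ≤ T n := by
    intro n
    induction n with
    | zero => rw [hT0]
    | succ n ih => linarith [hTmono n]
  -- a large index
  obtain ⟨K', hKK', hK'⟩ : ∃ K' : ℕ, K ≤ K' ∧ M + 2 * D₀ ^ 2 + 1 ≤ T K' := by
    refine ⟨max K ⌈C₁ * (1 + (M + 2 * D₀ ^ 2 + 1))⌉₊, le_max_left _ _, ?_⟩
    have ha := hTB r x (ev ψ) (max K ⌈C₁ * (1 + (M + 2 * D₀ ^ 2 + 1))⌉₊) hx hev hNH
    have hb : C₁ * (1 + (M + 2 * D₀ ^ 2 + 1)) ≤
        ((max K ⌈C₁ * (1 + (M + 2 * D₀ ^ 2 + 1))⌉₊ : ℕ) : ℝ) := by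
      refine (Nat.le_ceil _).trans ?_
      exact_mod_cast le_max_right _ _
    have hc : C₁ * (1 + (M + 2 * D₀ ^ 2 + 1)) ≤
        C₁ * (1 + T (max K ⌈C₁ * (1 + (M + 2 * D₀ ^ 2 + 1))⌉₊)) := hb.trans ha
    have hd := le_of_mul_le_mul_left hc (by linarith)
    linarith
  have hMK' : M ≤ T K' := by nlinarith
  obtain ⟨-, s2, -, -⟩ := h7 T k (fun t => kp s (DD S r x (ev ψ) t)) K' M hM hT0 hTmono hDD hMK'
  have htail := NPTW.tail T k (fun t => kp s (DD S r x (ev ψ) t)) K' (M + D₀) (M + 2 * D₀ ^ 2)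
    hT0 hTmono hkm hk0 hDD (by linarith) (by nlinarith) hK'
  -- the bound at one node
  have hnode : ∀ n, RK S r x D₀ s M (wd S r x (ev ψ) (n + 1)) ψ ≤
      T (n + 1) * max 0 (M - T (n + 1)) * (k (n + 1) - k n) +
      2 * D₀ * (M + D₀) * (if T (n + 1) ≤ M + D₀ then k (n + 1) - k n else 0) := by
    intro n
    obtain ⟨j, hj⟩ := (hW' n).2.2.1
    have hrun : Run (Pl.home S r) x (ev ψ) (wd S r x (ev ψ) n ++ [j]) := by
      rw [← hj]; exact (hW' (n + 1)).1
    have hF := h4 S D₀ hD r x hx (wd S r x (ev ψ) n) j ψ hrun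
    rw [← hj] at hF
    obtain ⟨-, f2, -⟩ := hF
    have hdl : (wd S r x (ev ψ) (n + 1)).dropLast = wd S r x (ev ψ) n := by
      rw [hj, List.dropLast_concat]
    have e1 : RK S r x D₀ s M (wd S r x (ev ψ) (n + 1)) ψ =
        (k (n + 1) - k n) * (‖apx S r (wd S r x (ev ψ) (n + 1)) - x‖ * max 0 (M - T (n + 1)) +
          D₀ * T (n + 1) * (if T (n + 1) ≤ M + D₀ then 1 else 0)) := by
      unfold RK
      rw [hdl]
      rfl
    rw [e1]
    have hρ : ‖apx S r (wd S r x (ev ψ) (n + 1)) - x‖ ≤ T (n + 1) + D₀ := by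
      have := (abs_le.1 f2).2
      linarith
    have hm0 : 0 ≤ max 0 (M - T (n + 1)) := le_max_left _ _
    have hdk : 0 ≤ k (n + 1) - k n := by linarith [hkstep n]
    have hTn := hTpos (n + 1)
    have g1 : ‖apx S r (wd S r x (ev ψ) (n + 1)) - x‖ * max 0 (M - T (n + 1)) ≤
        (T (n + 1) + D₀) * max 0 (M - T (n + 1)) := mul_le_mul_of_nonneg_right hρ hm0
    have g2 : ‖apx S r (wd S r x (ev ψ) (n + 1)) - x‖ * max 0 (M - T (n + 1)) +
        D₀ * T (n + 1) * (if T (n + 1) ≤ M + D₀ then 1 else 0) ≤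
        T (n + 1) * max 0 (M - T (n + 1)) +
          2 * D₀ * (M + D₀) * (if T (n + 1) ≤ M + D₀ then 1 else 0) := by
      by_cases h : T (n + 1) ≤ M + D₀
      · rw [if_pos h, mul_one, mul_one]
        have g3 : max 0 (M - T (n + 1)) ≤ M := max_le hM (by linarith)
        nlinarith [mul_le_mul_of_nonneg_left g3 hD0.le, mul_le_mul_of_nonneg_left h hD0.le]
      · rw [if_neg h, mul_zero, mul_zero, add_zero, add_zero]
        have g4 : max 0 (M - T (n + 1)) = 0 := max_eq_left (by linarith [not_le.1 h])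
        rw [g4, mul_zero, mul_zero]
    have g5 := mul_le_mul_of_nonneg_left g2 hdk
    refine g5.trans (le_of_eq ?_)
    by_cases h : T (n + 1) ≤ M + D₀
    · rw [if_pos h, if_pos h]; ring
    · rw [if_neg h, if_neg h]; ring
  have hpos : ∀ n, 0 ≤ T (n + 1) * max 0 (M - T (n + 1)) * (k (n + 1) - k n) +
      2 * D₀ * (M + D₀) * (if T (n + 1) ≤ M + D₀ then k (n + 1) - k n else 0) := by
    intro n
    have hdk : 0 ≤ k (n + 1) - k n := by linarith [hkstep n]
    have hm0 : 0 ≤ max 0 (M - T (n + 1)) := le_max_left _ _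
    have hTn := hTpos (n + 1)
    have h10 : 0 ≤ (if T (n + 1) ≤ M + D₀ then k (n + 1) - k n else 0) := by
      split_ifs
      · exact hdk
      · exact le_refl _
    positivity
  have hsum : ∑ n ∈ Finset.range K, RK S r x D₀ s M (wd S r x (ev ψ) (n + 1)) ψ ≤
      ∑ n ∈ Finset.range K', (T (n + 1) * max 0 (M - T (n + 1)) * (k (n + 1) - k n) +
      2 * D₀ * (M + D₀) * (if T (n + 1) ≤ M + D₀ then k (n + 1) - k n else 0)) := by
    refine (Finset.sum_le_sum fun n _ => hnode n).trans ?_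
    exact Finset.sum_le_sum_of_subset_of_nonneg (Finset.range_mono hKK') fun n _ _ => hpos n
  rw [Finset.sum_add_distrib, ← Finset.mul_sum] at hsum
  have hs2 : ∑ n ∈ Finset.range K', T (n + 1) * max 0 (M - T (n + 1)) * (k (n + 1) - k n) =
      ∫ t in (0 : ℝ)..M, (2 * t - M) * kp s (DD S r x (ev ψ) t) := by
    have e2 : ∑ n ∈ Finset.range K', T (n + 1) * max 0 (M - T (n + 1)) * (k (n + 1) - k n) =
        -∑ n ∈ Finset.range K', T (n + 1) * max 0 (M - T (n + 1)) * (k n - k (n + 1)) := by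
      rw [← Finset.sum_neg_distrib]
      exact Finset.sum_congr rfl fun n _ => by ring
    rw [e2, ← s2, ← intervalIntegral.integral_neg]
    congr 1
    funext t
    ring
  rw [hs2] at hsum
  have hA0 : 0 ≤ ∑ n ∈ Finset.range K', (if T (n + 1) ≤ M + D₀ then k (n + 1) - k n else 0) := by
    refine Finset.sum_nonneg fun n _ => ?_
    split_ifs
    · linarith [hkstep n]
    · exact le_refl _
  have hc : 2 * D₀ * (M + D₀) ≤ 2 * D₀ ^ 2 * (M + 1) := by nlinarith [mul_nonneg hM hD0.le]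
  have hfin : 2 * D₀ * (M + D₀) *
      ∑ n ∈ Finset.range K', (if T (n + 1) ≤ M + D₀ then k (n + 1) - k n else 0) ≤
      2 * D₀ ^ 2 * (M + 1) *
        ∫ t in (M + 2 * D₀ ^ 2)..(M + 2 * D₀ ^ 2 + 1), kp s (DD S r x (ev ψ) t) :=
    mul_le_mul hc htail hA0 (by positivity)
  linarith

end Pool.Agent.FAN
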