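import Pool.Agent.FAN2.Defs

/-!
# FAN2, block C: pure calculus (helper22). Statements with complete proofs.

Write `theorem c_X : Sc_X` in `Pool/Agent/FAN2/C_X.lean`, namespace `Pool.Agent.FAN`, with the hypotheses
named after USES. Everything here is real analysis; only `Defs.lean` is imported (for `Si_CAL`).

Idea: `u = U s`, `cS u M = ∫_0^M (M - t) u`, `cQ u M = ∫_0^M N u`; `d/dM (cS / M) = cQ / M²`, and the hypothesis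
of `Si_CAL` is a lower bound for the growth of `cQ` in `log (1/s)` by `cS`. Iterating `k` times one gets
`cS / M ≥ c X^k Y^k / (k!)²` with `X = log M`, `Y = log (1/s)`, that is about `exp (2 √(X Y))`.
-/

set_option autoImplicit false

open MeasureTheory Set

namespace Pool.Agent.FAN

/-- `∫_0^M (M - t) u t dt` -/
noncomputable def cS (u : ℝ → ℝ) (M : ℝ) : ℝ := ∫ t in (0 : ℝ)..M, (M - t) * u t

/-- `∫_0^M N u N dN` -/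
noncomputable def cQ (u : ℝ → ℝ) (M : ℝ) : ℝ := ∫ N in (0 : ℝ)..M, N * u N

/-- CAF. Facts on `cS`, `cQ` for one monotone function. No hypotheses.
Proof. `u` is monotone on `[0, ∞)`, so interval integrable on `[0, M]` (`MonotoneOn.intervalIntegrable`), and so are
its products with continuous functions. (1) integrand `≥ 0`. (2) `u t ≤ u M`, `∫_0^M (M - t) = M²/2`.
(3) `u t ≥ u 0`. (4) restrict to `[M/4, M/2]`: there `M - t ≥ M/2`, `u t ≥ u (M/4)`. (5) linearity: for `u, v`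
both monotone the integral of the difference is the difference. (6) Let `I M = ∫_0^M u`. Then
`cS u M = ∫_0^M I` and `cQ u M = M I M - cS u M` (Fubini, or integration by parts; a way without Fubini: let
`D M = cS u M - ∫_0^M I`; for `M < M'`: `cS u M' - cS u M - (M' - M) I M = ∫_M^(M') (M' - t) u t ∈ [0, (M'-M)² u M']` and
the same for `∫ I`, so `|D M' - D M| ≤ (M' - M)² u B` on `[0, B]`, so `D` has derivative `0`, `D 0 = 0`). `I` is continuous on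
`[0, ∞)`, so `cS u` is differentiable on `(0, ∞)` with derivative `I`, and `(cS u M / M)' = (M I - cS) / M² = cQ / M²`.
Fundamental theorem of calculus on `[M₁, M]` and `cS u M₁ / M₁ ≥ 0`. -/
def Sc_CAF : Prop := ∀ u : ℝ → ℝ, MonotoneOn u (Ici 0) → (∀ t, 0 ≤ t → 0 ≤ u t) →
  (∀ M : ℝ, 0 ≤ M → 0 ≤ cQ u M ∧ 0 ≤ cS u M ∧ cS u M ≤ M ^ 2 / 2 * u M ∧ M ^ 2 / 2 * u 0 ≤ cS u M ∧
    M ^ 2 / 8 * u (M / 4) ≤ cS u M) ∧
  (∀ v : ℝ → ℝ, MonotoneOn v (Ici 0) → ∀ M : ℝ, 0 ≤ M →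
    ∫ N in (0 : ℝ)..M, N * (u N - v N) = cQ u M - cQ v M) ∧
  ∀ M₁ M : ℝ, 0 < M₁ → M₁ ≤ M → IntervalIntegrable (fun N => cQ u N / N ^ 2) volume M₁ M ∧
    ∫ N in M₁..M, cQ u N / N ^ 2 ≤ cS u M / M

/-- CST. The step inequality with the error absorbed. USES CAF.
Proof. `M ≥ C ≥ 1`. By monotonicity and doubling `U s' (M + C) ≤ U s' (2 M) ≤ 2 U s' M = 2 U s' (2 (M/2)) ≤ 4 U s' (M/2)
≤ 8 U s' (M/4) ≤ (64 / M²) cS (U s') M` (CAF (4)). So `C (M + 1) U s' (M + C) ≤ C * 2 M * (64 / M²) * cS = (128 C / M) cS`. The right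
side of the hypothesis is `cQ (U s) M - cQ (U s') M` (CAF (5)); `1 - s / s' ≥ 0`. -/
def Sc_CST : Prop := ∀ (U : ℝ → ℝ → ℝ) (C : ℝ), 1 ≤ C →
  (∀ s N : ℝ, 0 < s → s ≤ 1 → 0 ≤ N → 0 ≤ U s N) →
  (∀ s : ℝ, 0 < s → s ≤ 1 → MonotoneOn (U s) (Ici 0)) →
  (∀ s N : ℝ, 0 < s → s ≤ 1 → 0 ≤ N → U s (2 * N) ≤ 2 * U s N) →
  (∀ s s' M : ℝ, 0 < s → s ≤ s' → s' ≤ 1 → 0 ≤ M →
    (1 - s / s') * ((∫ t in (0 : ℝ)..M, (M - t) * U s' t) - C * (M + 1) * U s' (M + C)) ≤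
      ∫ N in (0 : ℝ)..M, N * (U s N - U s' N)) →
  ∀ s s' M : ℝ, 0 < s → s ≤ s' → s' ≤ 1 → C ≤ M →
    (1 - s / s') * ((1 - 128 * C / M) * cS (U s') M) ≤ cQ (U s) M - cQ (U s') M

/-- CIN. The iteration. USES CAF. (`s_j = exp (- (h j))`.)
Proof. Induction on `k`, for all `j`, `M`. `k = 0`: `cS (U s) M ≥ M²/2 * U s 0 ≥ M²/2 * c / √s ≥ M * (c/2)` (CAF (3), `s ≤ 1`, `M ≥ 1`).
Step: let `N ∈ [M₁, M]`. The hypothesis with `s = s_(i+1)`, `s' = s_i` (`s / s' = exp (-h)`) and `1 - K / N ≥ 1 - K / M₁`,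
`cS ≥ 0` give `cQ (U s_(i+1)) N - cQ (U s_i) N ≥ lam * cS (U s_i) N`; sum over `i < j` (telescoping, `cQ ≥ 0`) and use the
induction hypothesis `cS (U s_i) N ≥ N * (c/2) (lam log (N/M₁))^k / k! * (i choose k)`, and
`∑_{i<j} (i choose k) = (j choose (k+1))` (`Nat.sum_range_choose_eq..` or induction on `j`, Pascal):
`cQ (U s_j) N / N² ≥ (1/N) (c/2) lam^(k+1) (log (N/M₁))^k / k! * (j choose (k+1))`. Integrate over `[M₁, M]`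
(CAF (6) on the left; `∫_{M₁}^M (log (N/M₁))^k / N = (log (M/M₁))^(k+1) / (k+1)`, the derivative of
`(log (N/M₁))^(k+1) / (k+1)`). -/
def Sc_CIN : Prop := ∀ (U : ℝ → ℝ → ℝ) (c K h lam M₁ : ℝ), 0 < c → 0 < h → 0 ≤ K → 0 ≤ lam → 1 ≤ M₁ →
  lam ≤ (1 - Real.exp (-h)) * (1 - K / M₁) →
  (∀ s N : ℝ, 0 < s → s ≤ 1 → 0 ≤ N → 0 ≤ U s N) →
  (∀ s : ℝ, 0 < s → s ≤ 1 → MonotoneOn (U s) (Ici 0)) →
  (∀ s : ℝ, 0 < s → s ≤ 1 → c / √s ≤ U s 0) →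
  (∀ s s' M : ℝ, 0 < s → s ≤ s' → s' ≤ 1 → M₁ ≤ M →
    (1 - s / s') * ((1 - K / M) * cS (U s') M) ≤ cQ (U s) M - cQ (U s') M) →
  ∀ (k j : ℕ) (M : ℝ), M₁ ≤ M →
    c / 2 * ((lam * Real.log (M / M₁)) ^ k / (k.factorial : ℝ) * (j.choose k : ℝ)) ≤
      cS (U (Real.exp (-(h * j)))) M / M

/-- CBI. Stirling. No hypotheses.
Proof. `(j choose k) ≥ (j - k)^k / k!` (`Nat.pow_sub_le_descFactorial`, `Nat.descFactorial_eq_factorial_mul_choose`), so the right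
side is `≥ (Λ (j - k))^k / (k!)² ≥ k^(2k) / (k!)²`, and `k! * exp k ≤ exp 1 * (k + 1) * k^k` (with `0^0 = 1`), by induction:
the step `k → k + 1` for `k ≥ 1` needs `exp 1 * (k + 1) * k^k ≤ (k + 2) * (k + 1)^k`, i.e.
`1 ≤ k log (1 + 1/k) + log (1 + 1/(k+1))`, and `log (1 + x) ≥ 2 x / (x + 2)` (`Real.le_log_one_add_of_nonneg`) gives
`2k/(2k+1) + 2/(2k+3) ≥ 1`. -/
def Sc_CBI : Prop := ∀ (k j : ℕ) (Λ : ℝ), k ≤ j → 0 ≤ Λ → (k : ℝ) ^ 2 ≤ Λ * ((j : ℝ) - k) →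
  Real.exp (2 * k) / (Real.exp 2 * ((k : ℝ) + 1) ^ 2) ≤ Λ ^ k / (k.factorial : ℝ) * (j.choose k : ℝ)

/-- CPA. Choice of the exponents. No hypotheses.
Proof. Let `φ = (1 + √5)/2`, `x₁ = (5 + √5)/10`, `o₁ = (5 + 2√5)/10`, `t₁ = (5 + 3√5)/10`. Then `t₁² = 2 x₁ o₁` (both are
`(70 + 30 √5)/100`), `2 t₁ - x₁ = φ`, `x₁ + 2 o₁ = φ + 1`, `x₁ < 1`, `o₁ < 1 < φ`, `t₁ < 2`. For `a < 1` close to `1` let `x = a x₁`,
`o = a o₁`, `θ = b t₁`, `b = a - (1 - a)/8`. (i) `θ² < a² t₁² = 2 x o`. (ii) `2 θ - x = a φ - (1 - a) t₁ / 4 ≥ a φ - (1 - a)/2`.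
(iii) `x - 1 + 2 o = a φ - (1 - a) < 2 θ - x`. (iv) `a φ - (1 - a)/2 > γ` and `> o₁ ≥ o` for `a` close to `1`, because its limit
is `φ > γ, o₁`: e.g. `a = 1 - d` with `d (φ + 1/2) < min (φ - γ) (φ - o₁)`, `d ≤ 1/2`. -/
def Sc_CPA : Prop := ∀ γ : ℝ, γ < (1 + √5) / 2 → ∃ x o θ : ℝ, 0 < x ∧ x ≤ 1 ∧ 0 < o ∧ 0 < θ ∧
  θ ^ 2 < 2 * x * o ∧ γ < 2 * θ - x ∧ x - 1 + 2 * o < 2 * θ - x ∧ o < 2 * θ - x

/-- CPH. Choice of the step. No hypotheses.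
Proof. For `h → 0+`, `η → 0+`: `x (1 - η) (1 - exp (-h)) (2 o / h - θ) → 2 x o > θ²` (`(1 - exp (-h)) / h → 1`; explicitly
`1 - exp (-h) ≥ h - h²/2 ≥ h (1 - h)` for `0 ≤ h ≤ 1`, so it is enough that `θ² < x (1 - η) (1 - h) (2 o - h θ)`, a polynomial
in `h = η`, continuous at `0`). -/
def Sc_CPH : Prop := ∀ x o θ : ℝ, 0 < x → 0 < o → 0 < θ → θ ^ 2 < 2 * x * o →
  ∃ h η : ℝ, 0 < h ∧ 0 < η ∧ η < 1 ∧
    θ ^ 2 < x * ((1 - η) * (1 - Real.exp (-h))) * (2 * o / h - θ)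

/-- CAS. The asymptotic step. No hypotheses. (`L = log n`, `j = ⌊2 o L / h⌋₊`, `k = ⌊θ L⌋₊`, `Λ = lam log (n^x / M₁)`.)
Proof. `j > 2 o L / h - 1`, `k ≤ θ L`, so `j - k ≥ (2 o / h - θ) L - 1` and `Λ = lam (x L - log M₁)`; the product is
`lam x (2 o / h - θ) L² - O(L)`, larger than `θ² L² ≥ k²` for large `L` (note `2 o / h - θ > 0`, `lam > 0` because the
product is `> θ² > 0` and `lam ≥ 0`). -/
def Sc_CAS : Prop := ∀ x o θ h lam M₁ : ℝ, 0 < x → 0 < o → 0 < θ → 0 < h → 0 ≤ lam → 1 ≤ M₁ →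
  θ ^ 2 < x * lam * (2 * o / h - θ) →
  ∀ᶠ n : ℝ in Filter.atTop, M₁ ≤ n ^ x ∧ 0 ≤ lam * Real.log (n ^ x / M₁) ∧
    ⌊θ * Real.log n⌋₊ ≤ ⌊2 * o * Real.log n / h⌋₊ ∧
    ((⌊θ * Real.log n⌋₊ : ℕ) : ℝ) ^ 2 ≤ lam * Real.log (n ^ x / M₁) *
      (((⌊2 * o * Real.log n / h⌋₊ : ℕ) : ℝ) - ((⌊θ * Real.log n⌋₊ : ℕ) : ℝ))

/-- CLG. Powers beat logarithms. No hypotheses.
Proof. `(L + 1)^m = o(n^ε)` (`isLittleO_log_rpow_atTop` and its powers), `e < b` etc. -/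
def Sc_CLG : Prop := ∀ (γ a b₁ b₂ c C o x θ : ℝ), 0 < c → 0 < C → 0 < o → 0 < x → 0 < θ → γ < a → b₁ < a → b₂ < a →
  ∀ᶠ n : ℝ in Filter.atTop,
    n ^ γ * (C * ((1 + 2 * o * Real.log n) * (1 + x * Real.log n))) + C * n ^ b₁ + C * n ^ b₂ <
      c * n ^ a / (θ * Real.log n + 1) ^ 2

/-- CFI. The final assembly, mine (helper22). USES CAF, CST, CIN, CBI, CPA, CPH, CAS, CLG. -/
def Sc_CFI : Prop := Si_CAL

end Pool.Agent.FAN
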