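import Pool.Agent.FAN2.Defs

/-!
# FAN2, blocks N and U: the fan inequality for the kernel `k(y) = 1 / (y² + s)` (helper17).
Statements with complete proofs.

Write `theorem n_X : Sn_X` in `Pool/Agent/FAN2/N_X.lean`, namespace `Pool.Agent.FAN`. A statement may use
other statements (of FAN/StA, StF, StM and of this file) as hypotheses (`theorem n_X (h : Sn_Y) : Sn_X`);
say which ones. Many proofs are copies of the corresponding files `Pool/Agent/FAN/F_*.lean`, `M_*.lean`.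
-/

set_option autoImplicit false

open scoped ComplexConjugate
open MeasureTheory Set

namespace Pool.Agent.FAN

/-- `|k'|` of the clearance times the absolute value of the derivative of half its square -/
noncomputable def bk (S : TriSys) (r : S.R) (x : ℂ) (s : ℝ) (js : List (ZMod 3)) (ψ : ℝ) : ℝ :=
  kd s (ee S r x js ψ) * bb S r x js ψ

/-- left hand side at one node -/
noncomputable def LK (S : TriSys) (r : S.R) (x : ℂ) (s M : ℝ) (js : List (ZMod 3)) (ψ : ℝ) : ℝ :=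
  (bk S r x s js ψ - bk S r x s js.dropLast ψ) * om S r x M js ψ

open Classical in
/-- right hand side at one node -/
noncomputable def RK (S : TriSys) (r : S.R) (x : ℂ) (D₀ s M : ℝ) (js : List (ZMod 3)) (ψ : ℝ) : ℝ :=
  (kp s (ee S r x js ψ) - kp s (ee S r x js.dropLast ψ)) *
    (‖apx S r js - x‖ * om S r x M js ψ +
      D₀ * tm S r x (ev ψ) js * (if tm S r x (ev ψ) js ≤ M + D₀ then 1 else 0))

/-- KER. The kernel. Proof. Direct; `kp s y - kp s z = (z - y)(z + y) / ((y²+s)(z²+s))`;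
`HasDerivAt (kp s) (-(kd s y)) y`; `y kd s y = 2 y²/(y²+s)² = 2 kp - 2 s kp²`;
`kp s y - kp s' y = (s' - s) kp s y * kp s' y ≥ (s' - s) (kp s' y)²`. Lipschitz: `|kp'| = kd ≤ 1/(s √s)`
(`2 |y| √s ≤ y² + s`), `|kd'| ≤ 10 / s²` (mean value theorem, `Convex.norm_image_sub_le_of_norm_deriv_le`, or any other
constants). -/
def Sn_KER : Prop := ∀ s : ℝ, 0 < s →
  (∀ y, 0 < kp s y ∧ kp s y ≤ 1 / s ∧ HasDerivAt (kp s) (-(kd s y)) y ∧
    y * kd s y = 2 * kp s y - 2 * s * kp s y ^ 2 ∧ |kd s y| ≤ 1 / (s * √s) ∧ y * kd s y ≤ 2 * kp s y) ∧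
  (∀ y, 0 ≤ y → 0 ≤ kd s y) ∧ (∀ y z, 0 ≤ y → y ≤ z → kp s z ≤ kp s y) ∧
  Continuous (kp s) ∧ Continuous (kd s) ∧ (∃ K, LipschitzWith K (kp s)) ∧ (∃ K, LipschitzWith K (kd s)) ∧
  ∀ s' y, s ≤ s' → kp s' y ≤ kp s y ∧ (s' - s) * kp s' y ^ 2 ≤ kp s y - kp s' y ∧
    kp s y ≤ s' / s * kp s' y

/-- PIE. The node inequality on a piece on which `g ψ = ρ |sin (ψ - θ)|` is monotone.
Notation `f₁ = min f g`, `U = f₁ (k(f₁) - k(f)) ≥ 0` (`k = kp s`, `k' = - kd s`).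
Proof. `g, f₁, f₁²/2, f²/2, U, w` are Lipschitz on `[a, b]`, so a.e. differentiable and absolutely continuous
(`AbsolutelyContinuousOnInterval`). At a point `ψ` of differentiability of `f, f₁, w` and `g` (interior): CLAIM
`kd(f₁) |(f₁²/2)'| - kd(f) |(f²/2)'| ≤ τ U' + ρ (k(f₁) - k(f))`, `τ = -1` in the first case (`g` increasing), `τ = 1` in
the second. Here `(f²/2)' = f f'`. (i) `g < f` at `ψ`: `f₁ = g` near `ψ`,
`U' = g' (k(g) - k(f)) - g kd(g) g' + g kd(f) f'`. First case: `g' ≥ 0`, so `kd(g) g g' = - U' + g' (k(g) - k(f)) + g kd(f) f'`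
and `g' ≤ ρ`, `g kd(f) f' ≤ f kd(f) |f'|`. Second case: `g' ≤ 0`, `kd(g) g |g'| = U' + |g'| (k(g) - k(f)) - g kd(f) f'`.
(ii) `f < g`: `f₁ = f` near `ψ`, `U = 0` near `ψ`: all is `0`. (iii) `f = g`: `f₁ ≤ f` with equality at `ψ`, so
`f₁' = f'`; `U ≥ 0` has a minimum `0` at `ψ`, `U' = 0`; the left side is `0`.
Multiply by `w ≥ 0` and integrate: `∫ τ U' w = τ (U b w b - U a w a) - τ ∫ U w'`. First case: `U a = 0` (`f₁ a = 0`),
`- U b w b ≤ 0`; second case `U b = 0`. `|∫ U w'| ≤ ∫ U |w'|` and `U ≤ (k(f₁) - k(f)) f`. -/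
def Sn_PIE : Prop := ∀ (f w : ℝ → ℝ) (a b θ ρ s : ℝ), a ≤ b → 0 ≤ ρ → 0 < s →
  (∃ K, LipschitzOnWith K f (Icc a b)) → (∃ K, LipschitzOnWith K w (Icc a b)) →
  (∀ ψ ∈ Icc a b, 0 ≤ f ψ ∧ 0 ≤ w ψ) →
  (((f a = 0 ∨ Real.sin (a - θ) = 0) ∧
      ∀ ψ ∈ Icc a b, 0 ≤ Real.sin (ψ - θ) * Real.cos (ψ - θ)) ∨
    ((f b = 0 ∨ Real.sin (b - θ) = 0) ∧
      ∀ ψ ∈ Icc a b, Real.sin (ψ - θ) * Real.cos (ψ - θ) ≤ 0)) →
  ∫ ψ in a..b,
      (kd s (min (f ψ) (ρ * |Real.sin (ψ - θ)|)) *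
          |deriv (fun t => (min (f t) (ρ * |Real.sin (t - θ)|)) ^ 2 / 2) ψ| -
        kd s (f ψ) * |deriv (fun t => f t ^ 2 / 2) ψ|) * w ψ ≤
    ρ * (∫ ψ in a..b, (kp s (min (f ψ) (ρ * |Real.sin (ψ - θ)|)) - kp s (f ψ)) * w ψ) +
      ∫ ψ in a..b, (kp s (min (f ψ) (ρ * |Real.sin (ψ - θ)|)) - kp s (f ψ)) * (f ψ * |deriv w ψ|)

/-- ONE. The one dimensional node inequality. Proof. `b₁ = θ + m π/2 ∈ [α, α + π/2)` for a unique integer
`m`, `b₂ = b₁ + π/2`. Apply PIE on `[α, min b₁ β]`, `[min b₁ β, min b₂ β]`, `[min b₂ β, β]` and add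
(`intervalIntegral.integral_add_adjacent_intervals`; all integrands are bounded and measurable on `[α, β]`).
On `[θ + n π/2, θ + (n+1) π/2]` `sin (ψ - θ) cos (ψ - θ) = sin (2 (ψ - θ)) / 2` is `≥ 0` for even `n` and `≤ 0` for odd
`n`; `sin (ψ - θ) = 0` at `θ + n π/2` for even `n`. A piece on which `g` increases (even `n`) starts at `α`
(`f α = 0`) or at an even breakpoint; a piece on which `g` decreases ends at `β` (`f β = 0`) or at an even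
breakpoint. -/
def Sn_ONE : Prop := ∀ (f w : ℝ → ℝ) (α β θ ρ s : ℝ), α ≤ β → β ≤ α + Real.pi → 0 ≤ ρ → 0 < s →
  (∃ K, LipschitzOnWith K f (Icc α β)) → (∃ K, LipschitzOnWith K w (Icc α β)) →
  (∀ ψ ∈ Icc α β, 0 ≤ f ψ ∧ 0 ≤ w ψ) → f α = 0 → f β = 0 →
  ∫ ψ in α..β,
      (kd s (min (f ψ) (ρ * |Real.sin (ψ - θ)|)) *
          |deriv (fun t => (min (f t) (ρ * |Real.sin (t - θ)|)) ^ 2 / 2) ψ| -
        kd s (f ψ) * |deriv (fun t => f t ^ 2 / 2) ψ|) * w ψ ≤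
    ρ * (∫ ψ in α..β, (kp s (min (f ψ) (ρ * |Real.sin (ψ - θ)|)) - kp s (f ψ)) * w ψ) +
      ∫ ψ in α..β, (kp s (min (f ψ) (ρ * |Real.sin (ψ - θ)|)) - kp s (f ψ)) * (f ψ * |deriv w ψ|)

/-- NODE. The fan inequality at one node. Proof (see `F_NODE.lean`). `f = ee js`, `w = om (js ++ [j])`,
`p = apx (js ++ [j])`, `ρ = ‖p - x‖`, `θ` an argument of `p - x`: `|cx (ev ψ) (p - x)| = ρ |sin (ψ - θ)|`,
`ee (js ++ [j]) = min f g` on `(α, β)` (FAR), so `bk (js ++ [j]) = kd (f₁) |(f₁²/2)'|`. If `tm > M` on the whole open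
arc then `w = 0` there and the left side is `0`; the right side is `≥ 0` (`f₁ ≤ f`, `k` decreasing, `tm > 0`).
Otherwise `tm ≤ M + D₀` on the whole open arc (FAR, the difference of two values is `≤ D₀`). ONE; by OML
`f |w'| ≤ tm D₀ / 2 ≤ D₀ tm` at the points of differentiability of `w` (a.e.: `w` is Lipschitz), so the second integral is
at most `∫ (k(f₁) - k(f)) D₀ tm`. -/
def Sn_NODE : Prop := ∀ (S : TriSys) (D₀ : ℝ), Dia S D₀ → ∀ (r : S.R) (x : ℂ), x ∈ rm S r →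
  ∀ (js : List (ZMod 3)) (j : ZMod 3) (α β s M : ℝ), 0 < s → 0 ≤ M → α < β → β < α + Real.pi →
  (∀ ψ, α < ψ → ψ < β → Run (Pl.home S r) x (ev ψ) (js ++ [j])) →
  ee S r x js α = 0 → ee S r x js β = 0 →
  ∫ ψ in α..β, LK S r x s M (js ++ [j]) ψ ≤ ∫ ψ in α..β, RK S r x D₀ s M (js ++ [j]) ψ

/-- FNI. Integrability and periodicity of the functions of a node. Proof: as `F_FNI.lean` (`kd s`, `kp s` are
continuous and bounded, KER). -/
def Sn_FNI : Prop := ∀ (S : TriSys) (D₀ : ℝ), Dia S D₀ → ∀ (r : S.R) (x : ℂ), x ∈ rm S r →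
  ∀ (js : List (ZMod 3)) (s M : ℝ), 0 < s → 0 ≤ M →
  (∀ ψ, LK S r x s M js (ψ + 2 * Real.pi) = LK S r x s M js ψ) ∧
  (∀ ψ, RK S r x D₀ s M js (ψ + 2 * Real.pi) = RK S r x D₀ s M js ψ) ∧
  (∀ a b, IntervalIntegrable (bk S r x s js) volume a b) ∧
  ∀ (j : ZMod 3) (α β : ℝ), α < β →
    (∀ ψ, α < ψ → ψ < β → Run (Pl.home S r) x (ev ψ) (js ++ [j])) →
    IntervalIntegrable (LK S r x s M (js ++ [j])) volume α β ∧
    IntervalIntegrable (RK S r x D₀ s M (js ++ [j])) volume α β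

/-- JOR. A trigonometric integral. Proof. The integrand has period `π` and is symmetric about `π / 2`: four times the
integral over `[0, π/2]`; there `sin t ≥ 2 t / π` (`Real.mul_le_sin`), and
`∫_0^(π/2) ρ dt / ((2 ρ t / π)² + s) = (π / 2) ∫_0^ρ du / (u² + s) = (π / (2 √s)) arctan (ρ / √s) ≤ π² / (4 √s)`
(`integral_one_div_one_add_sq` and substitution, or `HasDerivAt` of `arctan (2 ρ t / (π √s)) * π / (2 √s)`). -/
def Sn_JOR : Prop := ∀ (ρ s θ : ℝ), 0 ≤ ρ → 0 < s →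
  ∫ ψ in (0 : ℝ)..(2 * Real.pi), 2 * ρ * kp s (ρ * Real.sin (ψ - θ)) ≤ 2 * Real.pi ^ 2 / √s

/-- BK0. First room. Proof (CLV, LIP, KER, JOR). Let `g_i ψ = cx (ev ψ) (V i - x)`, `ρ_i = ‖V i - x‖`,
`g_i = ρ_i sin (θ_i - ψ)`. `f = ee [] = min |g_i|`. If `f²/2` is not differentiable at `ψ`, `bb = 0`. Otherwise let `i` realise the
minimum at `ψ`: `f²/2 ≤ g_i²/2` with equality at `ψ`, so `(f²/2)' = g_i g_i'`, `|g_i'| ≤ ρ_i`, and
`bk [] ψ = kd(|g_i|) |g_i| |g_i'| ≤ 2 kp (g_i) ρ_i` (KER: `y kd y ≤ 2 kp y`). So `bk [] ψ ≤ ∑ i, 2 ρ_i kp s (g_i ψ)`, and JOR. -/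
def Sn_BK0 : Prop := ∀ (S : TriSys) (r : S.R) (x : ℂ), x ∈ rm S r → ∀ s : ℝ, 0 < s →
  ∫ ψ in (0 : ℝ)..(2 * Real.pi), bk S r x s [] ψ ≤ 6 * Real.pi ^ 2 / √s

/-- PTW. The sum of the right hand sides at a good direction. Proof (see `F_PTW.lean`). `T n = tm (wd n)`,
`k n = kp s (ee (wd n))`, increasing in `n` (`ee` decreases), `0 < k n`; `kp s (DD t) = k n` for `T n < t < T (n+1)`.
`ρ ≤ T (n+1) + D₀` (FAR). So the term `n` is at most
`(k (n+1) - k n) (T (n+1) (M - T (n+1))_+ + D₀ (M - T (n+1))_+ + D₀ T (n+1) 1[T (n+1) ≤ M + D₀])`. First: STP (second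
identity, for `e = k`, `D = kp s (DD ·)`): the sum is `- ∫ (M - 2 t) k(DD t)`. Second and third: at most
`2 D₀ (M + D₀) ∑ over {n | T (n+1) ≤ M + D₀} of (k (n+1) - k n) ≤ 2 D₀ (M + D₀) k m`, `m` the largest index with
`T m ≤ M + D₀`, and `k m ≤ kp s (DD t)` for all `t > M + D₀` that are not among the `T n`, so
`k m ≤ ∫ t in (M+C)..(M+C+1)` for every `C ≥ D₀`. Choose `K' ≥ K` with `T K' ≥ M + C + 1` (TMB) to have a finite list; the terms are `≥ 0`.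
(`2 D₀ (M + D₀) ≤ C (M + 1)` for `C = 2 D₀²`.) -/
def Sn_PTW : Prop := ∀ (S : TriSys) (D₀ : ℝ), Dia S D₀ → ∃ C : ℝ, 1 ≤ C ∧
  ∀ (r : S.R) (x : ℂ) (ψ s M : ℝ) (K : ℕ), x ∈ rm S r → NH S r x (ev ψ) → 0 < s → 0 ≤ M →
  ∑ n ∈ Finset.range K, RK S r x D₀ s M (wd S r x (ev ψ) (n + 1)) ψ ≤
    (∫ t in (0 : ℝ)..M, (2 * t - M) * kp s (DD S r x (ev ψ) t)) +
      C * (M + 1) * (∫ t in (M + C)..(M + C + 1), kp s (DD S r x (ev ψ) t))

/-- PTL. The left hand side at a good direction. Proof (see `F_PTL.lean`). `kd s (DD) * SS = kd(e n) a n` on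
`(T n, T (n+1))`, `a n = clr * av ≤ bb (wd n)` (DER), `kd ≥ 0`, so `≤ bk (wd n)`; then Abel summation as in `F_PTL.lean` with `bk`
instead of `bb`. -/
def Sn_PTL : Prop := ∀ (S : TriSys) (r : S.R) (x : ℂ) (ψ s M : ℝ) (K : ℕ), x ∈ rm S r →
  NH S r x (ev ψ) → 0 < s → 0 ≤ M → M ≤ tm S r x (ev ψ) (wd S r x (ev ψ) K) →
  (∀ n, DifferentiableAt ℝ (fun t => ee S r x (wd S r x (ev ψ) n) t ^ 2 / 2) ψ) →
  ∫ N in (0 : ℝ)..M, kd s (DD S r x (ev ψ) N) * SS S r x (ev ψ) N ≤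
    M * bk S r x s [] ψ + ∑ n ∈ Finset.range K, LK S r x s M (wd S r x (ev ψ) (n + 1)) ψ

/-- FANF. The fan inequality integrated over the angle. Proof: as `F_FANF.lean`, from PTL, PTW, NODE, FNI, BK0 and
FSUM (with `Φ₁ = LK`, `Φ₂ = RK`), NHC, TMB, LIP (a.e. differentiability of the countably many `ee js ^ 2 / 2`), and
`Sm_MEA`, `Sm_BND`. The constant: `D₀` depends only on `S`; enlarge `C` (the integral over
`(M+C, M+C+1)` increases with `C` because `kp s (DD t)` is a.e. nondecreasing in `t` at a good direction; or take the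
constant of PTW at least as large as all others from the start). -/
def Sn_FANF : Prop := ∀ (S : TriSys), ∃ C : ℝ, 1 ≤ C ∧ ∀ (r : S.R) (x : ℂ), x ∈ rm S r →
  ∀ s M : ℝ, 0 < s → 0 ≤ M →
  ∫ ψ in (0 : ℝ)..(2 * Real.pi), (∫ N in (0 : ℝ)..M, kd s (DD S r x (ev ψ) N) * SS S r x (ev ψ) N) ≤
    (∫ ψ in (0 : ℝ)..(2 * Real.pi), ((∫ t in (0 : ℝ)..M, (2 * t - M) * kp s (DD S r x (ev ψ) t)) +
      C * (M + 1) * (∫ t in (M + C)..(M + C + 1), kp s (DD S r x (ev ψ) t)))) + 6 * Real.pi ^ 2 * M / √s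

/-! ## Block U -/

/-- MEK. Measurability and bounds. Proof: MEA, BND, KER (`kp`, `kd` continuous; `DD`, `SS` measurable). -/
def Sn_MEK : Prop := ∀ (S : TriSys) (s : ℝ), 0 < s →
  (∀ r, Measurable (fun p : ℂ × ℂ × ℝ => kp s (DD S r p.1 p.2.1 p.2.2)) ∧
    Measurable (fun p : ℂ × ℂ × ℝ => kd s (DD S r p.1 p.2.1 p.2.2) * SS S r p.1 p.2.1 p.2.2)) ∧
  (∀ (r : S.R) (x v : ℂ) (N : ℝ), 0 < kp s (DD S r x v N) ∧ kp s (DD S r x v N) ≤ 1 / s) ∧
  ∀ M : ℝ, 0 ≤ M → ∃ B : ℝ, ∀ (r : S.R) (x v : ℂ) (N : ℝ), ‖v‖ = 1 → 0 ≤ N → N ≤ M →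
    |kd s (DD S r x v N) * SS S r x v N| ≤ B

/-- SYK. Symmetry under reversal. Proof (see `M_SYM.lean`). `D₀` from DIA. SHF with
`G r x v = ENNReal.ofReal (kd s (DD) * (SS + D₀ * DD))`, `H r x v = ENNReal.ofReal (kd s (DD) * ((N + D₀) * DD - SS))`: PWR
gives `SS (rev) = N DD - SS`, `DD (rev) = DD`; without a word both are `0`. `kd ≥ 0`, the real functions are
`≥ 0`, bounded and measurable (MEK, BND), so the real integrals agree. -/
def Sn_SYK : Prop := ∀ (S : TriSys) (s N : ℝ), 0 < s → 0 ≤ N →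
  EE S (fun r x ψ => kd s (DD S r x (ev ψ) N) * SS S r x (ev ψ) N) =
    N / 2 * EE S (fun r x ψ => kd s (DD S r x (ev ψ) N) * DD S r x (ev ψ) N)

/-- UMO. Monotonicity of `UU`. Proof (see `M_PHA.lean`). TO1 for `G = kp s (DD ..)` (MEK). For `x ∈ rm S r` and all but
countably many `ψ` there are words for `N` and `N'` (EXI), so `DD N' ≤ DD N` (MON), `kp s` is decreasing. In `s`: KER
pointwise. -/
def Sn_UMO : Prop := ∀ S : TriSys,
  (∀ s N : ℝ, 0 < s → 0 ≤ N → 0 ≤ UU S s N) ∧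
  (∀ s : ℝ, 0 < s → MonotoneOn (UU S s) (Ici 0)) ∧
  (∀ s s' N : ℝ, 0 < s → s ≤ s' → 0 ≤ N → UU S s' N ≤ UU S s N ∧
    (s' - s) * WW S s' N ≤ UU S s N - UU S s' N) ∧
  (∀ s N : ℝ, 0 < s → 0 ≤ N → 0 ≤ WW S s N)

/-- ULB. Lower bound at `N = 0`. Proof. For `x ∈ rm S r` `PW S r x (ev ψ) 0 []` holds, so `DD ≤ |cx (ev ψ) (V 0 - x)|` (UNI, CLV;
`V` of `home`). `R = V 0 - x ≠ 0`, `‖R‖ ≤ D₀` (`D₀ ≥ 1` from DIA), `θ = arg R`: `|cx (ev ψ) R| ≤ D₀ |sin (θ - ψ)| ≤ D₀ |ψ - θ|`.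
For `|ψ - θ| ≤ √s / D₀` the kernel is `≥ 1 / (2 s)`. The function `ψ ↦ kp s (DD ..)` is `2 π`-periodic, so its integral over
`[0, 2π]` is the one over `[θ - π, θ + π]` (`Function.Periodic.intervalIntegral_add_eq`) and at least
`(2 √s / D₀) / (2 s) = 1 / (D₀ √s)` (`√s / D₀ ≤ 1 ≤ π`). Integrate over `x ∈ rm S r` (Fubini by TO1); `rm S r` has
positive measure: it is open (OPN) and contains the centroid of the triangle. `S.R` is not empty if `S` has a corner;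
so assume `Nonempty S.R`. -/
def Sn_ULB : Prop := ∀ S : TriSys, Nonempty S.R → ∃ c : ℝ, 0 < c ∧
  ∀ s : ℝ, 0 < s → s ≤ 1 → c / √s ≤ UU S s 0

/-- EDK. The integrated fan inequality. Proof (see `M_EDI.lean`). Sum FANF over `r` and integrate over `x ∈ rm S r`. Left side:
TON with `G = kd s (DD) * SS` (MEK), SYK, and `y kd y = 2 kp y - 2 s kp y ^ 2` (KER), so
`EE (kd s (DD N) * SS) = N / 2 * (2 UU s N - 2 s WW s N)`. Right side: TON with `G = (2 t - M) kp` on `[0, M]` and with `kp` on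
`[0, M + C + 1]` minus the same on `[0, M + C]`; `∑ volume (rm S r) < ⊤`. `UU` is monotone (UMO), so
`∫_(M+C)^(M+C+1) UU ≤ UU s (M + C + 1)`. -/
def Sn_EDK : Prop := ∀ S : TriSys, ∃ C : ℝ, 1 ≤ C ∧ ∀ s M : ℝ, 0 < s → 0 ≤ M →
  ∫ N in (0 : ℝ)..M, (N * UU S s N - N * s * WW S s N) ≤
    (∫ t in (0 : ℝ)..M, (2 * t - M) * UU S s t) + C * (M + 1) * UU S s (M + C) + C * M / √s

/-- FIN. The interface of the blocks N and U. Proof. EDK for `s'`: `∫ N s' WW s' N ≥ ∫ (M - t) UU s' t - C (M+1) UU s' (M+C) -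
C M / √s'`, and `1 / √s' ≤ UU s' 0 / c ≤ UU s' (M + C) / c` (ULB, UMO). Multiply by `(s' - s) / s' ≥ 0` and use
`(s' - s) WW s' N ≤ UU s N - UU s' N` (UMO). If `S.R` is empty all integrals `EE` are `0`. All functions of `N`
are monotone or differences of monotone functions times polynomials, so interval integrable; `WW`: from EDK one only needs
`∫ N s' WW ≤ ...` in the form of the integral of `N * UU - N * s * WW`; integrability of `WW` in `N`: it is antitone in the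
clearance, so monotone in `N` as `UU` (same proof, add it to UMO if convenient). -/
def Sn_FIN : Prop := Si_FAN

/-- WMO. `WW` is monotone in `N`. Proof: as UMO. -/
def Sn_WMO : Prop := ∀ (S : TriSys) (s : ℝ), 0 < s → MonotoneOn (WW S s) (Ici 0)

/-- UUB. Proof: UMO, ULB. -/
def Sn_UUB : Prop := Si_UUB

end Pool.Agent.FAN
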