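import Pool.Agent.FAN2.Defs

/-!
# FAN2, block W: flow invariance and window splitting (helper23). Statements with complete proofs.

Write `theorem w_X : Sw_X` in `Pool/Agent/FAN2/W_X.lean`, namespace `Pool.Agent.FAN`. A statement may use
other statements (of StA, StF, StM and of this file) as hypotheses (`theorem w_X (h : Sa_Y) : Sw_X`).
-/

set_option autoImplicit false

open scoped ComplexConjugate
open MeasureTheory Set

namespace Pool.Agent.FAN

open Classical in
/-- A function of phase points, moved by the flow: its value at the phase point reached at time `T`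
(in the coordinates of the room reached); `0` if there is no word of length `T`. -/
noncomputable def shf (S : TriSys) (T : ℝ) (G : S.R → ℂ → ℂ → ℝ) (r : S.R) (x v : ℂ) : ℝ :=
  if h : ∃ js, PW S r x v T js then
    G (endP (Pl.home S r) h.choose).r
      ((x + T * v - (endP (Pl.home S r) h.choose).b) / (endP (Pl.home S r) h.choose).a)
      (v / (endP (Pl.home S r) h.choose).a)
  else 0

/-- clearance of the window `[T, T + t]` -/
noncomputable def DT (S : TriSys) (r : S.R) (x v : ℂ) (T t : ℝ) : ℝ :=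
  shf S T (fun r x v => DD S r x v t) r x v

open Classical in
/-- measure of the phase points with a hit in `[0, T]` and no hit in `[T, T + t]` (hit: vertex at distance
`< w`) -/
noncomputable def hh (S : TriSys) (w T t : ℝ) : ℝ :=
  EE S fun r x ψ => if DD S r x (ev ψ) T < w ∧ w ≤ DT S r x (ev ψ) T t then 1 else 0

/-- SHE. The value of `shf`. Proof: `dif_pos`, and `h.choose = js` by UNI. -/
def Sw_SHE : Prop := ∀ (S : TriSys) (T : ℝ) (G : S.R → ℂ → ℂ → ℝ) (r : S.R) (x v : ℂ)
  (js : List (ZMod 3)) (q : Pl S), PW S r x v T js → q = endP (Pl.home S r) js →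
  shf S T G r x v = G q.r ((x + T * v - q.b) / q.a) (v / q.a)

/-- SHM. Measurability of `shf`. Proof: the sets `Z js = {(x, v) | PW S r x v T js}` are open (OPN), countably many,
pairwise disjoint (UNI); on `Z js` `shf S T G r x v = G q.r ((x + T v - q.b) / q.a) (v / q.a)`, `q = endP (home r) js`
(SHE), a composition of a measurable and a continuous map; outside of all `Z js` it is `0` (as in `g_MEA`). -/
def Sw_SHM : Prop := ∀ (S : TriSys) (T : ℝ) (G : S.R → ℂ → ℂ → ℝ),
  (∀ r, Measurable (fun p : ℂ × ℂ => G r p.1 p.2)) →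
  ∀ r, Measurable (fun p : ℂ × ℂ => shf S T G r p.1 p.2)

/-- EEL. Linearity and monotonicity of `EE` for bounded measurable functions. Proof: TO1 (or directly: each
summand is an iterated integral of a bounded measurable function over a set of finite measure, OPN); for the
last part TO1 writes `EE` as `∑ r, ∫ x in rm S r, ∫ ψ`, and for each `x ∈ rm S r` the inequality holds for all `ψ`
outside a countable set, which has measure 0. -/
def Sw_EEL : Prop := ∀ (S : TriSys) (G H : S.R → ℂ → ℝ → ℝ) (B : ℝ),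
  (∀ r, Measurable (fun p : ℂ × ℝ => G r p.1 p.2)) → (∀ r, Measurable (fun p : ℂ × ℝ => H r p.1 p.2)) →
  (∀ r x ψ, |G r x ψ| ≤ B) → (∀ r x ψ, |H r x ψ| ≤ B) →
  EE S (fun r x ψ => G r x ψ + H r x ψ) = EE S G + EE S H ∧
  (∀ c : ℝ, EE S (fun r x ψ => c * G r x ψ) = c * EE S G) ∧
  ((∀ r x, x ∈ rm S r → {ψ : ℝ | ¬ G r x ψ ≤ H r x ψ}.Countable) → EE S G ≤ EE S H) ∧
  ((∀ r x, x ∈ rm S r → {ψ : ℝ | ¬ G r x ψ = H r x ψ}.Countable) → EE S G = EE S H)

/-- FLO. FLOW INVARIANCE. Proof. (a) `G ≥ 0`: apply SHF (`N = T`) to `H r x v = ENNReal.ofReal (shf S T G r x v)` and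
`G' r x v = if ∃ js, PW S r x v T js then ENNReal.ofReal (G r x (-v)) else 0`. `G'` is measurable (the set of
`(x, v)` with a word is open by OPN). If `PW S r x v T js`, `q = endP (home r) js`, `y = (x + T v - q.b) / q.a`, then
`PW S q.r y (-v / q.a) T (rev ..)` by PWR, so `G' q.r y (-v / q.a) = ofReal (G q.r y (v / q.a)) = H r x v` (SHE). Without
a word both are `0`. So `∑ ∫⁻ ψ ∫⁻ x, H r x (ev ψ) = ∑ ∫⁻ ψ ∫⁻ x, G' r x (ev ψ)`. For fixed `x ∈ rm S r` all but countably
many `ψ` have a word (EXI), so by Tonelli the right side is `∑ ∫⁻ ψ ∫⁻ x, ofReal (G r x (- ev ψ))`;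
`- ev ψ = ev (ψ + π)` and `ψ ↦ ∫⁻ x, ofReal (G r x (ev ψ))` is `2π`-periodic, so translation by `π` does not change the
integral over `Ioc 0 (2π)` (as in `g_SH1`). Bounded measurable nonnegative functions: the real integrals are
the lower integrals (copy `sym_prod`, `sym_lint` from `M_SYM.lean`; SHM).
(b) general `G`: `G = max G 0 - max (-G) 0`, `shf` is additive in `G` (`shf S T (G₁ - G₂) = shf S T G₁ - shf S T G₂`,
`0 = 0 - 0` without a word), EEL. If (a) is only needed for unit vectors, replace `G` by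
`if ‖v‖ = 1 then G else 0`. -/
def Sw_FLO : Prop := ∀ (S : TriSys) (T : ℝ) (G : S.R → ℂ → ℂ → ℝ) (B : ℝ), 0 ≤ T →
  (∀ r, Measurable (fun p : ℂ × ℂ => G r p.1 p.2)) → (∀ r x v, ‖v‖ = 1 → |G r x v| ≤ B) →
  EE S (fun r x ψ => shf S T G r x (ev ψ)) = EE S (fun r x ψ => G r x (ev ψ))

/-- SPL. WINDOW SPLITTING at a phase point with a `T`-word `js`. Let `q = endP (home r) js`,
`y = (x + T v - q.b) / q.a`, `u = v / q.a`.
(1) `W` is a word for `T + N` iff `W = js ++ js'` with a word `js'` of `(q.r, y, u)` for `N`.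
(2) `DD (T + N) = min (DD T) (DD of (q.r, y, u) for N)`. (3) The last clearance is `clr q js' x v`.
Proof. (0) The motion `z ↦ (z - q.b) / q.a` (MOV with `c = q.a⁻¹`, `e = - q.b / q.a`) maps `q` to `home q.r`; moving the
base point along the line changes nothing (`cx v (p - (x + T v)) = cx v (p - x)`): so
`Run (home q.r) y u js' ↔ Run q x v js'`, `clr (home q.r) js' y u = clr q js' x v` and
`(endP (home q.r) js').In (y + N u) ↔ (endP q js').In (x + (T + N) v)`; `(home q.r).In y ↔ q.In (x + T v)`, true.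
(1) `→`: MON (`T ≤ T + N`) gives `js <+: W`, `W = js ++ js'`; EXU (8) splits `Run`, `endP`. `←`: EXU (8).
(2) `clr q₀ (js ++ js') = min (clr q₀ js) (clr (endP q₀ js) js')` by induction on `js` (`clr q js' ≤ h3 q`); UNI. If
there is no word for `T + N` then none for `(q.r, y, u)`, both `DD` are `0`, and `DD T ≥ 0` (CLV). (3) UNI. -/
def Sw_SPL : Prop := ∀ (S : TriSys) (r : S.R) (x v : ℂ) (T N : ℝ) (js : List (ZMod 3)) (q : Pl S),
  ‖v‖ = 1 → 0 ≤ T → 0 ≤ N → PW S r x v T js → q = endP (Pl.home S r) js →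
  (∀ W, PW S r x v (T + N) W ↔
    ∃ js', W = js ++ js' ∧ PW S q.r ((x + T * v - q.b) / q.a) (v / q.a) N js') ∧
  DD S r x v (T + N) = min (DD S r x v T) (DD S q.r ((x + T * v - q.b) / q.a) (v / q.a) N) ∧
  DT S r x v T N = DD S q.r ((x + T * v - q.b) / q.a) (v / q.a) N ∧
  (∀ js', PW S r x v (T + N) (js ++ js') → DT S r x v T N = clr q js' x v)

/-- HHH. The increments of `pp`. Proof. By EXI, for every `x ∈ rm S r`, all `ψ` outside a countable set have
words for `T`, `t`, `n`, `T + t`, `T + n`. (1) SPL (2), (3): `DD (T + t) = min (DD T) (DT T t)`, so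
`1[DD (T + t) < w] = 1[DT T t < w] + 1[DD T < w ∧ w ≤ DT T t]`; FLO with `G r x v = if DD S r x v t < w then 1 else 0`
(at a point with a `T`-word `shf S T G = if DT T t < w then 1 else 0` by SHE); EEL, MEA, SHM. (2) MON for the moved
phase point (it has words for `t` and `n` by SPL (1)): `DT T n ≤ DT T t`, so
`1[A ∧ w ≤ DT T t] = 1[A ∧ w ≤ DT T n] + 1[A ∧ w ≤ DT T t ∧ DT T n < w]`. (3), (4) EEL. -/
def Sw_HHH : Prop := ∀ (S : TriSys) (w T : ℝ), 0 < w → 0 ≤ T →
  (∀ t, 0 ≤ t → pp S w (T + t) = pp S w t + hh S w T t) ∧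
  (∀ t n, 0 ≤ t → t ≤ n → hh S w T t = hh S w T n + EE S fun r x ψ =>
    open Classical in if DD S r x (ev ψ) T < w ∧ w ≤ DT S r x (ev ψ) T t ∧ DT S r x (ev ψ) T n < w then 1 else 0) ∧
  (∀ t, 0 ≤ t → 0 ≤ hh S w T t) ∧ AntitoneOn (hh S w T) (Ici 0)

/-- DBL. Doubling. Proof. `kp s (min a b) ≤ kp s a + kp s b` for `a, b ≥ 0` (`kp ≥ 0`). By SPL and EXI
`DD (N + N) = min (DD N) (DT N N)` for all `x ∈ rm S r` and all but countably many `ψ`, so
`UU S s (2 N) ≤ EE (kp s (DD N)) + EE (kp s (DT N N)) = 2 UU S s N` by FLO with `G r x v = kp s (DD S r x v N)` (SHE). -/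
def Sw_DBL : Prop := Si_DBL

end Pool.Agent.FAN
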